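import Mathlib
import Pool.Agent.Work.MP_8efaaa_nt.T.Defs
import Pool.Agent.Work.MP_8efaaa_nt.T.CDefs
import Pool.Agent.Work.MP_8efaaa_nt.R.Defs
import Pool.Agent.Work.MP_8efaaa_nt.N5.Defs
import Pool.Agent.Work.MP_8efaaa_nt.N7.Defs
import Pool.Agent.Work.MP_8efaaa_nt.K6.Defs

/-!
# Definitions of the block K7 (fixed file)

Congruent numbers `a = 7 (mod 8)`: the functions `Z`, `Z'` of the two places above `2`, and square roots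
`m`, `m'` of `(x ± y s) / 2`.
-/

set_option autoImplicit false

namespace Pool.Agent.Work.MP_8efaaa_nt.K7

open IsDedekindDomain NumberField Pool.Agent.Work.MP_787500_nt.HC
open Pool.Agent.Work.MP_8efaaa_nt.T Pool.Agent.Work.MP_8efaaa_nt.R
open Pool.Agent.Work.MP_8efaaa_nt.N5 Pool.Agent.Work.MP_8efaaa_nt.N7
open scoped nonZeroDivisors

noncomputable section

/-- the function `z` of the place `v` at the ideal `c` -/
def z7 {K : Type*} [Field K] [NumberField K] [Algebra K ℂ] (v : HeightOneSpectrum (𝓞 K))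
    (c : Ideal (𝓞 K)) : ℂ := fz (lat (pr v ^ 5 * (idl c)⁻¹)) 1

/-- `F` contains the values of the functions `W`, `W'`, of `z7` at `v` and at `v'`, a root of unity of
order `8`, a real square root of `d`, and complex conjugate square roots of `(x ± y s) / 2` -/
structure C7 (K F : Type*) [Field K] [NumberField K] [Algebra K ℂ] [Field F] [Algebra K F]
    [Algebra F ℂ] (s : K) (v v' : HeightOneSpectrum (𝓞 K)) (d : ℕ) (x y : ℤ) (ζ w m m' : F)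
    (W W' : ClassGroup (𝓞 K) → F) (Z Z' : Ideal (𝓞 K) → F) : Prop where
  ic : ICtx7 K F v v' d w W W'
  z8 : ζ ^ 4 = -1
  hZ : ∀ c, OddI c → algebraMap F ℂ (Z c) = z7 v c
  hZ' : ∀ c, OddI c → algebraMap F ℂ (Z' c) = z7 v' c
  fin : ∃ T : Finset F, ∀ c, OddI c → Z c ∈ T ∧ Z' c ∈ T
  hm : 2 * m ^ 2 = x + y * algebraMap K F s
  hm' : 2 * m' ^ 2 = x - y * algebraMap K F s
  hmm : (starRingEnd ℂ) (algebraMap F ℂ m) = algebraMap F ℂ m'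

/-- `σ` acts by the ideal `b`, which contains `s - t` -/
structure MA7 {K F : Type*} [Field K] [NumberField K] [Field F] (d : ℕ) (x y : ℤ)
    (ζ w m m' : F) (W W' : ClassGroup (𝓞 K) → F) (Z Z' : Ideal (𝓞 K) → F) (σ : F → F)
    (b : Ideal (𝓞 K)) (t : ℤ) : Prop where
  ma : MAct7 d w W W' σ b
  z8 : σ ζ = ζ ^ Ideal.absNorm b
  hZ : ∀ c, OddI c → σ (Z c) = Z (b * c)
  hZ' : ∀ c, OddI c → σ (Z' c) = Z' (b * c)
  hm : σ m = (jacobiSym (2 * (x + y * t)) (Ideal.absNorm b) : ℤ) * m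
  hm' : σ m' = (jacobiSym (2 * (x - y * t)) (Ideal.absNorm b) : ℤ) * m'

/-- `(m) ∏ L = (δ) b` with `m = x (mod 8)`, `δ = x + 32 y`, and the primes of the list are prime to
`N` -/
def Mov7 {K : Type*} [Field K] [NumberField K] (N : ℕ) (b : Ideal (𝓞 K)) : Prop :=
  ∃ (L : List (Ideal (𝓞 K))) (m x : ℤ) (δ y : 𝓞 K), Odd m ∧ Odd x ∧ m % 8 = x % 8 ∧
    δ = x + 32 * y ∧
    (∀ q ∈ L, q.IsPrime ∧ (Ideal.absNorm q).Prime ∧ ¬ Ideal.absNorm q ∣ N) ∧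
    Ideal.span {(m : 𝓞 K)} * L.prod = Ideal.span {δ} * b ∧
    Ideal.absNorm L.prod % 8 = Ideal.absNorm b % 8

/-- The Galois data over `ℚ`. -/
structure D7 (K F : Type*) [Field K] [NumberField K] [Field F] [NumberField F] [Algebra K F]
    (a d : ℕ) (x y : ℤ) (s : K) (S : 𝓞 K) (τ : 𝓞 K ≃+* 𝓞 K) (v v' : HeightOneSpectrum (𝓞 K))
    (ζ w m m' : F) (W W' : ClassGroup (𝓞 K) → F) (Z Z' : Ideal (𝓞 K) → F)
    (κ : F ≃ₐ[ℚ] F) : Prop where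
  id : IDat7 K F a d s v w W W' κ
  ne : v ≠ v'
  hv : (2 : 𝓞 K) ∈ v.asIdeal
  hv' : (2 : 𝓞 K) ∈ v'.asIdeal
  z8 : ζ ^ 4 = -1
  hm : 2 * m ^ 2 = x + y * algebraMap K F s
  z1 : ∀ c, OddI c → Z c ^ 2 = 1 + W (cl (pr v ^ 4 * (idl c)⁻¹)) ^ 2
  z1' : ∀ c, OddI c → Z' c ^ 2 = 1 + W' (cl (((pr v)⁻¹) ^ 4 * (idl c)⁻¹)) ^ 2
  zp : ∀ (δ : 𝓞 K) (n : ℤ), Odd n → δ - (n : 𝓞 K) ∈ v.asIdeal ^ 5 → OddI (Ideal.span {δ}) →
    ∀ c, OddI c → Z (Ideal.span {δ} * c) = (e8 n : ℤ) * Z c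
  zp' : ∀ (δ : 𝓞 K) (n : ℤ), Odd n → δ - (n : 𝓞 K) ∈ v'.asIdeal ^ 5 → OddI (Ideal.span {δ}) →
    ∀ c, OddI c → Z' (Ideal.span {δ} * c) = (e8 n : ℤ) * Z' c
  /-- all automorphisms over `K` act by primitive ideals prime to a given number -/
  act : ∀ (σ : F ≃ₐ[K] F) (M : ℕ), M ≠ 0 → ∃ (b : Ideal (𝓞 K)) (t : ℤ),
    Nat.Coprime (Ideal.absNorm b) M ∧ S - (t : 𝓞 K) ∈ b ∧
    MA7 d x y ζ w m m' W W' Z Z' σ b t
  /-- all odd ideals act -/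
  mov : ∀ g : Ideal (𝓞 K), OddI g → ∃ σ : F ≃ₐ[K] F, σ ζ = ζ ^ Ideal.absNorm g ∧
    ∀ c, OddI c → σ (Z c) = Z (g * c) ∧ σ (Z' c) = Z' (g * c)
  /-- complex conjugation -/
  cz : κ ζ = ζ ^ 7
  cZ : ∀ c, OddI c → κ (Z c) = Z' (cj τ c) ∧ κ (Z' c) = Z (cj τ c)
  cm : κ m = m' ∧ κ m' = m
  /-- `ζ + ζ ^ 7` is the positive square root of `2` -/
  pos : ∀ c, OddI c → (Z c * Z' (cj τ c)) ^ 2 = 2 → Z c * Z' (cj τ c) = ζ + ζ ^ 7
  mpos : ∀ n : ℕ, (m * m') ^ 2 = 2 * (n : F) ^ 2 → m * m' = n * (ζ + ζ ^ 7)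
  /-- the congruence of Kronecker, also at the ramified primes -/
  kron : ∀ (l : ℕ) (L : Ideal (𝓞 F)) (Γ : Type) [LinearOrderedCommGroupWithZero Γ]
    (V : Valuation F Γ), K6.VL V L → l.Prime → l ≠ 2 →
    Ideal.absNorm (L.comap (algebraMap (𝓞 K) (𝓞 F))) = l → ∀ C,
    V (W (cl (idl (L.comap (algebraMap (𝓞 K) (𝓞 F))))⁻¹ * C) - W C ^ l) < 1 ∧
    V (W' (cl (idl (L.comap (algebraMap (𝓞 K) (𝓞 F))))⁻¹ * C) - W' C ^ l) < 1

end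

end Pool.Agent.Work.MP_8efaaa_nt.K7
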