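import Mathlib
import Pool.Agent.Work.MP_8efaaa_nt.K7.Defs
import Pool.Agent.Work.MP_8efaaa_nt.T.Quad
import Pool.Agent.Work.MP_8efaaa_nt.T.Val
import Pool.Agent.Work.MP_8efaaa_nt.N7.ICj

/-!
# K7/ARs (M): residues at the places above `2`; the integers of `K`

`K` is generated by `s`, `s ^ 2 = -a`, `a % 8 = 7`; `2` splits: `2 = v v'`, so `𝓞 / v ^ k` is `ℤ / 2 ^ k`.
`exists_res7`: induction on `k` with `Qd.dyadic` / `T.Quad` (`x ∈ v` or `x - 1 ∈ v`, `2 ∈ v`, `2 ∉ v ^ 2`): if `x - n ∈ v ^ k` then `x - n` or `x - n - 2 ^ k` is in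
`v ^ (k + 1)`. Both places have the same proof. `norm_half7'`: see the private `norm_half7` of N7/ESub.
-/

set_option autoImplicit false

namespace Pool.Agent.Work.MP_8efaaa_nt.K7

open IsDedekindDomain NumberField Pool.Agent.Work.MP_787500_nt.HC
open Pool.Agent.Work.MP_8efaaa_nt.T Pool.Agent.Work.MP_8efaaa_nt.R
open Pool.Agent.Work.MP_8efaaa_nt.N5 Pool.Agent.Work.MP_8efaaa_nt.N7
open scoped nonZeroDivisors

variable {K : Type*} [Field K] [NumberField K] {a : ℕ} {s : K} {v v' : HeightOneSpectrum (𝓞 K)}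

private theorem norm_half7 (hb : Base K a s) {δ : 𝓞 K} {m n : ℤ}
    (hδ : 2 * algebraMap (𝓞 K) K δ = m + n * s) :
    4 * (Ideal.absNorm (Ideal.span {δ}) : ℤ) = m ^ 2 + a * n ^ 2 := by
  have ha0 : 0 < a := by
    have := hb.mod
    omega
  obtain ⟨σ, hσ⟩ := Pool.Agent.Work.MP_787500_nt.Quad.exists_conj hb.dim hb.sq ha0
  let τ : K ≃ₐ[ℚ] K := AlgEquiv.ofRingEquiv (f := σ) (fun r => by simp)
  have hτ : ∀ z, τ z = σ z := fun z => rfl
  have h1 : Algebra.norm ℚ (τ (algebraMap (𝓞 K) K δ)) = Algebra.norm ℚ (algebraMap (𝓞 K) K δ) :=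
    Algebra.norm_eq_of_algEquiv τ _
  have h2 : (2 * algebraMap (𝓞 K) K δ) * (2 * τ (algebraMap (𝓞 K) K δ)) =
      algebraMap ℚ K ((m ^ 2 + a * n ^ 2 : ℤ) : ℚ) := by
    have h3 : 2 * τ (algebraMap (𝓞 K) K δ) = τ (2 * algebraMap (𝓞 K) K δ) := by
      rw [map_mul, map_ofNat]
    rw [h3, hτ, hδ, map_add, map_mul, hσ, map_intCast, map_intCast, map_intCast]
    push_cast
    linear_combination -(n : K) ^ 2 * hb.sq
  have h2' : algebraMap (𝓞 K) K δ * τ (algebraMap (𝓞 K) K δ) =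
      algebraMap ℚ K (((m ^ 2 + a * n ^ 2 : ℤ) : ℚ) / 4) := by
    rw [map_div₀, ← h2, map_ofNat]
    field_simp
    ring
  have h3 := congrArg (Algebra.norm ℚ) h2'
  rw [map_mul, h1, Algebra.norm_algebraMap, hb.dim] at h3
  have h4 : (Algebra.norm ℚ (algebraMap (𝓞 K) K δ)) = ((Algebra.norm ℤ δ : ℤ) : ℚ) :=
    (Algebra.coe_norm_int δ).symm
  rw [h4] at h3
  have h5 : (4 * Algebra.norm ℤ δ) ^ 2 = (m ^ 2 + a * n ^ 2) ^ 2 := by
    have : (4 * ((Algebra.norm ℤ δ : ℤ) : ℚ)) ^ 2 = ((m ^ 2 + a * n ^ 2 : ℤ) : ℚ) ^ 2 := by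
      have h6 : (4 * ((Algebra.norm ℤ δ : ℤ) : ℚ)) ^ 2 =
          16 * (((Algebra.norm ℤ δ : ℤ) : ℚ) * ((Algebra.norm ℤ δ : ℤ) : ℚ)) := by ring
      rw [h6, h3]
      ring
    exact_mod_cast this
  rw [Ideal.absNorm_span_singleton, Int.natCast_natAbs]
  have h6 : (0 : ℤ) ≤ m ^ 2 + a * n ^ 2 := by positivity
  have h7 : |4 * Algebra.norm ℤ δ| = |m ^ 2 + a * n ^ 2| := by
    rw [← sq_eq_sq_iff_abs_eq_abs, h5]
  rw [abs_mul, abs_of_nonneg h6] at h7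
  simpa using h7

private theorem two_pow_notMem (hb : Base K a s) (hv : (2 : 𝓞 K) ∈ v.asIdeal) (k : ℕ) :
    (2 : 𝓞 K) ^ k ∉ v.asIdeal ^ (k + 1) := by
  obtain ⟨-, h2⟩ := Qd.dyadic hb.dim hb.sq hb.sf hb.mod hv
  intro h
  have h3 := (v.intValuation_le_pow_iff_mem ((2 : 𝓞 K) ^ k) (k + 1)).2 h
  have h4 : v.valuation K (algebraMap (𝓞 K) K 2) = WithZero.exp (-1 : ℤ) := by
    rw [map_ofNat]
    exact h2
  rw [HeightOneSpectrum.valuation_of_algebraMap] at h4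
  rw [map_pow, h4, ← WithZero.exp_nsmul, WithZero.exp_le_exp] at h3
  simp only [nsmul_eq_mul] at h3
  push_cast at h3
  linarith

theorem exists_res7 (hb : Base K a s) (hv : (2 : 𝓞 K) ∈ v.asIdeal) (x : 𝓞 K) (k : ℕ) :
    ∃ n : ℤ, x - (n : 𝓞 K) ∈ v.asIdeal ^ k := by
  induction k with
  | zero => exact ⟨0, by rw [pow_zero, Ideal.one_eq_top]; exact Submodule.mem_top⟩
  | succ k ih =>
    obtain ⟨n, hn⟩ := ih
    obtain ⟨h1, -⟩ := Qd.dyadic hb.dim hb.sq hb.sf hb.mod hv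
    haveI := v.isPrime
    obtain ⟨d, e, he, hde⟩ := Ideal.exists_mul_add_mem_pow_succ v.ne_bot ((2 : 𝓞 K) ^ k)
      (x - (n : 𝓞 K)) (Ideal.pow_mem_pow hv k) (two_pow_notMem hb hv k) hn
    have h2k : (2 : 𝓞 K) ^ k ∈ v.asIdeal ^ k := Ideal.pow_mem_pow hv k
    rcases h1 d with hd | hd
    · refine ⟨n, ?_⟩
      rw [← hde]
      refine Ideal.add_mem _ ?_ he
      rw [pow_succ]
      exact Ideal.mul_mem_mul h2k hd
    · refine ⟨n + 2 ^ k, ?_⟩
      have h3 : x - ((n + 2 ^ k : ℤ) : 𝓞 K) = 2 ^ k * (d - 1) + e := by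
        push_cast
        linear_combination -hde
      rw [h3]
      refine Ideal.add_mem _ ?_ he
      rw [pow_succ]
      exact Ideal.mul_mem_mul h2k hd

theorem int_mem_pow7 (hb : Base K a s) (hv : (2 : 𝓞 K) ∈ v.asIdeal) (n : ℤ) (k : ℕ) :
    (n : 𝓞 K) ∈ v.asIdeal ^ k ↔ (2 : ℤ) ^ k ∣ n := by
  constructor
  · intro h
    induction k with
    | zero => rw [pow_zero]; exact one_dvd _
    | succ k ih =>
      obtain ⟨m, hm⟩ := ih (Ideal.pow_le_pow_right (Nat.le_succ k) h)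
      rcases Int.even_or_odd' m with ⟨j, hj | hj⟩
      · exact ⟨j, by rw [hm, hj]; ring⟩
      · exfalso
        haveI := v.isPrime
        have h1 : (m : 𝓞 K) * 2 ^ k ∈ v.asIdeal ^ (k + 1) := by
          have h2 : (m : 𝓞 K) * 2 ^ k = (n : 𝓞 K) := by
            rw [hm]
            push_cast
            ring
          rw [h2]
          exact h
        rcases Ideal.IsPrime.mul_mem_pow v.asIdeal h1 with h2 | h2
        · apply v.isPrime.ne_top
          rw [Ideal.eq_top_iff_one]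
          have h3 : (1 : 𝓞 K) = (m : 𝓞 K) - 2 * j := by
            rw [hj]
            push_cast
            ring
          rw [h3]
          exact Ideal.sub_mem _ h2 (Ideal.mul_mem_right _ _ hv)
        · exact two_pow_notMem hb hv k h2
  · rintro ⟨m, rfl⟩
    push_cast
    exact Ideal.mul_mem_right _ _ (Ideal.pow_mem_pow hv k)

theorem norm_v7 (hb : Base K a s) (hv : (2 : 𝓞 K) ∈ v.asIdeal) :
    Ideal.absNorm v.asIdeal = 2 := by
  obtain ⟨h1, -⟩ := Qd.dyadic hb.dim hb.sq hb.sf hb.mod hv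
  rw [Ideal.absNorm_apply, Submodule.cardQuot_apply, Nat.card_eq_two_iff]
  refine ⟨Submodule.Quotient.mk 0, Submodule.Quotient.mk 1, ?_, ?_⟩
  · intro h0
    rw [Submodule.Quotient.eq] at h0
    apply v.isPrime.ne_top
    rw [Ideal.eq_top_iff_one]
    have h2 := v.asIdeal.neg_mem h0
    rwa [zero_sub, neg_neg] at h2
  · ext q
    simp only [Set.mem_insert_iff, Set.mem_singleton_iff, Set.mem_univ, iff_true]
    obtain ⟨x, rfl⟩ := Submodule.Quotient.mk_surjective _ q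
    rcases h1 x with h2 | h2
    · left
      rw [Submodule.Quotient.eq, sub_zero]
      exact h2
    · right
      rw [Submodule.Quotient.eq]
      exact h2

private theorem notMem7' (hv : (2 : 𝓞 K) ∈ v.asIdeal) {c : Ideal (𝓞 K)} (hc : OddI c) :
    ¬ c ≤ v.asIdeal := by
  intro h
  obtain ⟨m, hm⟩ : Odd (Ideal.absNorm c) := hc
  have h1 : ((Ideal.absNorm c : ℕ) : 𝓞 K) ∈ v.asIdeal := h (Ideal.absNorm_mem c)
  apply v.isPrime.ne_top
  rw [Ideal.eq_top_iff_one]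
  have h3 : (1 : 𝓞 K) = ((Ideal.absNorm c : ℕ) : 𝓞 K) - 2 * (m : 𝓞 K) := by
    rw [hm]
    push_cast
    ring
  rw [h3]
  exact Ideal.sub_mem _ h1 (Ideal.mul_mem_right _ _ hv)

theorem oddI_iff7 (hb : Base K a s) (hv : (2 : 𝓞 K) ∈ v.asIdeal) (hv' : (2 : 𝓞 K) ∈ v'.asIdeal)
    (hne : v ≠ v') {c : Ideal (𝓞 K)} : OddI c ↔ ¬ c ≤ v.asIdeal ∧ ¬ c ≤ v'.asIdeal := by
  refine ⟨fun h => ⟨notMem7' hv h, notMem7' hv' h⟩, fun ⟨h1, h2⟩ => ?_⟩
  obtain ⟨τ, -, -, -, h3, -, h4⟩ := exists_tau hb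
  have h5 : v.asIdeal * v'.asIdeal = Ideal.span {(2 : 𝓞 K)} := by
    have h6 := h3 v.asIdeal
    rw [h4 v v' hne hv hv', norm_v7 hb hv] at h6
    rw [h6]
    push_cast
    rfl
  have hc0 : c ≠ ⊥ := by
    rintro rfl
    exact h1 bot_le
  have key : ∀ w : HeightOneSpectrum (𝓞 K), ¬ c ≤ w.asIdeal → IsCoprime c w.asIdeal := by
    intro w hw
    rw [Ideal.isCoprime_iff_sup_eq]
    by_contra h
    have h7 : w.asIdeal = c ⊔ w.asIdeal := w.isMaximal.eq_of_le h le_sup_right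
    exact hw (h7 ▸ le_sup_left)
  have h6 : IsCoprime c (Ideal.span {(2 : 𝓞 K)}) := by
    rw [← h5]
    exact (key v h1).mul_right (key v' h2)
  have h7 : (1 : 𝓞 K) ∈ c ⊔ Ideal.span {(2 : 𝓞 K)} := by
    rw [Ideal.isCoprime_iff_sup_eq.1 h6]
    exact Submodule.mem_top
  obtain ⟨x, hx, z, hz, hxz⟩ := Submodule.mem_sup.1 h7
  obtain ⟨y, rfl⟩ := Ideal.mem_span_singleton'.1 hz
  unfold OddI
  by_contra h8
  rw [Nat.not_odd_iff_even, even_iff_two_dvd, Ideal.absNorm_apply, Submodule.cardQuot_apply] at h8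
  haveI : Finite (𝓞 K ⧸ c) := Ideal.finiteQuotientOfFreeOfNeBot c hc0
  haveI : Fact (Nat.Prime 2) := ⟨Nat.prime_two⟩
  obtain ⟨g, hg⟩ := exists_prime_addOrderOf_dvd_card' (G := 𝓞 K ⧸ c) 2 h8
  obtain ⟨u, rfl⟩ := Ideal.Quotient.mk_surjective g
  have h9 : (2 : ℕ) • (Ideal.Quotient.mk c u) = 0 := by
    rw [← hg]
    exact addOrderOf_nsmul_eq_zero _
  have h10 : 2 * u ∈ c := by
    rw [← Ideal.Quotient.eq_zero_iff_mem, map_mul, map_ofNat]
    rw [nsmul_eq_mul] at h9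
    exact_mod_cast h9
  have h11 : u ∈ c := by
    have h12 : u = u * x + y * (2 * u) := by
      linear_combination -u * hxz
    rw [h12]
    exact Ideal.add_mem _ (Ideal.mul_mem_left _ _ hx) (Ideal.mul_mem_left _ _ h10)
  rw [Ideal.Quotient.eq_zero_iff_mem.2 h11, addOrderOf_zero] at hg
  exact absurd hg (by decide)

theorem notMem7 (hv : (2 : 𝓞 K) ∈ v.asIdeal) {c : Ideal (𝓞 K)} (hc : OddI c) :
    ¬ c ≤ v.asIdeal := notMem7' hv hc

theorem oddI_mul7 {b c : Ideal (𝓞 K)} : OddI (b * c) ↔ OddI b ∧ OddI c := by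
  unfold OddI
  rw [map_mul, Nat.odd_mul]

theorem oddI_ne7 {c : Ideal (𝓞 K)} (hc : OddI c) : c ≠ ⊥ := by
  rintro rfl
  unfold OddI at hc
  rw [Ideal.absNorm_bot] at hc
  exact absurd hc (by decide)

/-- the root of `-a` in the integers -/
theorem exists_S7 (hb : Base K a s) : ∃ S : 𝓞 K, algebraMap (𝓞 K) K S = s := by
  obtain ⟨S, h1, -⟩ := Pool.Agent.Work.MP_787500_nt.Quad.exists_int_s hb.sq
  exact ⟨S, h1⟩

theorem coords7 (hb : Base K a s) {S : 𝓞 K} (hS : algebraMap (𝓞 K) K S = s) (x : 𝓞 K) :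
    ∃ p q : ℤ, 2 * x = p + q * S ∧ (2 : ℤ) ∣ p - q := by
  obtain ⟨p, q, h1, h2⟩ := Qd.exists_int_coords hb.dim hb.sq hb.sf (by have := hb.mod; omega)
    x.isIntegral_coe
  refine ⟨p, q, ?_, h2⟩
  apply RingOfIntegers.ext
  show algebraMap (𝓞 K) K (2 * x) = algebraMap (𝓞 K) K ((p : 𝓞 K) + (q : 𝓞 K) * S)
  rw [map_mul, map_ofNat, map_add, map_mul, map_intCast, map_intCast, hS]
  exact h1

theorem coords7_uniq (hb : Base K a s) {S : 𝓞 K} (hS : algebraMap (𝓞 K) K S = s) {p q : ℤ}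
    (h : (p : 𝓞 K) + q * S = 0) : p = 0 ∧ q = 0 := by
  have h1 : (((p : ℚ) : K)) + ((q : ℚ) : K) * s = 0 := by
    have h2 := congrArg (algebraMap (𝓞 K) K) h
    rw [map_add, map_mul, map_intCast, map_intCast, hS, map_zero] at h2
    push_cast
    exact h2
  have h3 := Pool.Agent.Work.MP_787500_nt.Quad.not_rat hb.sq (Nat.pos_of_ne_zero hb.sf.ne_zero) _ _ h1
  exact ⟨by exact_mod_cast h3.1, by exact_mod_cast h3.2⟩

theorem norm_half7' (hb : Base K a s) {S : 𝓞 K} (hS : algebraMap (𝓞 K) K S = s) {δ : 𝓞 K}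
    {p q : ℤ} (h : 2 * δ = p + q * S) :
    4 * (Ideal.absNorm (Ideal.span {δ}) : ℤ) = p ^ 2 + a * q ^ 2 := by
  refine norm_half7 hb ?_
  have h2 := congrArg (algebraMap (𝓞 K) K) h
  rw [map_mul, map_ofNat, map_add, map_mul, map_intCast, map_intCast, hS] at h2
  exact h2

end Pool.Agent.Work.MP_8efaaa_nt.K7
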