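import Mathlib
import Pool.Agent.Work.MP_8efaaa_nt.K7.Defs
import Pool.Agent.Work.MP_8efaaa_nt.N7.ICj
import Pool.Agent.Work.MP_8efaaa_nt.N7.IBas
import Pool.Agent.Work.MP_8efaaa_nt.T.Quad

/-!
# K7/ATu (S-M): the conjugate ideals

`N7.exists_tau` gives a `τ` with these properties; for it `τ S = -S` (`τ S ^ 2 = -a`, so `τ S = ± S`, and `S τ S` is an integer... or `τ S = S` would make `τ` the identity on
`2 x = p + q S`, so `v.map τ = v`), and an automorphism with `τ S = -S` is unique (`2 x = p + q S`), so the properties hold for the given one.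
-/

set_option autoImplicit false

namespace Pool.Agent.Work.MP_8efaaa_nt.K7

open IsDedekindDomain NumberField Pool.Agent.Work.MP_787500_nt.HC
open Pool.Agent.Work.MP_8efaaa_nt.T Pool.Agent.Work.MP_8efaaa_nt.R
open Pool.Agent.Work.MP_8efaaa_nt.N5 Pool.Agent.Work.MP_8efaaa_nt.N7
open scoped nonZeroDivisors

variable {K : Type*} [Field K] [NumberField K] {a : ℕ} {s : K} {S : 𝓞 K} {τ : 𝓞 K ≃+* 𝓞 K}

private theorem tau_S (hb : Base K a s) (hS : algebraMap (𝓞 K) K S = s)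
    (hn : ∀ x : 𝓞 K, ∃ n : ℤ, x * τ x = n) : τ S = -S := by
  have ha : 0 < a := Nat.pos_of_ne_zero hb.sf.ne_zero
  have hS2 : S ^ 2 = -(a : 𝓞 K) := by
    apply RingOfIntegers.ext
    show algebraMap (𝓞 K) K _ = algebraMap (𝓞 K) K _
    rw [map_pow, hS, hb.sq, map_neg, map_natCast]
  have h1 : (τ S) ^ 2 = S ^ 2 := by
    rw [← map_pow, hS2, map_neg, map_natCast]
  rcases sq_eq_sq_iff_eq_or_eq_neg.1 h1 with h | h
  · exfalso
    obtain ⟨n, hn1⟩ := hn (1 + S)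
    rw [map_add, map_one, h] at hn1
    have h2 : 2 * S = ((n - 1 + a : ℤ) : 𝓞 K) := by
      push_cast
      linear_combination hn1 - hS2
    have h3 : ((4 * (a : ℤ) + (n - 1 + a) ^ 2 : ℤ) : 𝓞 K) = 0 := by
      have h4 : ((n - 1 + a : ℤ) : 𝓞 K) ^ 2 = 4 * S ^ 2 := by rw [← h2]; ring
      push_cast at h4 ⊢
      rw [h4, hS2]
      ring
    have h5 : (4 * (a : ℤ) + (n - 1 + a) ^ 2 : ℤ) = 0 := by exact_mod_cast h3
    have h6 : (0 : ℤ) < a := by exact_mod_cast ha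
    nlinarith [sq_nonneg (n - 1 + (a : ℤ))]
  · exact h

private theorem tau_uniq (hb : Base K a s) (hS : algebraMap (𝓞 K) K S = s)
    {τ' : 𝓞 K ≃+* 𝓞 K} (h : τ S = -S) (h' : τ' S = -S) : τ = τ' := by
  obtain ⟨W, k, hW, hk, hco⟩ := Qd.exists_W hb.dim hb.sq hb.sf hb.mod
  have hW2 : 2 * W = 1 + S := by
    apply RingOfIntegers.ext
    show algebraMap (𝓞 K) K _ = algebraMap (𝓞 K) K _
    rw [map_mul, map_ofNat, map_add, map_one, hS, hW]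
  have h2 : (2 : 𝓞 K) ≠ 0 := two_ne_zero
  have hWW : τ W = τ' W := by
    apply mul_left_cancel₀ h2
    have e1 := congrArg τ hW2
    have e2 := congrArg τ' hW2
    rw [map_mul, map_ofNat, map_add, map_one, h] at e1
    rw [map_mul, map_ofNat, map_add, map_one, h'] at e2
    rw [e1, e2]
  apply RingEquiv.ext
  intro x
  obtain ⟨α, β, rfl⟩ := hco x
  rw [map_add, map_add, map_mul, map_mul, map_intCast, map_intCast, map_intCast, map_intCast, hWW]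

private theorem props (hb : Base K a s) (hS : algebraMap (𝓞 K) K S = s) (hτ : τ S = -S) :
    (∀ x, τ (τ x) = x) ∧
    (∀ x : 𝓞 K, ∃ n : ℤ, x * τ x = n) ∧
    (∀ [Algebra K ℂ], ∀ x : 𝓞 K, (starRingEnd ℂ) (algebraMap K ℂ (algebraMap (𝓞 K) K x)) =
      algebraMap K ℂ (algebraMap (𝓞 K) K (τ x))) ∧
    (∀ c : Ideal (𝓞 K), c * c.map (τ : 𝓞 K →+* 𝓞 K) =
      Ideal.span {((Ideal.absNorm c : ℕ) : 𝓞 K)}) ∧
    (∀ c : Ideal (𝓞 K), c ≠ ⊥ → cl (idl (c.map (τ : 𝓞 K →+* 𝓞 K))) = (cl (idl c))⁻¹) ∧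
    ∀ v v' : HeightOneSpectrum (𝓞 K), v ≠ v' → (2 : 𝓞 K) ∈ v.asIdeal → (2 : 𝓞 K) ∈ v'.asIdeal →
      v.asIdeal.map (τ : 𝓞 K →+* 𝓞 K) = v'.asIdeal := by
  obtain ⟨τ', h1, h2, h3, h4, h5, h6⟩ := exists_tau hb
  have h := tau_uniq hb hS hτ (tau_S hb hS h2)
  subst h
  exact ⟨h1, h2, h3, h4, h5, h6⟩

theorem exists_tau7 (hb : Base K a s) (hS : algebraMap (𝓞 K) K S = s) :
    ∃ τ : 𝓞 K ≃+* 𝓞 K, τ S = -S := by
  obtain ⟨τ', -, h2, -⟩ := exists_tau hb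
  exact ⟨τ', tau_S hb hS h2⟩

theorem tau_tau7 (hb : Base K a s) (hS : algebraMap (𝓞 K) K S = s) (hτ : τ S = -S) (x : 𝓞 K) :
    τ (τ x) = x :=
  (props hb hS hτ).1 x

theorem conj_tau7 [Algebra K ℂ] (hb : Base K a s) (hS : algebraMap (𝓞 K) K S = s)
    (hτ : τ S = -S) (x : 𝓞 K) : (starRingEnd ℂ) (algebraMap K ℂ (algebraMap (𝓞 K) K x)) =
      algebraMap K ℂ (algebraMap (𝓞 K) K (τ x)) :=
  (props hb hS hτ).2.2.1 x

theorem norm_cj7 (hb : Base K a s) (hS : algebraMap (𝓞 K) K S = s) (hτ : τ S = -S)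
    (c : Ideal (𝓞 K)) : Ideal.absNorm (cj τ c) = Ideal.absNorm c ∧
      c * cj τ c = Ideal.span {((Ideal.absNorm c : ℕ) : 𝓞 K)} ∧ cj τ (cj τ c) = c := by
  refine ⟨?_, (props hb hS hτ).2.2.2.1 c, ?_⟩
  · rw [Ideal.absNorm_apply, Submodule.cardQuot_apply, Ideal.absNorm_apply,
      Submodule.cardQuot_apply]
    exact (Nat.card_congr (Ideal.quotientEquiv c _ τ rfl).toEquiv).symm
  · unfold cj
    rw [Ideal.map_map]
    have h1 : (τ : 𝓞 K →+* 𝓞 K).comp (τ : 𝓞 K →+* 𝓞 K) = RingHom.id (𝓞 K) := by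
      apply RingHom.ext
      intro x
      exact tau_tau7 hb hS hτ x
    rw [h1, Ideal.map_id]

theorem cj_mul7 (b c : Ideal (𝓞 K)) : cj τ (b * c) = cj τ b * cj τ c :=
  Ideal.map_mul _ b c

theorem oddI_cj7 (hb : Base K a s) (hS : algebraMap (𝓞 K) K S = s) (hτ : τ S = -S)
    {c : Ideal (𝓞 K)} : OddI (cj τ c) ↔ OddI c := by
  unfold OddI
  rw [(norm_cj7 hb hS hτ c).1]

theorem cl_cj7 (hb : Base K a s) (hS : algebraMap (𝓞 K) K S = s) (hτ : τ S = -S)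
    {c : Ideal (𝓞 K)} (hc : c ≠ ⊥) : cl (idl (cj τ c)) = (cl (idl c))⁻¹ :=
  (props hb hS hτ).2.2.2.2.1 c hc

theorem cj_v7 (hb : Base K a s) (hS : algebraMap (𝓞 K) K S = s) (hτ : τ S = -S)
    {v v' : HeightOneSpectrum (𝓞 K)} (hne : v ≠ v') (hv : (2 : 𝓞 K) ∈ v.asIdeal)
    (hv' : (2 : 𝓞 K) ∈ v'.asIdeal) : cj τ v.asIdeal = v'.asIdeal :=
  (props hb hS hτ).2.2.2.2.2 v v' hne hv hv'

end Pool.Agent.Work.MP_8efaaa_nt.K7
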