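import Mathlib
import Pool.Agent.Work.MP_8efaaa_nt.K7.Defs
import Pool.Agent.Work.MP_8efaaa_nt.K7.ARs
import Pool.Agent.Work.MP_8efaaa_nt.K6.ARm

/-!
# K7/GRm (S-M): ramified ideals

Model `K6/ARm.lean`; `r6 S d = (d, S)` for `d ∣ a` (`d` is odd). An integer `x` with `2 x = p + q S` is in it iff `d ∣ p`. 
-/

set_option autoImplicit false

namespace Pool.Agent.Work.MP_8efaaa_nt.K7

open IsDedekindDomain NumberField Pool.Agent.Work.MP_787500_nt.HC
open Pool.Agent.Work.MP_8efaaa_nt.T Pool.Agent.Work.MP_8efaaa_nt.R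
open Pool.Agent.Work.MP_8efaaa_nt.N5 Pool.Agent.Work.MP_8efaaa_nt.N7
open scoped nonZeroDivisors

variable {K : Type*} [Field K] [NumberField K] {a : ℕ} {s : K} {S : 𝓞 K}

private theorem sq_r7 (hb : Base K a s) (hS : algebraMap (𝓞 K) K S = s) : S * S = -(a : 𝓞 K) := by
  apply RingOfIntegers.ext
  show algebraMap (𝓞 K) K _ = algebraMap (𝓞 K) K _
  rw [map_mul, hS, map_neg, map_natCast, ← hb.sq]
  ring

private theorem bez_r7 {d e : ℕ} (hco : Nat.Coprime d e) :
    (d : 𝓞 K) * Nat.gcdA d e + e * Nat.gcdB d e = 1 := by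
  have hbez : (d : ℤ) * Nat.gcdA d e + e * Nat.gcdB d e = 1 := by
    have h1 := Nat.gcd_eq_gcd_ab d e
    rw [hco] at h1
    push_cast at h1
    linarith
  exact_mod_cast congrArg (Int.cast (R := 𝓞 K)) hbez

theorem mem_r7 (hb : Base K a s) (hS : algebraMap (𝓞 K) K S = s) {d : ℕ} (hd : d ∣ a) {x : 𝓞 K}
    {p q : ℤ} (h : 2 * x = p + q * S) : x ∈ K6.r6 S d ↔ (d : ℤ) ∣ p := by
  have hsq := sq_r7 hb hS
  constructor
  · intro hx
    unfold K6.r6 at hx
    rw [Ideal.mem_span_pair] at hx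
    obtain ⟨u, v, huv⟩ := hx
    obtain ⟨u1, u2, hu, -⟩ := coords7 hb hS u
    obtain ⟨v1, v2, hv, -⟩ := coords7 hb hS v
    have e1 : ((p - (u1 * d - v2 * a) : ℤ) : 𝓞 K) + ((q - (u2 * d + v1) : ℤ) : 𝓞 K) * S = 0 := by
      push_cast
      linear_combination -h - 2 * huv + (d : 𝓞 K) * hu + S * hv + (v2 : 𝓞 K) * hsq
    have e2 := (coords7_uniq hb hS e1).1
    have e4 : p = u1 * d - v2 * a := by linarith
    rw [e4]
    have e3 : (d : ℤ) ∣ (a : ℤ) := Int.natCast_dvd_natCast.2 hd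
    exact dvd_sub (dvd_mul_left _ _) (e3.mul_left _)
  · rintro ⟨k, rfl⟩
    have hdo : Odd d := by
      have h1 : Odd a := by
        rw [Nat.odd_iff]
        have := hb.mod
        omega
      obtain ⟨e, he⟩ := hd
      rw [he] at h1
      exact Nat.Odd.of_mul_left h1
    obtain ⟨c, hc⟩ := hdo
    have hcK : (d : 𝓞 K) = 2 * c + 1 := by exact_mod_cast congrArg (Nat.cast (R := 𝓞 K)) hc
    unfold K6.r6
    rw [Ideal.mem_span_pair]
    refine ⟨x - c * k, -(c * q), ?_⟩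
    push_cast at h
    linear_combination x * hcK + (c : 𝓞 K) * h

theorem r7_sq (hb : Base K a s) (hS : algebraMap (𝓞 K) K S = s) {d : ℕ} (hd : d ∣ a) :
    K6.r6 S d * K6.r6 S d = Ideal.span {(d : 𝓞 K)} := by
  obtain ⟨e, he⟩ := hd
  have hco : Nat.Coprime d e := by
    have h1 := hb.sf
    rw [he] at h1
    exact Nat.coprime_of_squarefree_mul h1
  have hsq : S * S = -((d : 𝓞 K) * e) := by
    rw [sq_r7 hb hS, he]
    push_cast
    ring
  unfold K6.r6
  rw [Ideal.span_pair_mul_span_pair]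
  apply le_antisymm
  · rw [Ideal.span_le]
    rintro x (rfl | rfl | rfl | rfl)
    · rw [SetLike.mem_coe, Ideal.mem_span_singleton]
      exact dvd_mul_right _ _
    · rw [SetLike.mem_coe, Ideal.mem_span_singleton]
      exact dvd_mul_right _ _
    · rw [SetLike.mem_coe, Ideal.mem_span_singleton]
      exact dvd_mul_left _ _
    · rw [SetLike.mem_coe, Ideal.mem_span_singleton, hsq]
      exact ((dvd_mul_right _ _).neg_right)
  · rw [Ideal.span_singleton_le_iff_mem]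
    have a1 : (d : 𝓞 K) * d ∈ Ideal.span {(d : 𝓞 K) * d, (d : 𝓞 K) * S, S * d, S * S} :=
      Ideal.subset_span (by simp)
    have a2 : S * S ∈ Ideal.span {(d : 𝓞 K) * d, (d : 𝓞 K) * S, S * d, S * S} :=
      Ideal.subset_span (by simp)
    have a3 := Ideal.sub_mem _ (Ideal.mul_mem_left _ (Nat.gcdA d e : 𝓞 K) a1)
      (Ideal.mul_mem_left _ (Nat.gcdB d e : 𝓞 K) a2)
    have a4 : (d : 𝓞 K) * Nat.gcdA d e + e * Nat.gcdB d e = 1 := bez_r7 hco
    have a5 : (Nat.gcdA d e : 𝓞 K) * ((d : 𝓞 K) * d) - (Nat.gcdB d e : 𝓞 K) * (S * S) = d := by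
      linear_combination (d : 𝓞 K) * a4 - (Nat.gcdB d e : 𝓞 K) * hsq
    rw [a5] at a3
    exact a3

theorem norm_r7 (hb : Base K a s) (hS : algebraMap (𝓞 K) K S = s) {d : ℕ} (hd : d ∣ a) :
    Ideal.absNorm (K6.r6 S d) = d := by
  have h1 := congrArg Ideal.absNorm (r7_sq hb hS hd)
  rw [map_mul] at h1
  have h2 := norm_half7' hb hS (δ := (d : 𝓞 K)) (p := 2 * d) (q := 0) (by push_cast; ring)
  rw [← h1] at h2
  have h3 : Ideal.absNorm (K6.r6 S d) * Ideal.absNorm (K6.r6 S d) = d * d := by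
    have h4 : 4 * ((Ideal.absNorm (K6.r6 S d) * Ideal.absNorm (K6.r6 S d) : ℕ) : ℤ) =
        4 * ((d * d : ℕ) : ℤ) := by
      rw [h2]
      push_cast
      ring
    exact_mod_cast mul_left_cancel₀ (by norm_num : (4 : ℤ) ≠ 0) h4
  exact Nat.mul_self_inj.1 h3

theorem r7_mul (hb : Base K a s) (hS : algebraMap (𝓞 K) K S = s) {d e : ℕ} (hde : d * e ∣ a) :
    K6.r6 S (d * e) = K6.r6 S d * K6.r6 S e := by
  have hco : Nat.Coprime d e := Nat.coprime_of_squarefree_mul (hb.sf.squarefree_of_dvd hde)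
  have _ := hS
  unfold K6.r6
  rw [Ideal.span_pair_mul_span_pair]
  apply le_antisymm
  · rw [Ideal.span_le]
    rintro x (rfl | rfl)
    · rw [Nat.cast_mul]
      exact Ideal.subset_span (by simp)
    · have a1 : (d : 𝓞 K) * x ∈ Ideal.span {(d : 𝓞 K) * e, (d : 𝓞 K) * x, x * e, x * x} :=
        Ideal.subset_span (by simp)
      have a2 : x * e ∈ Ideal.span {(d : 𝓞 K) * e, (d : 𝓞 K) * x, x * e, x * x} :=
        Ideal.subset_span (by simp)
      have a3 := Ideal.add_mem _ (Ideal.mul_mem_left _ (Nat.gcdA d e : 𝓞 K) a1)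
        (Ideal.mul_mem_left _ (Nat.gcdB d e : 𝓞 K) a2)
      have a4 : (d : 𝓞 K) * Nat.gcdA d e + e * Nat.gcdB d e = 1 := bez_r7 hco
      have a5 : (Nat.gcdA d e : 𝓞 K) * ((d : 𝓞 K) * x) + (Nat.gcdB d e : 𝓞 K) * (x * e) = x := by
        linear_combination x * a4
      rw [a5] at a3
      exact a3
  · rw [Ideal.span_le]
    have b1 : (((d * e : ℕ)) : 𝓞 K) ∈ Ideal.span {(((d * e : ℕ)) : 𝓞 K), S} :=
      Ideal.subset_span (by simp)
    have b2 : S ∈ Ideal.span {(((d * e : ℕ)) : 𝓞 K), S} := Ideal.subset_span (by simp)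
    rintro x (rfl | rfl | rfl | rfl)
    · rw [Nat.cast_mul] at b1
      rw [SetLike.mem_coe, Nat.cast_mul]
      exact b1
    · exact Ideal.mul_mem_left _ _ b2
    · exact Ideal.mul_mem_right _ _ b2
    · exact Ideal.mul_mem_right _ _ b2

theorem r7_all (hb : Base K a s) (hS : algebraMap (𝓞 K) K S = s) :
    K6.r6 S a = Ideal.span {S} := by
  unfold K6.r6
  apply le_antisymm
  · rw [Ideal.span_le]
    rintro x (rfl | rfl)
    · rw [SetLike.mem_coe, Ideal.mem_span_singleton]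
      exact ⟨-S, by linear_combination sq_r7 hb hS⟩
    · exact Ideal.mem_span_singleton_self _
  · rw [Ideal.span_singleton_le_iff_mem]
    exact Ideal.subset_span (by simp)

theorem r7_unique (hb : Base K a s) (hS : algebraMap (𝓞 K) K S = s) {l : ℕ} (hl : l.Prime)
    (hla : l ∣ a) {q : Ideal (𝓞 K)} (hq : q.IsPrime) (hlq : (l : 𝓞 K) ∈ q) : q = K6.r6 S l := by
  have hS2 : S * S ∈ q := by
    obtain ⟨e, he⟩ := hla
    have h1 : S * S = (-(e : 𝓞 K)) * l := by
      rw [sq_r7 hb hS, he]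
      push_cast
      ring
    rw [h1]
    exact Ideal.mul_mem_left _ _ hlq
  have hSq : S ∈ q := by
    rcases hq.mem_or_mem hS2 with h1 | h1 <;> exact h1
  have hle : K6.r6 S l ≤ q := by
    unfold K6.r6
    rw [Ideal.span_le]
    rintro x (rfl | rfl)
    · exact hlq
    · exact hSq
  have hne : K6.r6 S l ≠ ⊥ := by
    intro h0
    have h1 := norm_r7 hb hS hla
    rw [h0, Ideal.absNorm_bot] at h1
    exact hl.ne_zero h1.symm
  have hpr : (K6.r6 S l).IsPrime := by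
    apply Ideal.isPrime_of_irreducible_absNorm
    rw [norm_r7 hb hS hla]
    exact hl
  have hmax : (K6.r6 S l).IsMaximal := hpr.isMaximal hne
  exact (hmax.eq_of_le hq.ne_top hle).symm

end Pool.Agent.Work.MP_8efaaa_nt.K7
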