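import Mathlib
import Pool.Agent.Work.MP_8efaaa_nt.K7.Defs
import Pool.Agent.Work.MP_8efaaa_nt.K7.ATu
import Pool.Agent.Work.MP_8efaaa_nt.K7.ARs
import Pool.Agent.Work.MP_8efaaa_nt.K6.DAc
import Pool.Agent.Work.MP_8efaaa_nt.N7.EId
import Pool.Agent.Work.MP_8efaaa_nt.N7.DIn
import Pool.Agent.Work.MP_8efaaa_nt.N5.EIo

/-!
# K7/DAc (M): action of inertia

Models `K6/DAc.lean`, `N5/EIo.lean`, `N7/EId.lean`. `ι ζ = ζ`: `ι ζ` is a root of unity of order `8` congruent to `ζ` modulo `L`, `2 ∉ L`. `ι w = w`: `inert_w7` (N7/DIn) or directly: `ι w = ± w`, and `2 w ∉ L`. `σ = ι ∘ κ` fixes `s`, so it is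
in `F ≃ₐ[K] F`; `act σ (2 * a * M)`. `σ ζ = ζ ^ 7`, so `N b = 7 (mod 8)`; `σ w = w`, `w ≠ 0`, so the symbol is `1`. `ι (Z c) = σ (κ (Z c)) = σ (Z' (cj τ c)) = Z' (b * cj τ c)` (`κ (κ (Z c)) = Z c` by `cZ` and `cj τ (cj τ c) = c`);
`ι m = σ (κ m) = σ m'`.
-/

set_option autoImplicit false

namespace Pool.Agent.Work.MP_8efaaa_nt.K7

open IsDedekindDomain NumberField Pool.Agent.Work.MP_787500_nt.HC
open Pool.Agent.Work.MP_8efaaa_nt.T Pool.Agent.Work.MP_8efaaa_nt.R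
open Pool.Agent.Work.MP_8efaaa_nt.N5 Pool.Agent.Work.MP_8efaaa_nt.N7
open scoped nonZeroDivisors

private theorem norm_mod8 {F : Type*} [Field F] [CharZero F] {ζ : F} (hz : ζ ^ 4 = -1) {n : ℕ}
    (ho : n % 2 = 1) (hbz : ζ ^ 7 = ζ ^ (n % 8)) : n % 8 = 7 := by
  have hζ0 : ζ ≠ 0 := by
    rintro rfl
    rw [zero_pow (by norm_num)] at hz
    norm_num at hz
  have hr : n % 8 = 1 ∨ n % 8 = 3 ∨ n % 8 = 5 ∨ n % 8 = 7 := by omega
  have hne : ζ ^ 2 ≠ 1 ∧ ζ ^ 2 ≠ -1 := by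
    constructor
    · intro hc
      have : ζ ^ 4 = 1 := by
        calc ζ ^ 4 = (ζ ^ 2) ^ 2 := by ring
          _ = 1 := by rw [hc, one_pow]
      rw [this] at hz
      norm_num at hz
    · intro hc
      have : ζ ^ 4 = 1 := by
        calc ζ ^ 4 = (ζ ^ 2) ^ 2 := by ring
          _ = 1 := by rw [hc]; ring
      rw [this] at hz
      norm_num at hz
  rcases hr with hr | hr | hr | hr
  · exfalso
    rw [hr] at hbz
    have h5 : ζ * (ζ ^ 2 + 1) = 0 := by linear_combination ζ ^ 3 * hz - hbz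
    rcases mul_eq_zero.mp h5 with h6 | h6
    · exact hζ0 h6
    · exact hne.2 (by linear_combination h6)
  · exfalso
    rw [hr] at hbz
    have h5 : 2 * ζ ^ 3 = 0 := by linear_combination ζ ^ 3 * hz - hbz
    rcases mul_eq_zero.mp h5 with h6 | h6
    · norm_num at h6
    · exact hζ0 (pow_eq_zero_iff (by norm_num) |>.mp h6)
  · exfalso
    rw [hr] at hbz
    have h5 : ζ * (ζ ^ 2 - 1) = 0 := by linear_combination ζ ^ 3 * hz - ζ * hz - hbz
    rcases mul_eq_zero.mp h5 with h6 | h6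
    · exact hζ0 h6
    · exact hne.1 (by linear_combination h6)
  · exact hr

private theorem notMem_of_not_dvd {F : Type*} [Field F] [NumberField F] {L : Ideal (𝓞 F)}
    (hL : L.IsPrime) {l d : ℕ} (hl : l.Prime) (hlL : (l : 𝓞 F) ∈ L) (hld : ¬ l ∣ d) :
    ((d : ℤ) : 𝓞 F) ∉ L := by
  intro hc
  have hcop : Nat.Coprime l d := hl.coprime_iff_not_dvd.2 hld
  have h1 := Nat.gcd_eq_gcd_ab l d
  rw [hcop] at h1
  have h2 : (1 : 𝓞 F) = (l : 𝓞 F) * ((Nat.gcdA l d : ℤ) : 𝓞 F) +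
      ((d : ℤ) : 𝓞 F) * ((Nat.gcdB l d : ℤ) : 𝓞 F) := by
    have := congrArg (fun x : ℤ => (x : 𝓞 F)) h1
    push_cast at this ⊢
    exact this
  have h3 : (1 : 𝓞 F) ∈ L := by
    rw [h2]
    exact L.add_mem (L.mul_mem_right _ hlL) (L.mul_mem_right _ hc)
  exact hL.ne_top ((Ideal.eq_top_iff_one L).2 h3)

private theorem jac_of_mul {F : Type*} [Field F] [CharZero F] {x : F} (hx : x ≠ 0) {j e : ℤ}
    (h : (e : F) * x = (j : F) * x) : j = e := by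
  have h1 : (e : F) = (j : F) := mul_right_cancel₀ hx h
  exact_mod_cast h1.symm

theorem inert_act7 {K : Type*} {F : Type*} [Field K] [NumberField K] [Field F] [NumberField F]
    [Algebra K F] {a d : ℕ} {x y : ℤ} {s : K} (hb : Base K a s) {S : 𝓞 K}
    (hS : algebraMap (𝓞 K) K S = s) {τ : 𝓞 K ≃+* 𝓞 K} (hτ : τ S = -S)
    {v v' : HeightOneSpectrum (𝓞 K)} {ζ w m m' : F} {W W' : ClassGroup (𝓞 K) → F}
    {Z Z' : Ideal (𝓞 K) → F} {κ : F ≃ₐ[ℚ] F}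
    (h : D7 K F a d x y s S τ v v' ζ w m m' W W' Z Z' κ) (hd : d ≠ 0) {l : ℕ} (hl : l.Prime)
    (hl2 : l ≠ 2) (hld : ¬ l ∣ d) {L : Ideal (𝓞 F)} (hlL : (l : 𝓞 F) ∈ L) {ι : F ≃ₐ[ℚ] F}
    (hin : Inert ι L) (hι : ι (algebraMap K F s) = -algebraMap K F s) {M : ℕ} (hM : M ≠ 0) :
    ∃ (b : Ideal (𝓞 K)) (t : ℤ), Ideal.absNorm b % 8 = 7 ∧
      Nat.Coprime (Ideal.absNorm b) (2 * a * M) ∧ S - (t : 𝓞 K) ∈ b ∧
      jacobiSym d (Ideal.absNorm b) = 1 ∧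
      (∀ C, ι (W C) = W' (cl (idl b)⁻¹ * C⁻¹)) ∧ (∀ C, ι (W' C) = W (cl (idl b)⁻¹ * C⁻¹)) ∧
      (∀ c, OddI c → ι (Z c) = Z' (b * cj τ c)) ∧ (∀ c, OddI c → ι (Z' c) = Z (b * cj τ c)) ∧
      ι m = (jacobiSym (2 * (x - y * t)) (Ideal.absNorm b) : ℤ) * m' := by
  have hz := h.z8
  have h2 : ι ζ = ζ := inert_zeta hin hz
  have ha0 : 0 < a := Nat.pos_of_ne_zero hb.sf.ne_zero
  have hw2 : ι w = w := inert_sq hin (n := (d : ℤ)) (by rw [h.id.hw]; push_cast; rfl)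
    (notMem_of_not_dvd hin.prime hl hlL hld)
  have hfix : ∀ x : K, ι (κ (algebraMap K F x)) = algebraMap K F x := by
    intro x
    obtain ⟨m, n, hmn⟩ := Pool.Agent.Work.MP_787500_nt.Quad.exists_coords hb.dim hb.sq ha0 x
    have e1 : algebraMap K F x = (m : F) + n * algebraMap K F s := by
      rw [hmn, map_add, map_mul, map_ratCast, map_ratCast]
    rw [e1, map_add, map_mul, h.id.cs, map_ratCast, map_ratCast, map_add, map_mul, map_neg, hι,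
      map_ratCast, map_ratCast, neg_neg]
  let σ : F ≃ₐ[K] F := AlgEquiv.ofRingEquiv (f := (κ.trans ι).toRingEquiv) hfix
  have hσ : ∀ x, σ x = ι (κ x) := fun x => rfl
  obtain ⟨b, t, hbc, hbt, hA⟩ := h.act σ (2 * a * M)
    (mul_ne_zero (mul_ne_zero two_ne_zero ha0.ne') hM)
  have hbo : Ideal.absNorm b % 2 = 1 := by
    have h3 : Nat.Coprime (Ideal.absNorm b) 2 :=
      Nat.Coprime.coprime_dvd_right ⟨a * M, by ring⟩ hbc
    exact Nat.odd_iff.1 (Nat.coprime_two_right.1 h3)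
  have h8 : Ideal.absNorm b % 8 = 7 := by
    have hbz := hA.z8
    rw [hσ, h.cz, map_pow, h2, pow_mod_zeta hz (Ideal.absNorm b)] at hbz
    exact norm_mod8 hz hbo hbz
  have hw0 : w ≠ 0 := by
    rintro rfl
    have := h.id.hw
    rw [zero_pow two_ne_zero] at this
    exact (Nat.cast_ne_zero.mpr hd) this.symm
  have hcc : ∀ c, cj τ (cj τ c) = c := fun c => (norm_cj7 hb hS hτ c).2.2
  refine ⟨b, t, h8, hbc, hbt, ?_, fun C => ?_, fun C => ?_, fun c hc => ?_, fun c hc => ?_, ?_⟩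
  · have h3 := hA.ma.sq
    rw [hσ, h.id.cw, hw2] at h3
    exact jac_of_mul hw0 (e := 1) (by push_cast; rw [one_mul]; exact h3)
  · have h3 := hA.ma.hW' C⁻¹
    rw [hσ, h.id.cW', inv_inv] at h3
    exact h3
  · have h3 := hA.ma.hW C⁻¹
    rw [hσ, h.id.cW, inv_inv] at h3
    exact h3
  · have hc' := (oddI_cj7 hb hS hτ).2 hc
    have h3 := hA.hZ' (cj τ c) hc'
    rw [hσ, (h.cZ _ hc').2, hcc] at h3
    exact h3
  · have hc' := (oddI_cj7 hb hS hτ).2 hc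
    have h3 := hA.hZ (cj τ c) hc'
    rw [hσ, (h.cZ _ hc').1, hcc] at h3
    exact h3
  · have h3 := hA.hm'
    rw [hσ, h.cm.2] at h3
    exact h3

end Pool.Agent.Work.MP_8efaaa_nt.K7
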