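import Mathlib
import Pool.Agent.Work.MP_8efaaa_nt.K7.Defs
import Pool.Agent.Work.MP_8efaaa_nt.R.DVal
import Pool.Agent.Work.MP_8efaaa_nt.K5.FRam
import Pool.Agent.Work.MP_8efaaa_nt.K5.RDt
import Pool.Agent.Work.MP_8efaaa_nt.K6.CVl

/-!
# K7/DVl (S): valuations of the prime ideal `L`

`exists_vl7`: `exists_val` (R/DVal) for some embedding `F →+* ℂ`, and `Valuation.comap`. `vl_inert7`: `IVal.inert`, `IVal.inert_val_eq` (K5/FRam, K5/RDt; `IVal` there is `VL` here).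
-/

set_option autoImplicit false

namespace Pool.Agent.Work.MP_8efaaa_nt.K7

open IsDedekindDomain NumberField Pool.Agent.Work.MP_787500_nt.HC
open Pool.Agent.Work.MP_8efaaa_nt.T Pool.Agent.Work.MP_8efaaa_nt.R
open Pool.Agent.Work.MP_8efaaa_nt.N5 Pool.Agent.Work.MP_8efaaa_nt.N7
open scoped nonZeroDivisors

theorem exists_vl7 {F : Type*} [Field F] [NumberField F] {L : Ideal (𝓞 F)} (hL : L.IsPrime) :
    ∃ (Γ : Type) (_ : LinearOrderedCommGroupWithZero Γ) (V : Valuation F Γ), K6.VL V L := by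
  obtain ⟨φ⟩ : Nonempty (F →+* ℂ) := inferInstance
  letI : Algebra F ℂ := φ.toAlgebra
  obtain ⟨Γ, hΓ, V, h1, h2⟩ := exists_val L hL
  exact ⟨Γ, hΓ, V.comap (algebraMap F ℂ), hL, h1, h2⟩

theorem vl_inert7 {F Γ : Type*} [Field F] [NumberField F] [LinearOrderedCommGroupWithZero Γ]
    {V : Valuation F Γ} {L : Ideal (𝓞 F)} (hV : K6.VL V L) {ι : F ≃ₐ[ℚ] F} (hI : Inert ι L) :
    (∀ x : F, V (ι x) = V x) ∧ ∀ x : F, V x ≤ 1 → V (ι x - x) < 1 := by
  have h : K5.IVal V L := ⟨hV.int, hV.lt⟩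
  exact ⟨fun x => h.inert_val_eq hI x, (h.inert hI).1⟩

theorem vl_nat7 {F Γ : Type*} [Field F] [NumberField F] [LinearOrderedCommGroupWithZero Γ]
    {V : Valuation F Γ} {L : Ideal (𝓞 F)} (hV : K6.VL V L) {l : ℕ} (hl : l.Prime) (hl2 : l ≠ 2)
    (hlL : (l : 𝓞 F) ∈ L) : V (l : F) < 1 ∧ V 2 = 1 ∧ ∀ n : ℤ, V (n : F) < 1 ↔ (l : ℤ) ∣ n := by
  have h1 : V (l : F) < 1 := by
    have := (hV.lt (l : 𝓞 F)).2 hlL
    rwa [map_natCast] at this
  refine ⟨h1, ?_, fun n => ⟨fun h => ?_, ?_⟩⟩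
  · have h2 : ¬ (l : ℤ) ∣ 2 := by
      intro h
      have h3 : l ∣ 2 := by exact_mod_cast h
      exact hl2 ((Nat.prime_dvd_prime_iff_eq hl Nat.prime_two).1 h3)
    have h3 := val_int V hl h1 h2
    exact_mod_cast h3
  · by_contra h2
    exact absurd (val_int V hl h1 h2) h.ne
  · rintro ⟨m, rfl⟩
    have h2 : V (m : F) ≤ 1 := by
      have := hV.int (m : 𝓞 F)
      rwa [map_intCast] at this
    rw [Int.cast_mul, map_mul, Int.cast_natCast]
    exact (mul_le_of_le_one_right' h2).trans_lt h1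

end Pool.Agent.Work.MP_8efaaa_nt.K7
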