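import Mathlib
import Pool.Agent.Work.MP_8efaaa_nt.K7.Defs
import Pool.Agent.Work.MP_8efaaa_nt.K7.ARs
import Pool.Agent.Work.MP_8efaaa_nt.N7.IBas

/-!
# K7/GPr (S-M): primitive representatives of the classes

Model W5/CPr `exists_prim`. `exists_rep` (N7/IBas) with `N = 2 a M` gives `c`; divide by rational primes (`(l) ∣ c`) as long as possible (induction on the norm); then for every prime `l ∣ N c` the residue ring is cyclic and `S` is congruent to an
integer modulo `c`. (Or: `c` is a product of prime ideals, none of them inert and no two of them conjugate, `l ∤ a`.)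
-/

set_option autoImplicit false

namespace Pool.Agent.Work.MP_8efaaa_nt.K7

open IsDedekindDomain NumberField Pool.Agent.Work.MP_787500_nt.HC
open Pool.Agent.Work.MP_8efaaa_nt.T Pool.Agent.Work.MP_8efaaa_nt.R
open Pool.Agent.Work.MP_8efaaa_nt.N5 Pool.Agent.Work.MP_8efaaa_nt.N7
open scoped nonZeroDivisors

variable {K : Type*} [Field K] [NumberField K] {a : ℕ} {s : K} {S : 𝓞 K}

theorem exists_prim7 (hb : Base K a s) (hS : algebraMap (𝓞 K) K S = s) (C : ClassGroup (𝓞 K))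
    {M : ℕ} (hM : M ≠ 0) : ∃ (c : Ideal (𝓞 K)) (u : ℤ), OddI c ∧
      Nat.Coprime (Ideal.absNorm c) M ∧ S - (u : 𝓞 K) ∈ c ∧ cl (idl c) = C := by
  classical
  obtain ⟨W, k, hW1, hW2, hW3⟩ := Qd.exists_W hb.dim hb.sq hb.sf hb.mod
  have hWS : 2 * W = 1 + S := by
    apply RingOfIntegers.ext
    show algebraMap (𝓞 K) K _ = algebraMap (𝓞 K) K _
    rw [map_mul, map_add, map_one, map_ofNat, hW1, hS]
  have hP : ∃ n : ℕ, ∃ c : Ideal (𝓞 K), c ≠ ⊥ ∧ Ideal.absNorm c = n ∧
      Nat.Coprime (Ideal.absNorm c) (2 * M) ∧ cl (idl c) = C := by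
    obtain ⟨c, h1, h2, h3⟩ := exists_rep (N := 2 * M) (by omega) C
    exact ⟨_, c, h1, rfl, h2, h3⟩
  obtain ⟨c, hc0, hcn, hcN, hcC⟩ := Nat.find_spec hP
  have hmin : ∀ c' : Ideal (𝓞 K), c' ≠ ⊥ → Ideal.absNorm c' < Ideal.absNorm c →
      Nat.Coprime (Ideal.absNorm c') (2 * M) → cl (idl c') = C → False := by
    intro c' h1 h2 h3 h4
    rw [hcn] at h2
    exact Nat.find_min hP h2 ⟨c', h1, rfl, h3, h4⟩
  have hodd : OddI c := Nat.odd_iff.2 (by
    have h1 := Nat.Coprime.coprime_mul_right_right hcN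
    rw [Nat.coprime_comm, Nat.coprime_two_left] at h1
    exact Nat.odd_iff.1 h1)
  have hcM : Nat.Coprime (Ideal.absNorm c) M := Nat.Coprime.coprime_mul_left_right hcN
  -- the second coordinates of the elements of `c`
  let I : Ideal ℤ :=
    { carrier := {b | ∃ e : ℤ, (e : 𝓞 K) + b * W ∈ c}
      add_mem' := by
        rintro b b' ⟨e, he⟩ ⟨e', he'⟩
        refine ⟨e + e', ?_⟩
        have := c.add_mem he he'
        push_cast
        rw [show (e : 𝓞 K) + e' + (b + b') * W = (e + b * W) + (e' + b' * W) by ring]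
        exact this
      zero_mem' := ⟨0, by simp⟩
      smul_mem' := by
        rintro z b ⟨e, he⟩
        refine ⟨z * e, ?_⟩
        have := c.mul_mem_left (z : 𝓞 K) he
        rw [smul_eq_mul]
        push_cast
        rw [show (z : 𝓞 K) * e + z * b * W = z * (e + b * W) by ring]
        exact this }
  have hI : ∀ b : ℤ, b ∈ I ↔ ∃ e : ℤ, (e : 𝓞 K) + b * W ∈ c := fun b => Iff.rfl
  obtain ⟨g0, hg0⟩ := (IsPrincipalIdealRing.principal I).principal
  have hg : ∀ b : ℤ, b ∈ I ↔ (g0.natAbs : ℤ) ∣ b := by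
    intro b
    rw [hg0, Int.natAbs_dvd]
    exact Ideal.mem_span_singleton
  obtain ⟨g, hgd⟩ : ∃ g : ℕ, g = g0.natAbs := ⟨_, rfl⟩
  rw [← hgd] at hg
  have hcle : c ≤ Ideal.span {(g : 𝓞 K)} := by
    intro x hx
    obtain ⟨e, b, rfl⟩ := hW3 x
    have h1 : (g : ℤ) ∣ b := (hg b).1 ((hI b).2 ⟨e, hx⟩)
    have h2 : (g : ℤ) ∣ e + b := by
      refine (hg _).1 ((hI _).2 ⟨-(2 * k * b), ?_⟩)
      have h3 := c.mul_mem_left W hx
      push_cast
      rw [show -(2 * (k : 𝓞 K) * b) + (e + b) * W = W * (e + b * W) by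
        linear_combination (b : 𝓞 K) * hW2]
      exact h3
    have h3 : (g : ℤ) ∣ e := by
      have := dvd_sub h2 h1
      rwa [add_sub_cancel_right] at this
    obtain ⟨b', rfl⟩ := h1
    obtain ⟨e', rfl⟩ := h3
    rw [Ideal.mem_span_singleton]
    refine ⟨e' + b' * W, ?_⟩
    push_cast
    ring
  have hnc : Ideal.absNorm c ≠ 0 := by
    intro h
    unfold OddI at hodd
    rw [h] at hodd
    exact absurd hodd (by decide)
  have hgpos : g ≠ 0 := by
    rintro rfl
    have h1 : (Ideal.absNorm c : ℤ) ∈ I := by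
      refine (hI _).2 ⟨0, ?_⟩
      rw [Int.cast_zero, zero_add]
      apply c.mul_mem_right
      exact_mod_cast Ideal.absNorm_mem c
    have h2 := (hg _).1 h1
    rw [Nat.cast_zero, zero_dvd_iff] at h2
    exact hnc (by exact_mod_cast h2)
  have hg1 : g = 1 := by
    by_contra hne
    have hg2 : 1 < g := by omega
    obtain ⟨c', hc'⟩ := Ideal.dvd_iff_le.2 hcle
    have hgK : (g : 𝓞 K) ≠ 0 := by exact_mod_cast hgpos
    have hgK' : algebraMap (𝓞 K) K (g : 𝓞 K) ≠ 0 := by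
      rw [map_natCast]
      exact_mod_cast hgpos
    have hsp : Ideal.span {(g : 𝓞 K)} ≠ ⊥ := by
      rw [Ne, Ideal.span_singleton_eq_bot]
      exact hgK
    have hc0' : c' ≠ ⊥ := by
      rintro rfl
      rw [Ideal.mul_bot] at hc'
      exact hc0 hc'
    have hn : Ideal.absNorm c = g ^ 2 * Ideal.absNorm c' := by
      rw [hc', map_mul, Ideal.absNorm_span_natCast, RingOfIntegers.rank, hb.dim]
    have hn0 : Ideal.absNorm c' ≠ 0 := by
      intro h
      rw [h, mul_zero] at hn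
      exact hnc hn
    refine hmin c' hc0' ?_ ?_ ?_
    · rw [hn]
      have h1 : 1 < g ^ 2 := by nlinarith
      nlinarith [Nat.pos_of_ne_zero hn0]
    · rw [hn] at hcN
      exact Nat.Coprime.coprime_mul_left hcN
    · rw [← hcC, hc', idl_mul hsp hc0', idl_span hgK hgK', eq_comm]
      exact (cl_eq_iff.2 ⟨_, rfl⟩).symm
  have h1 : (1 : ℤ) ∈ I := (hg 1).2 (by rw [hg1]; exact one_dvd _)
  obtain ⟨e, he⟩ := (hI 1).1 h1
  refine ⟨c, -(2 * e) - 1, hodd, hcM, ?_, hcC⟩
  have h2 := c.mul_mem_left 2 he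
  push_cast at h2 ⊢
  rw [show S - (-(2 * (e : 𝓞 K)) - 1) = 2 * ((e : 𝓞 K) + 1 * W) by
    linear_combination -hWS]
  exact h2

end Pool.Agent.Work.MP_8efaaa_nt.K7
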