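import Mathlib
import Pool.Agent.Work.MP_8efaaa_nt.K7.Defs

/-!
# K7/AUn (S-M): the values of `W`, `W'` are units outside of `2` (abstract)

`rec1`: `W (p C) ^ 2 (1 + W C ^ 2) = 2 W C`, `V 2 = 1`. If `V (W C) < 1` then `V (1 + W C ^ 2) = 1`, so `V (W (p C)) ^ 2 = V (W C)`, again `< 1`, and `V (W (p C)) > V (W C)`
(`x ^ 2 = y`, `0 < y < 1` gives `x > y`). So `V (W (p ^ k C))` is strictly increasing in `k`, impossible since `p ^ k = 1` for `k = orderOf p > 0`. If `V (W C) > 1` then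
`V (1 + W C ^ 2) = V (W C) ^ 2`, so `V (W (p C)) ^ 2 = V (W C)⁻¹ < 1` and the first case applies to `p C`. So `V (W C) = 1` for all `C`, and `V (1 + W C ^ 2) = 1` by `rec1`.
`rec2`: the same in the other direction for `W'` (replace `p` by `p⁻¹`). `(1 - W ^ 2) (1 + W ^ 2) = W' ^ 4` (`four`).
-/

set_option autoImplicit false

namespace Pool.Agent.Work.MP_8efaaa_nt.K7

open IsDedekindDomain NumberField Pool.Agent.Work.MP_787500_nt.HC
open Pool.Agent.Work.MP_8efaaa_nt.T Pool.Agent.Work.MP_8efaaa_nt.R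
open Pool.Agent.Work.MP_8efaaa_nt.N5 Pool.Agent.Work.MP_8efaaa_nt.N7
open scoped nonZeroDivisors

private theorem rec_lt {A F Γ : Type*} [Field F] [CommGroup A] [Finite A]
    [LinearOrderedCommGroupWithZero Γ] {p : A} {f : A → F} (hne : ∀ a, f a ≠ 0)
    (hrec : ∀ a, f (p * a) ^ 2 * (1 + f a ^ 2) = 2 * f a)
    (V : Valuation F Γ) (h2 : V 2 = 1) (C : A) : ¬ V (f C) < 1 := by
  intro hC
  have hfin : {a : A | V (f a) < 1}.Finite := Set.toFinite _
  obtain ⟨a, ha, hmax⟩ := Set.exists_max_image {a : A | V (f a) < 1} (fun a => V (f a)) hfin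
    ⟨C, hC⟩
  have ha1 : V (f a) < 1 := ha
  have h1 : V (f a ^ 2) < 1 := by
    rw [map_pow]
    exact pow_lt_one' ha1 two_ne_zero
  have h3 : V (1 + f a ^ 2) = 1 := Valuation.map_one_add_of_lt V h1
  have h4 := congrArg V (hrec a)
  rw [map_mul, map_mul, h3, h2, mul_one, one_mul, map_pow] at h4
  have h5 : V (f (p * a)) < 1 := by
    by_contra hcon
    rw [not_lt] at hcon
    have h6 : (1 : Γ) ≤ V (f (p * a)) ^ 2 := one_le_pow₀ hcon
    rw [h4] at h6
    exact absurd ha1 (not_lt.2 h6)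
  have h7 := hmax (p * a) h5
  have h8 : V (f (p * a)) ≤ V (f a) := h7
  have hpos : 0 < V (f (p * a)) := by
    rw [zero_lt_iff]
    exact (V.ne_zero_iff).2 (hne _)
  have h9 : V (f (p * a)) ^ 2 < V (f (p * a)) := by
    rw [pow_two]
    calc V (f (p * a)) * V (f (p * a)) < 1 * V (f (p * a)) := by
          exact mul_lt_mul_of_pos_right h5 hpos
      _ = V (f (p * a)) := one_mul _
  rw [h4] at h9
  exact absurd h8 (not_le.2 h9)

private theorem rec_unit {A F Γ : Type*} [Field F] [CommGroup A] [Finite A]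
    [LinearOrderedCommGroupWithZero Γ] {p : A} {f : A → F} (hne : ∀ a, f a ≠ 0)
    (hrec : ∀ a, f (p * a) ^ 2 * (1 + f a ^ 2) = 2 * f a)
    (V : Valuation F Γ) (h2 : V 2 = 1) (C : A) : V (f C) = 1 := by
  rcases lt_trichotomy (V (f C)) 1 with h | h | h
  · exact absurd h (rec_lt hne hrec V h2 C)
  · exact h
  · exfalso
    have h1 : V (1 : F) < V (f C ^ 2) := by
      rw [map_one, map_pow]
      exact one_lt_pow₀ h two_ne_zero
    have h3 : V (1 + f C ^ 2) = V (f C ^ 2) := Valuation.map_add_eq_of_lt_right V h1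
    have h4 := congrArg V (hrec C)
    rw [map_mul, map_mul, h3, h2, one_mul, map_pow, map_pow] at h4
    have hpos : V (f C) ≠ 0 := (V.ne_zero_iff).2 (hne _)
    have h5 : V (f (p * C)) ^ 2 * V (f C) = 1 := by
      apply mul_right_cancel₀ hpos
      rw [one_mul, mul_assoc, ← pow_two, h4]
    apply rec_lt hne hrec V h2 (p * C)
    by_contra hcon
    rw [not_lt] at hcon
    have h6 : (1 : Γ) ≤ V (f (p * C)) ^ 2 := one_le_pow₀ hcon
    have h7 : (1 : Γ) < V (f (p * C)) ^ 2 * V (f C) := by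
      calc (1 : Γ) < V (f C) := h
        _ = 1 * V (f C) := (one_mul _).symm
        _ ≤ V (f (p * C)) ^ 2 * V (f C) := mul_le_mul_left h6 _
    rw [h5] at h7
    exact lt_irrefl _ h7

private theorem rec_unit_add {A F Γ : Type*} [Field F] [CommGroup A] [Finite A]
    [LinearOrderedCommGroupWithZero Γ] {p : A} {f : A → F} (hne : ∀ a, f a ≠ 0)
    (hrec : ∀ a, f (p * a) ^ 2 * (1 + f a ^ 2) = 2 * f a)
    (V : Valuation F Γ) (h2 : V 2 = 1) (C : A) : V (1 + f C ^ 2) = 1 := by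
  have h4 := congrArg V (hrec C)
  rw [map_mul, map_mul, map_pow, rec_unit hne hrec V h2, rec_unit hne hrec V h2, h2, one_pow,
    one_mul, one_mul] at h4
  exact h4

theorem wrel_unit {A F Γ : Type*} [Field F] [CommGroup A] [Finite A]
    [LinearOrderedCommGroupWithZero Γ] {p : A} {W W' : A → F} (h : WRel p W W')
    (V : Valuation F Γ) (h2 : V 2 = 1) (C : A) : V (W C) = 1 ∧ V (W' C) = 1 ∧
      V (1 + W C ^ 2) = 1 ∧ V (1 - W C ^ 2) = 1 ∧ V (1 + W' C ^ 2) = 1 ∧
      V (1 - W' C ^ 2) = 1 := by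
  have hrec2 : ∀ a, W' (p⁻¹ * a) ^ 2 * (1 + W' a ^ 2) = 2 * W' a := by
    intro a
    have h1 := h.rec2 (p⁻¹ * a)
    rwa [mul_inv_cancel_left] at h1
  have a1 := rec_unit h.ne h.rec1 V h2 C
  have a2 := rec_unit h.ne' hrec2 V h2 C
  have a3 := rec_unit_add h.ne h.rec1 V h2 C
  have a4 := rec_unit_add h.ne' hrec2 V h2 C
  refine ⟨a1, a2, a3, ?_, a4, ?_⟩
  · have h3 : (1 - W C ^ 2) * (1 + W C ^ 2) = W' C ^ 4 := by
      linear_combination -(h.four C)
    have h4 := congrArg V h3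
    rw [map_mul, map_pow, a2, a3, mul_one, one_pow] at h4
    exact h4
  · have h3 : (1 - W' C ^ 2) * (1 + W' C ^ 2) = W C ^ 4 := by
      linear_combination -(h.four C)
    have h4 := congrArg V h3
    rw [map_mul, map_pow, a1, a4, mul_one, one_pow] at h4
    exact h4

end Pool.Agent.Work.MP_8efaaa_nt.K7
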