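import Mathlib
import Pool.Agent.Work.MP_787500_nt.HC.ClsA
import Pool.Agent.Work.MP_8efaaa_nt.K7.Defs
import Pool.Agent.Work.MP_8efaaa_nt.K7.ARs
import Pool.Agent.Work.MP_8efaaa_nt.K7.ATu
import Pool.Agent.Work.MP_8efaaa_nt.K7.AUn
import Pool.Agent.Work.MP_8efaaa_nt.K7.DVl
import Pool.Agent.Work.MP_8efaaa_nt.N7.IBas

/-!
# K7/MZ (helper33): the value of `W'` at the fixed class modulo `L`
-/

set_option autoImplicit false

namespace Pool.Agent.Work.MP_8efaaa_nt.K7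

open IsDedekindDomain NumberField Pool.Agent.Work.MP_787500_nt.HC
open Pool.Agent.Work.MP_8efaaa_nt.T Pool.Agent.Work.MP_8efaaa_nt.R
open Pool.Agent.Work.MP_8efaaa_nt.N5 Pool.Agent.Work.MP_8efaaa_nt.N7
open scoped nonZeroDivisors

section groups

private theorem grpA {G : Type*} [AddCommGroup G] {P c : G} (h : 2 • c = 7 • P) :
    -P + 4 • P + -c = 4 • (-P) + c := by
  have e : -P + 4 • P + -c - (4 • (-P) + c) = 7 • P - 2 • c := by abel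
  rw [← sub_eq_zero, e, h, sub_self]

theorem grp1 {G : Type*} [CommGroup G] {P c : G} (h : c ^ 2 = P ^ 7) :
    P⁻¹ * P ^ 4 * c⁻¹ = P⁻¹ ^ 4 * c :=
  congrArg Additive.toMul (grpA (G := Additive G) (P := Additive.ofMul P) (c := Additive.ofMul c)
    (congrArg Additive.ofMul h))

private theorem grpB {G : Type*} [AddCommGroup G] {P B c : G} (h : 2 • c = 7 • P + B) :
    -B + -(4 • P + -c) = 3 • P + -c ∧ 2 • (3 • P + -c) = -P + -B := by
  constructor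
  · have e : -B + -(4 • P + -c) - (3 • P + -c) = 2 • c - (7 • P + B) := by abel
    rw [← sub_eq_zero, e, h, sub_self]
  · have e : 2 • (3 • P + -c) - (-P + -B) = (7 • P + B) - 2 • c := by abel
    rw [← sub_eq_zero, e, h, sub_self]

theorem grp2 {G : Type*} [CommGroup G] {P B c : G} (h : c ^ 2 = P ^ 7 * B) :
    B⁻¹ * (P ^ 4 * c⁻¹)⁻¹ = P ^ 3 * c⁻¹ :=
  congrArg Additive.toMul (grpB (G := Additive G) (P := Additive.ofMul P) (c := Additive.ofMul c)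
    (B := Additive.ofMul B) (congrArg Additive.ofMul h)).1

theorem grp3 {G : Type*} [CommGroup G] {P B c : G} (h : c ^ 2 = P ^ 7 * B) :
    (P ^ 3 * c⁻¹) ^ 2 = P⁻¹ * B⁻¹ :=
  congrArg Additive.toMul (grpB (G := Additive G) (P := Additive.ofMul P) (c := Additive.ofMul c)
    (B := Additive.ofMul B) (congrArg Additive.ofMul h)).2

private theorem grpD {G : Type*} [AddCommGroup G] {P B k c : G} (h1 : B + 2 • k = 0)
    (h2 : 2 • c = 7 • P) : 2 • (-k + c) = 7 • P + B := by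
  have e : 2 • (-k + c) - (7 • P + B) = (2 • c - 7 • P) - (B + 2 • k) := by abel
  rw [← sub_eq_zero, e, h1, h2, sub_self, sub_self]

theorem grp4 {G : Type*} [CommGroup G] {P B k c : G} (h1 : B * k ^ 2 = 1) (h2 : c ^ 2 = P ^ 7) :
    (k⁻¹ * c) ^ 2 = P ^ 7 * B :=
  congrArg Additive.toMul (grpD (G := Additive G) (P := Additive.ofMul P) (c := Additive.ofMul c)
    (B := Additive.ofMul B) (k := Additive.ofMul k) (congrArg Additive.ofMul h1)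
    (congrArg Additive.ofMul h2))

end groups

theorem mlt {Γ : Type*} [LinearOrderedCommGroupWithZero Γ] {a b : Γ} (ha : a ≤ 1) (hb : b < 1) :
    a * b < 1 := by
  calc a * b ≤ 1 * b := by gcongr
    _ = b := one_mul _
    _ < 1 := hb

theorem e8_sq {n : ℤ} : e8 n * e8 n = 1 := by
  unfold e8
  split_ifs <;> norm_num

theorem zeta_odd {F : Type*} [Field F] {ζ : F} (h : ζ ^ 4 = -1) {N : ℕ} (hN : Odd N) :
    ζ ^ N + (ζ ^ N) ^ 7 = (e8 N : ℤ) * (ζ + ζ ^ 7) := by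
  have h8 : ζ ^ 8 = 1 := by
    rw [show (8 : ℕ) = 4 * 2 by norm_num, pow_mul, h]
    norm_num
  have hmod : ∀ n : ℕ, ζ ^ n = ζ ^ (n % 8) := by
    intro n
    conv_lhs => rw [← Nat.div_add_mod n 8, pow_add, pow_mul, h8, one_pow, one_mul]
  have h5 : ζ ^ 5 = -ζ := by
    rw [show (5 : ℕ) = 4 + 1 by norm_num, pow_add, h]
    ring
  have h7 : ζ ^ 7 = -ζ ^ 3 := by
    rw [show (7 : ℕ) = 4 + 3 by norm_num, pow_add, h]
    ring
  have hc : N % 8 = 1 ∨ N % 8 = 3 ∨ N % 8 = 5 ∨ N % 8 = 7 := by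
    obtain ⟨k, rfl⟩ := hN
    omega
  rw [← pow_mul, hmod N, hmod (N * 7)]
  rcases hc with h1 | h1 | h1 | h1
  · have h2 : N * 7 % 8 = 7 := by omega
    have h3 : e8 (N : ℤ) = 1 := by
      unfold e8
      rw [if_pos (by omega)]
    rw [h1, h2, h3]
    push_cast
    ring
  · have h2 : N * 7 % 8 = 5 := by omega
    have h3 : e8 (N : ℤ) = -1 := by
      unfold e8
      rw [if_neg (by omega)]
    rw [h1, h2, h3, h5, h7]
    push_cast
    ring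
  · have h2 : N * 7 % 8 = 3 := by omega
    have h3 : e8 (N : ℤ) = -1 := by
      unfold e8
      rw [if_neg (by omega)]
    rw [h1, h2, h3, h5, h7]
    push_cast
    ring
  · have h2 : N * 7 % 8 = 1 := by omega
    have h3 : e8 (N : ℤ) = 1 := by
      unfold e8
      rw [if_pos (by omega)]
    rw [h1, h2, h3]
    push_cast
    ring

variable {K : Type*} {F : Type*} [Field K] [NumberField K] [Field F] [NumberField F]
    [Algebra K F] {a d : ℕ} {x y : ℤ} {s : K} {S : 𝓞 K} {τ : 𝓞 K ≃+* 𝓞 K}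
    {v v' : HeightOneSpectrum (𝓞 K)} {ζ w m m' : F} {W W' : ClassGroup (𝓞 K) → F}
    {Z Z' : Ideal (𝓞 K) → F} {κ : F ≃ₐ[ℚ] F}

theorem zz_sq (hb : Base K a s) (hS : algebraMap (𝓞 K) K S = s) (hτ : τ S = -S)
    (h : D7 K F a d x y s S τ v v' ζ w m m' W W' Z Z' κ) {c1 : Ideal (𝓞 K)} (hc1 : OddI c1)
    (hcl : cl (idl c1) ^ 2 = cl (pr v) ^ 7) : (Z c1 * Z' (cj τ c1)) ^ 2 = 2 := by
  have hcj : OddI (cj τ c1) := (oddI_cj7 hb hS hτ).2 hc1
  rw [mul_pow, h.z1 c1 hc1, h.z1' _ hcj]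
  have h1 := h.id.rec3 (cl (pr v ^ 4 * (idl c1)⁻¹))
  have h2 : cl (pr v)⁻¹ * cl (pr v ^ 4 * (idl c1)⁻¹) =
      cl (((pr v)⁻¹) ^ 4 * (idl (cj τ c1))⁻¹) := by
    rw [cl_mul, cl_mul, cl_pow, cl_pow, cl_inv, cl_inv, cl_inv, cl_cj7 hb hS hτ (oddI_ne7 hc1),
      inv_inv, ← mul_assoc]
    exact grp1 hcl
  rw [h2] at h1
  exact h1

/-- the product of `Z c0` and its conjugate -/
theorem z_iota (hb : Base K a s) (hS : algebraMap (𝓞 K) K S = s) (hτ : τ S = -S)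
    (h : D7 K F a d x y s S τ v v' ζ w m m' W W' Z Z' κ) {b k : Ideal (𝓞 K)} {ι : F ≃ₐ[ℚ] F}
    (hιZ : ∀ c, OddI c → ι (Z c) = Z' (b * cj τ c)) (hbo : OddI b) (hk : OddI k) {δ : 𝓞 K}
    {n : ℤ} (hn : Odd n) (hδ : b * k ^ 2 = Ideal.span {δ})
    (hδn : δ - (n : 𝓞 K) ∈ v'.asIdeal ^ 5) {c1 : Ideal (𝓞 K)} (hc1 : OddI c1)
    (hcl : cl (idl c1) ^ 2 = cl (pr v) ^ 7) :
    Z (cj τ k * c1) * ι (Z (cj τ k * c1)) = (e8 n : ℤ) * (ζ + ζ ^ 7) := by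
  have hg : OddI (cj τ k) := (oddI_cj7 hb hS hτ).2 hk
  have hcj : OddI (cj τ c1) := (oddI_cj7 hb hS hτ).2 hc1
  have hpos := h.pos c1 hc1 (zz_sq hb hS hτ h hc1 hcl)
  obtain ⟨σ, hσz, hσ⟩ := h.mov _ hg
  have h1 : Z (cj τ k * c1) * Z' (cj τ k * cj τ c1) =
      (e8 (Ideal.absNorm (cj τ k)) : ℤ) * (ζ + ζ ^ 7) := by
    rw [← (hσ c1 hc1).1, ← (hσ _ hcj).2, ← map_mul, hpos, map_add, map_pow, hσz]
    exact zeta_odd h.z8 hg
  have hδo : OddI (Ideal.span {δ}) := by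
    rw [← hδ, pow_two]
    exact oddI_mul7.2 ⟨hbo, oddI_mul7.2 ⟨hk, hk⟩⟩
  have hko : OddI (b * (k * cj τ c1)) := oddI_mul7.2 ⟨hbo, oddI_mul7.2 ⟨hk, hcj⟩⟩
  have hN : Ideal.span {((Ideal.absNorm (cj τ k) : ℕ) : 𝓞 K)} = cj τ k * k := by
    have h2 := (norm_cj7 hb hS hτ (cj τ k)).2.1
    rw [(norm_cj7 hb hS hτ k).2.2] at h2
    exact h2.symm
  have hNo : OddI (Ideal.span {(((Ideal.absNorm (cj τ k) : ℕ) : ℤ) : 𝓞 K)}) := by
    rw [Int.cast_natCast, hN]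
    exact oddI_mul7.2 ⟨hg, hk⟩
  have hNodd : Odd ((Ideal.absNorm (cj τ k) : ℕ) : ℤ) := by
    exact_mod_cast hg
  have h2 := h.zp' (((Ideal.absNorm (cj τ k) : ℕ) : ℤ) : 𝓞 K) _ hNodd (by
    rw [sub_self]
    exact Submodule.zero_mem _) hNo _ hko
  have h3 := h.zp' δ n hn hδn hδo _ (oddI_mul7.2 ⟨hg, hcj⟩)
  have h4 : Ideal.span {(((Ideal.absNorm (cj τ k) : ℕ) : ℤ) : 𝓞 K)} * (b * (k * cj τ c1)) =
      Ideal.span {δ} * (cj τ k * cj τ c1) := by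
    rw [Int.cast_natCast, hN, ← hδ]
    ring
  rw [h4, h3] at h2
  have h5 : ι (Z (cj τ k * c1)) = Z' (b * (k * cj τ c1)) := by
    rw [hιZ _ (oddI_mul7.2 ⟨hg, hc1⟩), cj_mul7, (norm_cj7 hb hS hτ k).2.2]
  rw [h5]
  have h6 : ((e8 (Ideal.absNorm (cj τ k)) : ℤ) : F) * ((e8 (Ideal.absNorm (cj τ k)) : ℤ) : F) = 1 := by
    exact_mod_cast congrArg (fun z : ℤ => (z : F)) e8_sq
  have h7 : Z' (b * (k * cj τ c1)) = (e8 (Ideal.absNorm (cj τ k)) : ℤ) *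
      ((e8 n : ℤ) * Z' (cj τ k * cj τ c1)) := by
    linear_combination (-((e8 (Ideal.absNorm (cj τ k)) : ℤ) : F)) * h2 -
      Z' (b * (k * cj τ c1)) * h6
  rw [h7]
  calc Z (cj τ k * c1) * (((e8 (Ideal.absNorm (cj τ k)) : ℤ) : F) *
        ((e8 n : ℤ) * Z' (cj τ k * cj τ c1)))
      = ((e8 (Ideal.absNorm (cj τ k)) : ℤ) : F) * (e8 n : ℤ) *
        (Z (cj τ k * c1) * Z' (cj τ k * cj τ c1)) := by ring
    _ = (((e8 (Ideal.absNorm (cj τ k)) : ℤ) : F) * ((e8 (Ideal.absNorm (cj τ k)) : ℤ) : F)) *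
        ((e8 n : ℤ) * (ζ + ζ ^ 7)) := by rw [h1]; ring
    _ = (e8 n : ℤ) * (ζ + ζ ^ 7) := by rw [h6, one_mul]

/-- the value of `W'` at the fixed class modulo `L` -/
theorem value7 (hb : Base K a s) (hS : algebraMap (𝓞 K) K S = s) (hτ : τ S = -S)
    (h : D7 K F a d x y s S τ v v' ζ w m m' W W' Z Z' κ) {b k : Ideal (𝓞 K)} {ι : F ≃ₐ[ℚ] F}
    (hιZ : ∀ c, OddI c → ι (Z c) = Z' (b * cj τ c))
    (hιW : ∀ C, ι (W C) = W' (cl (idl b)⁻¹ * C⁻¹)) (hbo : OddI b) (hk : OddI k) {δ : 𝓞 K}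
    {n : ℤ} (hn : Odd n) (hδ : b * k ^ 2 = Ideal.span {δ})
    (hδn : δ - (n : 𝓞 K) ∈ v'.asIdeal ^ 5) {c1 : Ideal (𝓞 K)} (hc1 : OddI c1)
    (hcl : cl (idl c1) ^ 2 = cl (pr v) ^ 7) (hbk : cl (idl b) * cl (idl k) ^ 2 = 1)
    (hιm : ι m = (e8 n : ℤ) * m') {c : ℕ} (hxy : x ^ 2 + a * y ^ 2 = 8 * (c : ℤ) ^ 2)
    {Γ : Type} [LinearOrderedCommGroupWithZero Γ] {V : Valuation F Γ} {L : Ideal (𝓞 F)}
    (hV : K6.VL V L) (h2 : V 2 = 1) (hVs : V (algebraMap K F s) < 1)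
    (hVι : ∀ z : F, V z ≤ 1 → V (ι z - z) < 1) :
    V (2 * ((c : ℤ) : F) * (1 + W' (cl (pr v) ^ 3 * (cl (idl (cj τ k * c1)))⁻¹) ^ 2) - (x : F)) < 1 := by
  have hg : OddI (cj τ k) := (oddI_cj7 hb hS hτ).2 hk
  have hc0 : OddI (cj τ k * c1) := oddI_mul7.2 ⟨hg, hc1⟩
  have hz := z_iota hb hS hτ h hιZ hbo hk hn hδ hδn hc1 hcl
  set c0 := cj τ k * c1 with hc0def
  -- the class of `c0`
  have hcl0 : cl (idl c0) ^ 2 = cl (pr v) ^ 7 * cl (idl b) := by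
    rw [hc0def, idl_mul (oddI_ne7 hg) (oddI_ne7 hc1), cl_mul, cl_cj7 hb hS hτ (oddI_ne7 hk)]
    exact grp4 hbk hcl
  have hW0 : ι (W (cl (pr v ^ 4 * (idl c0)⁻¹))) = W' (cl (pr v) ^ 3 * (cl (idl c0))⁻¹) := by
    rw [hιW, cl_mul, cl_pow, cl_inv, cl_inv]
    exact congrArg W' (grp2 hcl0)
  set C0 := cl (pr v) ^ 3 * (cl (idl c0))⁻¹ with hC0
  -- units
  have hu := wrel_unit h.id.rel V h2 (cl (pr v ^ 4 * (idl c0)⁻¹))
  have hu0 := wrel_unit h.id.rel V h2 C0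
  have hVZ : V (Z c0) = 1 := by
    have h3 : V (Z c0) ^ 2 = 1 := by
      rw [← map_pow, h.z1 c0 hc0]
      exact hu.2.2.1
    exact le_antisymm ((pow_le_one_iff two_ne_zero).1 h3.le)
      ((one_le_pow_iff two_ne_zero).1 h3.ge)
  have hint : ∀ z : ℤ, V (z : F) ≤ 1 := by
    intro z
    have h3 := hV.int (z : 𝓞 F)
    rwa [map_intCast] at h3
  have hnat : V ((c : ℤ) : F) ≤ 1 := hint _
  have hm2 := h.hm
  have hVm : V m ≤ 1 := by
    have h3 : V (2 * m ^ 2) ≤ 1 := by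
      rw [hm2]
      refine (V.map_add _ _).trans (max_le (hint x) ?_)
      rw [map_mul]
      exact mul_le_one' (hint y) hVs.le
    rw [map_mul, h2, one_mul, map_pow] at h3
    exact (pow_le_one_iff (two_ne_zero)).1 h3
  -- the product of `m` and its conjugate
  have hs2 : (algebraMap K F s) ^ 2 = -(a : F) := by
    rw [← map_pow, hb.sq, map_neg, map_natCast]
  have hm2' : 2 * m' ^ 2 = (x : F) - y * algebraMap K F s := by
    have h3 := congrArg κ hm2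
    rw [map_mul, map_pow, map_add, map_mul, map_intCast, map_intCast, h.id.cs, h.cm.1,
      map_ofNat] at h3
    linear_combination h3
  have hxyF : (x : F) ^ 2 + (a : F) * (y : F) ^ 2 = 8 * (c : F) ^ 2 := by
    exact_mod_cast congrArg (fun z : ℤ => (z : F)) hxy
  have hmm : m * m' = c * (ζ + ζ ^ 7) := by
    apply h.mpos
    have h4 : (4 : F) ≠ 0 := by norm_num
    apply mul_left_cancel₀ h4
    linear_combination (2 * m' ^ 2) * hm2 + ((x : F) + y * algebraMap K F s) * hm2' + hxyF -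
      (y : F) ^ 2 * hs2
  have hprod : (c : F) * (Z c0 * ι (Z c0)) = m * ι m := by
    rw [hz, hιm]
    linear_combination (-((e8 n : ℤ) : F)) * hmm
  -- valuations
  have hVc : V (c : F) ≤ 1 := by
    have := hint (c : ℤ)
    rwa [Int.cast_natCast] at this
  have h3 : V ((c : F) * Z c0 ^ 2 - m ^ 2) < 1 := by
    have e : (c : F) * Z c0 ^ 2 - m ^ 2 = m * (ι m - m) + -((c : F) * Z c0 * (ι (Z c0) - Z c0)) := by
      linear_combination hprod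
    rw [e]
    refine lt_of_le_of_lt (V.map_add _ _) (max_lt ?_ ?_)
    · rw [map_mul]
      exact mlt hVm (hVι m hVm)
    · rw [Valuation.map_neg, map_mul, map_mul, hVZ, mul_one]
      exact mlt hVc (hVι _ hVZ.le)
  have h4 : V (W' C0 - W (cl (pr v ^ 4 * (idl c0)⁻¹))) < 1 := by
    rw [← hW0]
    exact hVι _ hu.1.le
  have h5 : V (W' C0 ^ 2 - W (cl (pr v ^ 4 * (idl c0)⁻¹)) ^ 2) < 1 := by
    have e : W' C0 ^ 2 - W (cl (pr v ^ 4 * (idl c0)⁻¹)) ^ 2 =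
        (W' C0 + W (cl (pr v ^ 4 * (idl c0)⁻¹))) * (W' C0 - W (cl (pr v ^ 4 * (idl c0)⁻¹))) := by
      ring
    rw [e, map_mul]
    exact mlt ((V.map_add _ _).trans (max_le hu0.2.1.le hu.1.le)) h4
  have e : 2 * ((c : ℤ) : F) * (1 + W' C0 ^ 2) - (x : F) =
      2 * ((c : F) * Z c0 ^ 2 - m ^ 2) + (2 * (c : F) * (W' C0 ^ 2 -
        W (cl (pr v ^ 4 * (idl c0)⁻¹)) ^ 2) + y * algebraMap K F s) := by
    rw [h.z1 c0 hc0, Int.cast_natCast]
    linear_combination hm2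
  rw [e]
  refine lt_of_le_of_lt (V.map_add _ _) (max_lt ?_ ?_)
  · rw [map_mul, h2, one_mul]
    exact h3
  · refine lt_of_le_of_lt (V.map_add _ _) (max_lt ?_ ?_)
    · rw [map_mul, map_mul, h2, one_mul]
      exact mlt hVc h5
    · rw [map_mul]
      exact mlt (hint y) hVs

end Pool.Agent.Work.MP_8efaaa_nt.K7
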