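import Mathlib
import Pool.Agent.Work.MP_8efaaa_nt.K7.Defs
import Pool.Agent.Work.MP_8efaaa_nt.K7.ATu
import Pool.Agent.Work.MP_8efaaa_nt.N7.ACj
import Pool.Agent.Work.MP_8efaaa_nt.N5.BCjB
import Pool.Agent.Work.MP_8efaaa_nt.R.SE

/-!
# K7/ACj (M): complex conjugation of `z7`

Models `K6/ACj`, `N5/BCjA`, `N5/BCjB` (conjugation of `fz M w` : the conjugate lattice and point), `N7/ACj` (the lattices): the conjugate of `lat (pr v ^ 5 * (idl c)⁻¹)` is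
`lat (pr v' ^ 5 * (idl (cj τ c))⁻¹)` (`conj_tau7`, `cj_v7`, `mem_lat`, `mem_inv_idl`), the conjugate of `1` is `1`.
-/

set_option autoImplicit false

namespace Pool.Agent.Work.MP_8efaaa_nt.K7

open IsDedekindDomain NumberField Pool.Agent.Work.MP_787500_nt.HC
open Pool.Agent.Work.MP_8efaaa_nt.T Pool.Agent.Work.MP_8efaaa_nt.R
open Pool.Agent.Work.MP_8efaaa_nt.N5 Pool.Agent.Work.MP_8efaaa_nt.N7
open scoped nonZeroDivisors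

variable {K : Type*} [Field K] [NumberField K] [Algebra K ℂ] {a : ℕ} {s : K} {S : 𝓞 K}
  {τ : 𝓞 K ≃+* 𝓞 K} {v v' : HeightOneSpectrum (𝓞 K)} {c : Ideal (𝓞 K)}

private theorem acj7_ne {c : Ideal (𝓞 K)} {v : HeightOneSpectrum (𝓞 K)}
    (hv : (2 : 𝓞 K) ∈ v.asIdeal) (hc : Nat.Coprime (Ideal.absNorm c) 2) : ¬ c ≤ v.asIdeal := by
  intro h
  have h1 : ((Ideal.absNorm c : ℕ) : 𝓞 K) ∈ v.asIdeal := h (Ideal.absNorm_mem c)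
  have h2 : IsCoprime ((Ideal.absNorm c : ℕ) : ℤ) ((2 : ℕ) : ℤ) := Nat.isCoprime_iff_coprime.2 hc
  obtain ⟨x, y, hxy⟩ := h2
  have h3 : ((x : ℤ) : 𝓞 K) * ((Ideal.absNorm c : ℕ) : 𝓞 K) + ((y : ℤ) : 𝓞 K) * 2 = 1 := by
    have := congrArg (Int.cast : ℤ → 𝓞 K) hxy
    push_cast at this
    exact this
  refine v.isPrime.ne_top ((Ideal.eq_top_iff_one _).2 ?_)
  rw [← h3]
  exact v.asIdeal.add_mem (v.asIdeal.mul_mem_left _ h1) (v.asIdeal.mul_mem_left _ hv)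

private theorem acj7_pow (v : HeightOneSpectrum (𝓞 K)) (n : ℕ) (x : K) :
    x ∈ ((pr v ^ n : Idl K) : FractionalIdeal (𝓞 K)⁰ K) ↔
      ∃ u ∈ v.asIdeal ^ n, algebraMap (𝓞 K) K u = x := by
  rw [Units.val_pow_eq_pow_val]
  unfold pr
  rw [Units.val_mk0, ← FractionalIdeal.coeIdeal_pow]
  exact FractionalIdeal.mem_coeIdeal _

private theorem acj7_mem {τ : 𝓞 K ≃+* 𝓞 K}
    (hτ : ∀ x : 𝓞 K, (starRingEnd ℂ) (algebraMap K ℂ (algebraMap (𝓞 K) K x)) =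
      algebraMap K ℂ (algebraMap (𝓞 K) K (τ x))) {c : Ideal (𝓞 K)} (hc : c ≠ ⊥)
    (hc' : c.map (τ : 𝓞 K →+* 𝓞 K) ≠ ⊥)
    (hv : v.asIdeal.map (τ : 𝓞 K →+* 𝓞 K) = v'.asIdeal) {x x' : K}
    (hx : x ∈ ((pr v ^ 5 * (idl c)⁻¹ : Idl K) : FractionalIdeal (𝓞 K)⁰ K))
    (hxx : algebraMap K ℂ x' = (starRingEnd ℂ) (algebraMap K ℂ x)) :
    x' ∈ ((pr v' ^ 5 * (idl (c.map (τ : 𝓞 K →+* 𝓞 K)))⁻¹ : Idl K) :
      FractionalIdeal (𝓞 K)⁰ K) := by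
  rw [mem_inv_idl hc']
  intro y' hy'
  obtain ⟨y, hy, rfl⟩ := (Ideal.mem_map_iff_of_surjective (τ : 𝓞 K →+* 𝓞 K) τ.surjective).1 hy'
  have h1 := (mem_inv_idl hc _ x).1 hx y hy
  rw [acj7_pow] at h1 ⊢
  obtain ⟨u, hu, hu2⟩ := h1
  refine ⟨τ u, ?_, ?_⟩
  · rw [← hv, ← Ideal.map_pow]
    exact Ideal.mem_map_of_mem (τ : 𝓞 K →+* 𝓞 K) hu
  · apply (algebraMap K ℂ).injective
    rw [← hτ, hu2, map_mul, map_mul, map_mul, hxx, hτ]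
    rfl

private theorem acj7_ex {τ : 𝓞 K ≃+* 𝓞 K}
    (hτ : ∀ x : 𝓞 K, (starRingEnd ℂ) (algebraMap K ℂ (algebraMap (𝓞 K) K x)) =
      algebraMap K ℂ (algebraMap (𝓞 K) K (τ x))) (x : K) :
    ∃ x' : K, algebraMap K ℂ x' = (starRingEnd ℂ) (algebraMap K ℂ x) := by
  obtain ⟨n, d, hd, rfl⟩ := IsFractionRing.div_surjective (A := 𝓞 K) x
  refine ⟨algebraMap (𝓞 K) K (τ n) / algebraMap (𝓞 K) K (τ d), ?_⟩
  rw [map_div₀, map_div₀, map_div₀, hτ, hτ]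

private theorem acj7_lat {τ : 𝓞 K ≃+* 𝓞 K} (hττ : ∀ x, τ (τ x) = x)
    (hτ : ∀ x : 𝓞 K, (starRingEnd ℂ) (algebraMap K ℂ (algebraMap (𝓞 K) K x)) =
      algebraMap K ℂ (algebraMap (𝓞 K) K (τ x))) {c : Ideal (𝓞 K)} (hc : c ≠ ⊥)
    (hc' : c.map (τ : 𝓞 K →+* 𝓞 K) ≠ ⊥)
    (hv : v.asIdeal.map (τ : 𝓞 K →+* 𝓞 K) = v'.asIdeal)
    (hv' : v'.asIdeal.map (τ : 𝓞 K →+* 𝓞 K) = v.asIdeal) :
    cjL (lat (pr v ^ 5 * (idl c)⁻¹)) =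
      lat (pr v' ^ 5 * (idl (c.map (τ : 𝓞 K →+* 𝓞 K)))⁻¹) := by
  have hcc : (c.map (τ : 𝓞 K →+* 𝓞 K)).map (τ : 𝓞 K →+* 𝓞 K) = c := by
    rw [Ideal.map_map]
    have : (τ : 𝓞 K →+* 𝓞 K).comp (τ : 𝓞 K →+* 𝓞 K) = RingHom.id _ := by
      ext x
      simp [hττ]
    rw [this, Ideal.map_id]
  ext z
  rw [mem_cjL, mem_lat, mem_lat]
  constructor
  · rintro ⟨x, hx, hz⟩
    obtain ⟨x', hx'⟩ := acj7_ex hτ x
    refine ⟨x', acj7_mem hτ hc hc' hv hx hx', ?_⟩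
    rw [hx', hz, Complex.conj_conj]
  · rintro ⟨x, hx, hz⟩
    obtain ⟨x', hx'⟩ := acj7_ex hτ x
    refine ⟨x', ?_, by rw [hx', hz]⟩
    have h1 := acj7_mem (v := v') (v' := v) hτ hc' (by rw [hcc]; exact hc) hv' hx hx'
    rw [hcc] at h1
    exact h1

theorem conj_z7 (hb : Base K a s) (hS : algebraMap (𝓞 K) K S = s) (hτ : τ S = -S) (hne : v ≠ v')
    (hv : (2 : 𝓞 K) ∈ v.asIdeal) (hv' : (2 : 𝓞 K) ∈ v'.asIdeal) (hc : OddI c) :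
    (starRingEnd ℂ) (z7 v c) = z7 v' (cj τ c) := by
  have hN : Nat.Coprime (Ideal.absNorm c) 2 := Nat.coprime_two_right.2 hc
  have hc0 : c ≠ ⊥ := by
    rintro rfl
    unfold OddI at hc
    rw [Ideal.absNorm_bot] at hc
    exact absurd hc (by decide)
  have hc' : c.map (τ : 𝓞 K →+* 𝓞 K) ≠ ⊥ := fun h0 =>
    hc0 ((Ideal.map_eq_bot_iff_of_injective (f := (τ : 𝓞 K →+* 𝓞 K)) τ.injective).1 h0)
  have hv1 : v.asIdeal.map (τ : 𝓞 K →+* 𝓞 K) = v'.asIdeal := cj_v7 hb hS hτ hne hv hv'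
  have hv2 : v'.asIdeal.map (τ : 𝓞 K →+* 𝓞 K) = v.asIdeal := cj_v7 hb hS hτ hne.symm hv' hv
  have n1 : ¬ c ≤ v.asIdeal := acj7_ne hv hN
  unfold z7
  rw [(conj_f (fr_chain hb hv n1).1).2.1,
    acj7_lat (tau_tau7 hb hS hτ) (conj_tau7 hb hS hτ) hc0 hc' hv1 hv2, map_one]
  rfl

end Pool.Agent.Work.MP_8efaaa_nt.K7
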