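import Mathlib
import Pool.Agent.Work.MP_8efaaa_nt.K7.Defs
import Pool.Agent.Work.MP_8efaaa_nt.N7.AFv
import Pool.Agent.Work.MP_8efaaa_nt.N7.AFr
import Pool.Agent.Work.MP_8efaaa_nt.N7.IBas
import Pool.Agent.Work.MP_8efaaa_nt.R.SE
import Pool.Agent.Work.MP_8efaaa_nt.R.SG

/-!
# K7/AZb (S-M): the function `z7`: its square, principal ideals

`M = lat (pr v ^ 5 * (idl c)⁻¹)`, `w = 1`; `fr_chain` (N7/AFr), `f_wv` (N7/AFv). `z7_sq`: `fz_sqE` (R/SE) and `f_wv`. `z7_ne`: `fz_neE`. `z7_span`: `lat (pr v ^ 5 * (idl ((δ) c))⁻¹) = (em δ)⁻¹ • M`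
(`idl_mul`, `idl_span`, `mem_lat`; also `lat_prin` or similar in HC), so `z7 v ((δ) c) = fz ((em δ)⁻¹ • M) ((em δ)⁻¹ * em δ) = fz M (em δ)` (`f_smulE`, R/SG; needs `Fr M (em δ)`, which follows from
`Fr M 1` and `em δ - n ∈ M`, `n` odd: `32 δ ∈ M`, `16 δ ∉ M`), and `f_oddE` with `w' = em δ`, `w = 1`, `d = n`: `δ - n ∈ v ^ 5`, `v ^ 5 ≤ v ^ 5 c⁻¹`.
-/

set_option autoImplicit false

namespace Pool.Agent.Work.MP_8efaaa_nt.K7

open IsDedekindDomain NumberField Pool.Agent.Work.MP_787500_nt.HC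
open Pool.Agent.Work.MP_8efaaa_nt.T Pool.Agent.Work.MP_8efaaa_nt.R
open Pool.Agent.Work.MP_8efaaa_nt.N5 Pool.Agent.Work.MP_8efaaa_nt.N7
open scoped nonZeroDivisors

variable {K : Type*} [Field K] [NumberField K] [Algebra K ℂ] {a : ℕ} {s : K}
  {v : HeightOneSpectrum (𝓞 K)} {c : Ideal (𝓞 K)}

omit [Algebra K ℂ] in
private theorem azb_nle (hv : (2 : 𝓞 K) ∈ v.asIdeal) (hc : OddI c) : ¬ c ≤ v.asIdeal := by
  intro hle
  obtain ⟨k, hk⟩ := hc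
  have h1 : ((Ideal.absNorm c : ℕ) : 𝓞 K) ∈ v.asIdeal := hle (Ideal.absNorm_mem _)
  apply v.isPrime.ne_top
  rw [Ideal.eq_top_iff_one]
  have h3 : (1 : 𝓞 K) = ((Ideal.absNorm c : ℕ) : 𝓞 K) - (k : 𝓞 K) * 2 := by
    rw [hk]
    push_cast
    ring
  rw [h3]
  exact v.asIdeal.sub_mem h1 (v.asIdeal.mul_mem_left _ hv)

omit [Algebra K ℂ] in
private theorem azb_pow (v : HeightOneSpectrum (𝓞 K)) (k : ℕ) :
    ((pr v ^ k : Idl K) : FractionalIdeal (𝓞 K)⁰ K) =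
      ((v.asIdeal ^ k : Ideal (𝓞 K)) : FractionalIdeal (𝓞 K)⁰ K) := by
  rw [Units.val_pow_eq_pow_val, FractionalIdeal.coeIdeal_pow]
  rfl

private theorem azb_lat {c : Ideal (𝓞 K)} {δ : 𝓞 K} (hδ0 : δ ≠ 0) (hc0 : c ≠ ⊥) (I : Idl K)
    (z : ℂ) : z ∈ lat (I * (idl (Ideal.span {δ} * c))⁻¹) ↔
      algebraMap K ℂ (algebraMap (𝓞 K) K δ) * z ∈ lat (I * (idl c)⁻¹) := by
  have hsp : Ideal.span {δ} ≠ ⊥ := by
    rw [Ne, Ideal.span_singleton_eq_bot]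
    exact hδ0
  have e : (I * (idl (Ideal.span {δ} * c))⁻¹ : Idl K) =
      I * (idl c)⁻¹ * (idl (Ideal.span {δ}))⁻¹ := by
    rw [idl_mul hsp hc0, mul_inv_rev, mul_assoc]
  rw [e, mem_lat, mem_lat]
  constructor
  · rintro ⟨x, hx, rfl⟩
    refine ⟨x * algebraMap (𝓞 K) K δ,
      (mem_inv_idl hsp _ _).1 hx δ (Ideal.mem_span_singleton_self δ), ?_⟩
    rw [map_mul, mul_comm]
  · rintro ⟨x, hx, hxz⟩
    have hl0 : algebraMap (𝓞 K) K δ ≠ 0 := by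
      rw [Ne, FaithfulSMul.algebraMap_eq_zero_iff]
      exact hδ0
    refine ⟨x * (algebraMap (𝓞 K) K δ)⁻¹, ?_, ?_⟩
    · rw [mem_inv_idl hsp]
      intro y hy
      obtain ⟨y', rfl⟩ := Ideal.mem_span_singleton'.1 hy
      have h5 := ((I * (idl c)⁻¹ : Idl K) : FractionalIdeal (𝓞 K)⁰ K).1.smul_mem y' hx
      rw [Algebra.smul_def] at h5
      have e2 : x * (algebraMap (𝓞 K) K δ)⁻¹ * algebraMap (𝓞 K) K (y' * δ) =
          algebraMap (𝓞 K) K y' * x := by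
        rw [map_mul]
        field_simp
      rw [e2]
      exact h5
    · have hD0 : algebraMap K ℂ (algebraMap (𝓞 K) K δ) ≠ 0 := by
        rw [Ne, FaithfulSMul.algebraMap_eq_zero_iff]
        exact hl0
      rw [map_mul, hxz, map_inv₀, mul_comm, ← mul_assoc, inv_mul_cancel₀ hD0, one_mul]

open scoped Pointwise in
private theorem azb_fz {c : Ideal (𝓞 K)} {δ : 𝓞 K} (hδ0 : δ ≠ 0) (hc0 : c ≠ ⊥) (I : Idl K)
    (hF : Fr (lat (I * (idl (Ideal.span {δ} * c))⁻¹)) 1) :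
    fz (lat (I * (idl (Ideal.span {δ} * c))⁻¹)) 1 =
      fz (lat (I * (idl c)⁻¹)) (algebraMap K ℂ (algebraMap (𝓞 K) K δ)) := by
  have hD0 : algebraMap K ℂ (algebraMap (𝓞 K) K δ) ≠ 0 := by
    rw [Ne, FaithfulSMul.algebraMap_eq_zero_iff, FaithfulSMul.algebraMap_eq_zero_iff]
    exact hδ0
  have hM : (algebraMap K ℂ (algebraMap (𝓞 K) K δ)) •
      lat (I * (idl (Ideal.span {δ} * c))⁻¹) = lat (I * (idl c)⁻¹) := by
    ext z
    obtain ⟨y, rfl⟩ : ∃ y, z = algebraMap K ℂ (algebraMap (𝓞 K) K δ) * y :=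
      ⟨(algebraMap K ℂ (algebraMap (𝓞 K) K δ))⁻¹ * z, by
        rw [← mul_assoc, mul_inv_cancel₀ hD0, one_mul]⟩
    rw [Pool.Agent.Work.CM.mem_smul_iff hD0]
    exact azb_lat hδ0 hc0 _ y
  have h1 := (f_smulE hF hD0).1
  rw [hM, mul_one] at h1
  exact h1.symm

theorem z7_sq (hb : Base K a s) (hv : (2 : 𝓞 K) ∈ v.asIdeal) (hc : OddI c) :
    z7 v c ^ 2 = 1 + wv (pr v) (eV v) (pr v ^ 4 * (idl c)⁻¹) ^ 2 := by
  have hc' := azb_nle hv hc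
  unfold z7
  rw [fz_sqE (fr_chain hb hv hc').1, (f_wv hb hv hc').1]

theorem z7_ne (hb : Base K a s) (hv : (2 : 𝓞 K) ∈ v.asIdeal) (hc : OddI c) : z7 v c ≠ 0 :=
  fz_neE (fr_chain hb hv (azb_nle hv hc)).1

theorem z7_span (hb : Base K a s) (hv : (2 : 𝓞 K) ∈ v.asIdeal) (hc : OddI c) {δ : 𝓞 K} {n : ℤ}
    (hn : Odd n) (hδ : δ - (n : 𝓞 K) ∈ v.asIdeal ^ 5) (hδo : OddI (Ideal.span {δ})) :
    z7 v (Ideal.span {δ} * c) = (e8 n : ℤ) * z7 v c := by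
  have hc0 := hc.ne_bot
  have hδ0 : δ ≠ 0 := by
    rintro rfl
    exact hδo.ne_bot (Ideal.span_singleton_eq_bot.2 rfl)
  have hoc : OddI (Ideal.span {δ} * c) := hδo.mul hc
  have hF := (fr_chain hb hv (azb_nle hv hc)).1
  have hF' := (fr_chain hb hv (azb_nle hv hoc)).1
  have hmem : algebraMap K ℂ (algebraMap (𝓞 K) K δ) - (n : ℂ) * 1 ∈
      lat (pr v ^ 5 * (idl c)⁻¹) := by
    rw [mem_lat]
    refine ⟨algebraMap (𝓞 K) K (δ - n), ?_, ?_⟩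
    · rw [mem_inv_idl hc0]
      intro y _
      rw [azb_pow, FractionalIdeal.mem_coeIdeal]
      exact ⟨(δ - n) * y, (v.asIdeal ^ 5).mul_mem_right _ hδ, by rw [map_mul]⟩
    · rw [map_sub, map_intCast, map_sub, map_intCast, mul_one]
  unfold z7
  rw [azb_fz hδ0 hc0 _ hF', (f_oddE hF hn hmem).1]

end Pool.Agent.Work.MP_8efaaa_nt.K7
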