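import Mathlib
import Pool.Agent.Work.MP_8efaaa_nt.K7.Defs
import Pool.Agent.Work.MP_8efaaa_nt.N7.AKr
import Pool.Agent.Work.MP_8efaaa_nt.R.BInt
import Pool.Agent.Work.MP_8efaaa_nt.R.CKrA
import Pool.Agent.Work.MP_8efaaa_nt.N7.AFv

/-!
# K7/AKz (M): the Kronecker congruence for `z7` at the primes not dividing `a`

Copy of `N7/AKr.lean` (the same lattices and the same theorem `kron` of R/BInt, now the part for `fz`; in `w_kron` the part for `fv` is used).
-/

set_option autoImplicit false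

namespace Pool.Agent.Work.MP_8efaaa_nt.K7

open IsDedekindDomain NumberField Pool.Agent.Work.MP_787500_nt.HC
open Pool.Agent.Work.MP_8efaaa_nt.T Pool.Agent.Work.MP_8efaaa_nt.R
open Pool.Agent.Work.MP_8efaaa_nt.N5 Pool.Agent.Work.MP_8efaaa_nt.N7
open scoped nonZeroDivisors

variable {K : Type*} [Field K] [NumberField K] [Algebra K ℂ] {a : ℕ} {s : K}
  {v : HeightOneSpectrum (𝓞 K)} {W : ClassGroup (𝓞 K) → ℂ}

omit [Algebra K ℂ] in
private theorem akr_lam {q : Ideal (𝓞 K)} (hq : OddI q) (hq0 : q ≠ ⊥) :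
    ∃ (f : ℕ) (lam t : 𝓞 K), 0 < f ∧ q ^ f = Ideal.span {lam} ∧ lam = 1 + 32 * t := by
  classical
  -- a power is principal
  obtain ⟨h, hh, l0, hl0⟩ : ∃ h : ℕ, 0 < h ∧ ∃ l0 : 𝓞 K, q ^ h = Ideal.span {l0} := by
    have hqm : q ∈ nonZeroDivisors (Ideal (𝓞 K)) := mem_nonZeroDivisors_of_ne_zero hq0
    refine ⟨Fintype.card (ClassGroup (𝓞 K)), Fintype.card_pos, ?_⟩
    have h1 : ClassGroup.mk0 (⟨q, hqm⟩ ^ (Fintype.card (ClassGroup (𝓞 K)))) = 1 := by
      rw [map_pow, pow_card_eq_one]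
    have h2 := (ClassGroup.mk0_eq_one_iff (I := q ^ (Fintype.card (ClassGroup (𝓞 K))))
      (pow_mem hqm _)).1 h1
    obtain ⟨x, hx⟩ := h2.principal
    exact ⟨x, hx⟩
  -- it is a unit modulo 32
  set J : Ideal (𝓞 K) := Ideal.span {(32 : 𝓞 K)} with hJ
  have hJ0 : J ≠ ⊥ := by
    rw [hJ, Ne, Ideal.span_singleton_eq_bot]
    norm_num
  have hfin : Finite (𝓞 K ⧸ J) := Ideal.finiteQuotientOfFreeOfNeBot J hJ0
  have hunit : IsUnit (Ideal.Quotient.mk J l0) := by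
    have hn : ((Ideal.absNorm (q ^ h) : ℕ) : 𝓞 K) ∈ Ideal.span {l0} := by
      rw [← hl0]
      exact Ideal.absNorm_mem _
    obtain ⟨y, hy⟩ := Ideal.mem_span_singleton'.1 hn
    have hodd : Odd (Ideal.absNorm (q ^ h)) := by
      rw [map_pow]
      exact Odd.pow hq
    have hcop : IsCoprime ((Ideal.absNorm (q ^ h) : ℕ) : ℤ) (32 : ℤ) := by
      rw [show (32 : ℤ) = ((32 : ℕ) : ℤ) by norm_num, Nat.isCoprime_iff_coprime,
        show (32 : ℕ) = 2 ^ 5 by norm_num]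
      exact (Nat.Coprime.pow_right 5 (Nat.coprime_two_right.2 hodd))
    obtain ⟨u, v, huv⟩ := hcop
    have h3 : ((u : 𝓞 K) * y) * l0 + (v : 𝓞 K) * 32 = 1 := by
      have h4 := congrArg (Int.cast : ℤ → 𝓞 K) huv
      push_cast at h4
      rw [mul_assoc, hy]
      exact h4
    refine IsUnit.of_mul_eq_one (Ideal.Quotient.mk J ((u : 𝓞 K) * y)) ?_
    rw [← map_mul, ← map_one (Ideal.Quotient.mk J), Ideal.Quotient.eq, hJ,
      Ideal.mem_span_singleton']
    refine ⟨-(v : 𝓞 K), ?_⟩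
    linear_combination -h3
  obtain ⟨U, hU⟩ := hunit
  have : Finite (𝓞 K ⧸ J)ˣ := inferInstance
  have hord : 0 < orderOf U := orderOf_pos U
  have hpow : Ideal.Quotient.mk J (l0 ^ orderOf U) = Ideal.Quotient.mk J 1 := by
    rw [map_pow, ← hU, ← Units.val_pow_eq_pow_val, pow_orderOf_eq_one, Units.val_one, map_one]
  rw [Ideal.Quotient.eq] at hpow
  obtain ⟨t, ht⟩ := Ideal.mem_span_singleton'.1
    (show l0 ^ orderOf U - 1 ∈ Ideal.span {(32 : 𝓞 K)} from hpow)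
  refine ⟨h * orderOf U, l0 ^ orderOf U, t, Nat.mul_pos hh hord, ?_, ?_⟩
  · rw [pow_mul, hl0, Ideal.span_singleton_pow]
  · linear_combination -ht

/-- an integer in `q` is divisible by `l` -/
private theorem akr_int_mem {l : ℕ} (hl : l.Prime) {q : Ideal (𝓞 K)} (hq : q.IsPrime)
    (hql : Ideal.absNorm q = l) {n : ℤ} (hn : (n : 𝓞 K) ∈ q) : (l : ℤ) ∣ n := by
  by_contra hd
  have hcop : IsCoprime (l : ℤ) n :=
    (Int.isCoprime_iff_gcd_eq_one).2 (by
      have := (Int.prime_iff_natAbs_prime.2 (by simpa using hl) : Prime (l : ℤ))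
      exact (Int.isCoprime_iff_gcd_eq_one).1
        ((Prime.coprime_iff_not_dvd this).2 hd))
  obtain ⟨u, v, huv⟩ := hcop
  have hlq : ((l : ℤ) : 𝓞 K) ∈ q := by
    have := Ideal.absNorm_mem q
    rw [hql] at this
    simpa using this
  apply hq.ne_top
  rw [Ideal.eq_top_iff_one]
  have h1 := congrArg (Int.cast : ℤ → 𝓞 K) huv
  push_cast at h1
  rw [← h1]
  refine q.add_mem (q.mul_mem_left _ ?_) (q.mul_mem_left _ hn)
  simpa using hlq

/-- the residue field of `q` has `l` elements: every integer is congruent to a rational one -/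
private theorem akr_exists_int {l : ℕ} (hl : l.Prime) {q : Ideal (𝓞 K)} (hq : q.IsPrime)
    (hql : Ideal.absNorm q = l) (x : 𝓞 K) : ∃ b : ℤ, x - b ∈ q := by
  classical
  have hq0 : q ≠ ⊥ := by
    rintro rfl
    rw [Ideal.absNorm_bot] at hql
    exact hl.ne_zero hql.symm
  have hfin : Finite (𝓞 K ⧸ q) := Ideal.finiteQuotientOfFreeOfNeBot q hq0
  have : Fintype (𝓞 K ⧸ q) := Fintype.ofFinite _
  have hcard : Fintype.card (𝓞 K ⧸ q) = l := by
    rw [← hql, Ideal.absNorm_apply, Submodule.cardQuot_apply, Nat.card_eq_fintype_card]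
  have hchar : CharP (𝓞 K ⧸ q) l := by
    constructor
    intro n
    rw [← map_natCast (Ideal.Quotient.mk q), Ideal.Quotient.eq_zero_iff_mem]
    constructor
    · intro h
      have h1 : (l : ℤ) ∣ (n : ℤ) := akr_int_mem hl hq hql (by simpa using h)
      exact_mod_cast h1
    · rintro ⟨c, rfl⟩
      have h2 := Ideal.absNorm_mem q
      rw [hql] at h2
      push_cast
      exact q.mul_mem_right _ h2
  obtain ⟨z, hz⟩ := (ZMod.castHom_bijective (𝓞 K ⧸ q) hcard).2 (Ideal.Quotient.mk q x)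
  obtain ⟨b, rfl⟩ := ZMod.intCast_surjective z
  refine ⟨b, ?_⟩
  rw [map_intCast] at hz
  rw [← Ideal.Quotient.eq, map_intCast]
  exact hz.symm


private theorem akr_uniq (hb : Base K a s) {G : 𝓞 K} (hG : 2 * algebraMap (𝓞 K) K G = 1 + s)
    {x y : ℤ} (h : (x : 𝓞 K) + y * G = 0) : x = 0 ∧ y = 0 := by
  have ha0 : (0 : ℤ) < a := by
    have := hb.mod
    omega
  have h1 : ((2 * x + y : ℤ) : K) = -(y : K) * s := by
    have h2 := congrArg (algebraMap (𝓞 K) K) h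
    rw [map_add, map_mul, map_intCast, map_intCast, map_zero] at h2
    push_cast
    linear_combination 2 * h2 - (y : K) * hG
  have h3 : ((2 * x + y) ^ 2 : ℤ) = -(a : ℤ) * y ^ 2 := by
    have h4 : (((2 * x + y) ^ 2 : ℤ) : K) = ((-(a : ℤ) * y ^ 2 : ℤ) : K) := by
      have h5 : ((2 * x + y : ℤ) : K) ^ 2 = (-(y : K) * s) ^ 2 := by rw [h1]
      push_cast at h5 ⊢
      rw [h5]
      linear_combination (y : K) ^ 2 * hb.sq
    exact Int.cast_injective h4
  have hy : y = 0 := by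
    by_contra hy
    have : 0 < y ^ 2 := by positivity
    nlinarith [sq_nonneg (2 * x + y)]
  have hx : 2 * x + y = 0 := by
    rw [hy] at h3 ⊢
    simpa using h3
  exact ⟨by omega, hy⟩

private theorem akr_val (hb : Base K a s) {Γ : Type*} [LinearOrderedCommGroupWithZero Γ]
    (V : Valuation ℂ Γ) {l : ℕ} (hl : l.Prime) (hl2 : l ≠ 2) (hla : ¬ l ∣ a)
    {q : Ideal (𝓞 K)} (hq : q.IsPrime) (hql : Ideal.absNorm q = l)
    (hV1 : ∀ x : 𝓞 K, V (algebraMap K ℂ (algebraMap (𝓞 K) K x)) ≤ 1)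
    (hV2 : ∀ x : 𝓞 K, V (algebraMap K ℂ (algebraMap (𝓞 K) K x)) < 1 ↔ x ∈ q) {f : ℕ}
    {lam : 𝓞 K} (hlam : q ^ f = Ideal.span {lam}) :
    V (algebraMap K ℂ (algebraMap (𝓞 K) K lam)) = V (l : ℂ) ^ f := by
  have hlZ : Prime (l : ℤ) := Nat.prime_iff_prime_int.1 hl
  have hq0 : q ≠ ⊥ := by
    rintro rfl
    rw [Ideal.absNorm_bot] at hql
    exact hl.ne_zero hql.symm
  have hqprime : Prime q := Ideal.prime_of_isPrime hq0 hq
  have hlq : (l : 𝓞 K) ∈ q := by
    have := Ideal.absNorm_mem q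
    rwa [hql] at this
  obtain ⟨q1, hq1⟩ : q ∣ Ideal.span {(l : 𝓞 K)} := by
    rw [Ideal.dvd_span_singleton]
    exact hlq
  have hn1 : Ideal.absNorm q1 = l := by
    have h7 := congrArg Ideal.absNorm hq1
    rw [Ideal.absNorm_span_natCast, map_mul, hql, RingOfIntegers.rank, hb.dim, pow_two] at h7
    exact (Nat.eq_of_mul_eq_mul_left hl.pos h7).symm
  have hq1p : q1.IsPrime := Ideal.isPrime_of_irreducible_absNorm (by rw [hn1]; exact hl)
  have hne : q1 ≠ q := by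
    intro he
    rw [he] at hq1
    obtain ⟨G, k, hG, hGG, hall⟩ := Qd.exists_W hb.dim hb.sq hb.sf hb.mod
    have h8k : (8 * k : ℤ) = a + 1 := by
      have h1 : ((8 * k : ℤ) : K) = ((a + 1 : ℤ) : K) := by
        have h2 := congrArg (algebraMap (𝓞 K) K) hGG
        rw [map_mul, map_sub, map_one, map_mul, map_ofNat, map_intCast] at h2
        push_cast
        linear_combination -4 * h2 + (2 * algebraMap (𝓞 K) K G - 1 + s) * (-hG) + hb.sq * (-1)
      exact Int.cast_injective h1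
    obtain ⟨b, hbq⟩ := akr_exists_int hl hq hql G
    have hsq : (G - b) ^ 2 ∈ Ideal.span {(l : 𝓞 K)} := by
      rw [hq1, ← pow_two]
      exact Ideal.pow_mem_pow hbq 2
    obtain ⟨y, hy⟩ := Ideal.mem_span_singleton'.1 hsq
    obtain ⟨p', r', hp'⟩ := hall y
    have h8 : (((b ^ 2 - 2 * k - l * p' : ℤ)) : 𝓞 K) + ((1 - 2 * b - l * r' : ℤ) : 𝓞 K) * G = 0 := by
      push_cast
      rw [hp'] at hy
      linear_combination -hy + hGG
    obtain ⟨h9, h10⟩ := akr_uniq hb hG h8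
    apply hla
    have h11 : (l : ℤ) ∣ (a : ℤ) := by
      refine ⟨r' ^ 2 * l - 2 * r' - 4 * p', ?_⟩
      have e1 : (1 - 2 * b : ℤ) = l * r' := by linarith
      have e2 : (b ^ 2 - 2 * k : ℤ) = l * p' := by linarith
      have e3 : (a : ℤ) = (1 - 2 * b) ^ 2 - 2 * (1 - 2 * b) - 4 * (b ^ 2 - 2 * k) := by
        linear_combination -h8k
      rw [e3, e1, e2]
      ring
    exact_mod_cast h11
  -- the cofactor
  have hmem : ((l : 𝓞 K)) ^ f ∈ Ideal.span {lam} := by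
    rw [← hlam]
    exact Ideal.pow_mem_pow hlq f
  obtain ⟨y, hy⟩ := Ideal.mem_span_singleton'.1 hmem
  have hnot : y ∉ q := by
    intro hyq
    have h1 : q ^ (f + 1) ∣ Ideal.span {(l : 𝓞 K)} ^ f := by
      rw [Ideal.span_singleton_pow, ← hy, ← Ideal.span_singleton_mul_span_singleton, ← hlam,
        pow_succ']
      refine mul_dvd_mul ?_ dvd_rfl
      rw [Ideal.dvd_span_singleton]
      exact hyq
    rw [hq1, mul_pow, pow_succ] at h1
    have h2 : q ∣ q1 ^ f := (mul_dvd_mul_iff_left (pow_ne_zero f hq0)).1 h1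
    have h3 : q ∣ q1 := hqprime.dvd_of_dvd_pow h2
    have h4 : q1 ≤ q := Ideal.dvd_iff_le.1 h3
    have hq10 : q1 ≠ ⊥ := by
      rintro rfl
      rw [Ideal.absNorm_bot] at hn1
      exact hl.ne_zero hn1.symm
    exact hne ((hq1p.isMaximal hq10).eq_of_le hq.ne_top h4)
  have hV' : V (algebraMap K ℂ (algebraMap (𝓞 K) K y)) = 1 := by
    refine le_antisymm (hV1 y) ?_
    by_contra hlt
    exact hnot ((hV2 y).1 (not_le.1 hlt))
  have hem : algebraMap K ℂ (algebraMap (𝓞 K) K y) * algebraMap K ℂ (algebraMap (𝓞 K) K lam) =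
      (l : ℂ) ^ f := by
    rw [← map_mul, ← map_mul, hy, map_pow, map_pow, map_natCast, map_natCast]
  have hfin := congrArg V hem
  rw [map_mul, hV', one_mul, map_pow] at hfin
  exact hfin

private theorem akr_step {l : ℕ} (hl : l.Prime) {q : Ideal (𝓞 K)} (hq : q.IsPrime)
    (hql : Ideal.absNorm q = l) (I : Idl K) :
    ∃ u : ℂ, u ∉ lat I ∧ (l : ℂ) * u ∈ lat I ∧
      lat (I * (idl q)⁻¹) = lat I ⊔ Submodule.span ℤ {u} := by
  have hq0 : q ≠ ⊥ := by
    rintro rfl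
    rw [Ideal.absNorm_bot] at hql
    exact hl.ne_zero hql.symm
  have hqm : q.IsMaximal := hq.isMaximal hq0
  set A : FractionalIdeal (𝓞 K)⁰ K := (I : FractionalIdeal (𝓞 K)⁰ K) with hA
  set Q : FractionalIdeal (𝓞 K)⁰ K := (q : FractionalIdeal (𝓞 K)⁰ K) with hQ
  have hQ' : ((idl q : Idl K) : FractionalIdeal (𝓞 K)⁰ K) = Q := idl_ne hq0
  set B : FractionalIdeal (𝓞 K)⁰ K :=
    ((I * (idl q)⁻¹ : Idl K) : FractionalIdeal (𝓞 K)⁰ K) with hB
  have hA0 : A ≠ 0 := I.ne_zero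
  have hB0 : B ≠ 0 := (I * (idl q)⁻¹ : Idl K).ne_zero
  have hQ0 : Q ≠ 0 := FractionalIdeal.coeIdeal_ne_zero.mpr hq0
  have hBQ : B * Q = A := by
    rw [hB, ← hQ', ← Units.val_mul, inv_mul_cancel_right]
  have hmemB : ∀ x : K, x ∈ B ↔ ∀ y ∈ q, x * algebraMap (𝓞 K) K y ∈ A := fun x =>
    mem_inv_idl hq0 I x
  have hsm : ∀ (t : 𝓞 K) (x : K), x ∈ A → x * algebraMap (𝓞 K) K t ∈ A := by
    intro t x hx
    have := (A : Submodule (𝓞 K) K).smul_mem t hx
    rw [Algebra.smul_def, mul_comm] at this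
    exact this
  have hAB : A ≤ B := fun x hx => (hmemB x).2 fun y _ => hsm y x hx
  obtain ⟨x, hx, hxA⟩ : ∃ x ∈ B, x ∉ A := by
    by_contra hcon
    push Not at hcon
    have hle : B ≤ A := fun x hx => hcon x hx
    have h1 : (1 : FractionalIdeal (𝓞 K)⁰ K) ≤ Q := by
      calc (1 : FractionalIdeal (𝓞 K)⁰ K) = B * B⁻¹ := (mul_inv_cancel₀ hB0).symm
        _ ≤ A * B⁻¹ := mul_le_mul_left hle _
        _ = Q := by rw [← hBQ, mul_comm B Q, mul_assoc, mul_inv_cancel₀ hB0, mul_one]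
    rw [← FractionalIdeal.coeIdeal_top, hQ] at h1
    exact hq.ne_top (top_le_iff.mp ((FractionalIdeal.coeIdeal_le_coeIdeal K).mp h1))
  set J : FractionalIdeal (𝓞 K)⁰ K :=
    A + FractionalIdeal.spanSingleton (𝓞 K)⁰ x with hJ
  have hJle : J ≤ B := by
    rw [hJ, ← FractionalIdeal.sup_eq_add, sup_le_iff]
    exact ⟨hAB, FractionalIdeal.spanSingleton_le_iff_mem.mpr hx⟩
  have hJB : J * B⁻¹ ≤ 1 := by
    calc J * B⁻¹ ≤ B * B⁻¹ := mul_le_mul_left hJle _
      _ = 1 := mul_inv_cancel₀ hB0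
  obtain ⟨I', hI'⟩ := FractionalIdeal.le_one_iff_exists_coeIdeal.mp hJB
  have hABQ : A * B⁻¹ = Q := by rw [← hBQ, mul_comm B Q, mul_assoc, mul_inv_cancel₀ hB0, mul_one]
  have hqI : q ≤ I' := by
    rw [← FractionalIdeal.coeIdeal_le_coeIdeal K, hI', ← hQ]
    calc Q = A * B⁻¹ := hABQ.symm
      _ ≤ J * B⁻¹ := mul_le_mul_left (by rw [hJ]; exact le_self_add) _
  have hJJ : J * B⁻¹ * B = J := by rw [mul_assoc, inv_mul_cancel₀ hB0, mul_one]
  have hIq : I' ≠ q := by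
    intro h
    apply hxA
    rw [h, ← hQ] at hI'
    have : J = A := by
      rw [← hJJ, ← hI', mul_comm, hBQ]
    rw [← this]
    have h2 : FractionalIdeal.spanSingleton (𝓞 K)⁰ x ≤ J := by
      rw [hJ]; exact le_add_self
    exact h2 (FractionalIdeal.mem_spanSingleton_self _ x)
  have hItop : I' = ⊤ := by
    by_contra h
    exact hIq (hqm.eq_of_le h hqI).symm
  have hJeq : J = B := by
    rw [hItop, FractionalIdeal.coeIdeal_top] at hI'
    rw [← hJJ, ← hI', one_mul]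
  have hlx : (l : K) * x ∈ A := by
    have h1 := (hmemB x).1 hx (l : 𝓞 K) (by rw [← hql]; exact Ideal.absNorm_mem q)
    rw [map_natCast, mul_comm] at h1
    exact h1
  refine ⟨algebraMap K ℂ x, ?_, ?_, ?_⟩
  · intro h
    obtain ⟨x', hx', he⟩ := mem_lat.1 h
    have : x' = x := (algebraMap K ℂ).injective he
    rw [this] at hx'
    exact hxA hx'
  · exact mem_lat.2 ⟨(l : K) * x, hlx, by rw [map_mul, map_natCast]⟩
  · apply le_antisymm
    · intro z hz
      obtain ⟨z', hz', rfl⟩ := mem_lat.1 hz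
      have hz2 : z' ∈ B := hz'
      rw [← hJeq, hJ] at hz2
      obtain ⟨y, hy, w, hw, hyw⟩ := (FractionalIdeal.mem_add _ _ _).mp hz2
      obtain ⟨t, ht⟩ := (FractionalIdeal.mem_spanSingleton _).mp hw
      obtain ⟨n, hn⟩ := akr_exists_int hl hq hql t
      have h2 := (hmemB x).1 hx _ hn
      rw [Submodule.mem_sup]
      refine ⟨algebraMap K ℂ (y + x * algebraMap (𝓞 K) K (t - n)),
        mem_lat.2 ⟨_, (A : Submodule (𝓞 K) K).add_mem hy h2, rfl⟩, (n : ℂ) * algebraMap K ℂ x,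
        Submodule.mem_span_singleton.mpr ⟨n, by simp⟩, ?_⟩
      rw [← hyw, ← ht, Algebra.smul_def]
      simp only [map_add, map_mul, map_sub, map_intCast]
      ring
    · rw [sup_le_iff]
      constructor
      · intro z hz
        obtain ⟨z', hz', rfl⟩ := mem_lat.1 hz
        exact mem_lat.2 ⟨z', hAB hz', rfl⟩
      · rw [Submodule.span_singleton_le_iff_mem]
        exact mem_lat.2 ⟨x, hx, rfl⟩

theorem kron_z7 (hb : Base K a s) (hv : (2 : 𝓞 K) ∈ v.asIdeal)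
    (hW : ∀ I, W (cl I) = wv (pr v) (eV v) I)
    {Γ : Type*} [LinearOrderedCommGroupWithZero Γ]
    (V : Valuation ℂ Γ) {l : ℕ} (hl : l.Prime) (hl2 : l ≠ 2) (hla : ¬ l ∣ a)
    {q : Ideal (𝓞 K)} (hq : q.IsPrime) (hql : Ideal.absNorm q = l)
    (hV1 : ∀ x : 𝓞 K, V (algebraMap K ℂ (algebraMap (𝓞 K) K x)) ≤ 1)
    (hV2 : ∀ x : 𝓞 K, V (algebraMap K ℂ (algebraMap (𝓞 K) K x)) < 1 ↔ x ∈ q)
    (hgood : ∀ C, V (1 + W C ^ 2) = 1 ∧ V (1 - W C ^ 2) = 1) {c : Ideal (𝓞 K)} (hc : OddI c) :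
    V (z7 v c) ≤ 1 ∧ V (z7 v (q * c) - z7 v c ^ l) < 1 := by
  have hlo : Odd l := hl.odd_of_ne_two hl2
  have hqo : OddI q := by
    unfold OddI
    rw [hql]
    exact hlo
  have hq0 : q ≠ ⊥ := by
    rintro rfl
    rw [Ideal.absNorm_bot] at hql
    exact hl.ne_zero hql.symm
  obtain ⟨f, lam, t, hf, hlam, ht⟩ := akr_lam hqo hq0
  have hc0 : c ≠ ⊥ := hc.ne_bot
  have hlq : (l : 𝓞 K) ∈ q := by
    rw [← hql]
    exact Ideal.absNorm_mem q
  have h2q : (2 : 𝓞 K) ∉ q := by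
    intro h
    obtain ⟨k, hk⟩ := hlo
    apply hq.ne_top
    rw [Ideal.eq_top_iff_one]
    have h1 : (1 : 𝓞 K) = (l : 𝓞 K) - (k : 𝓞 K) * 2 := by
      rw [hk]
      push_cast
      ring
    rw [h1]
    exact q.sub_mem hlq (q.mul_mem_left _ h)
  have h2 : V 2 = 1 := by
    have h3 := hV1 2
    have h4 := mt (hV2 2).1 h2q
    rw [map_ofNat, map_ofNat] at h3 h4
    exact le_antisymm h3 (not_lt.1 h4)
  have hVl : V (l : ℂ) < 1 := by
    have h3 := (hV2 (l : 𝓞 K)).2 hlq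
    rwa [map_natCast, map_natCast] at h3
  have hlam0' : lam ≠ 0 := by
    intro h3
    rw [h3, Ideal.span_singleton_eq_bot.2 rfl] at hlam
    exact hq0 (pow_eq_zero_iff hf.ne' |>.1 hlam)
  have hlam0 : algebraMap K ℂ (algebraMap (𝓞 K) K lam) ≠ 0 := by
    rw [Ne, FaithfulSMul.algebraMap_eq_zero_iff, FaithfulSMul.algebraMap_eq_zero_iff]
    exact hlam0'
  have hne : ∀ i, q ^ i * c ≠ ⊥ := fun i => mul_ne_zero (pow_ne_zero i hq0) hc0
  have hnle : ∀ i, ¬ q ^ i * c ≤ v.asIdeal := by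
    intro i hle
    have hodd : Odd (Ideal.absNorm (q ^ i * c)) := by
      rw [map_mul, map_pow, hql]
      exact (hlo.pow).mul hc
    obtain ⟨k, hk⟩ := hodd
    have h1 : ((Ideal.absNorm (q ^ i * c) : ℕ) : 𝓞 K) ∈ v.asIdeal := hle (Ideal.absNorm_mem _)
    apply v.isPrime.ne_top
    rw [Ideal.eq_top_iff_one]
    have h3 : (1 : 𝓞 K) = ((Ideal.absNorm (q ^ i * c) : ℕ) : 𝓞 K) - (k : 𝓞 K) * 2 := by
      rw [hk]
      push_cast
      ring
    rw [h3]
    exact v.asIdeal.sub_mem h1 (v.asIdeal.mul_mem_left _ hv)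
  have hFr := fun i => (fr_chain (c := q ^ i * c) hb hv (hnle i)).1
  have hWv := fun i => f_wv (c := q ^ i * c) hb hv (hnle i)
  have hgood' : ∀ i, V (fz (lat (pr v ^ 5 * (idl (q ^ i * c))⁻¹)) 1) = 1 ∧
      V (2 - fz (lat (pr v ^ 5 * (idl (q ^ i * c))⁻¹)) 1 ^ 2) = 1 := by
    intro i
    have h3 := fz_sq (hFr i)
    rw [(hWv i).1, ← hW] at h3
    obtain ⟨g1, g2⟩ := hgood (cl (pr v ^ 4 * (idl (q ^ i * c))⁻¹))
    constructor
    · have h4 : V (fz (lat (pr v ^ 5 * (idl (q ^ i * c))⁻¹)) 1) ^ 2 = 1 := by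
        rw [← map_pow, h3, g1]
      exact (pow_eq_one_iff_of_nonneg zero_le two_ne_zero).1 h4
    · rw [h3]
      have e : (2 : ℂ) - (1 + W (cl (pr v ^ 4 * (idl (q ^ i * c))⁻¹)) ^ 2) =
          1 - W (cl (pr v ^ 4 * (idl (q ^ i * c))⁻¹)) ^ 2 := by ring
      rw [e, g2]
  have hinv : ∀ i, (pr v ^ 5 * (idl (q ^ (i + 1) * c))⁻¹ : Idl K) =
      pr v ^ 5 * (idl (q ^ i * c))⁻¹ * (idl q)⁻¹ := by
    intro i
    rw [pow_succ' q i, mul_assoc q, idl_mul hq0 (hne i), mul_inv_rev, mul_assoc]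
  have key := kron V hl h2 hVl (N := fun i => lat (pr v ^ 5 * (idl (q ^ i * c))⁻¹)) (w := 1)
    hFr
    (fun i => by
      obtain ⟨u, hu1, hu2, hu3⟩ := akr_step hl hq hql (pr v ^ 5 * (idl (q ^ i * c))⁻¹ : Idl K)
      refine ⟨u, hu1, hu2, ?_⟩
      change lat (pr v ^ 5 * (idl (q ^ (i + 1) * c))⁻¹) = _
      rw [hinv i]
      exact hu3) hf hlam0
    (fun z => by
      change z ∈ lat (pr v ^ 5 * (idl (q ^ f * c))⁻¹) ↔
        algebraMap K ℂ (algebraMap (𝓞 K) K lam) * z ∈ lat (pr v ^ 5 * (idl (q ^ 0 * c))⁻¹)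
      rw [pow_zero, one_mul]
      have hsp : Ideal.span {lam} ≠ ⊥ := by
        rw [Ne, Ideal.span_singleton_eq_bot]
        exact hlam0'
      have e : (pr v ^ 5 * (idl (q ^ f * c))⁻¹ : Idl K) =
          pr v ^ 5 * (idl c)⁻¹ * (idl (Ideal.span {lam}))⁻¹ := by
        rw [hlam, idl_mul hsp hc0, mul_inv_rev, mul_assoc]
      rw [e, mem_lat, mem_lat]
      constructor
      · rintro ⟨x, hx, rfl⟩
        refine ⟨x * algebraMap (𝓞 K) K lam,
          (mem_inv_idl hsp _ _).1 hx lam (Ideal.mem_span_singleton_self lam), ?_⟩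
        rw [map_mul, mul_comm]
      · rintro ⟨x, hx, hxz⟩
        have hl0 : algebraMap (𝓞 K) K lam ≠ 0 := by
          rw [Ne, FaithfulSMul.algebraMap_eq_zero_iff]
          exact hlam0'
        refine ⟨x * (algebraMap (𝓞 K) K lam)⁻¹, ?_, ?_⟩
        · rw [mem_inv_idl hsp]
          intro y hy
          obtain ⟨y', rfl⟩ := Ideal.mem_span_singleton'.1 hy
          have h5 := ((pr v ^ 5 * (idl c)⁻¹ : Idl K) : FractionalIdeal (𝓞 K)⁰ K).1.smul_mem y' hx
          rw [Algebra.smul_def] at h5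
          have e2 : x * (algebraMap (𝓞 K) K lam)⁻¹ * algebraMap (𝓞 K) K (y' * lam) =
              algebraMap (𝓞 K) K y' * x := by
            rw [map_mul]
            field_simp
          rw [e2]
          exact h5
        · rw [map_mul, hxz, map_inv₀]
          field_simp)
    (by
      change algebraMap K ℂ (algebraMap (𝓞 K) K lam) * 1 - 1 ∈
        lat (pr v ^ 5 * (idl (q ^ 0 * c))⁻¹)
      obtain ⟨x, hx, hx32⟩ := mem_lat.1 (hFr 0).mem
      have hx' : x = 32 := by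
        apply (algebraMap K ℂ).injective
        rw [hx32, map_ofNat, mul_one]
      rw [hx'] at hx
      refine mem_lat.2 ⟨algebraMap (𝓞 K) K t * 32, ?_, ?_⟩
      · have h5 := ((pr v ^ 5 * (idl (q ^ 0 * c))⁻¹ : Idl K) :
          FractionalIdeal (𝓞 K)⁰ K).1.smul_mem t hx
        rw [Algebra.smul_def] at h5
        exact h5
      · rw [ht]
        simp only [map_add, map_mul, map_one, map_ofNat]
        ring)
    (akr_val hb V hl hl2 hla hq hql hV1 hV2 hlam)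
    hgood'
  have hfin := key.1
  have e1 : (q ^ 0 * c : Ideal (𝓞 K)) = c := by rw [pow_zero, one_mul]
  have e2 : (q ^ 1 * c : Ideal (𝓞 K)) = q * c := by rw [pow_one]
  simp only [e1, e2] at hfin
  exact hfin

end Pool.Agent.Work.MP_8efaaa_nt.K7
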