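import Mathlib
import Pool.Agent.Work.MP_8efaaa_nt.K7.Defs
import Pool.Agent.Work.MP_8efaaa_nt.N7.CFrb
import Pool.Agent.Work.MP_8efaaa_nt.R.DVal
import Pool.Agent.Work.MP_8efaaa_nt.R.DFrob
import Pool.Agent.Work.MP_8efaaa_nt.K7.AKz
import Pool.Agent.Work.MP_8efaaa_nt.K7.AUn
import Pool.Agent.Work.MP_8efaaa_nt.K7.ARs
import Pool.Agent.Work.MP_8efaaa_nt.T.CpxA

/-!
# K7/CFr (M-L): Frobenius elements

Models `N7/CFrb.lean`, `R/DFrob.lean`, `K6/CFr.lean`. `frob_mact7` gives the part `ma`. `Z`, `Z'`: `kron_z7` for the valuation of `exists_val` at `Q` (`hgood` by `wrel_unit` and `wdata_complex`; for `Z'` use `v'`),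
the set of the values is finite (`fin`), `good_val`, `frb_val` of R/DVal. `ζ`: as in `frob_act`. `m`: `V (σ m - m ^ l) < 1`, `m ^ l = m (m ^ 2) ^ ((l-1)/2)`, `4 m ^ 2 = 2 (x + y s) = 2 (x + y t)` modulo `Q`,
Euler's criterion (`legendreSym.eq_pow`, `jacobiSym.legendreSym.to_jacobiSym`), `4 ^ ((l-1)/2) = 1`; so `V (σ m - j m) < 1` with `j = ± 1` (`j ≠ 0` if `l` does not divide `x ^ 2 + a y ^ 2`, put this number in
`N` if it is not zero; if it is zero then `m = 0`), and `σ m = ± m` since `(σ m) ^ 2 = m ^ 2`, and `V (2 m) = 1` for `l ∤ N` (if `m ≠ 0`). The same for `m'` (its square is `(x - y s) / 2`).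
-/

set_option autoImplicit false

namespace Pool.Agent.Work.MP_8efaaa_nt.K7

open IsDedekindDomain NumberField Pool.Agent.Work.MP_787500_nt.HC
open Pool.Agent.Work.MP_8efaaa_nt.T Pool.Agent.Work.MP_8efaaa_nt.R
open Pool.Agent.Work.MP_8efaaa_nt.N5 Pool.Agent.Work.MP_8efaaa_nt.N7
open scoped nonZeroDivisors

universe u

variable {K : Type u} {F : Type*} [Field K] [NumberField K] [Algebra K ℂ] [Field F] [NumberField F]
  [Algebra K F] [Algebra F ℂ] [IsScalarTower K F ℂ] [IsGalois K F] {a : ℕ} {s : K} {S : 𝓞 K}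
  {v v' : HeightOneSpectrum (𝓞 K)} {d : ℕ} {x y : ℤ} {ζ w m m' : F}
  {W W' : ClassGroup (𝓞 K) → F} {Z Z' : Ideal (𝓞 K) → F}

omit [NumberField K] [Algebra K ℂ] [NumberField F] [Algebra K F] [Algebra F ℂ]
  [IsScalarTower K F ℂ] [IsGalois K F] in
private theorem cfr7_vz {Γ : Type*} [LinearOrderedCommGroupWithZero Γ] (V : Valuation F Γ) (n : ℤ) :
    V (n : F) ≤ 1 := by
  have hnat : ∀ n : ℕ, V (n : F) ≤ 1 := by
    intro n
    induction n with
    | zero => rw [Nat.cast_zero, map_zero]; exact zero_le_one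
    | succ n ih =>
      rw [Nat.cast_succ]
      refine (V.map_add _ _).trans (max_le ih ?_)
      rw [map_one]
  rcases Int.natAbs_eq n with h | h
  · rw [h, Int.cast_natCast]
    exact hnat _
  · rw [h, Int.cast_neg, Valuation.map_neg, Int.cast_natCast]
    exact hnat _

omit [NumberField K] [Algebra K ℂ] [NumberField F] [Algebra K F] [Algebra F ℂ]
  [IsScalarTower K F ℂ] [IsGalois K F] in
/-- Euler's criterion in valuation form -/
private theorem cfr7_euler {Γ : Type*} [LinearOrderedCommGroupWithZero Γ] (V : Valuation F Γ)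
    {l : ℕ} (hl : l.Prime) (hl2 : l ≠ 2) (hV : V (l : F) < 1) {m e : F} {A : ℤ}
    (hm : V m ≤ 1) (he : V e < 1) (h : 4 * m ^ 2 = A + e) :
    V (((jacobiSym A l : ℤ) : F) * m - m ^ l) < 1 := by
  have hF : Fact l.Prime := ⟨hl⟩
  have hl3 : l = 2 * (l / 2) + 1 := by
    have := (hl.eq_two_or_odd.resolve_left hl2)
    omega
  have hdvd : ∀ n : ℤ, (l : ℤ) ∣ n → V (n : F) < 1 := by
    rintro n ⟨k, rfl⟩
    rw [Int.cast_mul, map_mul, Int.cast_natCast]
    exact (mul_le_of_le_one_right' (cfr7_vz V k)).trans_lt hV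
  -- `4 ^ (l / 2) - 1`
  have h4 : V (((4 : ℤ) ^ (l / 2) - 1 : ℤ) : F) < 1 := by
    apply hdvd
    rw [← ZMod.intCast_zmod_eq_zero_iff_dvd]
    push_cast
    have h2ne : (2 : ZMod l) ≠ 0 := by
      have h5 : ((2 : ℕ) : ZMod l) ≠ 0 := by
        rw [Ne, ZMod.natCast_eq_zero_iff]
        intro h6
        have := (Nat.prime_dvd_prime_iff_eq hl Nat.prime_two).1 h6
        exact hl2 this
      exact_mod_cast h5
    have h6 := ZMod.pow_card_sub_one_eq_one h2ne
    have h7 : (4 : ZMod l) ^ (l / 2) = 2 ^ (l - 1) := by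
      have h8 : l - 1 = 2 * (l / 2) := by omega
      rw [h8, pow_mul]
      norm_num
    rw [h7, h6, sub_self]
  -- Euler
  have hE : V ((jacobiSym A l - A ^ (l / 2) : ℤ) : F) < 1 := by
    apply hdvd
    have h1 := legendreSym.eq_pow l A
    rw [jacobiSym.legendreSym.to_jacobiSym] at h1
    rw [← ZMod.intCast_zmod_eq_zero_iff_dvd]
    push_cast
    rw [h1, sub_self]
  -- `(A + e) ^ n - A ^ n`
  have hpow : ∀ n : ℕ, V ((A : F) ^ n - (A + e) ^ n) < 1 := by
    intro n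
    induction n with
    | zero => rw [pow_zero, pow_zero, sub_self, map_zero]; exact zero_lt_one
    | succ n ih =>
      have e1 : (A : F) ^ (n + 1) - (A + e) ^ (n + 1) =
          ((A : F) ^ n - (A + e) ^ n) * A - (A + e) ^ n * e := by ring
      rw [e1]
      have hAe : V ((A : F) + e) ≤ 1 := (V.map_add _ _).trans (max_le (cfr7_vz V A) he.le)
      refine V.map_sub_lt ?_ ?_
      · rw [map_mul]
        exact (mul_le_of_le_one_right' (cfr7_vz V A)).trans_lt ih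
      · rw [map_mul, map_pow]
        exact (mul_le_of_le_one_left' (pow_le_one' hAe n)).trans_lt he
  have h41 : V ((4 : F) ^ (l / 2)) = 1 := by
    have h5 : (4 : F) ^ (l / 2) = 1 + (((4 : ℤ) ^ (l / 2) - 1 : ℤ) : F) := by
      push_cast
      ring
    rw [h5]
    exact V.map_one_add_of_lt h4
  have hml : m ^ l = m * (m ^ 2) ^ (l / 2) := by
    conv_lhs => rw [hl3]
    rw [pow_succ, pow_mul, mul_comm]
  have hkey : (4 : F) ^ (l / 2) * (((jacobiSym A l : ℤ) : F) * m - m ^ l) =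
      m * ((((4 : ℤ) ^ (l / 2) - 1 : ℤ) : F) * ((jacobiSym A l : ℤ) : F) +
        (((jacobiSym A l - A ^ (l / 2) : ℤ) : F) + ((A : F) ^ (l / 2) - (A + e) ^ (l / 2)))) := by
    rw [hml, ← h, mul_pow 4 (m ^ 2)]
    push_cast
    ring
  have h8 : V ((4 : F) ^ (l / 2) * (((jacobiSym A l : ℤ) : F) * m - m ^ l)) < 1 := by
    rw [hkey, map_mul]
    refine (mul_le_of_le_one_left' hm).trans_lt ?_
    refine V.map_add_lt ?_ (V.map_add_lt hE (hpow _))
    rw [map_mul]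
    exact (mul_le_of_le_one_right' (cfr7_vz V _)).trans_lt h4
  rwa [map_mul, h41, one_mul] at h8

theorem frob_ma7 (hb : Base K a s) (hS : algebraMap (𝓞 K) K S = s)
    (h : C7 K F s v v' d x y ζ w m m' W W' Z Z') (hd : d ≠ 0) :
    ∃ N : ℕ, N ≠ 0 ∧ 2 ∣ N ∧ a ∣ N ∧
    ∀ (l : ℕ) (Q : Ideal (𝓞 F)) (σ : F ≃ₐ[K] F) (t : ℤ), l.Prime → ¬ l ∣ N → Q.IsPrime →
      Ideal.absNorm (Q.comap (algebraMap (𝓞 K) (𝓞 F))) = l → Frb σ Q l →
      S - (t : 𝓞 K) ∈ Q.comap (algebraMap (𝓞 K) (𝓞 F)) →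
      MA7 d x y ζ w m m' W W' Z Z' σ (Q.comap (algebraMap (𝓞 K) (𝓞 F))) t := by
  classical
  have hfd : FiniteDimensional K F := FiniteDimensional.right ℚ K F
  have hfin : Finite (F ≃ₐ[K] F) := inferInstance
  have := Fintype.ofFinite (F ≃ₐ[K] F)
  obtain ⟨N0, hN0, hN2, hNa, hma⟩ := frob_mact7 hb h.ic hd
  obtain ⟨T, hT⟩ := h.fin
  have hrel := wdata_complex (W := fun C => algebraMap F ℂ (W C))
    (W' := fun C => algebraMap F ℂ (W' C)) hb h.ic.cw.ne h.ic.cw.hv h.ic.cw.hv' h.ic.cw.mul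
    h.ic.cw.hW h.ic.cw.hW'
  set S2 : Finset F := ((Finset.univ : Finset (F ≃ₐ[K] F)) ×ˢ (T ×ˢ T)).image
    (fun p => p.1 p.2.1 - p.2.2) with hS2
  set S3 : Finset F := ((Finset.univ : Finset (F ≃ₐ[K] F)) ×ˢ Finset.range 8).image
      (fun p => p.1 ζ - ζ ^ p.2) with hS3
  set D : Finset F := {m, m'} with hD
  have hmD : m ∈ D := by simp [hD]
  have hmD' : m' ∈ D := by simp [hD]
  set S4 : Finset F := ((Finset.univ : Finset (F ≃ₐ[K] F)) ×ˢ (D ×ˢ ({1, -1, 0} : Finset ℤ))).image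
      (fun p => p.1 p.2.1 - (p.2.2 : F) * p.2.1) with hS4
  set S0 : Finset F := ((D ∪ S2) ∪ S3) ∪ S4 with hS0
  have sw : ∀ t ∈ D, t ∈ S0 := fun t ht => Finset.mem_union_left _ (Finset.mem_union_left _
    (Finset.mem_union_left _ ht))
  have s3 : ∀ (σ : F ≃ₐ[K] F), ∀ t ∈ T, ∀ t' ∈ T, σ t - t' ∈ S0 := fun σ t ht t' ht' =>
    Finset.mem_union_left _ (Finset.mem_union_left _ (Finset.mem_union_right _
      (Finset.mem_image.2 ⟨(σ, t, t'), by simp [ht, ht'], rfl⟩)))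
  have s4 : ∀ (σ : F ≃ₐ[K] F) (j : ℕ), j < 8 → σ ζ - ζ ^ j ∈ S0 := fun σ j hj =>
    Finset.mem_union_left _ (Finset.mem_union_right _
      (Finset.mem_image.2 ⟨(σ, j), by simp [hj], rfl⟩))
  have s5 : ∀ (σ : F ≃ₐ[K] F), ∀ t ∈ D, ∀ j : ℤ, j ∈ ({1, -1, 0} : Finset ℤ) →
      σ t - (j : F) * t ∈ S0 :=
    fun σ t ht j hj => Finset.mem_union_right _ (Finset.mem_image.2
      ⟨(σ, t, j), Finset.mem_product.2 ⟨Finset.mem_univ _, Finset.mem_product.2 ⟨ht, hj⟩⟩, rfl⟩)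
  obtain ⟨N1, hN1, hg⟩ := good_val S0
  obtain ⟨N2, hN2', hf⟩ := frb_val (K := K) (insert ζ (T ∪ D))
  refine ⟨N0 * N1 * N2, by positivity, (hN2.mul_right _).mul_right _,
    (hNa.mul_right _).mul_right _, ?_⟩
  intro l Q σ t hl hlN hQ hql hσ hSt
  have hl0 : ¬ l ∣ N0 := fun e => hlN ((e.mul_right _).mul_right _)
  have hl2 : l ≠ 2 := fun e => hl0 (e ▸ hN2)
  have hla : ¬ l ∣ a := fun e => hl0 (e.trans hNa)
  have hl1 : ¬ l ∣ N1 := fun e => hlN ((e.mul_left _).mul_right _)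
  have hl3 : ¬ l ∣ N2 := fun e => hlN (e.mul_left _)
  obtain ⟨Γ, hΓ, V, hV1, hV2⟩ := exists_val Q hQ
  have hMA := hma l Q σ hl hl0 hQ hql hσ
  set q : Ideal (𝓞 K) := Q.comap (algebraMap (𝓞 K) (𝓞 F)) with hq
  have hqp : q.IsPrime := Ideal.IsPrime.comap _
  have hlQ : (l : 𝓞 F) ∈ Q := by
    have h1 : ((Ideal.absNorm q : ℕ) : 𝓞 K) ∈ q := Ideal.absNorm_mem q
    rw [hql, hq, Ideal.mem_comap, map_natCast] at h1
    exact h1
  set V' : Valuation F Γ := V.comap (algebraMap F ℂ) with hV'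
  have v1 : ∀ x : 𝓞 F, V' (algebraMap (𝓞 F) F x) ≤ 1 := hV1
  have v2 : ∀ x : 𝓞 F, V' (algebraMap (𝓞 F) F x) < 1 ↔ x ∈ Q := hV2
  have vl : V' (l : F) < 1 := by
    have h1 := (v2 (l : 𝓞 F)).2 hlQ
    rwa [map_natCast] at h1
  have vlc : V (l : ℂ) < 1 := by
    have h1 : V' (l : F) = V (l : ℂ) := by
      rw [hV', Valuation.comap_apply, map_natCast]
    rwa [← h1]
  have hgood := hg Γ V' l hl hl1 v1 vl
  have hfrob := hf Γ V' l Q σ hl hl3 v1 v2 vl hσ
  have htower : ∀ x : 𝓞 K, algebraMap K ℂ (algebraMap (𝓞 K) K x) =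
      algebraMap F ℂ (algebraMap (𝓞 F) F (algebraMap (𝓞 K) (𝓞 F) x)) := by
    intro x
    rw [IsScalarTower.algebraMap_apply K F ℂ, ← IsScalarTower.algebraMap_apply (𝓞 K) (𝓞 F) F,
      ← IsScalarTower.algebraMap_apply (𝓞 K) K F]
  have hV2c : V 2 = 1 := by
    have h1 := val_int V hl vlc (n := 2) (by
      intro h6
      have h7 : l ∣ 2 := by exact_mod_cast h6
      exact hl2 ((Nat.prime_dvd_prime_iff_eq hl Nat.prime_two).1 h7))
    exact_mod_cast h1
  have hgoodW := wrel_unit hrel V hV2c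
  -- a difference in `S0` of value less than one is zero
  have hzero : ∀ x y : F, x - y ∈ S0 → ∀ u : F, V' (x - u) < 1 → V' (y - u) < 1 → x = y := by
    intro x y hxy u h1 h2
    by_contra hne'
    have h3 := (hgood _ hxy).2 (sub_ne_zero.2 hne')
    have h4 : V' (x - y) < 1 := by
      have : x - y = (x - u) - (y - u) := by ring
      rw [this]
      exact V'.map_sub_lt h1 h2
    exact absurd h3 h4.ne
  have hlodd : Odd l := hl.odd_of_ne_two hl2
  have hqc : ∀ c, OddI c → OddI (q * c) := by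
    intro c hc
    unfold OddI at hc ⊢
    rw [map_mul, hql]
    exact hlodd.mul hc
  have hst : V' (algebraMap K F s - t) < 1 := by
    have h1 := (v2 (algebraMap (𝓞 K) (𝓞 F) (S - (t : 𝓞 K)))).2 hSt
    rw [← IsScalarTower.algebraMap_apply (𝓞 K) (𝓞 F) F, IsScalarTower.algebraMap_apply (𝓞 K) K F,
      map_sub, map_sub, hS, map_intCast, map_intCast] at h1
    exact h1
  refine ⟨hMA, ?_, ?_, ?_, ?_, ?_⟩
  · rw [hql]
    have h1 := hfrob ζ (Finset.mem_insert_self _ _)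
    have h8 : ζ ^ 8 = 1 := by
      have : ζ ^ 8 = (ζ ^ 4) ^ 2 := by ring
      rw [this, h.z8]
      ring
    have h2 : ζ ^ l = ζ ^ (l % 8) := by
      conv_lhs => rw [← Nat.div_add_mod l 8, pow_add, pow_mul, h8, one_pow, one_mul]
    rw [h2]
    refine hzero _ _ (s4 σ _ (Nat.mod_lt _ (by norm_num))) (ζ ^ l) h1 ?_
    rw [← h2, sub_self, map_zero]
    exact zero_lt_one
  · intro c hc
    have k1 := kron_z7 (W := fun C => algebraMap F ℂ (W C)) hb h.ic.cw.hv h.ic.cw.hW V hl hl2 hla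
      hqp hql (fun x => by rw [htower]; exact hV1 _)
      (fun x => by rw [htower, hV2, hq, Ideal.mem_comap])
      (fun C => ⟨(hgoodW C).2.2.1, (hgoodW C).2.2.2.1⟩) hc
    refine hzero _ _ (s3 σ _ (hT c hc).1 _ (hT _ (hqc c hc)).1) (Z c ^ l)
      (hfrob _ (Finset.mem_insert_of_mem (Finset.mem_union_left _ (hT c hc).1))) ?_
    have e : V' (Z (q * c) - Z c ^ l) = V (z7 v (q * c) - z7 v c ^ l) := by
      rw [hV', Valuation.comap_apply, map_sub, map_pow, h.hZ _ (hqc c hc), h.hZ _ hc]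
    rw [e]
    exact k1.2
  · intro c hc
    have k1 := kron_z7 (W := fun C => algebraMap F ℂ (W' C)) hb h.ic.cw.hv' h.ic.cw.hW' V hl hl2
      hla hqp hql (fun x => by rw [htower]; exact hV1 _)
      (fun x => by rw [htower, hV2, hq, Ideal.mem_comap])
      (fun C => ⟨(hgoodW C).2.2.2.2.1, (hgoodW C).2.2.2.2.2⟩) hc
    refine hzero _ _ (s3 σ _ (hT c hc).2 _ (hT _ (hqc c hc)).2) (Z' c ^ l)
      (hfrob _ (Finset.mem_insert_of_mem (Finset.mem_union_left _ (hT c hc).2))) ?_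
    have e : V' (Z' (q * c) - Z' c ^ l) = V (z7 v' (q * c) - z7 v' c ^ l) := by
      rw [hV', Valuation.comap_apply, map_sub, map_pow, h.hZ' _ (hqc c hc), h.hZ' _ hc]
    rw [e]
    exact k1.2
  · rw [hql]
    have h1 := hfrob m (Finset.mem_insert_of_mem (Finset.mem_union_right _ hmD))
    have hj : (jacobiSym (2 * (x + y * t)) l : ℤ) ∈ ({1, -1, 0} : Finset ℤ) := by
      rcases jacobiSym.trichotomy (2 * (x + y * t)) l with h2 | h2 | h2 <;> simp [h2]
    refine hzero _ _ (s5 σ _ hmD _ hj) (m ^ l) h1 ?_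
    refine cfr7_euler V' hl hl2 vl (hgood m (sw _ hmD)).1
      (e := ((2 * y : ℤ) : F) * (algebraMap K F s - t)) ?_ ?_
    · rw [map_mul]
      exact (mul_le_of_le_one_left' (cfr7_vz V' _)).trans_lt hst
    · have := h.hm
      push_cast
      linear_combination 2 * this
  · rw [hql]
    have h1 := hfrob m' (Finset.mem_insert_of_mem (Finset.mem_union_right _ hmD'))
    have hj : (jacobiSym (2 * (x - y * t)) l : ℤ) ∈ ({1, -1, 0} : Finset ℤ) := by
      rcases jacobiSym.trichotomy (2 * (x - y * t)) l with h2 | h2 | h2 <;> simp [h2]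
    refine hzero _ _ (s5 σ _ hmD' _ hj) (m' ^ l) h1 ?_
    refine cfr7_euler V' hl hl2 vl (hgood m' (sw _ hmD')).1
      (e := ((-(2 * y) : ℤ) : F) * (algebraMap K F s - t)) ?_ ?_
    · rw [map_mul]
      exact (mul_le_of_le_one_left' (cfr7_vz V' _)).trans_lt hst
    · have := h.hm'
      push_cast
      linear_combination 2 * this

end Pool.Agent.Work.MP_8efaaa_nt.K7
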