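import Mathlib
import Pool.Agent.Work.MP_8efaaa_nt.K7.Defs
import Pool.Agent.Work.MP_8efaaa_nt.K7.CFr
import Pool.Agent.Work.MP_8efaaa_nt.W5.FInd
import Pool.Agent.Work.MP_8efaaa_nt.K7.ARs
import Pool.Agent.Work.MP_8efaaa_nt.R.DMoveA

/-!
# K7/CAc (M): all automorphisms act by primitive ideals prime to `M`

`frob_ind` (W5/FInd) with `N0` the number of `frob_ma7` and `P σ n := ∃ b t, absNorm b = n ∧ S - t ∈ b ∧ MA7 .. σ b t ∧ OddI b`. For the product of `b` (norm `n`, integer `t`) and the prime `q` (norm `l`, `l ∤ n`, integer `t1`; such an integer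
exists since the residue field of `q` has `l` elements, see `exists_t` in R/DMoveA) take `t2` with `t2 = t (mod n)`, `t2 = t1 (mod l)` (Chinese remainder theorem): `S - t2 ∈ b`, `∈ q`, so `∈ b * q` (coprime ideals:
`n ∈ b`, `l ∈ q`). Jacobi symbols: `jacobiSym.mul_right`, `jacobiSym.mod_left`. See also W5/FAct, K6/CAc.
-/

set_option autoImplicit false

namespace Pool.Agent.Work.MP_8efaaa_nt.K7

open IsDedekindDomain NumberField Pool.Agent.Work.MP_787500_nt.HC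
open Pool.Agent.Work.MP_8efaaa_nt.T Pool.Agent.Work.MP_8efaaa_nt.R
open Pool.Agent.Work.MP_8efaaa_nt.N5 Pool.Agent.Work.MP_8efaaa_nt.N7
open scoped nonZeroDivisors

universe u

variable {K : Type u} {F : Type*} [Field K] [NumberField K] [Algebra K ℂ] [Field F] [NumberField F]
  [Algebra K F] [Algebra F ℂ] [IsScalarTower K F ℂ] [IsGalois K F] {a : ℕ} {s : K} {S : 𝓞 K}
  {v v' : HeightOneSpectrum (𝓞 K)} {d : ℕ} {x y : ℤ} {ζ w m m' : F}
  {W W' : ClassGroup (𝓞 K) → F} {Z Z' : Ideal (𝓞 K) → F}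

omit [Algebra K ℂ] in
private theorem cac_int {l : ℕ} (hl : l.Prime) {q : Ideal (𝓞 K)} (hq : q.IsPrime)
    (hql : Ideal.absNorm q = l) (t : 𝓞 K) : ∃ n : ℤ, t - n ∈ q := by
  have : Fact l.Prime := ⟨hl⟩
  have hcard : Nat.card (𝓞 K ⧸ q) = l := by
    rw [← hql, Ideal.absNorm_apply, Submodule.cardQuot_apply]
  have h1 : (1 : 𝓞 K ⧸ q) ≠ 0 := by
    have := Ideal.Quotient.nontrivial_iff.mpr hq.ne_top
    exact one_ne_zero
  have := mem_zmultiples_of_prime_card (p := l) hcard (g' := Ideal.Quotient.mk q t) h1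
  obtain ⟨n, hn⟩ := AddSubgroup.mem_zmultiples_iff.mp this
  refine ⟨n, ?_⟩
  rw [← Ideal.Quotient.eq_zero_iff_mem, map_sub, sub_eq_zero, ← hn]
  simp

omit [Algebra K ℂ] in
private theorem cac_idl_one : idl (1 : Ideal (𝓞 K)) = (1 : Idl K) := by
  have h1 : (1 : Ideal (𝓞 K)) ≠ ⊥ := one_ne_zero
  have h2 := idl_mul (K := K) h1 h1
  rw [one_mul] at h2
  exact (left_eq_mul.1 h2)

omit [Algebra K ℂ] in
private theorem cac_cl_mul (I J : Idl K) : cl (I * J) = cl I * cl J := map_mul _ _ _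

omit [Algebra K ℂ] in
private theorem cac_cl_one : cl (1 : Idl K) = 1 := map_one _

omit [Algebra K ℂ] [NumberField F] [Algebra F ℂ] [IsScalarTower K F ℂ] [IsGalois K F] in
/-- the product of two actions -/
private theorem cac_mul {σ τ : F ≃ₐ[K] F} {b r : Ideal (𝓞 K)} {t t1 t2 : ℤ} (hb : OddI b)
    (hr : OddI r) (h1 : MA7 d x y ζ w m m' W W' Z Z' σ b t1)
    (h2 : MA7 d x y ζ w m m' W W' Z Z' τ r t2) (ht1 : (Ideal.absNorm b : ℤ) ∣ t - t1)
    (ht2 : (Ideal.absNorm r : ℤ) ∣ t - t2) :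
    MA7 d x y ζ w m m' W W' Z Z' (τ * σ : F ≃ₐ[K] F) (r * b) t := by
  have hmul : ∀ c : Ideal (𝓞 K), OddI c → OddI (b * c) := by
    intro c hc
    unfold OddI at *
    rw [map_mul]
    exact hb.mul hc
  have n1 : NeZero (Ideal.absNorm b) := ⟨fun h0 => by
    unfold OddI at hb
    rw [h0] at hb
    exact absurd hb (by decide)⟩
  have n2 : NeZero (Ideal.absNorm r) := ⟨fun h0 => by
    unfold OddI at hr
    rw [h0] at hr
    exact absurd hr (by decide)⟩
  have hbe : cl (idl (r * b))⁻¹ = cl (idl r)⁻¹ * cl (idl b : Idl K)⁻¹ := by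
    rw [idl_mul hr.ne_bot hb.ne_bot, mul_inv, cac_cl_mul]
  have k1 : ∀ c : ℤ, jacobiSym (2 * (x + c * t)) (Ideal.absNorm b) =
      jacobiSym (2 * (x + c * t1)) (Ideal.absNorm b) := by
    intro c
    apply jacobiSym.mod_left'
    refine Int.ModEq.symm (Int.modEq_iff_dvd.2 ?_)
    obtain ⟨e, he⟩ := ht1
    exact ⟨2 * c * e, by linear_combination (2 * c) * he⟩
  have k2 : ∀ c : ℤ, jacobiSym (2 * (x + c * t)) (Ideal.absNorm r) =
      jacobiSym (2 * (x + c * t2)) (Ideal.absNorm r) := by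
    intro c
    apply jacobiSym.mod_left'
    refine Int.ModEq.symm (Int.modEq_iff_dvd.2 ?_)
    obtain ⟨e, he⟩ := ht2
    exact ⟨2 * c * e, by linear_combination (2 * c) * he⟩
  refine ⟨⟨?_, ?_, ?_⟩, ?_, ?_, ?_, ?_, ?_⟩
  · intro C
    show τ (σ (W C)) = _
    rw [h1.ma.hW, h2.ma.hW, hbe, mul_assoc]
  · intro C
    show τ (σ (W' C)) = _
    rw [h1.ma.hW', h2.ma.hW', hbe, mul_assoc]
  · show τ (σ w) = _
    rw [h1.ma.sq, map_mul, map_intCast, h2.ma.sq, map_mul, jacobiSym.mul_right, Int.cast_mul]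
    ring
  · show τ (σ ζ) = _
    rw [h1.z8, map_pow, h2.z8, ← pow_mul, map_mul]
  · intro c hc
    show τ (σ (Z c)) = _
    rw [h1.hZ c hc, h2.hZ _ (hmul c hc), mul_assoc]
  · intro c hc
    show τ (σ (Z' c)) = _
    rw [h1.hZ' c hc, h2.hZ' _ (hmul c hc), mul_assoc]
  · show τ (σ m) = _
    rw [h1.hm, map_mul, map_intCast, h2.hm, map_mul, jacobiSym.mul_right, Int.cast_mul, k1, k2]
    ring
  · show τ (σ m') = _
    have k1' := k1 (-y)
    have k2' := k2 (-y)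
    simp only [neg_mul, ← sub_eq_add_neg] at k1' k2'
    rw [h1.hm', map_mul, map_intCast, h2.hm', map_mul, jacobiSym.mul_right, Int.cast_mul, k1', k2']
    ring

theorem act_all7 (hb : Base K a s) (hS : algebraMap (𝓞 K) K S = s)
    (h : C7 K F s v v' d x y ζ w m m' W W' Z Z') (hd : d ≠ 0) (σ : F ≃ₐ[K] F) (M : ℕ)
    (hM : M ≠ 0) : ∃ (b : Ideal (𝓞 K)) (t : ℤ), Nat.Coprime (Ideal.absNorm b) M ∧
      S - (t : 𝓞 K) ∈ b ∧ MA7 d x y ζ w m m' W W' Z Z' σ b t := by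
  obtain ⟨N0, hN0, h2N, haN, hact⟩ := frob_ma7 hb hS h hd
  set P : (F ≃ₐ[K] F) → ℕ → Prop := fun σ n => ∃ (b : Ideal (𝓞 K)) (t : ℤ),
    Ideal.absNorm b = n ∧ OddI b ∧ S - (t : 𝓞 K) ∈ b ∧
    MA7 d x y ζ w m m' W W' Z Z' σ b t with hP
  have hP1 : P 1 1 := by
    refine ⟨1, 0, by simp, by simp [OddI], ?_, ⟨⟨?_, ?_, ?_⟩, ?_, ?_, ?_, ?_, ?_⟩⟩
    · rw [Ideal.one_eq_top]
      trivial
    · intro C
      rw [cac_idl_one, inv_one, cac_cl_one, one_mul]
      rfl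
    · intro C
      rw [cac_idl_one, inv_one, cac_cl_one, one_mul]
      rfl
    · rw [map_one, jacobiSym.one_right, Int.cast_one, one_mul]
      rfl
    · rw [map_one, pow_one]
      rfl
    · intro c _
      rw [one_mul]
      rfl
    · intro c _
      rw [one_mul]
      rfl
    · rw [map_one, jacobiSym.one_right, Int.cast_one, one_mul]
      rfl
    · rw [map_one, jacobiSym.one_right, Int.cast_one, one_mul]
      rfl
  have hmul : ∀ (σ : F ≃ₐ[K] F) (n : ℕ) (τ : F ≃ₐ[K] F) (l : ℕ) (Q : Ideal (𝓞 F)), n ≠ 0 →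
      P σ n → l.Prime → ¬ l ∣ N0 → ¬ l ∣ n → Q.IsPrime →
      Ideal.absNorm (Q.comap (algebraMap (𝓞 K) (𝓞 F))) = l → Frb τ Q l → P (τ * σ) (l * n) := by
    intro σ n τ l Q hn hσ hl hlN hln hQ hql hτ
    obtain ⟨b, t1, hbn, hno, hSb, hMb⟩ := hσ
    have hl2 : l ≠ 2 := by
      rintro rfl
      exact hlN h2N
    have hlnc : l.Coprime n := hl.coprime_iff_not_dvd.2 hln
    set r : Ideal (𝓞 K) := Q.comap (algebraMap (𝓞 K) (𝓞 F)) with hr
    have hrp : r.IsPrime := Ideal.IsPrime.comap _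
    have hlr : (l : 𝓞 K) ∈ r := by
      have h1 : ((Ideal.absNorm r : ℕ) : 𝓞 K) ∈ r := Ideal.absNorm_mem r
      rwa [hql] at h1
    have hnb : (n : 𝓞 K) ∈ b := by
      have h1 : ((Ideal.absNorm b : ℕ) : 𝓞 K) ∈ b := Ideal.absNorm_mem b
      rwa [hbn] at h1
    obtain ⟨t2, ht2⟩ := cac_int hl hrp hql S
    obtain ⟨u, v1, huv⟩ : IsCoprime (n : ℤ) (l : ℤ) := Nat.isCoprime_iff_coprime.2 hlnc.symm
    set t : ℤ := t1 + (t2 - t1) * (u * n) with ht
    have htt1 : t - t1 = (t2 - t1) * u * n := by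
      rw [ht]
      ring
    have htt2 : t - t2 = (t1 - t2) * v1 * l := by
      rw [ht]
      linear_combination (t2 - t1) * huv
    have hSb' : S - (t : 𝓞 K) ∈ b := by
      have h1 : S - (t : 𝓞 K) = (S - (t1 : 𝓞 K)) - ((t2 - t1) * u : ℤ) * (n : 𝓞 K) := by
        have h2 := congrArg (Int.cast : ℤ → 𝓞 K) htt1
        push_cast at h2 ⊢
        linear_combination -h2
      rw [h1]
      exact b.sub_mem hSb (b.mul_mem_left _ hnb)
    have hSr' : S - (t : 𝓞 K) ∈ r := by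
      have h1 : S - (t : 𝓞 K) = (S - (t2 : 𝓞 K)) - ((t1 - t2) * v1 : ℤ) * (l : 𝓞 K) := by
        have h2 := congrArg (Int.cast : ℤ → 𝓞 K) htt2
        push_cast at h2 ⊢
        linear_combination -h2
      rw [h1]
      exact r.sub_mem ht2 (r.mul_mem_left _ hlr)
    have hcop : IsCoprime r b := by
      rw [Ideal.isCoprime_iff_exists]
      refine ⟨(v1 : 𝓞 K) * l, r.mul_mem_left _ hlr, (u : 𝓞 K) * n, b.mul_mem_left _ hnb, ?_⟩
      have h2 := congrArg (Int.cast : ℤ → 𝓞 K) huv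
      push_cast at h2
      linear_combination h2
    have hMr := hact l Q τ t2 hl hlN hQ hql hτ ht2
    have hodr : OddI r := by
      unfold OddI
      rw [hql]
      exact hl.odd_of_ne_two hl2
    refine ⟨r * b, t, ?_, ?_, ?_, cac_mul hno hodr hMb hMr ?_ ?_⟩
    · rw [map_mul, hql, hbn]
    · unfold OddI at *
      rw [map_mul]
      exact hodr.mul hno
    · rw [Ideal.mul_eq_inf_of_isCoprime hcop]
      exact ⟨hSr', hSb'⟩
    · rw [hbn, htt1]
      exact dvd_mul_left _ _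
    · rw [hql, htt2]
      exact dvd_mul_left _ _
  obtain ⟨n, hn0, hnM, b, t, hbn, hbo, hSb, hMA⟩ :=
    Pool.Agent.Work.MP_8efaaa_nt.W5.frob_ind N0 hN0 P hP1 hmul σ M hM
  exact ⟨b, t, by rw [hbn]; exact hnM, hSb, hMA⟩

end Pool.Agent.Work.MP_8efaaa_nt.K7
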