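import Mathlib
import Pool.Agent.Work.MP_8efaaa_nt.K7.Defs
import Pool.Agent.Work.MP_8efaaa_nt.K7.ARs
import Pool.Agent.Work.MP_8efaaa_nt.R.DMoveA
import Pool.Agent.Work.MP_8efaaa_nt.T.Quad

/-!
# K7/CMv (L): moving odd ideals

Models `R/DMoveA.lean`, `R/DMove.lean`, `K6/CMv.lean` (there `δ = x + 8 s`, here `δ = x + 32 S`, `x = 32 t + p u` with `u = 1 (mod 8)`, the polynomial is `p u ^ 2 + 64 t u + 1024 A`, `t ^ 2 + a = p A`; `nonroot` of R/DMoveA).
The integers of `K` are `x` with `2 x = p + q S`, `p = q (mod 2)` (`coords7`); for an odd prime `p` one has `p ∣ x` iff `p ∣ 2 x`. Norms: `norm_half7'`. The last condition (norms modulo `8`): `N (δ) = x ^ 2 = 1 (mod 8)`,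
`N (m) = m ^ 2 = 1 (mod 8)`. Multiplicativity in `b`: `(x + 32 y) (x' + 32 y')`.
-/

set_option autoImplicit false

namespace Pool.Agent.Work.MP_8efaaa_nt.K7

open IsDedekindDomain NumberField Pool.Agent.Work.MP_787500_nt.HC
open Pool.Agent.Work.MP_8efaaa_nt.T Pool.Agent.Work.MP_8efaaa_nt.R
open Pool.Agent.Work.MP_8efaaa_nt.N5 Pool.Agent.Work.MP_8efaaa_nt.N7
open scoped nonZeroDivisors

variable {K : Type*} [Field K] [NumberField K] {a : ℕ} {s : K}

/-- the data of `Mov7` for a prime ideal -/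
private def MovP7 {K : Type*} [Field K] [NumberField K] (S : 𝓞 K) (N : ℕ) (d : Ideal (𝓞 K)) : Prop :=
  ∃ (L : List (Ideal (𝓞 K))) (m : ℕ) (x : ℤ) (δ : 𝓞 K), Odd m ∧ Odd x ∧ (m : ℤ) % 8 = x % 8 ∧
      δ = x + 32 * S ∧
      (∀ q ∈ L, q.IsPrime ∧ (Ideal.absNorm q).Prime ∧ ¬ Ideal.absNorm q ∣ N) ∧
      Ideal.span {(m : 𝓞 K)} * L.prod = Ideal.span {δ} * d

private theorem S_sq7 (hb : Base K a s) {S : 𝓞 K} (hS : algebraMap (𝓞 K) K S = s) :
    S ^ 2 = -(a : 𝓞 K) := by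
  apply RingOfIntegers.ext
  show algebraMap (𝓞 K) K _ = algebraMap (𝓞 K) K _
  rw [map_pow, hS, map_neg, map_natCast, hb.sq]

private theorem norm_lin7 (hb : Base K a s) {S : 𝓞 K} (hS : algebraMap (𝓞 K) K S = s) {δ : 𝓞 K}
    {x y : ℤ} (h : δ = x + y * S) :
    (Ideal.absNorm (Ideal.span {δ}) : ℤ) = x ^ 2 + a * y ^ 2 := by
  have h1 := norm_half7' hb hS (δ := δ) (p := 2 * x) (q := 2 * y) (by
    rw [h]; push_cast; ring)
  have h2 : 4 * (Ideal.absNorm (Ideal.span {δ}) : ℤ) = 4 * (x ^ 2 + a * y ^ 2) := by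
    rw [h1]; ring
  exact mul_left_cancel₀ (by norm_num) h2

private theorem norm_nat7 (hb : Base K a s) (p : ℕ) :
    Ideal.absNorm (Ideal.span {(p : 𝓞 K)}) = p ^ 2 := by
  obtain ⟨S, hS⟩ := exists_S7 hb
  have h1 := norm_lin7 hb hS (δ := (p : 𝓞 K)) (x := p) (y := 0) (by simp)
  have h2 : (Ideal.absNorm (Ideal.span {(p : 𝓞 K)}) : ℤ) = ((p ^ 2 : ℕ) : ℤ) := by
    rw [h1]; push_cast; ring
  exact_mod_cast h2

/-- a rational prime is not a divisor of `x + 32 S` in `𝓞 K` for odd `x` -/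
private theorem not_dvd_lin7 (hb : Base K a s) {S : 𝓞 K} (hS : algebraMap (𝓞 K) K S = s)
    {x : ℤ} (hx : Odd x) {p : ℕ} (hp : p.Prime) :
    ¬ (p : 𝓞 K) ∣ (x : 𝓞 K) + 32 * S := by
  rintro ⟨γ, hγ⟩
  obtain ⟨m, n, hmn, c, hc⟩ := coords7 hb hS γ
  have h1 : (((2 * x - p * m : ℤ)) : 𝓞 K) + (((64 - p * n : ℤ)) : 𝓞 K) * S = 0 := by
    push_cast
    linear_combination 2 * hγ + (p : 𝓞 K) * hmn
  obtain ⟨h4, h5⟩ := coords7_uniq hb hS h1
  have h6 : (p : ℤ) ∣ (2 : ℤ) ^ 6 := ⟨n, by linarith⟩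
  have h7 : p ∣ 2 ^ 6 := by exact_mod_cast h6
  have h8 : p = 2 := (Nat.prime_dvd_prime_iff_eq hp Nat.prime_two).1 (hp.dvd_of_dvd_pow h7)
  rw [h8] at h4 h5
  obtain ⟨k, hk⟩ := hx
  push_cast at h4 h5
  omega

private theorem exists_prime_mem7 {R : Type*} [CommRing R] {P : Ideal R} (hP : P.IsPrime) (n : ℕ)
    (hn0 : n ≠ 0) (hn : (n : R) ∈ P) : ∃ p : ℕ, p.Prime ∧ (p : R) ∈ P := by
  induction n using Nat.strong_induction_on with
  | _ n ih =>
    have h1 : n ≠ 1 := by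
      rintro rfl
      rw [Nat.cast_one] at hn
      exact hP.ne_top ((Ideal.eq_top_iff_one _).2 hn)
    have hp := Nat.minFac_prime h1
    obtain ⟨m, hm⟩ := Nat.minFac_dvd n
    have h2 : (n.minFac : R) * (m : R) ∈ P := by
      rw [← Nat.cast_mul, ← hm]
      exact hn
    rcases hP.mem_or_mem h2 with h | h
    · exact ⟨_, hp, h⟩
    · have hm0 : m ≠ 0 := by
        rintro rfl
        rw [mul_zero] at hm
        exact hn0 hm
      refine ih m ?_ hm0 h
      rw [hm]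
      exact lt_mul_of_one_lt_left (Nat.pos_of_ne_zero hm0) hp.one_lt

private theorem prime_cases7 (hb : Base K a s) {d : Ideal (𝓞 K)} (hd : d.IsPrime) (hd0 : d ≠ ⊥) :
    ∃ p : ℕ, p.Prime ∧ (p : 𝓞 K) ∈ d ∧ (Ideal.absNorm d = p ∨ d = Ideal.span {(p : 𝓞 K)}) := by
  have h0 : Ideal.absNorm d ≠ 0 := by
    rw [Ne, Ideal.absNorm_eq_zero_iff]
    exact hd0
  obtain ⟨p, hp, hpd⟩ := exists_prime_mem7 hd _ h0 (Ideal.absNorm_mem d)
  refine ⟨p, hp, hpd, ?_⟩
  have hle : Ideal.span {(p : 𝓞 K)} ≤ d := by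
    rw [Ideal.span_singleton_le_iff_mem]
    exact hpd
  have hN : Ideal.absNorm (Ideal.span {(p : 𝓞 K)}) = p ^ 2 := norm_nat7 hb p
  have hdvd : Ideal.absNorm d ∣ p ^ 2 := by
    rw [← hN]
    exact Ideal.absNorm_dvd_absNorm_of_le hle
  obtain ⟨i, hi, hdi⟩ := (Nat.dvd_prime_pow hp).1 hdvd
  interval_cases i
  · exfalso
    rw [pow_zero, Ideal.absNorm_eq_one_iff] at hdi
    exact hd.ne_top hdi
  · left
    rw [hdi, pow_one]
  · right
    obtain ⟨e, he⟩ := Ideal.dvd_iff_le.2 hle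
    have h1 := congrArg Ideal.absNorm he
    rw [hN, map_mul, hdi] at h1
    have h2 : Ideal.absNorm e = 1 := by
      have h3 : p ^ 2 * Ideal.absNorm e = p ^ 2 * 1 := by rw [mul_one]; exact h1.symm
      exact Nat.eq_of_mul_eq_mul_left (pow_pos hp.pos 2) h3
    rw [Ideal.absNorm_eq_one_iff] at h2
    rw [he, h2, Ideal.mul_top]

private theorem factor_list7 (hb : Base K a s) {e : Ideal (𝓞 K)} (he : e ≠ ⊥) {N : ℕ}
    (hcop : Nat.Coprime (Ideal.absNorm e) N)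
    (hno : ∀ l : ℕ, l.Prime → (Ideal.span {(l : 𝓞 K)}).IsPrime →
      ¬ Ideal.span {(l : 𝓞 K)} ∣ e ) :
    ∃ L : List (Ideal (𝓞 K)), (∀ q ∈ L, q.IsPrime ∧ (Ideal.absNorm q).Prime ∧
      ¬ Ideal.absNorm q ∣ N) ∧ L.prod = e := by
  refine ⟨(UniqueFactorizationMonoid.normalizedFactors e).toList, ?_, ?_⟩
  · intro q hq
    rw [Multiset.mem_toList] at hq
    have hqp : Prime q := UniqueFactorizationMonoid.prime_of_normalized_factor q hq
    have hqd : q ∣ e := UniqueFactorizationMonoid.dvd_of_mem_normalizedFactors hq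
    have hqP : q.IsPrime := Ideal.isPrime_of_prime hqp
    have hq0 : q ≠ ⊥ := hqp.ne_zero
    obtain ⟨l, hl, -, h1 | h1⟩ := prime_cases7 hb hqP hq0
    · refine ⟨hqP, by rw [h1]; exact hl, fun hdiv => ?_⟩
      have h2 : Ideal.absNorm q ∣ Ideal.absNorm e := Ideal.absNorm_dvd_absNorm_of_le
        (Ideal.le_of_dvd hqd)
      have h3 : Ideal.absNorm q ∣ 1 := by
        rw [← hcop]
        exact Nat.dvd_gcd h2 hdiv
      rw [h1, Nat.dvd_one] at h3
      exact hl.one_lt.ne' h3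
    · exact absurd (h1 ▸ hqd) (hno l hl (h1 ▸ hqP))
  · rw [Multiset.prod_toList]
    have := UniqueFactorizationMonoid.prod_normalizedFactors (a := e) he
    exact associated_iff_eq.1 this

private theorem int_mem_iff7 {d : Ideal (𝓞 K)} (hd : d.IsPrime) {p : ℕ} (hp : p.Prime)
    (hpd : (p : 𝓞 K) ∈ d) {n : ℤ} (hn : (n : 𝓞 K) ∈ d) : (p : ℤ) ∣ n := by
  by_contra hc
  have hpp : Prime (p : ℤ) := Nat.prime_iff_prime_int.1 hp
  have hcop : IsCoprime (p : ℤ) n := (Prime.coprime_iff_not_dvd hpp).2 hc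
  obtain ⟨α, β, h⟩ := hcop
  apply hd.ne_top
  rw [Ideal.eq_top_iff_one]
  have h1 : (1 : 𝓞 K) = (α : 𝓞 K) * (p : 𝓞 K) + (β : 𝓞 K) * (n : 𝓞 K) := by
    exact_mod_cast (congrArg (fun z : ℤ => (z : 𝓞 K)) h).symm
  rw [h1]
  exact d.add_mem (d.mul_mem_left _ hpd) (d.mul_mem_left _ hn)

private theorem exists_t7 {d : Ideal (𝓞 K)} {p : ℕ} (hp : p.Prime) (hd : d.IsPrime)
    (hN : Ideal.absNorm d = p) (S : 𝓞 K) : ∃ t : ℤ, S - (t : 𝓞 K) ∈ d := by
  have : Fact p.Prime := ⟨hp⟩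
  have hcard : Nat.card (𝓞 K ⧸ d) = p := by
    rw [← hN]
    rfl
  have h1 : (1 : 𝓞 K ⧸ d) ≠ 0 := by
    intro h
    have : (1 : 𝓞 K) ∈ d := by
      rw [← Ideal.Quotient.eq_zero_iff_mem, map_one]
      exact h
    exact hd.ne_top ((Ideal.eq_top_iff_one _).2 this)
  have h2 : (Ideal.Quotient.mk d S) ∈ AddSubgroup.zmultiples (1 : 𝓞 K ⧸ d) :=
    mem_zmultiples_of_prime_card hcard h1
  obtain ⟨t, ht⟩ := AddSubgroup.mem_zmultiples_iff.1 h2
  refine ⟨t, ?_⟩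
  rw [← Ideal.Quotient.eq_zero_iff_mem, map_sub, map_intCast, ← ht]
  simp

private theorem not_span_dvd_lin7 (hb : Base K a s) {S : 𝓞 K} (hS : algebraMap (𝓞 K) K S = s)
    {x : ℤ} (hx : Odd x) {l : ℕ} (hl : l.Prime) :
    ¬ Ideal.span {(l : 𝓞 K)} ∣ Ideal.span {(x : 𝓞 K) + 32 * S} := by
  intro h
  rw [Ideal.dvd_span_singleton, Ideal.mem_span_singleton] at h
  exact not_dvd_lin7 hb hS hx hl h

/-- an odd number dividing `2 z` divides `z` -/
private theorem dvd_of_two7 {R : Type*} [CommRing R] {p : ℕ} (hp : Odd p) {z : R}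
    (h : (p : R) ∣ 2 * z) : (p : R) ∣ z := by
  obtain ⟨k, rfl⟩ := hp
  obtain ⟨w, hw⟩ := h
  refine ⟨z - k * w, ?_⟩
  push_cast at hw ⊢
  linear_combination (-(k : R)) * hw

private theorem norm_pos7 {x : ℤ} (hx : Odd x) (a : ℕ) : (0 : ℤ) < x ^ 2 + a * 32 ^ 2 := by
  have : x ≠ 0 := by rintro rfl; exact absurd hx (by decide)
  positivity

private theorem move_prime7 (hb : Base K a s) {S : 𝓞 K} (hS : algebraMap (𝓞 K) K S = s)
    {d : Ideal (𝓞 K)} (hp : d.IsPrime) (hd : OddI d) {N : ℕ}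
    (hN : N ≠ 0) : MovP7 S N d := by
  have hd0 : d ≠ ⊥ := oddI_ne7 hd
  have hS2 : S ^ 2 = -(a : 𝓞 K) := S_sq7 hb hS
  obtain ⟨p, hpp, hpd, hcase⟩ := prime_cases7 hb hp hd0
  have hnp : Ideal.absNorm (Ideal.span {(p : 𝓞 K)}) = p ^ 2 := norm_nat7 hb p
  have hpodd : Odd p := by
    unfold OddI at hd
    rcases hcase with h | h
    · rwa [h] at hd
    · rw [h, hnp] at hd
      exact Nat.Odd.of_mul_left (by rwa [pow_two] at hd)
  have hpoddZ : Odd (p : ℤ) := by exact_mod_cast hpodd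
  have hnorm : ∀ x : ℤ, (Ideal.absNorm (Ideal.span {((x : 𝓞 K) + 32 * S)}) : ℤ) =
      x ^ 2 + a * 32 ^ 2 := fun x => norm_lin7 hb hS (by push_cast; ring)
  rcases hcase with hNd | hdp
  · -- degree one
    obtain ⟨t, ht⟩ := exists_t7 hpp hp hNd S
    have hta : (((t ^ 2 + a : ℤ)) : 𝓞 K) ∈ d := by
      have h1 : (((t ^ 2 + a : ℤ)) : 𝓞 K) = -(S + t) * (S - t) := by
        push_cast
        linear_combination hS2
      rw [h1]
      exact d.mul_mem_left _ ht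
    obtain ⟨A', hA'⟩ := int_mem_iff7 hp hpp hpd hta
    obtain ⟨u, hu8, hucop⟩ := nonroot (A := p) (B := 64 * t) (C := 1024 * A') (r := 1) hN
      (by
        rintro l hl hl2 ⟨h1, h2, h3⟩
        have hlp : Prime (l : ℤ) := Nat.prime_iff_prime_int.1 hl
        have hn2 : ∀ k : ℕ, ¬ (l : ℤ) ∣ 2 ^ k := by
          intro k hk
          have h4 : l ∣ 2 := hl.dvd_of_dvd_pow (n := k) (by exact_mod_cast hk)
          exact hl2 ((Nat.prime_dvd_prime_iff_eq hl Nat.prime_two).1 h4)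
        have hlp' : l = p := (Nat.prime_dvd_prime_iff_eq hl hpp).1 (by exact_mod_cast h1)
        subst hlp'
        have ht' : (l : ℤ) ∣ t := by
          rcases hlp.dvd_or_dvd h2 with h4 | h4
          · exact absurd (by simpa using h4) (hn2 6)
          · exact h4
        have hA'' : (l : ℤ) ∣ A' := by
          rcases hlp.dvd_or_dvd h3 with h4 | h4
          · exact absurd (by simpa using h4) (hn2 10)
          · exact h4
        obtain ⟨t', rfl⟩ := ht'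
        obtain ⟨A2, rfl⟩ := hA''
        have h5 : ((l * l : ℕ) : ℤ) ∣ (a : ℤ) := ⟨A2 - t' ^ 2, by push_cast; linear_combination hA'⟩
        have h6 : l * l ∣ a := by exact_mod_cast h5
        exact hl.one_lt.ne' (Nat.isUnit_iff.1 (hb.sf l h6)))
      (by
        intro u hu
        obtain ⟨k, hk⟩ := hpoddZ
        obtain ⟨j, hj⟩ : ∃ j, u = 2 * j + 1 := ⟨u / 2, by omega⟩
        rw [hk, hj]
        refine ⟨k * (2 * j + 1) ^ 2 + 2 * j ^ 2 + 2 * j + 32 * t * (2 * j + 1) + 512 * A', ?_⟩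
        ring)
    obtain ⟨j, hj⟩ : ∃ j, u = 8 * j + 1 := ⟨u / 8, by omega⟩
    set x : ℤ := 32 * t + p * u with hxdef
    have hx : Odd x := by
      obtain ⟨k, hk⟩ := hpoddZ
      refine ⟨16 * t + 4 * (2 * k + 1) * j + k, ?_⟩
      rw [hxdef, hk, hj]; ring
    have hm8 : (p : ℤ) % 8 = x % 8 := by
      rw [hxdef, hj]
      rw [show (32 * t + (p : ℤ) * (8 * j + 1)) = p + 8 * (4 * t + p * j) by ring]
      omega
    have hle : Ideal.span {((x : 𝓞 K) + 32 * S)} * d ≤ Ideal.span {(p : 𝓞 K)} := by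
      rw [Ideal.span_singleton_mul_le_iff]
      intro y hy
      obtain ⟨y1, y2, hyS, -⟩ := coords7 hb hS y
      have hyt : (((y1 + y2 * t : ℤ)) : 𝓞 K) ∈ d := by
        have h1 : (((y1 + y2 * t : ℤ)) : 𝓞 K) = 2 * y - y2 * (S - t) := by
          rw [hyS]; push_cast; ring
        rw [h1]
        exact d.sub_mem (d.mul_mem_left _ hy) (d.mul_mem_left _ ht)
      obtain ⟨w, hw⟩ := int_mem_iff7 hp hpp hpd hyt
      rw [Ideal.mem_span_singleton]
      refine dvd_of_two7 hpodd ⟨((x : 𝓞 K) + 32 * S) * w + y2 * (u * S - 32 * A' - u * t), ?_⟩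
      have hwK : (y1 : 𝓞 K) + y2 * t = (p : 𝓞 K) * w := by
        exact_mod_cast congrArg (fun z : ℤ => (z : 𝓞 K)) hw
      have hAK : (t : 𝓞 K) ^ 2 + (a : 𝓞 K) = (p : 𝓞 K) * A' := by
        exact_mod_cast congrArg (fun z : ℤ => (z : 𝓞 K)) hA'
      have hxK : (x : 𝓞 K) = 32 * t + p * u := by rw [hxdef]; push_cast; ring
      rw [hxK]
      linear_combination (32 * (t : 𝓞 K) + p * u + 32 * S) * hyS +
        (32 * (t : 𝓞 K) + p * u + 32 * S) * hwK + 32 * (y2 : 𝓞 K) * hS2 -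
        32 * (y2 : 𝓞 K) * hAK
    obtain ⟨e, he⟩ := Ideal.dvd_iff_le.2 hle
    have hNδ := hnorm x
    have hNe : (Ideal.absNorm e : ℤ) = p * u ^ 2 + 64 * t * u + 1024 * A' := by
      have h1 := congrArg Ideal.absNorm he
      rw [map_mul, map_mul, hNd, hnp] at h1
      have h2 : ((Ideal.absNorm (Ideal.span {((x : 𝓞 K) + 32 * S)}) : ℤ)) * p =
          ((p : ℤ) ^ 2) * (Ideal.absNorm e : ℤ) := by
        exact_mod_cast h1
      rw [hNδ] at h2
      have hp0 : (p : ℤ) ≠ 0 := by exact_mod_cast hpp.ne_zero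
      have h3 : (p : ℤ) ^ 2 * (Ideal.absNorm e : ℤ) =
          (p : ℤ) ^ 2 * (p * u ^ 2 + 64 * t * u + 1024 * A') := by
        rw [← h2, hxdef]
        linear_combination 1024 * (p : ℤ) * hA'
      exact mul_left_cancel₀ (pow_ne_zero 2 hp0) h3
    have he0 : e ≠ ⊥ := by
      rintro rfl
      rw [Ideal.mul_bot] at he
      rcases Ideal.mul_eq_bot.1 he with h1 | h1
      · rw [h1, Ideal.absNorm_bot] at hNδ
        have h2 := norm_pos7 hx a
        rw [← hNδ] at h2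
        exact absurd h2 (by simp)
      · exact hd0 h1
    have hcop : Nat.Coprime (Ideal.absNorm e) N := by
      rw [← Nat.isCoprime_iff_coprime, hNe]
      exact hucop
    obtain ⟨L, hL, hLe⟩ := factor_list7 hb he0 hcop (by
      intro l hl hlP hdiv
      have hl0 : Ideal.span {(l : 𝓞 K)} ≠ ⊥ := by
        rw [Ne, Ideal.span_singleton_eq_bot]
        exact_mod_cast hl.ne_zero
      have h1 : Ideal.span {(l : 𝓞 K)} ∣ Ideal.span {((x : 𝓞 K) + 32 * S)} * d := by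
        rw [he]
        exact Dvd.dvd.mul_left hdiv _
      rcases (Ideal.prime_of_isPrime hl0 hlP).dvd_or_dvd h1 with h2 | h2
      · exact not_span_dvd_lin7 hb hS hx hl h2
      · have h3 : Ideal.absNorm (Ideal.span {(l : 𝓞 K)}) ∣ Ideal.absNorm d :=
          Ideal.absNorm_dvd_absNorm_of_le (Ideal.le_of_dvd h2)
        rw [norm_nat7 hb l, hNd] at h3
        rcases (Nat.dvd_prime hpp).1 h3 with h7 | h7
        · have h8 : l = 1 := by
            have h9 := Nat.le_self_pow (n := 2) (by norm_num) l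
            have h10 := hl.one_lt
            omega
          exact hl.one_lt.ne' h8
        · rw [← h7] at hpp
          exact Nat.Prime.not_prime_pow (le_refl 2) hpp)
    refine ⟨L, p, x, (x : 𝓞 K) + 32 * S, hpodd, hx, hm8, rfl, hL, ?_⟩
    rw [hLe, he]
  · -- inert
    obtain ⟨x, hx8, hxcop⟩ := nonroot (A := 1) (B := 0) (C := 1024 * (a : ℤ)) (r := p) hN
      (by
        rintro l hl hl2 ⟨h1, -, -⟩
        have h2 : l ∣ 1 := by exact_mod_cast h1
        exact hl.one_lt.ne' (Nat.dvd_one.1 h2))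
      (by
        intro u hu
        obtain ⟨k, hk⟩ := hpoddZ
        obtain ⟨j, hj⟩ : ∃ j, u = 2 * j + 1 := ⟨u / 2, by omega⟩
        rw [hj]
        refine ⟨2 * j ^ 2 + 2 * j + 512 * a, ?_⟩
        ring)
    have hx : Odd x := by
      obtain ⟨k, hk⟩ := hpoddZ
      exact ⟨x / 2, by omega⟩
    have hNδ := hnorm x
    have he0 : Ideal.span {((x : 𝓞 K) + 32 * S)} ≠ ⊥ := by
      intro h1
      rw [h1, Ideal.absNorm_bot] at hNδ
      have h2 := norm_pos7 hx a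
      rw [← hNδ] at h2
      exact absurd h2 (by simp)
    have hcop : Nat.Coprime (Ideal.absNorm (Ideal.span {((x : 𝓞 K) + 32 * S)})) N := by
      rw [← Nat.isCoprime_iff_coprime, hNδ]
      convert hxcop using 1
      ring
    obtain ⟨L, hL, hLe⟩ := factor_list7 hb he0 hcop (fun l hl _ => not_span_dvd_lin7 hb hS hx hl)
    refine ⟨L, p, x, (x : 𝓞 K) + 32 * S, hpodd, hx, hx8.symm, rfl, hL, ?_⟩
    rw [hLe, hdp, mul_comm]

private theorem sq_mod8' {x : ℤ} (hx : Odd x) : x ^ 2 % 8 = 1 := by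
  obtain ⟨k, rfl⟩ := hx
  have h : (2 * k + 1) ^ 2 = 4 * (k * (k + 1)) + 1 := by ring
  rw [h]
  obtain ⟨j, hj⟩ := Int.even_mul_succ_self k
  omega

private theorem mov7_of_movP (hb : Base K a s) {S : 𝓞 K} (hS : algebraMap (𝓞 K) K S = s)
    {b : Ideal (𝓞 K)} {N : ℕ} (h : MovP7 S N b) : Mov7 N b := by
  obtain ⟨L, m, x, δ, hm, hx, hmx, hδ, hL, hprod⟩ := h
  have h1 := congrArg Ideal.absNorm hprod
  rw [map_mul, map_mul, norm_nat7 hb m] at h1
  have h3 := norm_lin7 hb hS (δ := δ) (x := x) (y := 32) (by rw [hδ]; push_cast; ring)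
  have heq : (m : ℤ) ^ 2 * (Ideal.absNorm L.prod : ℕ) =
      (x ^ 2 + 1024 * a) * (Ideal.absNorm b : ℕ) := by
    have h4 : ((m : ℤ) ^ 2) * (Ideal.absNorm L.prod : ℕ) =
        (Ideal.absNorm (Ideal.span {δ}) : ℤ) * (Ideal.absNorm b : ℕ) := by exact_mod_cast h1
    rw [h3] at h4
    linear_combination h4
  have hmZ : Odd (m : ℤ) := by exact_mod_cast hm
  refine ⟨L, m, x, δ, S, hmZ, hx, hmx, hδ, hL, ?_, ?_⟩
  · push_cast
    exact hprod
  · have h5 := sq_mod8' hmZ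
    have h6 : (x ^ 2 + 1024 * (a : ℤ)) % 8 = 1 := by
      have h := sq_mod8' hx
      omega
    have h7 := congrArg (· % 8) heq
    simp only [Int.mul_emod, h5, h6, one_mul, Int.emod_emod_of_dvd _ (dvd_refl (8 : ℤ))] at h7
    omega

private theorem mov_mul7 {N : ℕ} {d e : Ideal (𝓞 K)} (hd : Mov7 N d) (he : Mov7 N e) :
    Mov7 N (d * e) := by
  obtain ⟨L1, m1, x1, δ1, y1, hm1, hx1, hmx1, hδ1, hL1, h1, hn1⟩ := hd
  obtain ⟨L2, m2, x2, δ2, y2, hm2, hx2, hmx2, hδ2, hL2, h2, hn2⟩ := he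
  refine ⟨L1 ++ L2, m1 * m2, x1 * x2, δ1 * δ2, x1 * y2 + x2 * y1 + 32 * y1 * y2, hm1.mul hm2,
    hx1.mul hx2, ?_, ?_, ?_, ?_, ?_⟩
  · rw [Int.mul_emod, hmx1, hmx2, ← Int.mul_emod]
  · rw [hδ1, hδ2]
    push_cast
    ring
  · intro q hq
    rcases List.mem_append.1 hq with h | h
    · exact hL1 q h
    · exact hL2 q h
  · rw [List.prod_append]
    push_cast
    rw [← Ideal.span_singleton_mul_span_singleton, ← Ideal.span_singleton_mul_span_singleton,
      mul_mul_mul_comm, h1, h2, mul_mul_mul_comm]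
  · rw [List.prod_append, map_mul, map_mul, Nat.mul_mod, hn1, hn2, ← Nat.mul_mod]

theorem mov7 (hb : Base K a s) {b : Ideal (𝓞 K)} (hbo : OddI b) {N : ℕ} (hN : N ≠ 0) :
    Mov7 N b := by
  obtain ⟨S, hS⟩ := exists_S7 hb
  have hb0 : b ≠ 0 := oddI_ne7 hbo
  induction b using UniqueFactorizationMonoid.induction_on_prime with
  | h₁ => exact absurd rfl hb0
  | h₂ u hu =>
    rw [Ideal.isUnit_iff] at hu
    subst hu
    refine ⟨[], 1, 1, 1, 0, odd_one, odd_one, rfl, by simp, fun q hq => by simp at hq, ?_, ?_⟩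
    · rw [List.prod_nil, Int.cast_one, Ideal.span_singleton_one, Ideal.top_mul, Ideal.top_mul,
        Ideal.one_eq_top]
    · rw [List.prod_nil, Ideal.one_eq_top]
  | h₃ e p he hp ih =>
    have h1 : OddI p ∧ OddI e := oddI_mul7.1 hbo
    exact mov_mul7
      (mov7_of_movP hb hS (move_prime7 hb hS (Ideal.isPrime_of_prime hp) h1.1 hN)) (ih h1.2 he)

end Pool.Agent.Work.MP_8efaaa_nt.K7
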