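import Mathlib
import Pool.Agent.Work.MP_8efaaa_nt.K7.Defs
import Pool.Agent.Work.MP_8efaaa_nt.K7.CFr
import Pool.Agent.Work.MP_8efaaa_nt.K7.CMv
import Pool.Agent.Work.MP_8efaaa_nt.K7.AZb
import Pool.Agent.Work.MP_8efaaa_nt.K7.ARs
import Pool.Agent.Work.MP_8efaaa_nt.R.EInt
import Pool.Agent.Work.MP_8efaaa_nt.R.DMoveA

/-!
# K7/CAl (M): all odd ideals act

Models `K6/CAl.lean`, `N5/CAll.lean`. `mov7` with the `N` of `frob_ma7`; for each prime of the list take a prime `Q` of `F` above it and its Frobenius element (`exists_frb`, R/EInt), `frob_ma7` (an integer `t` exists, see `exists_t` in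
R/DMoveA); the product `σ` acts on `ζ`, `Z`, `Z'` by `L.prod`; then `Z ((m) L.prod c) = e8 m Z (L.prod c)` and `Z ((δ) g c) = e8 x Z (g c)` (`z7_span` for `v` and for `v'`: `δ - x = 32 y ∈ v ^ 5`), `e8 m = e8 x = ± 1`.
`ζ ^ N` depends only on `N` modulo `8`.
-/

set_option autoImplicit false

namespace Pool.Agent.Work.MP_8efaaa_nt.K7

open IsDedekindDomain NumberField Pool.Agent.Work.MP_787500_nt.HC
open Pool.Agent.Work.MP_8efaaa_nt.T Pool.Agent.Work.MP_8efaaa_nt.R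
open Pool.Agent.Work.MP_8efaaa_nt.N5 Pool.Agent.Work.MP_8efaaa_nt.N7
open scoped nonZeroDivisors

universe u

variable {K : Type u} {F : Type*} [Field K] [NumberField K] [Algebra K ℂ] [Field F] [NumberField F]
  [Algebra K F] [Algebra F ℂ] [IsScalarTower K F ℂ] [IsGalois K F] {a : ℕ} {s : K} {S : 𝓞 K}
  {v v' : HeightOneSpectrum (𝓞 K)} {d : ℕ} {x y : ℤ} {ζ w m m' : F}
  {W W' : ClassGroup (𝓞 K) → F} {Z Z' : Ideal (𝓞 K) → F}

private theorem cal7_t {K : Type*} [Field K] [NumberField K] {d : Ideal (𝓞 K)} {p : ℕ}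
    (hp : p.Prime) (hd : d.IsPrime) (hN : Ideal.absNorm d = p) (S : 𝓞 K) :
    ∃ t : ℤ, S - (t : 𝓞 K) ∈ d := by
  have : Fact p.Prime := ⟨hp⟩
  have hcard : Nat.card (𝓞 K ⧸ d) = p := by
    rw [← hN]
    rfl
  have h1 : (1 : 𝓞 K ⧸ d) ≠ 0 := by
    intro h
    have : (1 : 𝓞 K) ∈ d := by
      rw [← Ideal.Quotient.eq_zero_iff_mem, map_one]
      exact h
    exact hd.ne_top ((Ideal.eq_top_iff_one _).2 this)
  have h2 : (Ideal.Quotient.mk d S) ∈ AddSubgroup.zmultiples (1 : 𝓞 K ⧸ d) :=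
    mem_zmultiples_of_prime_card hcard h1
  obtain ⟨t, ht⟩ := AddSubgroup.mem_zmultiples_iff.1 h2
  refine ⟨t, ?_⟩
  rw [← Ideal.Quotient.eq_zero_iff_mem, map_sub, map_intCast, ← ht]
  simp

omit [NumberField F] [Algebra F ℂ] in
private theorem cal7_pow {ζ : F} (h : ζ ^ 4 = -1) {m n : ℕ} (hmn : m % 8 = n % 8) :
    ζ ^ m = ζ ^ n := by
  have h8 : ζ ^ 8 = 1 := by
    have : ζ ^ 8 = (ζ ^ 4) ^ 2 := by ring
    rw [this, h]
    norm_num
  rw [← Nat.div_add_mod m 8, ← Nat.div_add_mod n 8, pow_add, pow_add, pow_mul, pow_mul, h8, one_pow,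
    one_pow, hmn]

omit [Algebra K ℂ] [Algebra F ℂ] [IsScalarTower K F ℂ] in
/-- one prime ideal of degree one -/
private theorem cal7_prime {N : ℕ}
    (hfr : ∀ (l : ℕ) (Q : Ideal (𝓞 F)) (σ : F ≃ₐ[K] F) (t : ℤ), l.Prime → ¬ l ∣ N → Q.IsPrime →
      Ideal.absNorm (Q.comap (algebraMap (𝓞 K) (𝓞 F))) = l → Frb σ Q l →
      S - (t : 𝓞 K) ∈ Q.comap (algebraMap (𝓞 K) (𝓞 F)) →
      MA7 d x y ζ w m m' W W' Z Z' σ (Q.comap (algebraMap (𝓞 K) (𝓞 F))) t)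
    {q : Ideal (𝓞 K)} (hq : q.IsPrime) (hl : (Ideal.absNorm q).Prime)
    (hN : ¬ Ideal.absNorm q ∣ N) :
    ∃ σ : F ≃ₐ[K] F, σ ζ = ζ ^ Ideal.absNorm q ∧
      ∀ c, OddI c → σ (Z c) = Z (q * c) ∧ σ (Z' c) = Z' (q * c) := by
  have hq0 : q ≠ ⊥ := by
    rintro rfl
    rw [Ideal.absNorm_bot] at hl
    exact Nat.not_prime_zero hl
  haveI : q.IsMaximal := hq.isMaximal hq0
  have hinj : Function.Injective (algebraMap (𝓞 K) (𝓞 F)) := FaithfulSMul.algebraMap_injective _ _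
  obtain ⟨Q, hQ, hQq⟩ := Ideal.exists_ideal_over_maximal_of_isIntegral (S := 𝓞 F) q (by
    rw [(RingHom.injective_iff_ker_eq_bot _).1 hinj]
    exact bot_le)
  have hQ0 : Q ≠ ⊥ := by
    rintro rfl
    apply hq0
    rw [← hQq]
    exact Ideal.comap_bot_of_injective _ hinj
  obtain ⟨σ, hσ⟩ := exists_frb Q hQ.isPrime hQ0 (k := K)
  rw [hQq] at hσ
  obtain ⟨t, ht⟩ := cal7_t hl hq rfl S
  have h1 := hfr (Ideal.absNorm q) Q σ t hl hN hQ.isPrime (by rw [hQq]) hσ (by rw [hQq]; exact ht)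
  rw [hQq] at h1
  exact ⟨σ, h1.z8, fun c hc => ⟨h1.hZ c hc, h1.hZ' c hc⟩⟩

omit [Algebra K ℂ] [Algebra F ℂ] [IsScalarTower K F ℂ] in
private theorem cal7_list {N : ℕ} (h2 : 2 ∣ N)
    (hfr : ∀ (l : ℕ) (Q : Ideal (𝓞 F)) (σ : F ≃ₐ[K] F) (t : ℤ), l.Prime → ¬ l ∣ N → Q.IsPrime →
      Ideal.absNorm (Q.comap (algebraMap (𝓞 K) (𝓞 F))) = l → Frb σ Q l →
      S - (t : 𝓞 K) ∈ Q.comap (algebraMap (𝓞 K) (𝓞 F)) →
      MA7 d x y ζ w m m' W W' Z Z' σ (Q.comap (algebraMap (𝓞 K) (𝓞 F))) t)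
    (L : List (Ideal (𝓞 K)))
    (hL : ∀ q ∈ L, q.IsPrime ∧ (Ideal.absNorm q).Prime ∧ ¬ Ideal.absNorm q ∣ N) :
    ∃ σ : F ≃ₐ[K] F, σ ζ = ζ ^ Ideal.absNorm L.prod ∧
      ∀ c, OddI c → σ (Z c) = Z (L.prod * c) ∧ σ (Z' c) = Z' (L.prod * c) := by
  induction L with
  | nil =>
    refine ⟨AlgEquiv.refl, ?_, ?_⟩
    · rw [List.prod_nil, map_one, pow_one]
      rfl
    · intro c hc
      rw [List.prod_nil, one_mul]
      exact ⟨rfl, rfl⟩
  | cons q L ih =>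
    obtain ⟨σ', h1, h2'⟩ := ih fun r hr => hL r (List.mem_cons_of_mem _ hr)
    obtain ⟨hq, hql, hqN⟩ := hL q List.mem_cons_self
    obtain ⟨σ, h3, h4⟩ := cal7_prime hfr hq hql hqN
    have hodd : OddI q := by
      unfold OddI
      refine hql.odd_of_ne_two fun h5 => hqN ?_
      rw [h5]
      exact h2
    refine ⟨σ.trans σ', ?_, ?_⟩
    · rw [AlgEquiv.trans_apply, h3, map_pow, h1, ← pow_mul, List.prod_cons, map_mul, mul_comm]
    · intro c hc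
      obtain ⟨a1, a2⟩ := h4 c hc
      obtain ⟨b1, b2⟩ := h2' (q * c) (oddI_mul7.2 ⟨hodd, hc⟩)
      have e : L.prod * (q * c) = (q :: L).prod * c := by
        rw [List.prod_cons]
        ring
      refine ⟨?_, ?_⟩
      · rw [AlgEquiv.trans_apply, a1, b1, e]
      · rw [AlgEquiv.trans_apply, a2, b2, e]

omit [Algebra K ℂ] in
private theorem cal7_five {v : HeightOneSpectrum (𝓞 K)} (hv : (2 : 𝓞 K) ∈ v.asIdeal) {δ y : 𝓞 K}
    {x : ℤ} (hδ : δ = x + 32 * y) : δ - (x : 𝓞 K) ∈ v.asIdeal ^ 5 := by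
  have h1 : δ - (x : 𝓞 K) = 2 ^ 5 * y := by
    rw [hδ]
    ring
  rw [h1]
  exact Ideal.mul_mem_right _ _ (Ideal.pow_mem_pow hv 5)

private theorem cal7_z (hb : Base K a s) {v : HeightOneSpectrum (𝓞 K)}
    (hv : (2 : 𝓞 K) ∈ v.asIdeal) {b c L : Ideal (𝓞 K)} {n x : ℤ} {δ y : 𝓞 K} (hn : Odd n)
    (hx : Odd x) (hnx : n % 8 = x % 8) (hδ : δ = x + 32 * y)
    (hno : OddI (Ideal.span {(n : 𝓞 K)})) (hδo : OddI (Ideal.span {δ})) (hL : OddI L)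
    (hbo : OddI b) (hc : OddI c)
    (hprod : Ideal.span {(n : 𝓞 K)} * L = Ideal.span {δ} * b) :
    z7 v (L * c) = z7 v (b * c) := by
  have hLc : OddI (L * c) := oddI_mul7.2 ⟨hL, hc⟩
  have hbc : OddI (b * c) := oddI_mul7.2 ⟨hbo, hc⟩
  have p := z7_span hb hv hLc hn (δ := (n : 𝓞 K)) (by rw [sub_self]; exact Ideal.zero_mem _) hno
  have q := z7_span hb hv hbc hx (cal7_five hv hδ) hδo
  have e1 : Ideal.span {(n : 𝓞 K)} * (L * c) = Ideal.span {δ} * (b * c) := by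
    rw [← mul_assoc, hprod, mul_assoc]
  have e2 : e8 x = e8 n := by
    unfold e8
    rw [hnx]
  have e4 : (e8 n : ℂ) ≠ 0 := by
    unfold e8
    split_ifs <;> norm_num
  rw [e1] at p
  rw [e2] at q
  exact mul_left_cancel₀ e4 (p.symm.trans q)

theorem all_act7 (hb : Base K a s) (hS : algebraMap (𝓞 K) K S = s)
    (h : C7 K F s v v' d x y ζ w m m' W W' Z Z') (hd : d ≠ 0) {g : Ideal (𝓞 K)} (hg : OddI g) :
    ∃ σ : F ≃ₐ[K] F, σ ζ = ζ ^ Ideal.absNorm g ∧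
      ∀ c, OddI c → σ (Z c) = Z (g * c) ∧ σ (Z' c) = Z' (g * c) := by
  obtain ⟨N, hN, h2N, -, hfr⟩ := frob_ma7 hb hS h hd
  obtain ⟨L, n, x', δ, y', hn, hx, hnx, hδ, hL, hprod, hnorm⟩ := mov7 hb hg hN
  obtain ⟨σ, hσ, hσL⟩ := cal7_list h2N hfr L hL
  have hv := h.ic.cw.hv
  have hv' := h.ic.cw.hv'
  have hne := h.ic.cw.ne
  have hLodd : OddI L.prod := by
    unfold OddI at *
    rw [Nat.odd_iff] at *
    omega
  have hnv : ∀ u : HeightOneSpectrum (𝓞 K), (2 : 𝓞 K) ∈ u.asIdeal →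
      ¬ Ideal.span {(n : 𝓞 K)} ≤ u.asIdeal := by
    intro u hu hle
    have h1 : (n : 𝓞 K) ∈ u.asIdeal ^ 1 := by
      rw [pow_one]
      exact hle (Ideal.mem_span_singleton_self _)
    have h2 := (int_mem_pow7 hb hu n 1).1 h1
    rw [pow_one] at h2
    exact (Int.not_even_iff_odd.2 hn) (even_iff_two_dvd.2 h2)
  have hno : OddI (Ideal.span {(n : 𝓞 K)}) :=
    (oddI_iff7 hb hv hv' hne).2 ⟨hnv v hv, hnv v' hv'⟩
  have hδo : OddI (Ideal.span {δ}) := by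
    have h1 : OddI (Ideal.span {(n : 𝓞 K)} * L.prod) := oddI_mul7.2 ⟨hno, hLodd⟩
    rw [hprod] at h1
    exact (oddI_mul7.1 h1).1
  have hinj := (algebraMap F ℂ).injective
  refine ⟨σ, ?_, ?_⟩
  · rw [hσ]
    exact cal7_pow h.z8 hnorm
  · intro c hc
    have hLc : OddI (L.prod * c) := oddI_mul7.2 ⟨hLodd, hc⟩
    have hgc : OddI (g * c) := oddI_mul7.2 ⟨hg, hc⟩
    obtain ⟨b1, b2⟩ := hσL c hc
    refine ⟨?_, ?_⟩
    · rw [b1]
      apply hinj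
      rw [h.hZ _ hLc, h.hZ _ hgc]
      exact cal7_z hb hv hn hx hnx hδ hno hδo hLodd hg hc hprod
    · rw [b2]
      apply hinj
      rw [h.hZ' _ hLc, h.hZ' _ hgc]
      exact cal7_z hb hv' hn hx hnx hδ hno hδo hLodd hg hc hprod

end Pool.Agent.Work.MP_8efaaa_nt.K7
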