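import Mathlib
import Pool.Agent.Work.MP_8efaaa_nt.K7.Defs
import Pool.Agent.Work.MP_8efaaa_nt.N7.CCtx
import Pool.Agent.Work.MP_8efaaa_nt.T.Ctx
import Pool.Agent.Work.MP_8efaaa_nt.N5.CFin
import Pool.Agent.Work.MP_8efaaa_nt.K7.AZb

/-!
# K7/CCx (M): the field of the values

Model `N7/CCtx.lean`. The values of `z7 v`, `z7 v'` on odd ideals: by `z7_sq` and `hW` their squares are among the finitely many algebraic numbers `1 + W C ^ 2`, `1 + W' C ^ 2`, so the values lie in the
finite set of the square roots of these numbers. Also a root of unity of order `8`, `Real.sqrt d`, a complex square root `m` of `(x + y s) / 2` and its complex conjugate. `fin_gal_rat` (N5/CFin) for the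
union of these finite sets. `Z c := if OddI c then .. else 0`.
-/

set_option autoImplicit false

namespace Pool.Agent.Work.MP_8efaaa_nt.K7

open IsDedekindDomain NumberField Pool.Agent.Work.MP_787500_nt.HC
open Pool.Agent.Work.MP_8efaaa_nt.T Pool.Agent.Work.MP_8efaaa_nt.R
open Pool.Agent.Work.MP_8efaaa_nt.N5 Pool.Agent.Work.MP_8efaaa_nt.N7
open scoped nonZeroDivisors

universe u

variable {K : Type u} [Field K] [NumberField K] [Algebra K ℂ] {a : ℕ} {s : K}
  {v : HeightOneSpectrum (𝓞 K)}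

private theorem conj_sq {t : ℂ} {a : ℕ} (ha : 0 < a) (h : t ^ 2 = -(a : ℂ)) :
    (starRingEnd ℂ) t = -t := by
  have h1 : ((starRingEnd ℂ) t) ^ 2 = t ^ 2 := by
    rw [← map_pow, h]
    simp
  rcases sq_eq_sq_iff_eq_or_eq_neg.1 h1 with h2 | h2
  · exfalso
    obtain ⟨r, rfl⟩ := Complex.conj_eq_iff_real.1 h2
    have h3 : r ^ 2 = -(a : ℝ) := by exact_mod_cast h
    have h4 : (0 : ℝ) < a := by exact_mod_cast ha
    have h5 := sq_nonneg r
    linarith
  · exact h2

private theorem alg_of {A : Type*} [CommGroup A] [Finite A] {Wc Wc' : A → ℂ} (h : Act K ℂ Wc Wc')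
    (c : A) : IsAlgebraic K (Wc c) ∧ IsAlgebraic K (Wc' c) := by
  obtain ⟨ψ, W, W', h1, h2, _⟩ := transfer h
  constructor
  · rw [← h1 c]
    exact (isAlgebraic_algHom_iff ψ ψ.injective).2 (Algebra.IsAlgebraic.isAlgebraic (R := K) (W c))
  · rw [← h2 c]
    exact (isAlgebraic_algHom_iff ψ ψ.injective).2 (Algebra.IsAlgebraic.isAlgebraic (R := K) (W' c))

theorem exists_c7 (hb : Base K a s) (hv : (2 : 𝓞 K) ∈ v.asIdeal) (d : ℕ) (x y : ℤ) :
    ∃ (v' : HeightOneSpectrum (𝓞 K)) (F : IntermediateField K ℂ)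
      (_ : FiniteDimensional K F) (_ : IsGalois K F) (_ : IsGalois ℚ F) (ζ w m m' : F)
      (W W' : ClassGroup (𝓞 K) → F) (Z Z' : Ideal (𝓞 K) → F),
      C7 K F s v v' d x y ζ w m m' W W' Z Z' := by
  classical
  obtain ⟨v', hne, hv', h2⟩ := exists_other hb hv
  obtain ⟨Wc, hW⟩ := exists_class_fun (wv (pr v) (eV v)) (wv_prin hb hv)
  obtain ⟨Wc', hW'⟩ := exists_class_fun (wv (pr v') (eV v')) (wv_prin hb hv')
  have hact := act_complex hb hv hv' hW hW'
  have hWa : ∀ C, IsAlgebraic K (Wc C) ∧ IsAlgebraic K (Wc' C) := fun C => alg_of hact C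
  have hd2 : (((Real.sqrt (d : ℝ) : ℝ) : ℂ)) ^ 2 = (d : ℂ) := by
    rw [← Complex.ofReal_pow, Real.sq_sqrt (Nat.cast_nonneg d)]
    simp
  have hda : IsAlgebraic K ((Real.sqrt (d : ℝ) : ℝ) : ℂ) := by
    refine ⟨Polynomial.X ^ 2 - Polynomial.C (d : K), ?_, ?_⟩
    · exact (Polynomial.monic_X_pow_sub_C (d : K) (n := 2) (by norm_num)).ne_zero
    · simp [hd2]
  obtain ⟨ζ, hζ⟩ := IsAlgClosed.exists_pow_nat_eq (-1 : ℂ) (n := 4) (by norm_num)
  have hζa : IsAlgebraic K ζ := by
    refine ⟨Polynomial.X ^ 4 + 1, ?_, ?_⟩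
    · exact (Polynomial.monic_X_pow_add_C (1 : K) (n := 4) (by norm_num)).ne_zero
    · simp [hζ]
  -- the square roots of `(x ± y s) / 2`
  set t : ℂ := algebraMap K ℂ s with ht
  have ht2 : t ^ 2 = -(a : ℂ) := by
    rw [ht, ← map_pow, hb.sq]
    simp
  have ha0 : 0 < a := Nat.pos_of_ne_zero hb.sf.ne_zero
  have htc : (starRingEnd ℂ) t = -t := conj_sq ha0 ht2
  obtain ⟨m, hm⟩ := IsAlgClosed.exists_pow_nat_eq (((x : ℂ) + y * t) / 2) (n := 2) (by norm_num)
  set m' : ℂ := (starRingEnd ℂ) m with hm'd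
  have hm' : m' ^ 2 = ((x : ℂ) - y * t) / 2 := by
    rw [hm'd, ← map_pow, hm, map_div₀, map_add, map_mul, htc, map_ofNat]
    simp [sub_eq_add_neg]
  have hma : IsAlgebraic K m := by
    have h : IsAlgebraic K (m ^ 2) := by
      rw [hm]
      have h3 := isAlgebraic_algebraMap (R := K) (A := ℂ) (((x : K) + y * s) / 2)
      rw [map_div₀, map_add, map_mul, map_intCast, map_intCast, map_ofNat] at h3
      exact h3
    exact IsAlgebraic.of_pow (n := 2) (by norm_num) h
  have hma' : IsAlgebraic K m' := by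
    have h : IsAlgebraic K (m' ^ 2) := by
      rw [hm']
      have h3 := isAlgebraic_algebraMap (R := K) (A := ℂ) (((x : K) - y * s) / 2)
      rw [map_div₀, map_sub, map_mul, map_intCast, map_intCast, map_ofNat] at h3
      exact h3
    exact IsAlgebraic.of_pow (n := 2) (by norm_num) h
  -- the square roots of `1 + W ^ 2`
  have hsq : ∀ z : ℂ, ∃ r : ℂ, r ^ 2 = 1 + z ^ 2 := fun z =>
    IsAlgClosed.exists_pow_nat_eq (1 + z ^ 2) (n := 2) (by norm_num)
  choose r hr using hsq
  have hra : ∀ z : ℂ, IsAlgebraic K z → IsAlgebraic K (r z) := by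
    intro z hz
    refine IsAlgebraic.of_pow (n := 2) (by norm_num) ?_
    rw [hr]
    exact isAlgebraic_one.add (hz.pow 2)
  have hfin : Fintype (ClassGroup (𝓞 K)) := inferInstance
  set T : Finset ℂ := (Finset.univ.image fun C => r (Wc C)) ∪ (Finset.univ.image fun C => -r (Wc C)) ∪
    ((Finset.univ.image fun C => r (Wc' C)) ∪ (Finset.univ.image fun C => -r (Wc' C))) with hT
  have hTa : ∀ z ∈ T, IsAlgebraic K z := by
    intro z hz
    rw [hT] at hz
    rcases Finset.mem_union.1 hz with hz | hz <;> rcases Finset.mem_union.1 hz with hz | hz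
    · obtain ⟨C, _, rfl⟩ := Finset.mem_image.1 hz
      exact hra _ (hWa C).1
    · obtain ⟨C, _, rfl⟩ := Finset.mem_image.1 hz
      exact (hra _ (hWa C).1).neg
    · obtain ⟨C, _, rfl⟩ := Finset.mem_image.1 hz
      exact hra _ (hWa C).2
    · obtain ⟨C, _, rfl⟩ := Finset.mem_image.1 hz
      exact (hra _ (hWa C).2).neg
  have hz7 : ∀ c : Ideal (𝓞 K), OddI c → z7 v c ∈ T ∧ z7 v' c ∈ T := by
    intro c hc
    constructor
    · have h3 := z7_sq hb hv hc
      rw [← hW, ← hr] at h3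
      rw [hT]
      apply Finset.mem_union_left
      rcases sq_eq_sq_iff_eq_or_eq_neg.1 h3 with h4 | h4
      · exact Finset.mem_union_left _ (Finset.mem_image.2 ⟨_, Finset.mem_univ _, h4.symm⟩)
      · exact Finset.mem_union_right _ (Finset.mem_image.2 ⟨_, Finset.mem_univ _, h4.symm⟩)
    · have h3 := z7_sq hb hv' hc
      rw [← hW', ← hr] at h3
      rw [hT]
      apply Finset.mem_union_right
      rcases sq_eq_sq_iff_eq_or_eq_neg.1 h3 with h4 | h4
      · exact Finset.mem_union_left _ (Finset.mem_image.2 ⟨_, Finset.mem_univ _, h4.symm⟩)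
      · exact Finset.mem_union_right _ (Finset.mem_image.2 ⟨_, Finset.mem_univ _, h4.symm⟩)
  obtain ⟨F, h1, h3, h4, hF⟩ := fin_gal_rat (K := K)
    (insert ζ (insert m (insert m' (insert ((Real.sqrt (d : ℝ) : ℝ) : ℂ)
      (Finset.univ.image Wc ∪ Finset.univ.image Wc' ∪ T))))) (by
    intro z hz
    rcases Finset.mem_insert.1 hz with rfl | hz
    · exact hζa
    rcases Finset.mem_insert.1 hz with rfl | hz
    · exact hma
    rcases Finset.mem_insert.1 hz with rfl | hz
    · exact hma'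
    rcases Finset.mem_insert.1 hz with rfl | hz
    · exact hda
    rcases Finset.mem_union.1 hz with hz | hz
    · rcases Finset.mem_union.1 hz with hz | hz
      · obtain ⟨c, _, rfl⟩ := Finset.mem_image.1 hz
        exact (hWa c).1
      · obtain ⟨c, _, rfl⟩ := Finset.mem_image.1 hz
        exact (hWa c).2
    · exact hTa z hz)
  have hF1 : ∀ z ∈ Finset.univ.image Wc ∪ Finset.univ.image Wc' ∪ T, z ∈ F := fun z hz =>
    hF z (Finset.mem_insert_of_mem (Finset.mem_insert_of_mem (Finset.mem_insert_of_mem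
      (Finset.mem_insert_of_mem hz))))
  have hζF : ζ ∈ F := hF _ (Finset.mem_insert_self _ _)
  have hmF : m ∈ F := hF _ (Finset.mem_insert_of_mem (Finset.mem_insert_self _ _))
  have hmF' : m' ∈ F := hF _ (Finset.mem_insert_of_mem (Finset.mem_insert_of_mem
    (Finset.mem_insert_self _ _)))
  have hdF : ((Real.sqrt (d : ℝ) : ℝ) : ℂ) ∈ F := hF _ (Finset.mem_insert_of_mem
    (Finset.mem_insert_of_mem (Finset.mem_insert_of_mem (Finset.mem_insert_self _ _))))
  have hWF : ∀ c, Wc c ∈ F := fun c => hF1 _ (Finset.mem_union_left _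
    (Finset.mem_union_left _ (Finset.mem_image_of_mem _ (Finset.mem_univ c))))
  have hWF' : ∀ c, Wc' c ∈ F := fun c => hF1 _ (Finset.mem_union_left _
    (Finset.mem_union_right _ (Finset.mem_image_of_mem _ (Finset.mem_univ c))))
  have hTF : ∀ z ∈ T, z ∈ F := fun z hz => hF1 _ (Finset.mem_union_right _ hz)
  refine ⟨v', F, h1, h3, h4, ⟨ζ, hζF⟩, ⟨((Real.sqrt (d : ℝ) : ℝ) : ℂ), hdF⟩, ⟨m, hmF⟩,
    ⟨m', hmF'⟩, fun c => ⟨Wc c, hWF c⟩, fun c => ⟨Wc' c, hWF' c⟩,
    fun c => if h : OddI c then ⟨z7 v c, hTF _ (hz7 c h).1⟩ else 0,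
    fun c => if h : OddI c then ⟨z7 v' c, hTF _ (hz7 c h).2⟩ else 0,
    ⟨⟨hne, hv, hv', h2, hW, hW'⟩, ?_, ?_⟩, ?_, ?_, ?_, ?_, ?_, ?_, ?_⟩
  · apply Subtype.ext
    simpa using hd2
  · exact Complex.conj_ofReal _
  · apply Subtype.ext
    simpa using hζ
  · intro c hc
    simp only [dif_pos hc]
    rfl
  · intro c hc
    simp only [dif_pos hc]
    rfl
  · refine ⟨T.preimage (Subtype.val : F → ℂ) Subtype.val_injective.injOn, fun c hc => ?_⟩
    simp only [dif_pos hc, Finset.mem_preimage]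
    exact hz7 c hc
  · apply (algebraMap F ℂ).injective
    rw [map_mul, map_pow, map_add, map_mul, map_intCast, map_intCast, map_ofNat]
    have h5 : (2 : ℂ) * m ^ 2 = x + y * t := by
      rw [hm]
      ring
    exact h5
  · apply (algebraMap F ℂ).injective
    rw [map_mul, map_pow, map_sub, map_mul, map_intCast, map_intCast, map_ofNat]
    have h5 : (2 : ℂ) * m' ^ 2 = x - y * t := by
      rw [hm']
      ring
    exact h5
  · rfl

end Pool.Agent.Work.MP_8efaaa_nt.K7
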