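import Mathlib
import Pool.Agent.Work.MP_8efaaa_nt.K7.Defs
import Pool.Agent.Work.MP_8efaaa_nt.N7.AKr
import Pool.Agent.Work.MP_8efaaa_nt.R.BInt
import Pool.Agent.Work.MP_8efaaa_nt.R.DVal
import Pool.Agent.Work.MP_8efaaa_nt.K5.KrR
import Pool.Agent.Work.MP_8efaaa_nt.N7.AFv

/-!
# K7/AKm (M-L): the Kronecker congruence for `W` at the ramified primes

Models: K5/KrR.lean, K6/AKm.lean (helper47) and N7/AKr.lean. `l ∣ a` prime, `q` the prime ideal above `l` (`q ^ 2 = (l)`). With `M c = lat (pr v ^ 5 * (idl c)⁻¹)`, `Ch (M c) 1 4 = lat (pr v ^ 4 * (idl c)⁻¹)`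
(`fr_chain`), use `kron_one` (K5/KrR) for `M c ≤ M (q c)`: it needs `V (fz M 1) = 1`, `V (2 - fz M 1 ^ 2) = 1` (from `hgood`: `fz ^ 2 = 1 + W ^ 2`) and
`V (csq (M (q c)) (Ch (M (q c)) 1 4)) < V (csq (M c) (Ch (M c) 1 4))`. For the last: choose `λ ∈ q` with `(λ) = q e`, `e` prime to `2 l`, `λ` odd (e.g. `λ = l + 2 S`, or any `λ` in `q` not in `q ^ 2` whose norm is odd and
not divisible by `l ^ 2`); `csq` is homogeneous, so `V (csq (M (λ c)) _) = V (λ) ^ 4 V (csq (M c) _) < V (csq (M c) _)`, and `M (q c) ≤ M (q e c)` has odd index `m = N e` prime to `l`, `V m = 1`; `csq_odd`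
(K5/MxOdd: needs `Mx V (M (q c)) (Ch ..)`, which is `bgd_iff` (K5/MxA) with `BGd`: `csq_eqE` (R/SE) and the units) gives `V (csq (M (q c)) _) ≤ V (csq (M (q e c)) _)`. The conclusion for `fv` with `f_wv`, as in N7/AKr.
-/

set_option autoImplicit false

namespace Pool.Agent.Work.MP_8efaaa_nt.K7

open IsDedekindDomain NumberField Pool.Agent.Work.MP_787500_nt.HC
open Pool.Agent.Work.MP_8efaaa_nt.T Pool.Agent.Work.MP_8efaaa_nt.R
open Pool.Agent.Work.MP_8efaaa_nt.N5 Pool.Agent.Work.MP_8efaaa_nt.N7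
open scoped nonZeroDivisors Pointwise

variable {K : Type*} [Field K] [NumberField K] [Algebra K ℂ] {a : ℕ} {s : K}
  {v : HeightOneSpectrum (𝓞 K)} {W : ClassGroup (𝓞 K) → ℂ}

/-- an integer in `q` is divisible by `l` -/
private theorem akm_int_mem {l : ℕ} (hl : l.Prime) {q : Ideal (𝓞 K)} (hq : q.IsPrime)
    (hql : Ideal.absNorm q = l) {n : ℤ} (hn : (n : 𝓞 K) ∈ q) : (l : ℤ) ∣ n := by
  by_contra hd
  have hcop : IsCoprime (l : ℤ) n :=
    (Int.isCoprime_iff_gcd_eq_one).2 (by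
      have := (Int.prime_iff_natAbs_prime.2 (by simpa using hl) : Prime (l : ℤ))
      exact (Int.isCoprime_iff_gcd_eq_one).1
        ((Prime.coprime_iff_not_dvd this).2 hd))
  obtain ⟨u, v, huv⟩ := hcop
  have hlq : ((l : ℤ) : 𝓞 K) ∈ q := by
    have := Ideal.absNorm_mem q
    rw [hql] at this
    simpa using this
  apply hq.ne_top
  rw [Ideal.eq_top_iff_one]
  have h1 := congrArg (Int.cast : ℤ → 𝓞 K) huv
  push_cast at h1
  rw [← h1]
  refine q.add_mem (q.mul_mem_left _ ?_) (q.mul_mem_left _ hn)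
  simpa using hlq

/-- the residue field of `q` has `l` elements: every integer is congruent to a rational one -/
private theorem akm_exists_int {l : ℕ} (hl : l.Prime) {q : Ideal (𝓞 K)} (hq : q.IsPrime)
    (hql : Ideal.absNorm q = l) (x : 𝓞 K) : ∃ b : ℤ, x - b ∈ q := by
  classical
  have hq0 : q ≠ ⊥ := by
    rintro rfl
    rw [Ideal.absNorm_bot] at hql
    exact hl.ne_zero hql.symm
  have hfin : Finite (𝓞 K ⧸ q) := Ideal.finiteQuotientOfFreeOfNeBot q hq0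
  have : Fintype (𝓞 K ⧸ q) := Fintype.ofFinite _
  have hcard : Fintype.card (𝓞 K ⧸ q) = l := by
    rw [← hql, Ideal.absNorm_apply, Submodule.cardQuot_apply, Nat.card_eq_fintype_card]
  have hchar : CharP (𝓞 K ⧸ q) l := by
    constructor
    intro n
    rw [← map_natCast (Ideal.Quotient.mk q), Ideal.Quotient.eq_zero_iff_mem]
    constructor
    · intro h
      have h1 : (l : ℤ) ∣ (n : ℤ) := akm_int_mem hl hq hql (by simpa using h)
      exact_mod_cast h1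
    · rintro ⟨c, rfl⟩
      have h2 := Ideal.absNorm_mem q
      rw [hql] at h2
      push_cast
      exact q.mul_mem_right _ h2
  obtain ⟨z, hz⟩ := (ZMod.castHom_bijective (𝓞 K ⧸ q) hcard).2 (Ideal.Quotient.mk q x)
  obtain ⟨b, rfl⟩ := ZMod.intCast_surjective z
  refine ⟨b, ?_⟩
  rw [map_intCast] at hz
  rw [← Ideal.Quotient.eq, map_intCast]
  exact hz.symm



private theorem akm_step {l : ℕ} (hl : l.Prime) {q : Ideal (𝓞 K)} (hq : q.IsPrime)
    (hql : Ideal.absNorm q = l) (I : Idl K) :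
    ∃ u : ℂ, u ∉ lat I ∧ (l : ℂ) * u ∈ lat I ∧
      lat (I * (idl q)⁻¹) = lat I ⊔ Submodule.span ℤ {u} := by
  have hq0 : q ≠ ⊥ := by
    rintro rfl
    rw [Ideal.absNorm_bot] at hql
    exact hl.ne_zero hql.symm
  have hqm : q.IsMaximal := hq.isMaximal hq0
  set A : FractionalIdeal (𝓞 K)⁰ K := (I : FractionalIdeal (𝓞 K)⁰ K) with hA
  set Q : FractionalIdeal (𝓞 K)⁰ K := (q : FractionalIdeal (𝓞 K)⁰ K) with hQ
  have hQ' : ((idl q : Idl K) : FractionalIdeal (𝓞 K)⁰ K) = Q := idl_ne hq0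
  set B : FractionalIdeal (𝓞 K)⁰ K :=
    ((I * (idl q)⁻¹ : Idl K) : FractionalIdeal (𝓞 K)⁰ K) with hB
  have hA0 : A ≠ 0 := I.ne_zero
  have hB0 : B ≠ 0 := (I * (idl q)⁻¹ : Idl K).ne_zero
  have hQ0 : Q ≠ 0 := FractionalIdeal.coeIdeal_ne_zero.mpr hq0
  have hBQ : B * Q = A := by
    rw [hB, ← hQ', ← Units.val_mul, inv_mul_cancel_right]
  have hmemB : ∀ x : K, x ∈ B ↔ ∀ y ∈ q, x * algebraMap (𝓞 K) K y ∈ A := fun x =>
    mem_inv_idl hq0 I x
  have hsm : ∀ (t : 𝓞 K) (x : K), x ∈ A → x * algebraMap (𝓞 K) K t ∈ A := by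
    intro t x hx
    have := (A : Submodule (𝓞 K) K).smul_mem t hx
    rw [Algebra.smul_def, mul_comm] at this
    exact this
  have hAB : A ≤ B := fun x hx => (hmemB x).2 fun y _ => hsm y x hx
  obtain ⟨x, hx, hxA⟩ : ∃ x ∈ B, x ∉ A := by
    by_contra hcon
    push Not at hcon
    have hle : B ≤ A := fun x hx => hcon x hx
    have h1 : (1 : FractionalIdeal (𝓞 K)⁰ K) ≤ Q := by
      calc (1 : FractionalIdeal (𝓞 K)⁰ K) = B * B⁻¹ := (mul_inv_cancel₀ hB0).symm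
        _ ≤ A * B⁻¹ := mul_le_mul_left hle _
        _ = Q := by rw [← hBQ, mul_comm B Q, mul_assoc, mul_inv_cancel₀ hB0, mul_one]
    rw [← FractionalIdeal.coeIdeal_top, hQ] at h1
    exact hq.ne_top (top_le_iff.mp ((FractionalIdeal.coeIdeal_le_coeIdeal K).mp h1))
  set J : FractionalIdeal (𝓞 K)⁰ K :=
    A + FractionalIdeal.spanSingleton (𝓞 K)⁰ x with hJ
  have hJle : J ≤ B := by
    rw [hJ, ← FractionalIdeal.sup_eq_add, sup_le_iff]
    exact ⟨hAB, FractionalIdeal.spanSingleton_le_iff_mem.mpr hx⟩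
  have hJB : J * B⁻¹ ≤ 1 := by
    calc J * B⁻¹ ≤ B * B⁻¹ := mul_le_mul_left hJle _
      _ = 1 := mul_inv_cancel₀ hB0
  obtain ⟨I', hI'⟩ := FractionalIdeal.le_one_iff_exists_coeIdeal.mp hJB
  have hABQ : A * B⁻¹ = Q := by rw [← hBQ, mul_comm B Q, mul_assoc, mul_inv_cancel₀ hB0, mul_one]
  have hqI : q ≤ I' := by
    rw [← FractionalIdeal.coeIdeal_le_coeIdeal K, hI', ← hQ]
    calc Q = A * B⁻¹ := hABQ.symm
      _ ≤ J * B⁻¹ := mul_le_mul_left (by rw [hJ]; exact le_self_add) _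
  have hJJ : J * B⁻¹ * B = J := by rw [mul_assoc, inv_mul_cancel₀ hB0, mul_one]
  have hIq : I' ≠ q := by
    intro h
    apply hxA
    rw [h, ← hQ] at hI'
    have : J = A := by
      rw [← hJJ, ← hI', mul_comm, hBQ]
    rw [← this]
    have h2 : FractionalIdeal.spanSingleton (𝓞 K)⁰ x ≤ J := by
      rw [hJ]; exact le_add_self
    exact h2 (FractionalIdeal.mem_spanSingleton_self _ x)
  have hItop : I' = ⊤ := by
    by_contra h
    exact hIq (hqm.eq_of_le h hqI).symm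
  have hJeq : J = B := by
    rw [hItop, FractionalIdeal.coeIdeal_top] at hI'
    rw [← hJJ, ← hI', one_mul]
  have hlx : (l : K) * x ∈ A := by
    have h1 := (hmemB x).1 hx (l : 𝓞 K) (by rw [← hql]; exact Ideal.absNorm_mem q)
    rw [map_natCast, mul_comm] at h1
    exact h1
  refine ⟨algebraMap K ℂ x, ?_, ?_, ?_⟩
  · intro h
    obtain ⟨x', hx', he⟩ := mem_lat.1 h
    have : x' = x := (algebraMap K ℂ).injective he
    rw [this] at hx'
    exact hxA hx'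
  · exact mem_lat.2 ⟨(l : K) * x, hlx, by rw [map_mul, map_natCast]⟩
  · apply le_antisymm
    · intro z hz
      obtain ⟨z', hz', rfl⟩ := mem_lat.1 hz
      have hz2 : z' ∈ B := hz'
      rw [← hJeq, hJ] at hz2
      obtain ⟨y, hy, w, hw, hyw⟩ := (FractionalIdeal.mem_add _ _ _).mp hz2
      obtain ⟨t, ht⟩ := (FractionalIdeal.mem_spanSingleton _).mp hw
      obtain ⟨n, hn⟩ := akm_exists_int hl hq hql t
      have h2 := (hmemB x).1 hx _ hn
      rw [Submodule.mem_sup]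
      refine ⟨algebraMap K ℂ (y + x * algebraMap (𝓞 K) K (t - n)),
        mem_lat.2 ⟨_, (A : Submodule (𝓞 K) K).add_mem hy h2, rfl⟩, (n : ℂ) * algebraMap K ℂ x,
        Submodule.mem_span_singleton.mpr ⟨n, by simp⟩, ?_⟩
      rw [← hyw, ← ht, Algebra.smul_def]
      simp only [map_add, map_mul, map_sub, map_intCast]
      ring
    · rw [sup_le_iff]
      constructor
      · intro z hz
        obtain ⟨z', hz', rfl⟩ := mem_lat.1 hz
        exact mem_lat.2 ⟨z', hAB hz', rfl⟩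
      · rw [Submodule.span_singleton_le_iff_mem]
        exact mem_lat.2 ⟨x, hx, rfl⟩


private theorem akm_norm {a : ℕ} {s : K} (hb : Base K a s) {δ : 𝓞 K} {m n : ℤ}
    (hδ : 2 * algebraMap (𝓞 K) K δ = m + n * s) :
    4 * (Ideal.absNorm (Ideal.span {δ}) : ℤ) = m ^ 2 + a * n ^ 2 := by
  have ha0 : 0 < a := by
    have := hb.mod
    omega
  obtain ⟨σ, hσ⟩ := Pool.Agent.Work.MP_787500_nt.Quad.exists_conj hb.dim hb.sq ha0
  let τ : K ≃ₐ[ℚ] K := AlgEquiv.ofRingEquiv (f := σ) (fun r => by simp)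
  have hτ : ∀ z, τ z = σ z := fun z => rfl
  have h1 : Algebra.norm ℚ (τ (algebraMap (𝓞 K) K δ)) = Algebra.norm ℚ (algebraMap (𝓞 K) K δ) :=
    Algebra.norm_eq_of_algEquiv τ _
  have h2 : (2 * algebraMap (𝓞 K) K δ) * (2 * τ (algebraMap (𝓞 K) K δ)) =
      algebraMap ℚ K ((m ^ 2 + a * n ^ 2 : ℤ) : ℚ) := by
    have h3 : 2 * τ (algebraMap (𝓞 K) K δ) = τ (2 * algebraMap (𝓞 K) K δ) := by
      rw [map_mul, map_ofNat]
    rw [h3, hτ, hδ, map_add, map_mul, hσ, map_intCast, map_intCast, map_intCast]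
    push_cast
    linear_combination -(n : K) ^ 2 * hb.sq
  have h2' : algebraMap (𝓞 K) K δ * τ (algebraMap (𝓞 K) K δ) =
      algebraMap ℚ K (((m ^ 2 + a * n ^ 2 : ℤ) : ℚ) / 4) := by
    rw [map_div₀, ← h2, map_ofNat]
    field_simp
    ring
  have h3 := congrArg (Algebra.norm ℚ) h2'
  rw [map_mul, h1, Algebra.norm_algebraMap, hb.dim] at h3
  have h4 : (Algebra.norm ℚ (algebraMap (𝓞 K) K δ)) = ((Algebra.norm ℤ δ : ℤ) : ℚ) :=
    (Algebra.coe_norm_int δ).symm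
  rw [h4] at h3
  have h5 : (4 * Algebra.norm ℤ δ) ^ 2 = (m ^ 2 + a * n ^ 2) ^ 2 := by
    have : (4 * ((Algebra.norm ℤ δ : ℤ) : ℚ)) ^ 2 = ((m ^ 2 + a * n ^ 2 : ℤ) : ℚ) ^ 2 := by
      have h6 : (4 * ((Algebra.norm ℤ δ : ℤ) : ℚ)) ^ 2 =
          16 * (((Algebra.norm ℤ δ : ℤ) : ℚ) * ((Algebra.norm ℤ δ : ℤ) : ℚ)) := by ring
      rw [h6, h3]
      ring
    exact_mod_cast this
  rw [Ideal.absNorm_span_singleton, Int.natCast_natAbs]
  have h6 : (0 : ℤ) ≤ m ^ 2 + a * n ^ 2 := by positivity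
  have h7 : |4 * Algebra.norm ℤ δ| = |m ^ 2 + a * n ^ 2| := by
    rw [← sq_eq_sq_iff_abs_eq_abs, h5]
  rw [abs_mul, abs_of_nonneg h6] at h7
  simpa using h7


theorem w_kron_ram (hb : Base K a s) (hv : (2 : 𝓞 K) ∈ v.asIdeal)
    (hW : ∀ I, W (cl I) = wv (pr v) (eV v) I)
    {Γ : Type*} [LinearOrderedCommGroupWithZero Γ]
    (V : Valuation ℂ Γ) {l : ℕ} (hl : l.Prime) (hl2 : l ≠ 2) (hla : l ∣ a)
    {q : Ideal (𝓞 K)} (hq : q.IsPrime) (hql : Ideal.absNorm q = l)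
    (hV1 : ∀ x : 𝓞 K, V (algebraMap K ℂ (algebraMap (𝓞 K) K x)) ≤ 1)
    (hV2 : ∀ x : 𝓞 K, V (algebraMap K ℂ (algebraMap (𝓞 K) K x)) < 1 ↔ x ∈ q)
    (hgood : ∀ C, V (1 + W C ^ 2) = 1 ∧ V (1 - W C ^ 2) = 1) (C : ClassGroup (𝓞 K)) :
    V (W (cl (idl q)⁻¹ * C) - W C ^ l) < 1 := by
  have hlo : Odd l := hl.odd_of_ne_two hl2
  have hqo : OddI q := by
    unfold OddI
    rw [hql]
    exact hlo
  have hq0 : q ≠ ⊥ := by
    rintro rfl
    rw [Ideal.absNorm_bot] at hql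
    exact hl.ne_zero hql.symm
  obtain ⟨c, hc0, hcn, hcC⟩ := exists_rep (K := K) (N := 2) two_ne_zero (cl (pr v ^ 3) * C⁻¹)
  have hco : OddI c := Nat.coprime_two_right.1 hcn
  obtain ⟨h2, hVl⟩ := K5.V_two hl hl2 hq hql hV1 hV2
  have hlq : (l : 𝓞 K) ∈ q := by
    rw [← hql]
    exact Ideal.absNorm_mem q
  -- odd ideals are not below `v`
  have hnle : ∀ e : Ideal (𝓞 K), OddI e → ¬ e ≤ v.asIdeal := by
    intro e he hle
    obtain ⟨k, hk⟩ := he
    have h1 : ((Ideal.absNorm e : ℕ) : 𝓞 K) ∈ v.asIdeal := hle (Ideal.absNorm_mem _)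
    apply v.isPrime.ne_top
    rw [Ideal.eq_top_iff_one]
    have h3 : (1 : 𝓞 K) = ((Ideal.absNorm e : ℕ) : 𝓞 K) - (k : 𝓞 K) * 2 := by
      rw [hk]
      push_cast
      ring
    rw [h3]
    exact v.asIdeal.sub_mem h1 (v.asIdeal.mul_mem_left _ hv)
  have hne0 : ∀ e : Ideal (𝓞 K), OddI e → e ≠ ⊥ := by
    rintro e he rfl
    unfold OddI at he
    rw [Ideal.absNorm_bot] at he
    exact absurd he (by decide)
  have hFr : ∀ e : Ideal (𝓞 K), OddI e → Fr (lat (pr v ^ 5 * (idl e)⁻¹)) 1 :=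
    fun e he => (fr_chain hb hv (hnle e he)).1
  have hCh : ∀ e : Ideal (𝓞 K), OddI e → Ch (lat (pr v ^ 5 * (idl e)⁻¹)) 1 4 =
      lat (pr v ^ 4 * (idl e)⁻¹) := fun e he => (fr_chain hb hv (hnle e he)).2 4 (by norm_num)
  have hWv : ∀ e : Ideal (𝓞 K), OddI e → _ := fun e he => f_wv (c := e) hb hv (hnle e he)
  have hgood' : ∀ e : Ideal (𝓞 K), OddI e → V (fz (lat (pr v ^ 5 * (idl e)⁻¹)) 1) = 1 ∧
      V (2 - fz (lat (pr v ^ 5 * (idl e)⁻¹)) 1 ^ 2) = 1 := by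
    intro e he
    have h3 := fz_sq (hFr e he)
    rw [(hWv e he).1, ← hW] at h3
    obtain ⟨g1, g2⟩ := hgood (cl (pr v ^ 4 * (idl e)⁻¹))
    constructor
    · have h4 : V (fz (lat (pr v ^ 5 * (idl e)⁻¹)) 1) ^ 2 = 1 := by
        rw [← map_pow, h3, g1]
      exact (pow_eq_one_iff_of_nonneg zero_le two_ne_zero).1 h4
    · rw [h3]
      have e : (2 : ℂ) - (1 + W (cl (pr v ^ 4 * (idl e)⁻¹)) ^ 2) =
          1 - W (cl (pr v ^ 4 * (idl e)⁻¹)) ^ 2 := by ring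
      rw [e, g2]
  have hTwo : ∀ e : Ideal (𝓞 K), OddI e →
      Pool.Agent.Work.CM.Two (lat (pr v ^ 5 * (idl e)⁻¹)) (Ch (lat (pr v ^ 5 * (idl e)⁻¹)) 1 4) := by
    intro e he
    have h := two_Ch (hFr e he) (k := 4) (by norm_num)
    rwa [Ch_five (hFr e he)] at h
  have hMx : ∀ e : Ideal (𝓞 K), OddI e →
      K5.Mx V (lat (pr v ^ 5 * (idl e)⁻¹)) (Ch (lat (pr v ^ 5 * (idl e)⁻¹)) 1 4) := by
    intro e he
    have h := bgd_of_fr (hFr e he) h2 (hgood' e he).1 (hgood' e he).2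
    exact (K5.bgd_iff (hTwo e he) h2 h.ht h.ht').1 h
  have hqc : OddI (q * c) := (oddI_mul q c).2 ⟨hqo, hco⟩
  -- the generator `λ`
  obtain ⟨S, hS, hSS⟩ := Pool.Agent.Work.MP_787500_nt.Quad.exists_int_s hb.sq
  obtain ⟨a', ha'⟩ := hla
  have hSq : S ∈ q := by
    have h1 : S ^ 2 ∈ q := by
      rw [hSS, ha']
      push_cast
      exact q.neg_mem (q.mul_mem_right _ hlq)
    exact hq.mem_of_pow_mem 2 h1
  set lam : 𝓞 K := (l : 𝓞 K) + 2 * S with hlam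
  have hlamq : lam ∈ q := q.add_mem hlq (q.mul_mem_left _ hSq)
  have hlK : 2 * algebraMap (𝓞 K) K lam = ((2 * l : ℤ) : K) + ((4 : ℤ) : K) * s := by
    rw [hlam]
    simp only [map_add, map_mul, map_natCast, map_ofNat, hS]
    push_cast
    ring
  have hnorm := akm_norm hb hlK
  have hnorm' : (Ideal.absNorm (Ideal.span {lam}) : ℤ) = l ^ 2 + 4 * a := by
    linarith
  have hodd : OddI (Ideal.span {lam}) := by
    unfold OddI
    have h1 : Odd ((Ideal.absNorm (Ideal.span {lam}) : ℕ) : ℤ) := by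
      rw [hnorm']
      obtain ⟨k, hk⟩ := hlo
      exact ⟨2 * k ^ 2 + 2 * k + 2 * a, by rw [hk]; push_cast; ring⟩
    exact_mod_cast h1
  have hlam0' : lam ≠ 0 := by
    intro h3
    apply hne0 _ hodd
    rw [h3, Ideal.span_singleton_eq_bot]
  have hlam0 : algebraMap K ℂ (algebraMap (𝓞 K) K lam) ≠ 0 := by
    rw [Ne, FaithfulSMul.algebraMap_eq_zero_iff, FaithfulSMul.algebraMap_eq_zero_iff]
    exact hlam0'
  have hsp : Ideal.span {lam} ≠ ⊥ := hne0 _ hodd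
  obtain ⟨b, hb'⟩ : q ∣ Ideal.span {lam} := Ideal.dvd_span_singleton.2 hlamq
  have hbo : OddI b := by
    have h1 := hodd
    rw [hb', oddI_mul] at h1
    exact h1.2
  have hnb : (Ideal.absNorm b : ℤ) = l + 4 * a' := by
    rw [hb', map_mul, hql, ha'] at hnorm'
    have hl0 : (l : ℤ) ≠ 0 := by exact_mod_cast hl.ne_zero
    apply mul_left_cancel₀ hl0
    push_cast at hnorm'
    linear_combination hnorm'
  have hVb : V ((Ideal.absNorm b : ℕ) : ℂ) = 1 := by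
    have hlZ : Prime (l : ℤ) := Nat.prime_iff_prime_int.1 hl
    have h1 : V (((Ideal.absNorm b : ℕ) : ℤ) : ℂ) = 1 := by
      refine val_int V hl hVl ?_
      rw [hnb]
      intro hd
      have h3 : (l : ℤ) ∣ 4 * a' := (dvd_add_right (dvd_refl _)).1 hd
      rcases hlZ.dvd_or_dvd h3 with h4 | h4
      · have h5 : l ∣ 2 ^ 2 := by exact_mod_cast h4
        exact hl2 ((Nat.prime_dvd_prime_iff_eq hl Nat.prime_two).1 (hl.dvd_of_dvd_pow h5))
      · have h5 : l ∣ a' := by exact_mod_cast h4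
        have h6 : l * l ∣ a := by
          rw [ha']
          exact Nat.mul_dvd_mul_left l h5
        exact hl.not_isUnit (hb.sf l h6)
    exact_mod_cast h1
  have hbqc : b * (q * c) = Ideal.span {lam} * c := by rw [hb', ← mul_assoc, mul_comm b q]
  have hbqo : OddI (b * (q * c)) := (oddI_mul b _).2 ⟨hbo, hqc⟩
  have hsm : ∀ (I : Idl K) (t : 𝓞 K) (x : K), x ∈ (I : FractionalIdeal (𝓞 K)⁰ K) →
      x * algebraMap (𝓞 K) K t ∈ (I : FractionalIdeal (𝓞 K)⁰ K) := by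
    intro I t x hx
    have h5 := (I : FractionalIdeal (𝓞 K)⁰ K).1.smul_mem t hx
    rw [Algebra.smul_def, mul_comm] at h5
    exact h5
  have hinv : ∀ k : ℕ, (pr v ^ k * (idl (b * (q * c)))⁻¹ : Idl K) =
      pr v ^ k * (idl (q * c))⁻¹ * (idl b)⁻¹ := by
    intro k
    rw [idl_mul (hne0 b hbo) (hne0 _ hqc), mul_inv_rev, mul_assoc]
  have hle : lat (pr v ^ 5 * (idl (q * c))⁻¹) ≤ lat (pr v ^ 5 * (idl (b * (q * c)))⁻¹) := by
    intro z hz
    obtain ⟨x, hx, rfl⟩ := mem_lat.1 hz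
    refine mem_lat.2 ⟨x, ?_, rfl⟩
    rw [hinv 5, mem_inv_idl (hne0 b hbo)]
    intro y _
    exact hsm _ y x hx
  have hmul : ∀ x ∈ lat (pr v ^ 5 * (idl (b * (q * c)))⁻¹),
      ((Ideal.absNorm b : ℕ) : ℂ) * x ∈ lat (pr v ^ 5 * (idl (q * c))⁻¹) := by
    intro z hz
    obtain ⟨x, hx, rfl⟩ := mem_lat.1 hz
    rw [hinv 5, mem_inv_idl (hne0 b hbo)] at hx
    refine mem_lat.2 ⟨x * algebraMap (𝓞 K) K ((Ideal.absNorm b : ℕ) : 𝓞 K),
      hx _ (Ideal.absNorm_mem b), ?_⟩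
    rw [map_mul, map_natCast, map_natCast, mul_comm]
  have hchain := K5.csq_odd h2 hbo hVb (hTwo _ hqc) (hMx _ hqc) hle hmul
  have hsup : Ch (lat (pr v ^ 5 * (idl (q * c))⁻¹)) 1 4 ⊔ lat (pr v ^ 5 * (idl (b * (q * c)))⁻¹) =
      Ch (lat (pr v ^ 5 * (idl (b * (q * c)))⁻¹)) 1 4 := by
    unfold Ch
    rw [sup_right_comm, sup_eq_right.2 hle]
  -- scaling by `λ`
  have hscale : ∀ k : ℕ, lat (pr v ^ k * (idl (Ideal.span {lam} * c))⁻¹) =
      (algebraMap K ℂ (algebraMap (𝓞 K) K lam))⁻¹ • lat (pr v ^ k * (idl c)⁻¹) := by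
    intro k
    have e : (pr v ^ k * (idl (Ideal.span {lam} * c))⁻¹ : Idl K) =
        pr v ^ k * (idl c)⁻¹ * (idl (Ideal.span {lam}))⁻¹ := by
      rw [idl_mul hsp hc0, mul_inv_rev, mul_assoc]
    ext z
    have h1 : z ∈ (algebraMap K ℂ (algebraMap (𝓞 K) K lam))⁻¹ • lat (pr v ^ k * (idl c)⁻¹) ↔
        algebraMap K ℂ (algebraMap (𝓞 K) K lam) * z ∈ lat (pr v ^ k * (idl c)⁻¹) := by
      rw [← Pool.Agent.Work.CM.mem_smul_iff (L := lat (pr v ^ k * (idl c)⁻¹)) (inv_ne_zero hlam0), ← mul_assoc,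
        inv_mul_cancel₀ hlam0, one_mul]
    rw [h1, e, mem_lat, mem_lat]
    constructor
    · rintro ⟨x, hx, rfl⟩
      refine ⟨x * algebraMap (𝓞 K) K lam,
        (mem_inv_idl hsp _ _).1 hx lam (Ideal.mem_span_singleton_self lam), ?_⟩
      rw [map_mul, mul_comm]
    · rintro ⟨x, hx, hxz⟩
      have hl0 : algebraMap (𝓞 K) K lam ≠ 0 := by
        rw [Ne, FaithfulSMul.algebraMap_eq_zero_iff]
        exact hlam0'
      refine ⟨x * (algebraMap (𝓞 K) K lam)⁻¹, ?_, ?_⟩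
      · rw [mem_inv_idl hsp]
        intro y hy
        obtain ⟨y', rfl⟩ := Ideal.mem_span_singleton'.1 hy
        have h5 := hsm _ y' x hx
        have e2 : x * (algebraMap (𝓞 K) K lam)⁻¹ * algebraMap (𝓞 K) K (y' * lam) =
            x * algebraMap (𝓞 K) K y' := by
          rw [map_mul]
          field_simp
        rw [e2]
        exact h5
      · rw [map_mul, hxz, map_inv₀]
        field_simp
  have hspc : OddI (Ideal.span {lam} * c) := (oddI_mul _ _).2 ⟨hodd, hco⟩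
  rw [hsup, hbqc, hCh _ hspc, hscale 5, hscale 4, ← hCh c hco,
    bcsq_smul (hTwo c hco) (inv_ne_zero hlam0), inv_pow, inv_inv, map_mul, map_pow] at hchain
  have hlt : V (csq (lat (pr v ^ 5 * (idl (q * c))⁻¹)) (Ch (lat (pr v ^ 5 * (idl (q * c))⁻¹)) 1 4)) <
      V (csq (lat (pr v ^ 5 * (idl c)⁻¹)) (Ch (lat (pr v ^ 5 * (idl c)⁻¹)) 1 4)) := by
    refine lt_of_le_of_lt hchain ?_
    have h5 : V (csq (lat (pr v ^ 5 * (idl c)⁻¹)) (Ch (lat (pr v ^ 5 * (idl c)⁻¹)) 1 4)) ≠ 0 :=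
      (V.ne_zero_iff).2 (bcsq_ne (hTwo c hco))
    have h6 : V (algebraMap K ℂ (algebraMap (𝓞 K) K lam)) ^ 4 < 1 :=
      pow_lt_one₀ zero_le ((hV2 lam).2 hlamq) (by norm_num)
    calc V (algebraMap K ℂ (algebraMap (𝓞 K) K lam)) ^ 4 *
          V (csq (lat (pr v ^ 5 * (idl c)⁻¹)) (Ch (lat (pr v ^ 5 * (idl c)⁻¹)) 1 4)) <
        1 * V (csq (lat (pr v ^ 5 * (idl c)⁻¹)) (Ch (lat (pr v ^ 5 * (idl c)⁻¹)) 1 4)) :=
          mul_lt_mul_of_pos_right h6 (zero_lt_iff.2 h5)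
      _ = _ := one_mul _
  obtain ⟨u, hu1, hu2, hu3⟩ := akm_step hl hq hql (pr v ^ 5 * (idl c)⁻¹ : Idl K)
  have hqcI : (pr v ^ 5 * (idl (q * c))⁻¹ : Idl K) = pr v ^ 5 * (idl c)⁻¹ * (idl q)⁻¹ := by
    rw [idl_mul hq0 hc0, mul_inv_rev, mul_assoc]
  rw [← hqcI] at hu3
  have key := (K5.kron_one V hl h2 hVl (hFr c hco) (hFr _ hqc) hu1 hu2 hu3 (hgood' c hco) hlt).2.2.2
  have e0 := (hWv c hco).2
  have e1 := (hWv _ hqc).2
  rw [← hW] at e0 e1
  have hC0 : cl (pr v ^ 3 * (idl c)⁻¹) = C := by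
    rw [cl_mul, cl_inv, hcC, mul_inv_rev, inv_inv, mul_comm, mul_assoc, inv_mul_cancel, mul_one]
  have hC1 : cl (pr v ^ 3 * (idl (q * c))⁻¹) = cl (idl q)⁻¹ * C := by
    rw [idl_mul hq0 hc0, mul_inv_rev, ← mul_assoc, cl_mul, hC0, mul_comm]
  rw [hC0] at e0
  rw [hC1] at e1
  rw [e0, e1] at key
  exact key

end Pool.Agent.Work.MP_8efaaa_nt.K7
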