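import Mathlib
import Pool.Agent.Work.MP_8efaaa_nt.K7.Defs
import Pool.Agent.Work.MP_8efaaa_nt.K7.AKm
import Pool.Agent.Work.MP_8efaaa_nt.K7.AUn
import Pool.Agent.Work.MP_8efaaa_nt.N7.AKr
import Pool.Agent.Work.MP_8efaaa_nt.T.CpxA
import Pool.Agent.Work.MP_8efaaa_nt.K6.CVl
import Pool.Agent.Work.MP_8efaaa_nt.R.DVal

/-!
# K7/CKr (M): the Kronecker congruence in `F` at all odd primes of degree one

For `V` with `VL V L` take the valuation `V'` of `ℂ` of `exists_val` (R/DVal) for `L`; `V'.comap (algebraMap F ℂ)` is `VL` for `L`, compare by `vl_comp` (K6/CVl), as in K6/CDt. `V' 2 = 1` since `2 ∉ L` (`l ∈ L`, `l` odd). `w_kron` (N7/AKr) if `l ∤ a`,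
`w_kron_ram` if `l ∣ a`, both for `v` and for `v'`; `hgood` by `wrel_unit` and `wdata_complex` (T/CpxA) (the data of `h.ic.cw`).
-/

set_option autoImplicit false

namespace Pool.Agent.Work.MP_8efaaa_nt.K7

open IsDedekindDomain NumberField Pool.Agent.Work.MP_787500_nt.HC
open Pool.Agent.Work.MP_8efaaa_nt.T Pool.Agent.Work.MP_8efaaa_nt.R
open Pool.Agent.Work.MP_8efaaa_nt.N5 Pool.Agent.Work.MP_8efaaa_nt.N7
open scoped nonZeroDivisors

universe u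

variable {K : Type u} {F : Type*} [Field K] [NumberField K] [Algebra K ℂ] [Field F] [NumberField F]
  [Algebra K F] [Algebra F ℂ] [IsScalarTower K F ℂ] {a : ℕ} {s : K}
  {v v' : HeightOneSpectrum (𝓞 K)} {d : ℕ} {w : F} {W W' : ClassGroup (𝓞 K) → F}

omit [NumberField K] in
/-- a valuation of `ℂ` for the prime ideal `L` of `F` -/
private theorem val_pack7 (L : Ideal (𝓞 F)) (hL : L.IsPrime) :
    ∃ (Γ : Type) (_ : LinearOrderedCommGroupWithZero Γ) (V : Valuation ℂ Γ),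
      K6.VL (V.comap (algebraMap F ℂ)) L ∧ ((2 : 𝓞 F) ∉ L → V 2 = 1) ∧
      (∀ x : 𝓞 K, V (algebraMap K ℂ (algebraMap (𝓞 K) K x)) ≤ 1) ∧
      ∀ x : 𝓞 K, V (algebraMap K ℂ (algebraMap (𝓞 K) K x)) < 1 ↔
        x ∈ L.comap (algebraMap (𝓞 K) (𝓞 F)) := by
  obtain ⟨Γ, i, V, h1, h2⟩ := exists_val L hL
  have e : ∀ x : 𝓞 K, algebraMap K ℂ (algebraMap (𝓞 K) K x) =
      algebraMap F ℂ (algebraMap (𝓞 F) F (algebraMap (𝓞 K) (𝓞 F) x)) := by
    intro x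
    rw [IsScalarTower.algebraMap_apply K F ℂ]
    congr 1
  refine ⟨Γ, i, V, ⟨hL, h1, h2⟩, fun h => ?_, fun x => ?_, fun x => ?_⟩
  · have h3 := h1 2
    have h4 := (not_congr (h2 2)).2 h
    rw [map_ofNat, map_ofNat] at h3 h4
    exact le_antisymm h3 (not_lt.1 h4)
  · rw [e]
    exact h1 _
  · rw [e]
    exact h2 _

theorem kron_c7 (hb : Base K a s) (h : ICtx7 K F v v' d w W W') {l : ℕ} {L : Ideal (𝓞 F)}
    {Γ : Type} [LinearOrderedCommGroupWithZero Γ] (V : Valuation F Γ) (hV : K6.VL V L)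
    (hl : l.Prime) (hl2 : l ≠ 2)
    (hL : Ideal.absNorm (L.comap (algebraMap (𝓞 K) (𝓞 F))) = l) (C : ClassGroup (𝓞 K)) :
    V (W (cl (idl (L.comap (algebraMap (𝓞 K) (𝓞 F))))⁻¹ * C) - W C ^ l) < 1 ∧
    V (W' (cl (idl (L.comap (algebraMap (𝓞 K) (𝓞 F))))⁻¹ * C) - W' C ^ l) < 1 := by
  obtain ⟨Γ', _, V', hV', hV2, hK1, hK2⟩ := val_pack7 (K := K) L hV.prime
  have key : ∀ x : F, V' (algebraMap F ℂ x) < 1 → V x < 1 := fun x hx =>
    (K6.vl_comp hV hV' x).2.2 hx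
  have hLp := hV.prime
  have hq : (L.comap (algebraMap (𝓞 K) (𝓞 F))).IsPrime := Ideal.comap_isPrime _ _
  have hlq : (l : 𝓞 K) ∈ L.comap (algebraMap (𝓞 K) (𝓞 F)) := by
    have h1 := Ideal.absNorm_mem (L.comap (algebraMap (𝓞 K) (𝓞 F)))
    rw [hL] at h1
    exact h1
  have hlo : Odd l := hl.odd_of_ne_two hl2
  have hL2 : (2 : 𝓞 F) ∉ L := by
    intro h2
    obtain ⟨m, hm⟩ := hlo
    have h3 : (l : 𝓞 F) ∈ L := by
      have h4 := Ideal.mem_comap.1 hlq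
      rwa [map_natCast] at h4
    have h5 : (1 : 𝓞 F) = (l : 𝓞 F) - 2 * (m : 𝓞 F) := by
      rw [hm]
      push_cast
      ring
    apply hLp.ne_top
    rw [Ideal.eq_top_iff_one, h5]
    exact L.sub_mem h3 (L.mul_mem_right _ h2)
  have hcw := h.cw
  have hrel := wdata_complex hb hcw.ne hcw.hv hcw.hv' hcw.mul (W := fun C => algebraMap F ℂ (W C))
    (W' := fun C => algebraMap F ℂ (W' C)) hcw.hW hcw.hW'
  have hun := fun C => wrel_unit hrel V' (hV2 hL2) C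
  have g1 : ∀ C, V' (1 + (fun C => algebraMap F ℂ (W C)) C ^ 2) = 1 ∧
      V' (1 - (fun C => algebraMap F ℂ (W C)) C ^ 2) = 1 := fun C =>
    ⟨(hun C).2.2.1, (hun C).2.2.2.1⟩
  have g2 : ∀ C, V' (1 + (fun C => algebraMap F ℂ (W' C)) C ^ 2) = 1 ∧
      V' (1 - (fun C => algebraMap F ℂ (W' C)) C ^ 2) = 1 := fun C =>
    ⟨(hun C).2.2.2.2.1, (hun C).2.2.2.2.2⟩
  have main : V' (algebraMap F ℂ (W (cl (idl (L.comap (algebraMap (𝓞 K) (𝓞 F))))⁻¹ * C)) -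
        algebraMap F ℂ (W C) ^ l) < 1 ∧
      V' (algebraMap F ℂ (W' (cl (idl (L.comap (algebraMap (𝓞 K) (𝓞 F))))⁻¹ * C)) -
        algebraMap F ℂ (W' C) ^ l) < 1 := by
    by_cases hla : l ∣ a
    · exact ⟨w_kron_ram hb hcw.hv hcw.hW V' hl hl2 hla hq hL hK1 hK2 g1 C,
        w_kron_ram hb hcw.hv' hcw.hW' V' hl hl2 hla hq hL hK1 hK2 g2 C⟩
    · exact ⟨(w_kron hb hcw.hv hcw.hW V' hl hl2 hla hq hL hK1 hK2 g1 C).2,
        (w_kron hb hcw.hv' hcw.hW' V' hl hl2 hla hq hL hK1 hK2 g2 C).2⟩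
  refine ⟨key _ ?_, key _ ?_⟩
  · rw [map_sub, map_pow]
    exact main.1
  · rw [map_sub, map_pow]
    exact main.2

end Pool.Agent.Work.MP_8efaaa_nt.K7
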