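import Mathlib
import Pool.Agent.Work.MP_8efaaa_nt.K7.Defs
import Pool.Agent.Work.MP_8efaaa_nt.K7.ACj
import Pool.Agent.Work.MP_8efaaa_nt.K7.ATu

/-!
# K7/CPo (M): the choice of `ζ` and positivity

`ζ + ζ ^ 7` is `± √2` in `ℂ` (`ζ ^ 7 = conj ζ`, `(ζ + ζ ^ 7) ^ 2 = 2`); replace `ζ` by `-ζ` if it is negative. `pos_z7`: `Z c * Z' (cj τ c)` is `|Z c| ^ 2` in `ℂ` (`conj_z7`), a real number `≥ 0` whose square is `2`.
`pos_m7`: `m * m' = |m| ^ 2`, a real number `≥ 0` whose square is `2 n ^ 2`.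
-/

set_option autoImplicit false

namespace Pool.Agent.Work.MP_8efaaa_nt.K7

open IsDedekindDomain NumberField Pool.Agent.Work.MP_787500_nt.HC
open Pool.Agent.Work.MP_8efaaa_nt.T Pool.Agent.Work.MP_8efaaa_nt.R
open Pool.Agent.Work.MP_8efaaa_nt.N5 Pool.Agent.Work.MP_8efaaa_nt.N7
open scoped nonZeroDivisors

universe u

variable {K : Type u} {F : Type*} [Field K] [NumberField K] [Algebra K ℂ] [Field F] [NumberField F]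
  [Algebra K F] [Algebra F ℂ] [IsScalarTower K F ℂ] {a : ℕ} {s : K} {S : 𝓞 K}
  {τ : 𝓞 K ≃+* 𝓞 K} {v v' : HeightOneSpectrum (𝓞 K)} {d : ℕ} {x y : ℤ} {ζ w m m' : F}
  {W W' : ClassGroup (𝓞 K) → F} {Z Z' : Ideal (𝓞 K) → F}

omit [NumberField F] in
private theorem CPo_sq {ζ : F} (hz : ζ ^ 4 = -1) : (ζ + ζ ^ 7) ^ 2 = 2 := by
  have h1 : (ζ + ζ ^ 7) ^ 2 = ζ ^ 2 + 2 * (ζ ^ 4) ^ 2 + (ζ ^ 4) ^ 3 * ζ ^ 2 := by ring
  rw [h1, hz]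
  ring

/-- a nonnegative real number whose square is `2 n ^ 2` -/
private theorem CPo_root {t : ℝ} (ht : 0 ≤ t) (n : ℕ) (h : ((t : ℝ) : ℂ) ^ 2 = 2 * (n : ℂ) ^ 2) :
    ((t : ℝ) : ℂ) = (n : ℂ) * ((Real.sqrt 2 : ℝ) : ℂ) := by
  have h1 : t ^ 2 = 2 * (n : ℝ) ^ 2 := by exact_mod_cast h
  have h2 : t = n * Real.sqrt 2 := by
    have h3 : t ^ 2 = (n * Real.sqrt 2) ^ 2 := by
      rw [mul_pow, Real.sq_sqrt (by norm_num), h1]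
      ring
    exact (pow_left_inj₀ ht (by positivity) two_ne_zero).1 h3
  rw [h2]
  push_cast
  ring

omit [NumberField F] [Algebra K F] [IsScalarTower K F ℂ] [Algebra K ℂ] [NumberField K] [Field K] in
private theorem CPo_conj {z z' : F}
    (hc : (starRingEnd ℂ) (algebraMap F ℂ z) = algebraMap F ℂ z')
    (hζ : algebraMap F ℂ (ζ + ζ ^ 7) = ((Real.sqrt 2 : ℝ) : ℂ)) (n : ℕ)
    (h2 : (z * z') ^ 2 = 2 * (n : F) ^ 2) : z * z' = n * (ζ + ζ ^ 7) := by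
  apply (algebraMap F ℂ).injective
  rw [map_mul, map_mul, map_natCast, hζ, ← hc, Complex.mul_conj]
  apply CPo_root (Complex.normSq_nonneg _)
  rw [← Complex.mul_conj, hc, ← map_mul, ← map_pow, h2, map_mul, map_pow, map_natCast, map_ofNat]

theorem exists_zeta7 (h : C7 K F s v v' d x y ζ w m m' W W' Z Z') :
    ∃ ζ' : F, C7 K F s v v' d x y ζ' w m m' W W' Z Z' ∧
      algebraMap F ℂ (ζ' + ζ' ^ 7) = ((Real.sqrt 2 : ℝ) : ℂ) := by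
  have h1 : (algebraMap F ℂ (ζ + ζ ^ 7)) ^ 2 = (((Real.sqrt 2 : ℝ) : ℂ)) ^ 2 := by
    rw [← map_pow, CPo_sq h.z8, map_ofNat, ← Complex.ofReal_pow, Real.sq_sqrt (by norm_num)]
    norm_num
  rcases sq_eq_sq_iff_eq_or_eq_neg.1 h1 with h2 | h2
  · exact ⟨ζ, h, h2⟩
  · refine ⟨-ζ, ⟨h.ic, ?_, h.hZ, h.hZ', h.fin, h.hm, h.hm', h.hmm⟩, ?_⟩
    · rw [← h.z8]
      ring
    · have h3 : -ζ + (-ζ) ^ 7 = -(ζ + ζ ^ 7) := by ring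
      rw [h3, map_neg, h2, neg_neg]

theorem pos_z7 (hb : Base K a s) (hS : algebraMap (𝓞 K) K S = s) (hτ : τ S = -S)
    (h : C7 K F s v v' d x y ζ w m m' W W' Z Z')
    (hζ : algebraMap F ℂ (ζ + ζ ^ 7) = ((Real.sqrt 2 : ℝ) : ℂ)) {c : Ideal (𝓞 K)} (hc : OddI c)
    (h2 : (Z c * Z' (cj τ c)) ^ 2 = 2) : Z c * Z' (cj τ c) = ζ + ζ ^ 7 := by
  have h3 := conj_z7 hb hS hτ h.ic.cw.ne h.ic.cw.hv h.ic.cw.hv' hc
  have h4 := CPo_conj (ζ := ζ) (z := Z c) (z' := Z' (cj τ c)) (by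
    rw [h.hZ c hc, h.hZ' _ ((oddI_cj7 hb hS hτ).2 hc)]
    exact h3) hζ 1 (by rw [h2]; norm_num)
  rw [Nat.cast_one, one_mul] at h4
  exact h4

theorem pos_m7 (h : C7 K F s v v' d x y ζ w m m' W W' Z Z')
    (hζ : algebraMap F ℂ (ζ + ζ ^ 7) = ((Real.sqrt 2 : ℝ) : ℂ)) (n : ℕ)
    (h2 : (m * m') ^ 2 = 2 * (n : F) ^ 2) : m * m' = n * (ζ + ζ ^ 7) :=
  CPo_conj h.hmm hζ n h2

end Pool.Agent.Work.MP_8efaaa_nt.K7
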