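import Mathlib
import Pool.Agent.Work.MP_8efaaa_nt.T.CDefs
import Pool.Agent.Work.MP_8efaaa_nt.W5.E1

/-!
# K7/E1c: the kernel of reduction of `y ^ 2 = x ^ 3 + 4 x` (helper78)

`V` is any valuation of `F` (with `V 2 = 1` where stated).  `E1c V` is the group of the points with
`V x > 1` (and `0`).  The analogue of `W5/E1.lean` for the curve `cE`.  The lemmas are stated for
points `ptc x y h` (`h` the equation); the versions for `Point.some x y h` are at the end.
-/

set_option autoImplicit false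

namespace Pool.Agent.Work.MP_8efaaa_nt.K7

open Pool.Agent.Work.MP_8efaaa_nt.T
open Pool.Agent.Work.MP_8efaaa_nt.W5 (vle vlt vltm vlem vsq vsq_le vnat vone)
open WeierstrassCurve WeierstrassCurve.Affine
open scoped Classical

noncomputable section

variable {F : Type*} [Field F] [CharZero F] {Γ : Type*} [LinearOrderedCommGroupWithZero Γ]

/-! ### points -/

theorem cE_nonsingular {x y : F} : (cE F).Nonsingular x y ↔ y ^ 2 = x ^ 3 + 4 * x := by
  have h2 : (2 : F) ≠ 0 := two_ne_zero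
  constructor
  · intro h
    have h1 := h.1
    rw [WeierstrassCurve.Affine.equation_iff] at h1
    simp only [cE] at h1
    linear_combination h1
  · intro h
    rw [WeierstrassCurve.Affine.nonsingular_iff, WeierstrassCurve.Affine.equation_iff]
    simp only [cE]
    refine ⟨by linear_combination h, ?_⟩
    by_contra hc
    push Not at hc
    obtain ⟨h3, h4⟩ := hc
    have hy : y = 0 := by
      apply mul_left_cancel₀ h2
      linear_combination h4
    have hx : 3 * x ^ 2 + 4 = 0 := by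
      rw [hy] at h3
      linear_combination -h3
    rw [hy] at h
    have h5 : (32 : F) = 0 := by
      linear_combination (8 + 3 * x ^ 2) * hx + 9 * x * h
    norm_num at h5

/-- the point with coordinates `x`, `y` -/
def ptc (x y : F) (h : y ^ 2 = x ^ 3 + 4 * x) : (cE F).Point :=
  Point.some x y (cE_nonsingular.2 h)

theorem some_eq {x y : F} (h : (cE F).Nonsingular x y) :
    (Point.some x y h : (cE F).Point) = ptc x y (cE_nonsingular.1 h) := rfl

theorem ptc_inj {x y x' y' : F} {h : y ^ 2 = x ^ 3 + 4 * x} {h' : y' ^ 2 = x' ^ 3 + 4 * x'} :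
    ptc x y h = ptc x' y' h' ↔ x = x' ∧ y = y' := by
  unfold ptc
  rw [Point.some.injEq]

theorem ptc_ne {x y : F} (h : y ^ 2 = x ^ 3 + 4 * x) : ptc x y h ≠ 0 := Point.some_ne_zero _

theorem ptc_cases (P : (cE F).Point) :
    P = 0 ∨ ∃ (x y : F) (h : y ^ 2 = x ^ 3 + 4 * x), P = ptc x y h := by
  rcases P with _ | ⟨x, y, h⟩
  · exact Or.inl rfl
  · exact Or.inr ⟨x, y, cE_nonsingular.1 h, rfl⟩

/-! ### addition formulas -/

theorem neg_ptc {x y : F} (h : y ^ 2 = x ^ 3 + 4 * x) :
    -(ptc x y h) = ptc x (-y) (by rw [neg_sq]; exact h) := by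
  unfold ptc
  rw [Point.neg_some, Point.some.injEq]
  exact ⟨rfl, by simp [negY, cE]⟩

theorem add_ptc {x1 y1 x2 y2 : F} (h1 : y1 ^ 2 = x1 ^ 3 + 4 * x1)
    (h2 : y2 ^ 2 = x2 ^ 3 + 4 * x2)
    (hx : x1 ≠ x2) : ∃ (x3 y3 : F) (h3 : y3 ^ 2 = x3 ^ 3 + 4 * x3),
      ptc x1 y1 h1 + ptc x2 y2 h2 = ptc x3 y3 h3 ∧
        x3 * (x1 - x2) ^ 2 = (y1 - y2) ^ 2 - (x1 + x2) * (x1 - x2) ^ 2 := by
  have hn : (cE F).Nonsingular ((cE F).addX x1 x2 ((cE F).slope x1 x2 y1 y2))
      ((cE F).addY x1 x2 y1 ((cE F).slope x1 x2 y1 y2)) :=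
    nonsingular_add (cE_nonsingular.2 h1) (cE_nonsingular.2 h2) (fun hc => hx hc.1)
  refine ⟨_, _, cE_nonsingular.1 hn, ?_, ?_⟩
  · unfold ptc
    rw [Point.add_of_X_ne hx]
  · rw [slope_of_X_ne hx]
    simp only [addX, cE]
    have h5 : x1 - x2 ≠ 0 := sub_ne_zero.2 hx
    field_simp
    ring

theorem dbl_ptc {x y : F} (h : y ^ 2 = x ^ 3 + 4 * x) (hy : y ≠ 0) :
    ∃ (x3 y3 : F) (h3 : y3 ^ 2 = x3 ^ 3 + 4 * x3), ptc x y h + ptc x y h = ptc x3 y3 h3 ∧
      x3 * (2 * y) ^ 2 = (x ^ 2 - 4) ^ 2 := by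
  have hne : y ≠ (cE F).negY x y := by
    simp only [negY, cE]
    intro h0
    apply hy
    have : 2 * y = 0 := by linear_combination h0
    exact (mul_eq_zero.mp this).resolve_left two_ne_zero
  have h2Y0 : 2 * y ≠ 0 := mul_ne_zero two_ne_zero hy
  have hn : (cE F).Nonsingular ((cE F).addX x x ((cE F).slope x x y y))
      ((cE F).addY x x y ((cE F).slope x x y y)) :=
    nonsingular_add (cE_nonsingular.2 h) (cE_nonsingular.2 h) (fun hc => hne hc.2)
  refine ⟨_, _, cE_nonsingular.1 hn, ?_, ?_⟩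
  · unfold ptc
    rw [Point.add_self_of_Y_ne hne]
  · rw [slope_of_Y_ne rfl hne]
    simp only [addX, negY, cE]
    have h2Y : y - (-y - 0 * x - 0) = 2 * y := by ring
    rw [h2Y]
    field_simp
    linear_combination (-8 * x) * h

/-! ### valuations -/

section val

variable (V : Valuation F Γ)

omit [CharZero F] in
private theorem v4_le : V (4 : F) ≤ 1 := by exact_mod_cast vnat V 4

omit [CharZero F] in
/-- the second coordinate of an integral point is integral -/
theorem v_yc {x y : F} (h : y ^ 2 = x ^ 3 + 4 * x) (hx : V x ≤ 1) : V y ≤ 1 := by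
  apply vsq_le
  rw [h, show x ^ 3 + 4 * x = x * (x ^ 2 + 4) by ring]
  refine vlem V hx (vle V ?_ (v4_le V))
  rw [map_pow]; exact pow_le_one₀ zero_le hx

omit [CharZero F] in
private theorem v4x (x : F) : V (4 * x) ≤ V x := by
  rw [map_mul]
  calc V 4 * V x ≤ 1 * V x := by gcongr; exact v4_le V
    _ = V x := one_mul _

omit [CharZero F] in
/-- the first coordinate is integral if the second is -/
theorem v_xc {x y : F} (h : y ^ 2 = x ^ 3 + 4 * x) (hy : V y ≤ 1) : V x ≤ 1 := by
  by_contra hx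
  push Not at hx
  have h1 : V (x ^ 3 + 4 * x) = V (x ^ 3) := by
    apply Valuation.map_add_eq_of_lt_left
    rw [map_pow]
    calc V (4 * x) ≤ V x := v4x V x
      _ = V x ^ 1 := (pow_one _).symm
      _ < V x ^ 3 := pow_lt_pow_right₀ hx (by norm_num)
  have h2 : V (y ^ 2) = V x ^ 3 := by
    rw [h, h1, map_pow]
  have h3 : V (y ^ 2) ≤ 1 := by rw [map_pow]; exact pow_le_one₀ zero_le hy
  rw [h2] at h3
  exact absurd h3 (not_le.2 (one_lt_pow₀ hx (by norm_num)))

/-- the sum of an integral point and a point of the kernel of reduction is integral -/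
theorem int_add {x y p q : F} (h : y ^ 2 = x ^ 3 + 4 * x) (h' : q ^ 2 = p ^ 3 + 4 * p)
    (hx1 : 1 < V x) (hVp : V p ≤ 1) : ∃ (x3 y3 : F) (h3 : y3 ^ 2 = x3 ^ 3 + 4 * x3),
      ptc x y h + ptc p q h' = ptc x3 y3 h3 ∧ V x3 ≤ 1 := by
  have hxp : x ≠ p := by
    rintro rfl
    exact absurd hVp (not_le.2 hx1)
  obtain ⟨x3, y3, h3, e, h1⟩ := add_ptc h h' hxp
  refine ⟨x3, y3, h3, e, ?_⟩
  have hVq : V q ≤ 1 := v_yc V h' hVp
  have hx0 : 0 < V x := lt_trans zero_lt_one hx1
  have h2 : V (x - p) = V x := by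
    rw [Valuation.map_sub_eq_of_lt_left]
    exact lt_of_le_of_lt hVp hx1
  have h3' : x3 * (x - p) ^ 2 = p * x ^ 2 + ((p ^ 2 + 4) * x + (4 * p + (-2 * q) * y)) := by
    linear_combination h1 + h + h'
  have hx2 : 1 ≤ V x ^ 2 := one_le_pow₀ hx1.le
  have hxx2 : V x ≤ V x ^ 2 := by
    calc V x = V x ^ 1 := (pow_one _).symm
      _ ≤ _ := pow_le_pow_right₀ hx1.le (by norm_num)
  have hVy : V y ≤ V x ^ 2 := by
    by_contra h4
    push Not at h4
    have h5 : (V x ^ 2) ^ 2 < V y ^ 2 := pow_lt_pow_left₀ h4 zero_le two_ne_zero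
    rw [← map_pow V y, h] at h5
    refine absurd h5 (not_lt.2 ?_)
    refine (V.map_add _ _).trans (max_le ?_ ?_)
    · rw [map_pow, ← pow_mul]
      exact pow_le_pow_right₀ hx1.le (by norm_num)
    · rw [← pow_mul]
      calc V (4 * x) ≤ V x := v4x V x
        _ = V x ^ 1 := (pow_one _).symm
        _ ≤ _ := pow_le_pow_right₀ hx1.le (by norm_num)
  have h4 : V (x3 * (x - p) ^ 2) ≤ V x ^ 2 := by
    rw [h3']
    have aux : ∀ a b : F, V a ≤ 1 → V b ≤ V x ^ 2 → V (a * b) ≤ V x ^ 2 := by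
      intro a b ha hb
      rw [map_mul]
      calc V a * V b ≤ 1 * V b := by gcongr
        _ = V b := one_mul _
        _ ≤ _ := hb
    refine (V.map_add _ _).trans (max_le ?_ ((V.map_add _ _).trans (max_le ?_
      ((V.map_add _ _).trans (max_le ?_ ?_)))))
    · exact aux _ _ hVp (by rw [map_pow])
    · refine aux _ _ (vle V ?_ (v4_le V)) hxx2
      rw [map_pow]; exact pow_le_one₀ zero_le hVp
    · exact ((v4x V p).trans hVp).trans hx2
    · refine aux _ _ ?_ hVy
      rw [show (-2 : F) * q = -((2 : ℕ) * q) by push_cast; ring, Valuation.map_neg]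
      exact vlem V (vnat V 2) hVq
  rw [map_mul, map_pow, h2] at h4
  by_contra h6
  push Not at h6
  have h5 : 1 * V x ^ 2 < V x3 * V x ^ 2 := by
    have : 0 < V x ^ 2 := pow_pos hx0 2
    gcongr
  rw [one_mul] at h5
  exact absurd h4 (not_le.2 h5)

end val

/-! ### the group -/

/-- the kernel of reduction -/
def E1c (V : Valuation F Γ) : AddSubgroup (cE F).Point where
  carrier := {P | ∀ (x y : F) (h : y ^ 2 = x ^ 3 + 4 * x), P = ptc x y h → 1 < V x}
  zero_mem' := fun x y h e => absurd e.symm (ptc_ne h)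
  neg_mem' := by
    intro P hP x y h e
    exact hP x (-y) (by rw [neg_sq]; exact h) (by rw [← neg_ptc h, ← e, neg_neg])
  add_mem' := by
    intro P Q hP hQ x3 y3 h3 e
    rcases ptc_cases P with rfl | ⟨x1, y1, h1, rfl⟩
    · rw [zero_add] at e
      exact hQ _ _ _ e
    rcases ptc_cases Q with rfl | ⟨x2, y2, h2, rfl⟩
    · rw [add_zero] at e
      exact hP _ _ _ e
    have hx1 := hP _ _ _ rfl
    have hx2 := hQ _ _ _ rfl
    by_contra hx3
    push Not at hx3
    obtain ⟨x4, y4, h4, e4, hx4⟩ := int_add V (x := x2) (y := -y2)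
      (by rw [neg_sq]; exact h2) h3 hx2 hx3
    rw [← neg_ptc h2, ← e] at e4
    have e5 : ptc x1 y1 h1 = ptc x4 y4 h4 := by rw [← e4]; abel
    rw [ptc_inj] at e5
    rw [e5.1] at hx1
    exact absurd hx4 (not_le.2 hx1)

variable {V : Valuation F Γ}

theorem ptc_mem {x y : F} {h : y ^ 2 = x ^ 3 + 4 * x} : ptc x y h ∈ E1c V ↔ 1 < V x := by
  constructor
  · intro hP
    exact hP x y h rfl
  · intro hx x' y' h' e
    rw [ptc_inj] at e
    rw [← e.1]
    exact hx

/-- the kernel of reduction has no torsion of two power order -/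
theorem two_tors {T : (cE F).Point} (hT : T ∈ E1c V) (h2 : T + T = 0) : T = 0 := by
  rcases ptc_cases T with rfl | ⟨x, y, h, rfl⟩
  · rfl
  exfalso
  rw [ptc_mem] at hT
  by_cases hy : y = 0
  · have h6 : x * (x ^ 2 + 4) = 0 := by rw [hy] at h; linear_combination -h
    have hle : V x ≤ 1 := by
      rcases mul_eq_zero.1 h6 with h7 | h7
      · rw [h7, map_zero]; exact zero_le
      · apply vsq_le
        rw [show x ^ 2 = -4 by linear_combination h7, Valuation.map_neg]
        exact v4_le V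
    exact absurd hle (not_le.2 hT)
  · obtain ⟨x3, y3, h3, e, -⟩ := dbl_ptc h hy
    rw [e] at h2
    exact ptc_ne _ h2

theorem two_pow_tors {T : (cE F).Point} (hT : T ∈ E1c V) (n : ℕ) (h2 : ((2 : ℤ) ^ n) • T = 0) :
    T = 0 := by
  induction n with
  | zero => simpa using h2
  | succ n ih =>
    apply ih
    apply two_tors ((E1c V).zsmul_mem hT _)
    rw [← two_zsmul, smul_smul, ← pow_succ']
    exact h2

theorem four_tors {T : (cE F).Point} (hT : T ∈ E1c V) (h4 : (4 : ℤ) • T = 0) : T = 0 := by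
  apply two_pow_tors hT 2
  norm_num
  exact h4

/-- points with congruent coordinates have their difference in the kernel of reduction -/
theorem sub_mem {x y x' y' : F} {h : y ^ 2 = x ^ 3 + 4 * x} {h' : y' ^ 2 = x' ^ 3 + 4 * x'}
    (hV2 : V 2 = 1) (hx1 : V x ≤ 1) (hix : V (x' - x) < 1) (hiy : V (y' - y) < 1) :
    ptc x' y' h' - ptc x y h ∈ E1c V := by
  have hy1 : V y ≤ 1 := v_yc V h hx1
  have hιx1 : V x' ≤ 1 := by
    rw [show x' = (x' - x) + x by ring]
    exact vle V hix.le hx1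
  have hιy1 : V y' ≤ 1 := v_yc V h' hιx1
  have hm1 : V (-1 : F) ≤ 1 := by rw [Valuation.map_neg, map_one]
  have hV4 : V (4 : F) = 1 := by
    rw [show (4 : F) = 2 * 2 by norm_num, map_mul, hV2, one_mul]
  have hV8 : V (8 : F) = 1 := by
    rw [show (8 : F) = 2 * 4 by norm_num, map_mul, hV2, one_mul, hV4]
  have hV32 : V (32 : F) = 1 := by
    rw [show (32 : F) = 4 * 8 by norm_num, map_mul, hV4, one_mul, hV8]
  have h3 : V (3 : F) ≤ 1 := by exact_mod_cast vnat V 3
  have h9 : V (9 : F) ≤ 1 := by exact_mod_cast vnat V 9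
  have hx2 : V (x ^ 2) ≤ 1 := by rw [map_pow]; exact pow_le_one₀ zero_le hx1
  rw [sub_eq_add_neg, neg_ptc]
  have hyn : (-y) ^ 2 = x ^ 3 + 4 * x := by rw [neg_sq]; exact h
  intro p q hpq hsub
  by_contra hp
  push Not at hp
  by_cases hxx : x' = x
  · have h1 : (y' - y) * (y' + y) = 0 := by
      rw [hxx] at h'
      linear_combination h' - h
    have hne : y' ≠ y := by
      intro h3
      have h4 : ptc x' y' h' = ptc x y h := by rw [ptc_inj]; exact ⟨hxx, h3⟩
      rw [h4, ← neg_ptc h, add_neg_cancel] at hsub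
      exact ptc_ne hpq hsub.symm
    have h2 := (mul_eq_zero.1 h1).resolve_left (sub_ne_zero.2 hne)
    have h3 : y' = -y := by linear_combination h2
    have hy0 : -y ≠ 0 := by
      intro hy0
      apply hne
      rw [h3, hy0]
      linear_combination hy0
    have h4 : ptc x' y' h' = ptc x (-y) hyn := by rw [ptc_inj]; exact ⟨hxx, h3⟩
    obtain ⟨x3, y3, h3', e3, h5⟩ := dbl_ptc hyn hy0
    rw [h4, e3, ptc_inj] at hsub
    rw [hsub.1] at h5
    have h6' : V (2 * y) < 1 := by
      rw [h3, show -y - y = -(2 * y) by ring, Valuation.map_neg] at hiy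
      exact hiy
    have h7 : V y < 1 := by
      rw [map_mul, hV2, one_mul] at h6'
      exact h6'
    have h8 : V (x ^ 2 - 4) < 1 := by
      apply vsq V
      rw [← h5, show p * (2 * -y) ^ 2 = (p * (2 * y)) * (2 * y) by ring]
      exact vltm V (vlem V hp h6'.le) h6'
    have h9' : V (y ^ 2) < 1 := by rw [pow_two]; exact vltm V hy1 h7
    have h10 : V (8 * x) < 1 := by
      rw [show 8 * x = (-x) * (x ^ 2 - 4) + y ^ 2 by rw [h]; ring]
      refine vlt V (vltm V ?_ h8) h9'
      rw [Valuation.map_neg]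
      exact hx1
    have h11 : V x < 1 := by
      rw [map_mul, hV8, one_mul] at h10
      exact h10
    have h12 : V (4 : F) < 1 := by
      rw [show (4 : F) = (-1) * (x ^ 2 - 4) + x * x by ring]
      exact vlt V (vltm V hm1 h8) (vltm V hx1 h11)
    rw [hV4] at h12
    exact lt_irrefl _ h12
  · obtain ⟨x3, y3, h3', e3, h1⟩ := add_ptc h' hyn hxx
    rw [e3, ptc_inj] at hsub
    rw [hsub.1] at h1
    have hsum : V (y' + y) < 1 := by
      apply vsq V
      rw [show (y' + y) ^ 2 = (p * (x' - x)) * (x' - x) + ((x' + x) * (x' - x)) * (x' - x) by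
        linear_combination -h1]
      exact vlt V (vltm V (vlem V hp hix.le) hix)
        (vltm V (vlem V (vle V hιx1 hx1) hix.le) hix)
    have h2y : V (2 * y) < 1 := by
      rw [show 2 * y = (y' + y) + (-1) * (y' - y) by ring]
      exact vlt V hsum (vltm V hm1 hiy)
    have hy : V y < 1 := by
      rw [map_mul, hV2, one_mul] at h2y
      exact h2y
    have hxy2 : V (y ^ 2) < 1 := by rw [pow_two]; exact vltm V hy1 hy
    have hkey : ¬ V (x' ^ 2 + x' * x + x ^ 2 + 4) < 1 := by
      intro hlt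
      have h3c : V (3 * x ^ 2 + 4) < 1 := by
        rw [show 3 * x ^ 2 + 4 = (x' ^ 2 + x' * x + x ^ 2 + 4) + (-(x' + (x + x))) * (x' - x) by
          ring]
        refine vlt V hlt (vltm V ?_ hix)
        rw [Valuation.map_neg]
        exact vle V hιx1 (vle V hx1 hx1)
      have h4 : V (32 : F) < 1 := by
        rw [show (32 : F) = (8 + 3 * x ^ 2) * (3 * x ^ 2 + 4) + (-(9 * x)) * y ^ 2 by
          rw [h]; ring]
        refine vlt V (vltm V (vle V hV8.le (vlem V h3 hx2)) h3c) (vltm V ?_ hxy2)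
        rw [Valuation.map_neg]
        exact vlem V h9 hx1
      rw [hV32] at h4
      exact lt_irrefl _ h4
    apply hkey
    apply vsq V
    have hne : x' - x ≠ 0 := sub_ne_zero.2 hxx
    have h3e : (y' + y) * (y' - y) = (x' - x) * (x' ^ 2 + x' * x + x ^ 2 + 4) := by
      linear_combination h' - h
    have h4 : (x' ^ 2 + x' * x + x ^ 2 + 4) ^ 2 =
        (p * (y' - y)) * (y' - y) + ((x' + x) * (y' - y)) * (y' - y) := by
      have h5 : (x' - x) ^ 2 * (x' ^ 2 + x' * x + x ^ 2 + 4) ^ 2 =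
        (x' - x) ^ 2 * ((p * (y' - y)) * (y' - y) + ((x' + x) * (y' - y)) * (y' - y)) := by
        rw [← mul_pow, ← h3e]
        linear_combination (-(y' - y) ^ 2) * h1
      exact mul_left_cancel₀ (pow_ne_zero 2 hne) h5
    rw [h4]
    exact vlt V (vltm V (vlem V hp hiy.le) hiy)
      (vltm V (vlem V (vle V hιx1 hx1) hiy.le) hiy)

/-- a point congruent to an integral point is integral -/
theorem int_of_sub_mem {x y x' y' : F} {h : y ^ 2 = x ^ 3 + 4 * x}
    {h' : y' ^ 2 = x' ^ 3 + 4 * x'}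
    (hx1 : V x ≤ 1) (hd : ptc x' y' h' - ptc x y h ∈ E1c V) : V x' ≤ 1 := by
  rcases ptc_cases (ptc x' y' h' - ptc x y h) with h0 | ⟨p, q, hpq, e⟩
  · rw [sub_eq_zero, ptc_inj] at h0
    rw [h0.1]
    exact hx1
  · rw [e, ptc_mem] at hd
    obtain ⟨x3, y3, h3, e3, hx3⟩ := int_add V hpq h hd hx1
    have : ptc x' y' h' = ptc x3 y3 h3 := by rw [← e3, ← e]; abel
    rw [ptc_inj] at this
    rw [this.1]
    exact hx3

/-- `2 R` in the kernel of reduction -/
theorem dbl_mem {x y : F} {h : y ^ 2 = x ^ 3 + 4 * x} (hV2 : V 2 = 1) (hx1 : V x ≤ 1)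
    (hd : ptc x y h + ptc x y h ∈ E1c V) : V y < 1 := by
  by_contra hy
  have hy1 : V y = 1 := le_antisymm (v_yc V h hx1) (not_lt.1 hy)
  have hy0 : y ≠ 0 := by
    rintro rfl
    rw [map_zero] at hy1
    exact zero_ne_one hy1
  obtain ⟨x3, y3, h3, e3, h1⟩ := dbl_ptc h hy0
  rw [e3, ptc_mem] at hd
  have h2 : V x3 = V ((x ^ 2 + -4) ^ 2) := by
    rw [← sub_eq_add_neg, ← h1, map_mul, map_pow, map_mul, hV2, hy1, one_mul, one_pow, mul_one]
  rw [h2, map_pow] at hd
  refine absurd hd (not_lt.2 (pow_le_one₀ zero_le (vle V ?_ ?_)))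
  · rw [map_pow]
    exact pow_le_one₀ zero_le hx1
  · rw [Valuation.map_neg]
    exact v4_le V

/-- points with difference in the kernel of reduction have congruent first coordinates -/
theorem x_of_sub_mem {x y x' y' : F} {h : y ^ 2 = x ^ 3 + 4 * x} {h' : y' ^ 2 = x' ^ 3 + 4 * x'}
    (hx1 : V x ≤ 1) (hd : ptc x' y' h' - ptc x y h ∈ E1c V) : V (x' - x) < 1 := by
  rcases ptc_cases (ptc x' y' h' - ptc x y h) with h0 | ⟨p, q, hpq, e⟩
  · rw [sub_eq_zero, ptc_inj] at h0
    rw [h0.1, sub_self, map_zero]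
    exact zero_lt_one
  · rw [e, ptc_mem] at hd
    have hy1 : V y ≤ 1 := v_yc V h hx1
    have hpx : p ≠ x := by
      rintro rfl
      exact absurd hx1 (not_le.2 hd)
    obtain ⟨x3, y3, h3, e3, h1⟩ := add_ptc hpq h hpx
    have e4 : ptc x' y' h' = ptc x3 y3 h3 := by rw [← e3, ← e]; abel
    rw [ptc_inj] at e4
    rw [← e4.1] at h1
    have h2 : (x' - x) * (p - x) ^ 2 =
        (3 * x ^ 2 + 4) * p + ((-(2 * y)) * q + (y ^ 2 + -(2 * x ^ 3))) := by
      linear_combination h1 + hpq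
    have hpx' : V (p - x) = V p := by
      rw [Valuation.map_sub_eq_of_lt_left]
      exact lt_of_le_of_lt hx1 hd
    have hp0 : 0 < V p := lt_trans zero_lt_one hd
    have hpp : V p < V p ^ 2 := by
      calc V p = V p ^ 1 := (pow_one _).symm
        _ < V p ^ 2 := pow_lt_pow_right₀ hd (by norm_num)
    have h1p : 1 < V p ^ 2 := lt_trans hd hpp
    have hq : V q < V p ^ 2 := by
      by_contra h4
      push Not at h4
      have h5 : (V p ^ 2) ^ 2 ≤ V q ^ 2 := pow_le_pow_left₀ zero_le h4 2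
      rw [← map_pow V q, hpq] at h5
      refine absurd h5 (not_le.2 ?_)
      refine lt_of_le_of_lt (V.map_add _ _) (max_lt ?_ ?_)
      · rw [map_pow, ← pow_mul]
        exact pow_lt_pow_right₀ hd (by norm_num)
      · rw [← pow_mul]
        calc V (4 * p) ≤ V p := v4x V p
          _ = V p ^ 1 := (pow_one _).symm
          _ < _ := pow_lt_pow_right₀ hd (by norm_num)
    have hx2 : V (x ^ 2) ≤ 1 := by rw [map_pow]; exact pow_le_one₀ zero_le hx1
    have hx3 : V (x ^ 3) ≤ 1 := by rw [map_pow]; exact pow_le_one₀ zero_le hx1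
    have hy2 : V (y ^ 2) ≤ 1 := by rw [map_pow]; exact pow_le_one₀ zero_le hy1
    have h3' : V (3 : F) ≤ 1 := by exact_mod_cast vnat V 3
    have h2' : V (2 : F) ≤ 1 := by exact_mod_cast vnat V 2
    have aux : ∀ a b : F, V a ≤ 1 → V b < V p ^ 2 → V (a * b) < V p ^ 2 := by
      intro a b ha hb
      rw [map_mul]
      calc V a * V b ≤ 1 * V b := by gcongr
        _ = V b := one_mul _
        _ < _ := hb
    have h4 : V ((x' - x) * (p - x) ^ 2) < V p ^ 2 := by
      rw [h2]
      refine lt_of_le_of_lt (V.map_add _ _) (max_lt ?_ (lt_of_le_of_lt (V.map_add _ _)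
        (max_lt ?_ ?_)))
      · exact aux _ _ (vle V (vlem V h3' hx2) (v4_le V)) hpp
      · refine aux _ _ ?_ hq
        rw [Valuation.map_neg]
        exact vlem V h2' hy1
      · refine lt_of_le_of_lt (vle V hy2 ?_) h1p
        rw [Valuation.map_neg]
        exact vlem V h2' hx3
    rw [map_mul, map_pow, hpx'] at h4
    by_contra h6
    push Not at h6
    have h5 : V p ^ 2 ≤ V (x' - x) * V p ^ 2 := by
      calc V p ^ 2 = 1 * V p ^ 2 := (one_mul _).symm
        _ ≤ _ := by gcongr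
    exact absurd h4 (not_lt.2 h5)

/-- points with difference in the kernel of reduction have congruent second coordinates -/
theorem y_of_sub_mem {x y x' y' : F} {h : y ^ 2 = x ^ 3 + 4 * x} {h' : y' ^ 2 = x' ^ 3 + 4 * x'}
    (hV2 : V 2 = 1) (hx1 : V x ≤ 1) (hd : ptc x' y' h' - ptc x y h ∈ E1c V) :
    V (y' - y) < 1 := by
  have hx' := int_of_sub_mem hx1 hd
  have hxx := x_of_sub_mem hx1 hd
  have hy1 : V y ≤ 1 := v_yc V h hx1
  have hy1' : V y' ≤ 1 := v_yc V h' hx'
  have hm1 : V (-1 : F) ≤ 1 := by rw [Valuation.map_neg, map_one]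
  have h1 : V ((y' - y) * (y' + y)) < 1 := by
    rw [show (y' - y) * (y' + y) = (x' ^ 2 + x' * x + x ^ 2 + 4) * (x' - x) by
      linear_combination h' - h]
    refine vltm V (vle V (vle V (vle V ?_ (vlem V hx' hx1)) ?_) (v4_le V)) hxx
    · rw [map_pow]; exact pow_le_one₀ zero_le hx'
    · rw [map_pow]; exact pow_le_one₀ zero_le hx1
  by_contra hlt
  have h2 : V (y' - y) = 1 := by
    refine le_antisymm ?_ (not_lt.1 hlt)
    rw [sub_eq_add_neg]
    refine vle V hy1' ?_
    rw [Valuation.map_neg]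
    exact hy1
  have h3 : V (y' + y) < 1 := by
    rw [map_mul, h2, one_mul] at h1
    exact h1
  have hyn : (-y) ^ 2 = x ^ 3 + 4 * x := by rw [neg_sq]; exact h
  have h4 : ptc x' y' h' - ptc x (-y) hyn ∈ E1c V :=
    sub_mem hV2 hx1 hxx (by rw [sub_neg_eq_add]; exact h3)
  rw [← neg_ptc h, sub_neg_eq_add] at h4
  have h5 := (E1c V).add_mem hd h4
  have h6 : ptc x' y' h' - ptc x y h + (ptc x' y' h' + ptc x y h) =
      ptc x' y' h' + ptc x' y' h' := by
    abel
  rw [h6] at h5
  have h7 := dbl_mem hV2 hx' h5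
  apply hlt
  rw [show y' - y = (2 : ℕ) * y' + (-1) * (y' + y) by push_cast; ring]
  exact vlt V (vltm V (vnat V 2) h7) (vltm V hm1 h3)

/-- inertia acts trivially modulo the kernel of reduction -/
theorem gal_sub_mem {ι : F → F} {m : (cE F).Point →+ (cE F).Point}
    (hm : ∀ (x y : F) (hn : (cE F).Nonsingular x y), ∃ hn' : (cE F).Nonsingular (ι x) (ι y),
        m (Point.some x y hn) = Point.some (ι x) (ι y) hn')
    (hV2 : V 2 = 1)
    (hVi : ∀ x : F, V (ι x) = V x) (hVt : ∀ x : F, V x ≤ 1 → V (ι x - x) < 1)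
    (R : (cE F).Point) : m R - R ∈ E1c V := by
  rcases ptc_cases R with rfl | ⟨x, y, h, rfl⟩
  · rw [map_zero, sub_zero]
    exact (E1c V).zero_mem
  · obtain ⟨hn', e⟩ := hm x y (cE_nonsingular.2 h)
    have e' : m (ptc x y h) = ptc (ι x) (ι y) (cE_nonsingular.1 hn') := e
    rw [e']
    by_cases hx : V x ≤ 1
    · exact sub_mem hV2 hx (hVt x hx) (hVt y (v_yc V h hx))
    · apply (E1c V).sub_mem
      · rw [ptc_mem, hVi]
        exact not_le.1 hx
      · rw [ptc_mem]
        exact not_le.1 hx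

/-! ### the same statements for `Point.some` -/

theorem some_mem {x y : F} {h : (cE F).Nonsingular x y} :
    (Point.some x y h : (cE F).Point) ∈ E1c V ↔ 1 < V x := by
  rw [some_eq h]
  exact ptc_mem

theorem some_sub_mem {x y x' y' : F} {h : (cE F).Nonsingular x y}
    {h' : (cE F).Nonsingular x' y'}
    (hV2 : V 2 = 1) (hx1 : V x ≤ 1) (hix : V (x' - x) < 1) (hiy : V (y' - y) < 1) :
    (Point.some x' y' h' - Point.some x y h : (cE F).Point) ∈ E1c V := by
  rw [some_eq h, some_eq h']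
  exact sub_mem hV2 hx1 hix hiy

theorem some_int_of_sub_mem {x y x' y' : F} {h : (cE F).Nonsingular x y}
    {h' : (cE F).Nonsingular x' y'} (hx1 : V x ≤ 1)
    (hd : (Point.some x' y' h' - Point.some x y h : (cE F).Point) ∈ E1c V) : V x' ≤ 1 := by
  rw [some_eq h, some_eq h'] at hd
  exact int_of_sub_mem hx1 hd

theorem some_x_of_sub_mem {x y x' y' : F} {h : (cE F).Nonsingular x y}
    {h' : (cE F).Nonsingular x' y'} (hx1 : V x ≤ 1)
    (hd : (Point.some x' y' h' - Point.some x y h : (cE F).Point) ∈ E1c V) :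
    V (x' - x) < 1 := by
  rw [some_eq h, some_eq h'] at hd
  exact x_of_sub_mem hx1 hd

theorem some_y_of_sub_mem {x y x' y' : F} {h : (cE F).Nonsingular x y}
    {h' : (cE F).Nonsingular x' y'} (hV2 : V 2 = 1) (hx1 : V x ≤ 1)
    (hd : (Point.some x' y' h' - Point.some x y h : (cE F).Point) ∈ E1c V) :
    V (y' - y) < 1 := by
  rw [some_eq h, some_eq h'] at hd
  exact y_of_sub_mem hV2 hx1 hd

/-- a point of the kernel of reduction which is not the origin is not integral -/
theorem not_mem_of_int {x y : F} {h : (cE F).Nonsingular x y} (hx : V x ≤ 1) :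
    (Point.some x y h : (cE F).Point) ∉ E1c V := by
  rw [some_mem]
  exact not_lt.2 hx

end

end Pool.Agent.Work.MP_8efaaa_nt.K7
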