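import Mathlib
import Pool.Agent.Work.MP_8efaaa_nt.K7.Defs
import Pool.Agent.Work.MP_8efaaa_nt.K7.E1c
import Pool.Agent.Work.MP_8efaaa_nt.K7.AUn
import Pool.Agent.Work.MP_8efaaa_nt.T.WPt

/-!
# K7/EPc (S-M): the difference of two points

`x = 2 (1 + W ^ 2) / W' ^ 2`, `y = 4 (1 + W ^ 2) / W' ^ 3`, so `W' = 2 x / y`; `V x = V y = 1` (`wrel_unit`). `some_x_of_sub_mem`, `some_y_of_sub_mem` (K7/E1c).
-/

set_option autoImplicit false

namespace Pool.Agent.Work.MP_8efaaa_nt.K7

open IsDedekindDomain NumberField Pool.Agent.Work.MP_787500_nt.HC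
open Pool.Agent.Work.MP_8efaaa_nt.T Pool.Agent.Work.MP_8efaaa_nt.R
open Pool.Agent.Work.MP_8efaaa_nt.N5 Pool.Agent.Work.MP_8efaaa_nt.N7
open scoped nonZeroDivisors

open scoped Classical in
theorem w_of_sub {A F Γ : Type*} [Field F] [CharZero F] [CommGroup A] [Finite A]
    [LinearOrderedCommGroupWithZero Γ] {p : A} {W W' : A → F} (h : WRel p W W')
    {V : Valuation F Γ} (h2 : V 2 = 1) {C C' : A}
    (hs : (WeierstrassCurve.Affine.Point.some (xW W W' C') (yW W W' C') (nonsing_W h C') -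
      WeierstrassCurve.Affine.Point.some (xW W W' C) (yW W W' C) (nonsing_W h C) :
        (cE F).Point) ∈ E1c V) : V (W' C' - W' C) < 1 := by
  obtain ⟨a1, a2, a3, -, -, -⟩ := wrel_unit h V h2 C
  obtain ⟨b1, b2, b3, -, -, -⟩ := wrel_unit h V h2 C'
  have h4 : V (4 : F) = 1 := by
    rw [show (4 : F) = 2 * 2 by norm_num, map_mul, h2, one_mul]
  have hx : V (xW W W' C) = 1 := by
    unfold xW
    rw [map_div₀, map_mul, map_pow, h2, a3, a2]
    simp
  have hx' : V (xW W W' C') = 1 := by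
    unfold xW
    rw [map_div₀, map_mul, map_pow, h2, b3, b2]
    simp
  have hy : V (yW W W' C) = 1 := by
    unfold yW
    rw [map_div₀, map_mul, map_pow, h4, a3, a2]
    simp
  have hy' : V (yW W W' C') = 1 := by
    unfold yW
    rw [map_div₀, map_mul, map_pow, h4, b3, b2]
    simp
  have d1 := some_x_of_sub_mem hx.le hs
  have d2 := some_y_of_sub_mem h2 hx.le hs
  have hne : ∀ z : F, V z = 1 → z ≠ 0 := by
    rintro z hz rfl
    rw [map_zero] at hz
    exact zero_ne_one hz
  have e1 : W' C * yW W W' C = 2 * xW W W' C := by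
    have h5 := hne _ a2
    unfold xW yW
    field_simp
    ring
  have e2 : W' C' * yW W W' C' = 2 * xW W W' C' := by
    have h5 := hne _ b2
    unfold xW yW
    field_simp
    ring
  have e3 : (W' C' - W' C) * (yW W W' C * yW W W' C') =
      2 * (yW W W' C * (xW W W' C' - xW W W' C) + -(xW W W' C) * (yW W W' C' - yW W W' C)) := by
    linear_combination (yW W W' C) * e2 - (yW W W' C') * e1
  have e4 : V ((W' C' - W' C) * (yW W W' C * yW W W' C')) < 1 := by
    rw [e3]
    refine W5.vltm V h2.le (W5.vlt V (W5.vltm V hy.le d1) (W5.vltm V ?_ d2))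
    rw [Valuation.map_neg]
    exact hx.le
  rw [map_mul, map_mul, hy, hy', one_mul, mul_one] at e4
  exact e4

end Pool.Agent.Work.MP_8efaaa_nt.K7
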