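import Mathlib
import Pool.Agent.Work.MP_8efaaa_nt.K7.Defs

/-!
# K7/EEu (S-M): Euler's criterion

`V (2 c r ^ 2 - (x - 2 c)) < 1`. Put `B = (x - 2 c) c`; `B = 2 c ^ 2 r ^ 2` modulo the maximal ideal, `B ^ ((q-1)/2) = 2 ^ ((q-1)/2) c ^ (q-1) r ^ (q-1) = 1` there: `2 ^ ((q-1)/2) = 1 (mod q)` (`q % 8 = 7`), `c ^ (q-1) = 1` (`q ∤ c`),
`r ^ (q-1) = 1` (`V r = 1`, `V (r ^ q - r) < 1`). So `V (B ^ ((q-1)/2) - 1) < 1`, `q ∣ B ^ ((q-1)/2) - 1` (`hVi`), `legendreSym.eq_pow`.
-/

set_option autoImplicit false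

namespace Pool.Agent.Work.MP_8efaaa_nt.K7

open IsDedekindDomain NumberField Pool.Agent.Work.MP_787500_nt.HC
open Pool.Agent.Work.MP_8efaaa_nt.T Pool.Agent.Work.MP_8efaaa_nt.R
open Pool.Agent.Work.MP_8efaaa_nt.N5 Pool.Agent.Work.MP_8efaaa_nt.N7
open scoped nonZeroDivisors

theorem eval7 {F Γ : Type*} [Field F] [CharZero F] [LinearOrderedCommGroupWithZero Γ]
    (V : Valuation F Γ) {q : ℕ} (hq : q.Prime) (hq8 : q % 8 = 7)
    (hVi : ∀ n : ℤ, V (n : F) < 1 ↔ (q : ℤ) ∣ n) {x c : ℤ} (hqc : ¬ (q : ℤ) ∣ c) {r : F}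
    (hr : V r = 1) (h1 : V (2 * c * (1 + r ^ 2) - x) < 1) (h2 : V (r ^ q - r) < 1) :
    jacobiSym ((x - 2 * c) * c) q = 1 := by
  haveI := Fact.mk hq
  have hVle : ∀ n : ℤ, V (n : F) ≤ 1 := by
    intro n
    by_cases h : (q : ℤ) ∣ n
    · exact ((hVi n).2 h).le
    · have hn : ∀ m : ℕ, V (m : F) ≤ 1 := by
        intro m
        induction m with
        | zero => rw [Nat.cast_zero, map_zero]; exact zero_le
        | succ m ih =>
          rw [Nat.cast_succ]
          exact (V.map_add _ _).trans (max_le ih (by rw [map_one]))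
      rcases Int.eq_nat_or_neg n with ⟨m, rfl | rfl⟩
      · exact_mod_cast hn m
      · push_cast
        rw [Valuation.map_neg]
        exact hn m
  have hm1 : V (-1 : F) ≤ 1 := by rw [Valuation.map_neg, map_one]
  -- congruence modulo the maximal ideal
  let E : F → F → Prop := fun z z' => V (z - z') < 1
  have Emul : ∀ {z z' y y' : F}, V z' ≤ 1 → V y ≤ 1 → E z z' → E y y' → E (z * y) (z' * y') := by
    intro z z' y y' hz hy h3 h4
    show V _ < 1
    rw [show z * y - z' * y' = y * (z - z') + z' * (y - y') by ring]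
    refine lt_of_le_of_lt (V.map_add _ _) (max_lt ?_ ?_)
    · rw [map_mul]
      calc V y * V (z - z') ≤ 1 * V (z - z') := by gcongr
        _ = V (z - z') := one_mul _
        _ < 1 := h3
    · rw [map_mul]
      calc V z' * V (y - y') ≤ 1 * V (y - y') := by gcongr
        _ = V (y - y') := one_mul _
        _ < 1 := h4
  have Epow : ∀ {z z' : F} (n : ℕ), V z ≤ 1 → V z' ≤ 1 → E z z' → E (z ^ n) (z' ^ n) := by
    intro z z' n hz hz' h3
    induction n with
    | zero =>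
      show V _ < 1
      rw [pow_zero, pow_zero, sub_self, map_zero]
      exact zero_lt_one
    | succ n ih =>
      rw [pow_succ, pow_succ]
      refine Emul ?_ hz ih h3
      rw [map_pow]
      exact pow_le_one₀ zero_le hz'
  have Etrans : ∀ {z z' z'' : F}, E z z' → E z' z'' → E z z'' := by
    intro z z' z'' h3 h4
    show V _ < 1
    rw [show z - z'' = (z - z') + (z' - z'') by ring]
    exact lt_of_le_of_lt (V.map_add _ _) (max_lt h3 h4)
  have Eint : ∀ {m n : ℤ}, (q : ℤ) ∣ m - n → E (m : F) (n : F) := by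
    intro m n h3
    show V _ < 1
    rw [← Int.cast_sub]
    exact (hVi _).2 h3
  obtain ⟨N, hN⟩ : ∃ N : ℕ, N = (q - 1) / 2 := ⟨_, rfl⟩
  have hN2 : q - 1 = 2 * N := by omega
  -- `2 ^ ((q - 1) / 2) = 1`
  have c1 : (q : ℤ) ∣ 2 ^ N - 1 := by
    have h3 := legendreSym.eq_pow q 2
    have h4 : legendreSym q 2 = 1 := by
      rw [legendreSym.at_two (by omega), ZMod.χ₈_nat_eq_if_mod_eight]
      have h5 : ¬ q % 2 = 0 := by omega
      have h6 : q % 8 = 1 ∨ q % 8 = 7 := by omega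
      rw [if_neg h5, if_pos h6]
    rw [h4, show q / 2 = N by omega] at h3
    rw [← ZMod.intCast_zmod_eq_zero_iff_dvd]
    push_cast
    push_cast at h3
    rw [← h3, sub_self]
  have c2 : (q : ℤ) ∣ c ^ (q - 1) - 1 := by
    have h3 : (c : ZMod q) ≠ 0 := by
      rw [Ne, ZMod.intCast_zmod_eq_zero_iff_dvd]
      exact hqc
    have h4 := ZMod.pow_card_sub_one_eq_one h3
    rw [← ZMod.intCast_zmod_eq_zero_iff_dvd]
    push_cast
    rw [h4, sub_self]
  have c3 : E (r ^ (q - 1)) 1 := by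
    have h3 : V (r * (r ^ (q - 1) - 1)) < 1 := by
      rw [show r * (r ^ (q - 1) - 1) = r ^ (q - 1 + 1) - r by ring,
        Nat.sub_add_cancel hq.one_lt.le]
      exact h2
    rw [map_mul, hr, one_mul] at h3
    exact h3
  have hV2 : V (2 : F) ≤ 1 := by exact_mod_cast hVle 2
  have hVc := hVle c
  have hVx := hVle x
  -- the congruence for `B`
  have hB1 : V (((x - 2 * c) * c : ℤ) : F) ≤ 1 := hVle _
  have hB2 : V (2 * (c : F) ^ 2 * r ^ 2) ≤ 1 := by
    rw [map_mul, map_mul, map_pow, map_pow, hr, one_pow, mul_one]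
    exact mul_le_one' hV2 (pow_le_one₀ zero_le hVc)
  have hB : E (((x - 2 * c) * c : ℤ) : F) (2 * (c : F) ^ 2 * r ^ 2) := by
    show V _ < 1
    push_cast
    rw [show (((x : F) - 2 * c) * c - 2 * (c : F) ^ 2 * r ^ 2) =
      (-(c : F)) * (2 * c * (1 + r ^ 2) - x) by ring, map_mul, Valuation.map_neg]
    calc V (c : F) * V (2 * c * (1 + r ^ 2) - x) ≤ 1 * V (2 * c * (1 + r ^ 2) - x) := by gcongr
      _ = V (2 * c * (1 + r ^ 2) - x) := one_mul _
      _ < 1 := h1
  have hBN := Epow N hB1 hB2 hB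
  have e1 : (2 * (c : F) ^ 2 * r ^ 2) ^ N = ((2 ^ N : ℤ) : F) * (((c ^ (q - 1) : ℤ) : F) *
      r ^ (q - 1)) := by
    rw [mul_pow, mul_pow, ← pow_mul, ← pow_mul, hN2]
    push_cast
    ring
  have hE : E ((2 * (c : F) ^ 2 * r ^ 2) ^ N) 1 := by
    rw [e1]
    have h3 : E ((2 ^ N : ℤ) : F) ((1 : ℤ) : F) := Eint c1
    have h4 : E ((c ^ (q - 1) : ℤ) : F) ((1 : ℤ) : F) := Eint c2
    have h5 := Emul (y := r ^ (q - 1)) (y' := 1) (by rw [Int.cast_one, map_one])
      (by rw [map_pow, hr, one_pow]) h4 c3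
    have h6 := Emul (y := ((c ^ (q - 1) : ℤ) : F) * r ^ (q - 1)) (by rw [Int.cast_one, map_one])
      (by
        rw [map_mul, map_pow, hr, one_pow, mul_one]
        exact hVle _) h3 h5
    simpa using h6
  have hfin := Etrans hBN hE
  have h7 : V ((((x - 2 * c) * c) ^ N - 1 : ℤ) : F) < 1 := by
    have h8 : V ((((x - 2 * c) * c : ℤ) : F) ^ N - 1) < 1 := hfin
    rw [Int.cast_sub, Int.cast_pow, Int.cast_one]
    exact h8
  have h8 := (hVi _).1 h7
  rw [← ZMod.intCast_zmod_eq_zero_iff_dvd] at h8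
  have h9 := legendreSym.eq_pow q ((x - 2 * c) * c)
  rw [show q / 2 = N by omega] at h9
  have h10 : (legendreSym q ((x - 2 * c) * c) : ZMod q) = 1 := by
    rw [h9]
    push_cast at h8 ⊢
    exact sub_eq_zero.1 h8
  rw [← jacobiSym.legendreSym.to_jacobiSym]
  have h11 : ((x - 2 * c) * c : ZMod q) ≠ 0 := by
    intro h12
    have h13 : (((x - 2 * c) * c : ℤ) : ZMod q) = 0 := by push_cast; exact h12
    have h14 : legendreSym q ((x - 2 * c) * c) = 0 := (legendreSym.eq_zero_iff q _).2 h13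
    rw [h14] at h10
    norm_num at h10
  rcases legendreSym.eq_one_or_neg_one q (a := (x - 2 * c) * c) (by push_cast; exact h11) with
    h12 | h12
  · exact h12
  · exfalso
    rw [h12] at h10
    have h13 : (2 : ZMod q) = 0 := by
      have : ((-1 : ℤ) : ZMod q) = 1 := h10
      push_cast at this
      linear_combination -this
    have h14 : ((2 : ℕ) : ZMod q) = 0 := by exact_mod_cast h13
    rw [ZMod.natCast_eq_zero_iff] at h14
    have := Nat.le_of_dvd (by norm_num) h14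
    omega

end Pool.Agent.Work.MP_8efaaa_nt.K7
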