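import Mathlib
import Pool.Agent.Work.MP_8efaaa_nt.K7.Defs
import Pool.Agent.Work.MP_8efaaa_nt.W5.CTw

/-!
# K7/ESm (S-M): the sum over the classes (abstract)

`j ↦ γ j⁻¹` is an involution with exactly the fixed points `C0`, `C1`. `half_sys` (W5/CTw; or prove it): `∑ P = P C0 + P C1 + ∑_{j ∈ H} (P j + P (γ j⁻¹))`, `card A = 2 |H| + 2`. Modulo `E`: `P j + P (γ j⁻¹) = Q` (`m (P j) - P j ∈ E`), so
`0 = P C0 + P C1 + |H| Q`, `|H| = card A / 2 - 1 = -1 (mod 4)`, so `P C0 + P C1 = Q` modulo `E`, and `P C0 + P C0 = Q` modulo `E`. (Work in `G ⧸ E` or with membership.)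
-/

set_option autoImplicit false

namespace Pool.Agent.Work.MP_8efaaa_nt.K7

open IsDedekindDomain NumberField Pool.Agent.Work.MP_787500_nt.HC
open Pool.Agent.Work.MP_8efaaa_nt.T Pool.Agent.Work.MP_8efaaa_nt.R
open Pool.Agent.Work.MP_8efaaa_nt.N5 Pool.Agent.Work.MP_8efaaa_nt.N7
open scoped nonZeroDivisors

theorem sum_fix {A G : Type} [CommGroup A] [Fintype A] [AddCommGroup G] (E : AddSubgroup G)
    (P : A → G) (m : G →+ G) (hm : ∀ R, m R - R ∈ E) {γ : A} {Q : G}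
    (hQ : ∀ C, m (P C) + P (γ * C⁻¹) = Q) (h4 : (4 : ℕ) • Q = 0) (hsum : ∑ C, P C = 0)
    (h8 : 8 ∣ Fintype.card A) {C0 C1 : A} (h01 : C0 ≠ C1)
    (hfix : ∀ C, C ^ 2 = γ ↔ C = C0 ∨ C = C1) : P C1 - P C0 ∈ E := by
  classical
  have key : ∀ C, P C + P (γ * C⁻¹) - Q ∈ E := by
    intro C
    have h1 := E.neg_mem (hm (P C))
    have h2 : P C + P (γ * C⁻¹) - Q = -(m (P C) - P C) := by
      rw [← hQ C]; abel
    rw [h2]; exact h1
  obtain ⟨H, hcard, -, -, -, hs, -⟩ := W5.half_sys (fun C : A => γ * C⁻¹) (x0 := C0) (x1 := C1)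
    (by intro j; simp) h01 (by
      intro j
      rw [← hfix j, mul_inv_eq_iff_eq_mul, pow_two]
      exact eq_comm)
  have hsP := hs P
  rw [hsum] at hsP
  have hH : ∑ j ∈ H, (P j + P (γ * j⁻¹)) - H.card • Q ∈ E := by
    have : ∑ j ∈ H, (P j + P (γ * j⁻¹)) - H.card • Q = ∑ j ∈ H, (P j + P (γ * j⁻¹) - Q) := by
      rw [Finset.sum_sub_distrib, Finset.sum_const]
    rw [this]
    exact E.sum_mem fun j _ => key j
  obtain ⟨k, hk⟩ : ∃ k, H.card = 4 * k + 3 := by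
    obtain ⟨r, hr⟩ := h8
    exact ⟨r - 1, by omega⟩
  have hHQ : H.card • Q = -Q := by
    have h4' : Q + 3 • Q = 0 := by
      rw [← h4]
      rw [show (4 : ℕ) = 1 + 3 from rfl, add_nsmul, one_nsmul]
    rw [hk, add_nsmul, mul_comm, mul_nsmul', h4, smul_zero, zero_add]
    exact eq_neg_of_add_eq_zero_right h4'
  have h0 : γ * C0⁻¹ = C0 := by
    rw [mul_inv_eq_iff_eq_mul, ← pow_two]
    exact ((hfix C0).2 (Or.inl rfl)).symm
  have k0 := key C0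
  rw [h0] at k0
  have h3 : P C1 - P C0 = -((∑ j ∈ H, (P j + P (γ * j⁻¹)) - H.card • Q) + (P C0 + P C0 - Q)) := by
    rw [hHQ]
    have e1 : P C1 = -P C0 - ∑ j ∈ H, (P j + P (γ * j⁻¹)) := by
      have : (0 : G) = P C0 + P C1 + ∑ j ∈ H, (P j + P (γ * j⁻¹)) := hsP
      have h5 : P C1 + (P C0 + ∑ j ∈ H, (P j + P (γ * j⁻¹))) = 0 := by
        rw [this]; abel
      rw [eq_neg_of_add_eq_zero_left h5]; abel
    rw [e1]; abel
  rw [h3]
  exact E.neg_mem (E.add_mem hH k0)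

end Pool.Agent.Work.MP_8efaaa_nt.K7
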