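import Mathlib
import Pool.Agent.Work.MP_8efaaa_nt.K7.Defs
import Pool.Agent.Work.MP_8efaaa_nt.K7.ARs
import Pool.Agent.Work.MP_8efaaa_nt.K7.ATu
import Pool.Agent.Work.MP_8efaaa_nt.N7.IBas

/-!
# K7/GEx (M): the solution of `x ^ 2 + a y ^ 2 = 8 c ^ 2`

`D ^ 2 = cl (pr v)`; `exists_rep` with `N = 2`: an odd ideal `k` with `cl (idl k) = D⁻¹`, so `v k ^ 2` is principal, `= (μ)`, `2 μ = X + Y S`, `X ^ 2 + a Y ^ 2 = 4 N (μ) = 8 (N k) ^ 2`. Divide by `g = gcd (X, Y)`: `g` is odd (if `X = 2 X'`, `Y = 2 Y'` then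
`X' ^ 2 + a Y' ^ 2 = 2 (N k) ^ 2 = 2 (mod 16)`, impossible for `a % 8 = 7`), so `g ∣ N k`. `x`, `y` are odd; choose the signs.
-/

set_option autoImplicit false

namespace Pool.Agent.Work.MP_8efaaa_nt.K7

open IsDedekindDomain NumberField Pool.Agent.Work.MP_787500_nt.HC
open Pool.Agent.Work.MP_8efaaa_nt.T Pool.Agent.Work.MP_8efaaa_nt.R
open Pool.Agent.Work.MP_8efaaa_nt.N5 Pool.Agent.Work.MP_8efaaa_nt.N7
open scoped nonZeroDivisors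

variable {K : Type*} [Field K] [NumberField K] {a : ℕ} {s : K} {S : 𝓞 K}

private theorem GEx_princ {I : Ideal (𝓞 K)} (hI : I ≠ ⊥) (h : cl (idl I) = 1) :
    ∃ μ : 𝓞 K, μ ≠ 0 ∧ I = Ideal.span {μ} := by
  obtain ⟨x, hx⟩ := cl_eq_iff.1 (show cl (1 : Idl K) = cl (idl I) by rw [h, cl_one])
  rw [mul_one] at hx
  have h1 : ((I : Ideal (𝓞 K)) : FractionalIdeal (𝓞 K)⁰ K) =
      FractionalIdeal.spanSingleton (𝓞 K)⁰ (x : K) := by
    rw [← idl_ne hI, hx]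
    unfold prin
    rw [coe_toPrincipalIdeal]
  have h2 : (x : K) ∈ ((I : Ideal (𝓞 K)) : FractionalIdeal (𝓞 K)⁰ K) := by
    rw [h1]
    exact FractionalIdeal.mem_spanSingleton_self _ _
  obtain ⟨μ, hμ, hμx⟩ := (FractionalIdeal.mem_coeIdeal _).1 h2
  have h3 : I = Ideal.span {μ} := by
    apply FractionalIdeal.coeIdeal_injective (K := K)
    show ((I : Ideal (𝓞 K)) : FractionalIdeal (𝓞 K)⁰ K) =
      ((Ideal.span {μ} : Ideal (𝓞 K)) : FractionalIdeal (𝓞 K)⁰ K)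
    rw [h1, FractionalIdeal.coeIdeal_span_singleton, hμx]
  refine ⟨μ, ?_, h3⟩
  rintro rfl
  apply hI
  rw [h3]
  simp

/-- the choice of a sign -/
private theorem GEx_sign {X σ : ℤ} (hX : Odd X) (hσ : Odd σ) :
    ∃ e : ℤ, (e = 1 ∨ e = -1) ∧ (e * X * σ) % 4 = 3 := by
  have h1 : Odd (X * σ) := hX.mul hσ
  obtain ⟨k, hk⟩ := h1
  by_cases h : (X * σ) % 4 = 3
  · exact ⟨1, Or.inl rfl, by rw [one_mul]; exact h⟩
  · refine ⟨-1, Or.inr rfl, ?_⟩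
    have h2 : -1 * X * σ = -(X * σ) := by ring
    rw [h2]
    omega

private theorem GEx_int {a : ℕ} (ha : a % 8 = 7) {X Y : ℤ} {n : ℕ} (hn : Odd n)
    (h : X ^ 2 + a * Y ^ 2 = 8 * (n : ℤ) ^ 2) {σ : ℤ} (hσ : Odd σ) :
    ∃ (x y : ℤ) (c : ℕ), Odd c ∧ IsCoprime x y ∧ x ^ 2 + a * y ^ 2 = 8 * (c : ℤ) ^ 2 ∧
      x % 4 = 3 ∧ (y * σ) % 4 = 3 := by
  have hn0 : (n : ℤ) ≠ 0 := by
    have := hn.pos
    exact_mod_cast this.ne'
  have hXY : X ≠ 0 ∨ Y ≠ 0 := by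
    by_contra hcon
    push Not at hcon
    rw [hcon.1, hcon.2] at h
    have h1 : 0 < (n : ℤ) ^ 2 := by positivity
    simp at h
    omega
  have hg0 : 0 < Int.gcd X Y := Int.gcd_pos_iff.2 hXY
  obtain ⟨X', hX'⟩ := Int.gcd_dvd_left X Y
  obtain ⟨Y', hY'⟩ := Int.gcd_dvd_right X Y
  set g : ℕ := Int.gcd X Y with hg
  have hg0' : (g : ℤ) ≠ 0 := by exact_mod_cast hg0.ne'
  have hcop : IsCoprime X' Y' := by
    rw [Int.isCoprime_iff_gcd_eq_one]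
    have h1 : Int.gcd ((g : ℤ) * X') ((g : ℤ) * Y') = g * Int.gcd X' Y' := by
      rw [Int.gcd_mul_left]
      simp
    rw [← hX', ← hY', ← hg] at h1
    have h2 : g * Int.gcd X' Y' = g * 1 := by rw [mul_one]; exact h1.symm
    exact Nat.eq_of_mul_eq_mul_left hg0 h2
  have ha4 : (a : ℤ) % 4 = 3 := by omega
  obtain ⟨A, hA⟩ : ∃ A : ℤ, (a : ℤ) = 4 * A + 3 := ⟨(a : ℤ) / 4, by omega⟩
  obtain ⟨k, hk⟩ := hn
  -- g is odd
  have hgo : Odd g := by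
    rw [← Nat.not_even_iff_odd]
    rintro ⟨r, hr⟩
    have hgr : (g : ℤ) = 2 * r := by rw [hr]; push_cast; ring
    have h1 : ((r : ℤ) * X') ^ 2 + a * ((r : ℤ) * Y') ^ 2 = 2 * (n : ℤ) ^ 2 := by
      have h2 : 4 * (((r : ℤ) * X') ^ 2 + a * ((r : ℤ) * Y') ^ 2) = 4 * (2 * (n : ℤ) ^ 2) := by
        have h3 : X ^ 2 + a * Y ^ 2 = 4 * (((r : ℤ) * X') ^ 2 + a * ((r : ℤ) * Y') ^ 2) := by
          rw [hX', hY', hgr]
          ring
        rw [← h3, h]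
        ring
      linarith
    have hkz : (n : ℤ) = 2 * k + 1 := by exact_mod_cast hk
    rw [hA, hkz] at h1
    rcases Int.even_or_odd ((r : ℤ) * X') with ⟨u, hu⟩ | ⟨u, hu⟩ <;>
    rcases Int.even_or_odd ((r : ℤ) * Y') with ⟨w, hw⟩ | ⟨w, hw⟩
    · rw [hu, hw] at h1
      ring_nf at h1
      omega
    · rw [hu, hw] at h1
      ring_nf at h1
      omega
    · rw [hu, hw] at h1
      ring_nf at h1
      omega
    · rw [hu, hw] at h1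
      ring_nf at h1
      omega
  have hgn : g ∣ n := by
    have h1 : (g : ℤ) ^ 2 ∣ 8 * (n : ℤ) ^ 2 := ⟨X' ^ 2 + a * Y' ^ 2, by
      rw [← h, hX', hY']
      ring⟩
    have h2 : g ^ 2 ∣ 8 * n ^ 2 := by exact_mod_cast h1
    have h3 : Nat.Coprime (g ^ 2) 8 := by
      have h4 : Nat.Coprime g 2 := Nat.coprime_two_right.2 hgo
      have h5 : Nat.Coprime (g ^ 2) (2 ^ 3) := Nat.Coprime.pow 2 3 h4
      simpa using h5
    have h4 : g ^ 2 ∣ n ^ 2 := h3.dvd_of_dvd_mul_left h2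
    exact (Nat.pow_dvd_pow_iff two_ne_zero).1 h4
  obtain ⟨c, hc⟩ := hgn
  have hco : Odd c := by
    have h1 : Odd (g * c) := by rw [← hc]; exact ⟨k, hk⟩
    exact (Nat.odd_mul.1 h1).2
  have hmain : X' ^ 2 + a * Y' ^ 2 = 8 * (c : ℤ) ^ 2 := by
    have h1 : (g : ℤ) ^ 2 * (X' ^ 2 + a * Y' ^ 2) = (g : ℤ) ^ 2 * (8 * (c : ℤ) ^ 2) := by
      have h2 : (n : ℤ) = g * c := by exact_mod_cast hc
      have h3 : X ^ 2 + a * Y ^ 2 = (g : ℤ) ^ 2 * (X' ^ 2 + a * Y' ^ 2) := by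
        rw [hX', hY']
        ring
      rw [← h3, h, h2]
      ring
    exact mul_left_cancel₀ (pow_ne_zero 2 hg0') h1
  have hodd : Odd X' ∧ Odd Y' := by
    rcases Int.even_or_odd X' with ⟨u, hu⟩ | ⟨u, hu⟩ <;>
    rcases Int.even_or_odd Y' with ⟨w, hw⟩ | ⟨w, hw⟩
    · exfalso
      have h1 : (2 : ℤ) ∣ X' := ⟨u, by rw [hu]; ring⟩
      have h2 : (2 : ℤ) ∣ Y' := ⟨w, by rw [hw]; ring⟩
      have h3 := hcop.isUnit_of_dvd' h1 h2
      rw [Int.isUnit_iff] at h3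
      omega
    · exfalso
      rw [hA, hu, hw] at hmain
      ring_nf at hmain
      omega
    · exfalso
      rw [hA, hu, hw] at hmain
      ring_nf at hmain
      omega
    · exact ⟨⟨u, hu⟩, ⟨w, hw⟩⟩
  obtain ⟨e, he, he4⟩ := GEx_sign hodd.1 odd_one
  obtain ⟨f, hf, hf4⟩ := GEx_sign hodd.2 hσ
  have he2 : e ^ 2 = 1 := by rcases he with rfl | rfl <;> norm_num
  have hf2 : f ^ 2 = 1 := by rcases hf with rfl | rfl <;> norm_num
  refine ⟨e * X', f * Y', c, hco, ?_, ?_, ?_, hf4⟩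
  · have h1 : IsUnit e := Int.isUnit_iff.2 he
    have h2 : IsUnit f := Int.isUnit_iff.2 hf
    exact (isCoprime_mul_unit_left_left h1 _ _).2 ((isCoprime_mul_unit_left_right h2 _ _).2 hcop)
  · rw [mul_pow, mul_pow, he2, hf2, one_mul, one_mul]
    exact hmain
  · rw [mul_one] at he4
    exact he4

theorem exists_xyc (hb : Base K a s) (hS : algebraMap (𝓞 K) K S = s)
    {v : HeightOneSpectrum (𝓞 K)} (hv : (2 : 𝓞 K) ∈ v.asIdeal)
    (hD : ∃ D : ClassGroup (𝓞 K), D ^ 2 = cl (pr v)) {σ : ℤ} (hσ : Odd σ) :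
    ∃ (x y : ℤ) (c : ℕ), Odd c ∧ IsCoprime x y ∧ x ^ 2 + a * y ^ 2 = 8 * (c : ℤ) ^ 2 ∧
      x % 4 = 3 ∧ (y * σ) % 4 = 3 := by
  obtain ⟨D, hD⟩ := hD
  obtain ⟨k, hk0, hk2, hkc⟩ := exists_rep (K := K) two_ne_zero D⁻¹
  have hv0 : v.asIdeal ≠ ⊥ := v.ne_bot
  have hkk : k * k ≠ ⊥ := mul_ne_zero hk0 hk0
  have hvk : v.asIdeal * (k * k) ≠ ⊥ := mul_ne_zero hv0 hkk
  have hcl : cl (idl (v.asIdeal * (k * k))) = 1 := by
    rw [idl_mul hv0 hkk, idl_mul hk0 hk0, cl_mul, cl_mul, hkc, idl_pr, ← hD, pow_two]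
    group
  obtain ⟨μ, hμ0, hμ⟩ := GEx_princ hvk hcl
  obtain ⟨X, Y, hXY, -⟩ := coords7 hb hS μ
  have h4 := norm_half7' hb hS hXY
  rw [← hμ, map_mul, map_mul, norm_v7 hb hv] at h4
  refine GEx_int hb.mod (n := Ideal.absNorm k) (Nat.coprime_two_right.1 hk2) ?_ hσ (X := X) (Y := Y)
  rw [← h4]
  push_cast
  ring

end Pool.Agent.Work.MP_8efaaa_nt.K7
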