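import Mathlib
import Pool.Agent.Work.MP_8efaaa_nt.K7.Defs
import Pool.Agent.Work.MP_8efaaa_nt.K7.ARs
import Pool.Agent.Work.MP_8efaaa_nt.K7.ATu
import Pool.Agent.Work.MP_8efaaa_nt.K7.GAm
import Pool.Agent.Work.MP_8efaaa_nt.N7.ESub
import Pool.Agent.Work.MP_8efaaa_nt.N7.IBas
import Pool.Agent.Work.MP_8efaaa_nt.Rf.FDi

/-!
# K7/GSq (M-L): squares in the class group, `a = p q`, `p = 1`, `q = 7 (mod 8)`

Model `N7/ESub.lean`: `χ c = jacobiSym (absNorm c) p` for `c` prime to `p` depends only on the class and is a homomorphism to `± 1`; it is trivial on the squares. It is not trivial: by Dirichlet's theorem (`Nat.forall_exists_prime_gt_and_eq_mod` or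
`Nat.setOf_prime_and_eq_mod_infinite`) there is a prime `l = 1 (mod 4)` with `l` a nonresidue modulo `p` and modulo `q`, so `-p q` is a square modulo `l`, `t ^ 2 + p q = 0 (mod l)`, and the ideal `(l, S - t)` has norm `l`. The squares have
index `2` (`two7`: the kernel of squaring has at most two elements, so `card (range) * card (ker) = card`), and are contained in the kernel of `χ`, of index `2`; so they are equal.
-/

set_option autoImplicit false

namespace Pool.Agent.Work.MP_8efaaa_nt.K7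

open IsDedekindDomain NumberField Pool.Agent.Work.MP_787500_nt.HC
open Pool.Agent.Work.MP_8efaaa_nt.T Pool.Agent.Work.MP_8efaaa_nt.R
open Pool.Agent.Work.MP_8efaaa_nt.N5 Pool.Agent.Work.MP_8efaaa_nt.N7
open scoped nonZeroDivisors

variable {K : Type*} [Field K] [NumberField K] {a : ℕ} {s : K} {S : 𝓞 K}

private theorem gsq_half (hb : Base K a s) {δ : 𝓞 K} {m n : ℤ}
    (hδ : 2 * algebraMap (𝓞 K) K δ = m + n * s) :
    4 * (Ideal.absNorm (Ideal.span {δ}) : ℤ) = m ^ 2 + a * n ^ 2 := by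
  have ha0 : 0 < a := by
    have := hb.mod
    omega
  obtain ⟨σ, hσ⟩ := Pool.Agent.Work.MP_787500_nt.Quad.exists_conj hb.dim hb.sq ha0
  let τ : K ≃ₐ[ℚ] K := AlgEquiv.ofRingEquiv (f := σ) (fun r => by simp)
  have hτ : ∀ z, τ z = σ z := fun z => rfl
  have h1 : Algebra.norm ℚ (τ (algebraMap (𝓞 K) K δ)) = Algebra.norm ℚ (algebraMap (𝓞 K) K δ) :=
    Algebra.norm_eq_of_algEquiv τ _
  have h2 : (2 * algebraMap (𝓞 K) K δ) * (2 * τ (algebraMap (𝓞 K) K δ)) =
      algebraMap ℚ K ((m ^ 2 + a * n ^ 2 : ℤ) : ℚ) := by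
    have h3 : 2 * τ (algebraMap (𝓞 K) K δ) = τ (2 * algebraMap (𝓞 K) K δ) := by
      rw [map_mul, map_ofNat]
    rw [h3, hτ, hδ, map_add, map_mul, hσ, map_intCast, map_intCast, map_intCast]
    push_cast
    linear_combination -(n : K) ^ 2 * hb.sq
  have h2' : algebraMap (𝓞 K) K δ * τ (algebraMap (𝓞 K) K δ) =
      algebraMap ℚ K (((m ^ 2 + a * n ^ 2 : ℤ) : ℚ) / 4) := by
    rw [map_div₀, ← h2, map_ofNat]
    field_simp
    ring
  have h3 := congrArg (Algebra.norm ℚ) h2'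
  rw [map_mul, h1, Algebra.norm_algebraMap, hb.dim] at h3
  have h4 : (Algebra.norm ℚ (algebraMap (𝓞 K) K δ)) = ((Algebra.norm ℤ δ : ℤ) : ℚ) :=
    (Algebra.coe_norm_int δ).symm
  rw [h4] at h3
  have h5 : (4 * Algebra.norm ℤ δ) ^ 2 = (m ^ 2 + a * n ^ 2) ^ 2 := by
    have : (4 * ((Algebra.norm ℤ δ : ℤ) : ℚ)) ^ 2 = ((m ^ 2 + a * n ^ 2 : ℤ) : ℚ) ^ 2 := by
      have h6 : (4 * ((Algebra.norm ℤ δ : ℤ) : ℚ)) ^ 2 =
          16 * (((Algebra.norm ℤ δ : ℤ) : ℚ) * ((Algebra.norm ℤ δ : ℤ) : ℚ)) := by ring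
      rw [h6, h3]
      ring
    exact_mod_cast this
  rw [Ideal.absNorm_span_singleton, Int.natCast_natAbs]
  have h6 : (0 : ℤ) ≤ m ^ 2 + a * n ^ 2 := by positivity
  have h7 : |4 * Algebra.norm ℤ δ| = |m ^ 2 + a * n ^ 2| := by
    rw [← sq_eq_sq_iff_abs_eq_abs, h5]
  rw [abs_mul, abs_of_nonneg h6] at h7
  simpa using h7

private theorem gsq_princ {I : Ideal (𝓞 K)} (hI : I ≠ ⊥) (h : cl (idl I) = 1) :
    ∃ x : 𝓞 K, I = Ideal.span {x} := by
  have h1 : cl (1 : Idl K) = cl (idl I) := by rw [h, cl_one]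
  obtain ⟨x, hx⟩ := cl_eq_iff.1 h1
  rw [mul_one] at hx
  have h2 := congrArg (fun J : Idl K => (J : FractionalIdeal (𝓞 K)⁰ K)) hx
  rw [idl_ne hI] at h2
  have h3 : (x : K) ∈ (I : FractionalIdeal (𝓞 K)⁰ K) := by
    rw [h2]
    unfold prin
    rw [coe_toPrincipalIdeal]
    exact FractionalIdeal.mem_spanSingleton_self _ _
  obtain ⟨y, hy, hyx⟩ := (FractionalIdeal.mem_coeIdeal _).1 h3
  refine ⟨y, ?_⟩
  have h4 : (I : FractionalIdeal (𝓞 K)⁰ K) =
      ((Ideal.span {y} : Ideal (𝓞 K)) : FractionalIdeal (𝓞 K)⁰ K) := by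
    rw [h2, FractionalIdeal.coeIdeal_span_singleton, hyx]
    unfold prin
    rw [coe_toPrincipalIdeal]
  exact FractionalIdeal.coeIdeal_injective h4

omit [NumberField K] in
private theorem gsq_jac {n p : ℕ} (hp : p.Prime) (h : Nat.Coprime n p) :
    jacobiSym n p = 1 ∨ jacobiSym n p = -1 := by
  have : NeZero p := ⟨hp.ne_zero⟩
  rcases jacobiSym.trichotomy n p with e1 | e1 | e1
  · exfalso
    rw [jacobiSym.eq_zero_iff_not_coprime] at e1
    apply e1
    rw [Int.gcd_natCast_natCast]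
    exact h
  · exact Or.inl e1
  · exact Or.inr e1

/-- the symbol depends only on the class -/
private theorem gsq_chi (hb : Base K a s) (hS : algebraMap (𝓞 K) K S = s) {p : ℕ} (hp : p.Prime)
    (hp2 : p ≠ 2) (hpa : p ∣ a) {c c' : Ideal (𝓞 K)} (hc : c ≠ ⊥) (hc' : c' ≠ ⊥)
    (h1 : Nat.Coprime (Ideal.absNorm c) p) (h1' : Nat.Coprime (Ideal.absNorm c') p)
    (h : cl (idl c) = cl (idl c')) :
    jacobiSym (Ideal.absNorm c) p = jacobiSym (Ideal.absNorm c') p := by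
  obtain ⟨τ, hτ⟩ := exists_tau7 hb hS
  have hn := (norm_cj7 hb hS hτ c').1
  have hc'' : cj τ c' ≠ ⊥ := by
    intro h0
    rw [h0, Ideal.absNorm_bot] at hn
    exact hc' (Ideal.absNorm_eq_zero_iff.1 hn.symm)
  have hne : c * cj τ c' ≠ ⊥ := mul_ne_zero hc hc''
  obtain ⟨x, hx⟩ := gsq_princ hne (by
    rw [idl_mul hc hc'', cl_mul, cl_cj7 hb hS hτ hc', h, mul_inv_cancel])
  obtain ⟨m, n, hmn, -⟩ := Qd.exists_int_coords hb.dim hb.sq hb.sf (by
    have := hb.mod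
    omega) x.isIntegral_coe
  have h4 := gsq_half hb hmn
  rw [← hx, map_mul, hn] at h4
  have h5 : jacobiSym (4 * (Ideal.absNorm c * Ideal.absNorm c' : ℕ)) p = jacobiSym (m ^ 2) p := by
    apply jacobiSym.mod_left'
    rw [h4]
    obtain ⟨k, hk⟩ := hpa
    have : (m ^ 2 + (a : ℤ) * n ^ 2) = m ^ 2 + p * (k * n ^ 2) := by rw [hk]; push_cast; ring
    rw [this, Int.add_mul_emod_self_left]
  have h6 : jacobiSym 4 p = 1 := by
    have h7 : (4 : ℤ) = 2 ^ 2 := by norm_num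
    rw [h7]
    apply jacobiSym.sq_one'
    rw [Int.gcd_eq_natAbs]
    have h8 : Nat.Coprime 2 p := (Nat.coprime_primes Nat.prime_two hp).2 hp2.symm
    simpa using h8
  rw [jacobiSym.mul_left, h6, one_mul, jacobiSym.pow_left] at h5
  push_cast at h5
  rw [jacobiSym.mul_left] at h5
  rcases gsq_jac hp h1 with e1 | e1 <;> rcases gsq_jac hp h1' with e2 | e2
  · rw [e1, e2]
  · rw [e1, e2] at h5
    rcases jacobiSym.trichotomy m p with e3 | e3 | e3 <;> rw [e3] at h5 <;> norm_num at h5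
  · rw [e1, e2] at h5
    rcases jacobiSym.trichotomy m p with e3 | e3 | e3 <;> rw [e3] at h5 <;> norm_num at h5
  · rw [e1, e2]

private theorem gsq_S2 (hb : Base K a s) (hS : algebraMap (𝓞 K) K S = s) :
    S ^ 2 = -(a : 𝓞 K) := by
  apply FaithfulSMul.algebraMap_injective (𝓞 K) K
  rw [map_pow, hS, map_neg, map_natCast, ← hb.sq]

/-- `S + t` is not a multiple of an odd prime `l` -/
private theorem gsq_notMem (hb : Base K a s) (hS : algebraMap (𝓞 K) K S = s) {l : ℕ}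
    (hl : l.Prime) (hl2 : l ≠ 2) (t : ℤ) : S - (t : 𝓞 K) ∉ Ideal.span {(l : 𝓞 K)} := by
  intro h
  obtain ⟨g, hg⟩ := Ideal.mem_span_singleton'.1 h
  obtain ⟨m, n, hmn, -⟩ := Qd.exists_int_coords hb.dim hb.sq hb.sf (by
    have := hb.mod
    omega) g.isIntegral_coe
  have h1 := congrArg (algebraMap (𝓞 K) K) hg
  rw [map_mul, map_natCast, map_sub, hS, map_intCast] at h1
  have h2 : ((l * m + 2 * t : ℤ) : K) + ((l * n - 2 : ℤ) : K) * s = 0 := by
    push_cast
    linear_combination 2 * h1 - (l : K) * hmn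
  have h3 : (l * n - 2 : ℤ) = 0 := by
    by_contra hne
    have h4 := h2
    set u : ℤ := l * m + 2 * t with hu
    set w : ℤ := l * n - 2 with hw
    have h5 : ((w : K) * s) ^ 2 = (u : K) ^ 2 := by
      have : (w : K) * s = -(u : K) := by linear_combination h4
      rw [this]
      ring
    rw [mul_pow, hb.sq] at h5
    have h6 : ((w ^ 2 * (a : ℤ) + u ^ 2 : ℤ) : K) = 0 := by
      push_cast
      linear_combination -h5
    have h7 : w ^ 2 * (a : ℤ) + u ^ 2 = 0 := by exact_mod_cast h6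
    have h8 : (0 : ℤ) < a := by
      have := hb.mod
      omega
    have h9 : 0 < w ^ 2 := by positivity
    nlinarith [sq_nonneg u, mul_pos h9 h8]
  have h4 : (l : ℤ) ∣ 2 := ⟨n, by linarith⟩
  have h5 : l ∣ 2 := by exact_mod_cast h4
  exact hl2 ((Nat.prime_dvd_prime_iff_eq hl Nat.prime_two).1 h5)

/-- an ideal of norm `l` -/
private theorem gsq_norm (hb : Base K a s) (hS : algebraMap (𝓞 K) K S = s) {l : ℕ}
    (hl : l.Prime) (hl2 : l ≠ 2) {t : ℤ} (ht : (l : ℤ) ∣ t ^ 2 + a) :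
    ∃ e : Ideal (𝓞 K), e ≠ ⊥ ∧ Ideal.absNorm e = l := by
  set e : Ideal (𝓞 K) := Ideal.span {(l : 𝓞 K), S - (t : 𝓞 K)} with he
  have hle : (l : 𝓞 K) ∈ e := Ideal.subset_span (by simp)
  have hSe : S - (t : 𝓞 K) ∈ e := Ideal.subset_span (by simp)
  have hl0 : (l : 𝓞 K) ≠ 0 := by exact_mod_cast hl.ne_zero
  have hsp : Ideal.span {(l : 𝓞 K)} ≤ e := (Ideal.span_singleton_le_iff_mem _).2 hle
  have hdvd : e ∣ Ideal.span {(l : 𝓞 K)} := Ideal.dvd_iff_le.2 hsp
  have hnl : Ideal.absNorm (Ideal.span {(l : 𝓞 K)}) = l ^ 2 := by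
    have h2 : Algebra.norm ℤ ((l : ℕ) : 𝓞 K) = (l : ℤ) ^ 2 := by
      rw [Algebra.norm_natCast, RingOfIntegers.rank, hb.dim]
    rw [Ideal.absNorm_span_singleton, h2, Int.natAbs_pow, Int.natAbs_natCast]
  have he0 : e ≠ ⊥ := by
    intro h0
    rw [h0] at hle
    exact hl0 (Ideal.mem_bot.1 hle)
  have h1 : Ideal.absNorm e ∣ l ^ 2 := by
    rw [← hnl]
    exact map_dvd Ideal.absNorm hdvd
  obtain ⟨k, hk, hk2⟩ := (Nat.dvd_prime_pow hl).1 h1
  refine ⟨e, he0, ?_⟩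
  have hk3 : k = 0 ∨ k = 1 ∨ k = 2 := by omega
  rcases hk3 with rfl | rfl | rfl
  · exfalso
    rw [pow_zero, Ideal.absNorm_eq_one_iff] at hk2
    -- `1 = l α + (S - t) β`
    have h3 : (1 : 𝓞 K) ∈ e := by rw [hk2]; trivial
    obtain ⟨α, β, hαβ⟩ := Ideal.mem_span_pair.1 h3
    obtain ⟨r, hr⟩ := ht
    apply gsq_notMem hb hS hl hl2 (-t)
    rw [Ideal.mem_span_singleton']
    refine ⟨α * (S + t) - β * r, ?_⟩
    have h4 : (t : 𝓞 K) ^ 2 + (a : 𝓞 K) = (l : 𝓞 K) * (r : 𝓞 K) := by exact_mod_cast congrArg (Int.cast : ℤ → 𝓞 K) hr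
    have h5 := gsq_S2 hb hS
    push_cast
    linear_combination (S + t) * hαβ - β * h5 + β * h4
  · rw [hk2, pow_one]
  · exfalso
    obtain ⟨c, hc⟩ := hdvd
    have h3 := congrArg Ideal.absNorm hc
    rw [map_mul, hnl, hk2] at h3
    have h4 : Ideal.absNorm c = 1 := by
      have h5 : 0 < l ^ 2 := pow_pos hl.pos 2
      exact (Nat.eq_of_mul_eq_mul_left h5 (by rw [mul_one]; exact h3)).symm
    rw [Ideal.absNorm_eq_one_iff] at h4
    rw [h4, Ideal.mul_top] at hc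
    apply gsq_notMem hb hS hl hl2 t
    rw [hc]
    exact hSe

/-- an ideal of norm a nonresidue modulo `p` -/
private theorem gsq_ex (hb : Base K a s) (hS : algebraMap (𝓞 K) K S = s) {p q : ℕ} (hp : p.Prime)
    (hq : q.Prime) (hp8 : p % 8 = 1) (hq8 : q % 8 = 7) (ha : a = p * q) :
    ∃ e : Ideal (𝓞 K), e ≠ ⊥ ∧ Nat.Coprime (Ideal.absNorm e) p ∧
      jacobiSym (Ideal.absNorm e) p = -1 := by
  have hodd : Odd (p * q) := by
    have := hb.mod
    rw [← ha, Nat.odd_iff]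
    omega
  obtain ⟨l, hl, hlN, h1, h2⟩ := Rf.exists_prime_nn (d := p) (e := q) (ha ▸ hb.sf) hp.one_lt
    hq.one_lt hodd (p + 2)
  have hl2 : l ≠ 2 := by omega
  have hlo : Odd l := hl.odd_of_ne_two hl2
  have hlp : Nat.Coprime l p := (Nat.coprime_primes hl hp).2 (by omega)
  have h3 : jacobiSym l a = 1 := by
    have : NeZero p := ⟨hp.ne_zero⟩
    have : NeZero q := ⟨hq.ne_zero⟩
    rw [ha, jacobiSym.mul_right, h1, h2]
    norm_num
  have h4 : jacobiSym (-(a : ℤ)) l = 1 := by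
    have h5 : (-(a : ℤ)) = (-1) * (a : ℤ) := by ring
    have haodd : Odd a := ha ▸ hodd
    have ha4 : a % 4 = 3 := by
      have := hb.mod
      omega
    rw [h5, jacobiSym.mul_left, jacobiSym.at_neg_one hlo]
    have hl4 : l % 4 = 1 ∨ l % 4 = 3 := by
      have := Nat.odd_iff.1 hlo
      omega
    rcases hl4 with hl4 | hl4
    · rw [ZMod.χ₄_nat_one_mod_four hl4, one_mul,
        ← jacobiSym.quadratic_reciprocity_one_mod_four hl4 haodd]
      exact h3
    · rw [ZMod.χ₄_nat_three_mod_four hl4, jacobiSym.quadratic_reciprocity_three_mod_four ha4 hl4, h3]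
      norm_num
  have : Fact l.Prime := ⟨hl⟩
  rw [← jacobiSym.legendreSym.to_jacobiSym] at h4
  have h5 : ((-(a : ℤ) : ℤ) : ZMod l) ≠ 0 := by
    intro h0
    rw [← legendreSym.eq_zero_iff] at h0
    rw [h0] at h4
    exact zero_ne_one h4
  obtain ⟨u, hu⟩ := (legendreSym.eq_one_iff l h5).1 h4
  obtain ⟨t, rfl⟩ := ZMod.intCast_surjective u
  have h6 : (l : ℤ) ∣ t ^ 2 + a := by
    rw [← ZMod.intCast_zmod_eq_zero_iff_dvd]
    push_cast at hu ⊢
    linear_combination -hu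
  obtain ⟨e, he0, he⟩ := gsq_norm hb hS hl hl2 h6
  exact ⟨e, he0, by rw [he]; exact hlp, by rw [he]; exact h1⟩

theorem sq_of_jac7 (hb : Base K a s) (hS : algebraMap (𝓞 K) K S = s) {p q : ℕ} (hp : p.Prime)
    (hq : q.Prime) (hp8 : p % 8 = 1) (hq8 : q % 8 = 7) (ha : a = p * q) {c : Ideal (𝓞 K)}
    (hc0 : c ≠ ⊥) (hcp : Nat.Coprime (Ideal.absNorm c) p)
    (hj : jacobiSym (Ideal.absNorm c) p = 1) : ∃ D : ClassGroup (𝓞 K), D ^ 2 = cl (idl c) := by
  classical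
  have hp2 : p ≠ 2 := by omega
  have hpa : p ∣ a := ha ▸ dvd_mul_right p q
  have : NeZero p := ⟨hp.ne_zero⟩
  set H : Subgroup (ClassGroup (𝓞 K)) := (powMonoidHom 2 : ClassGroup (𝓞 K) →* _).range with hH
  have hHm : ∀ x, x ∈ H ↔ ∃ D : ClassGroup (𝓞 K), D ^ 2 = x := by
    intro x
    rw [hH, MonoidHom.mem_range]
    rfl
  -- squares have trivial symbol
  have hsq : ∀ b : Ideal (𝓞 K), b ≠ ⊥ → Nat.Coprime (Ideal.absNorm b) p → cl (idl b) ∈ H →
      jacobiSym (Ideal.absNorm b) p = 1 := by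
    intro b hb0 hbp hbH
    obtain ⟨D, hD⟩ := (hHm _).1 hbH
    obtain ⟨I, hI0, hIp, hID⟩ := exists_rep (N := p) hp.ne_zero D
    have h1 : cl (idl b) = cl (idl (I * I)) := by
      rw [idl_mul hI0 hI0, cl_mul, hID, ← hD, pow_two]
    have h2 : Nat.Coprime (Ideal.absNorm (I * I)) p := by
      rw [map_mul]
      exact Nat.Coprime.mul_left hIp hIp
    rw [gsq_chi hb hS hp hp2 hpa hb0 (mul_ne_zero hI0 hI0) hbp h2 h1, map_mul]
    push_cast
    rw [jacobiSym.mul_left]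
    rcases gsq_jac hp hIp with e1 | e1 <;> rw [e1] <;> norm_num
  -- the index is at most two
  have hind : H.index ≤ 2 := by
    rw [hH, Subgroup.index_range]
    have h1 : ((powMonoidHom 2 : ClassGroup (𝓞 K) →* ClassGroup (𝓞 K)).ker :
        Set (ClassGroup (𝓞 K))) ⊆ ({1, cl (idl (K6.r6 S q))} : Set (ClassGroup (𝓞 K))) := by
      intro C hC
      have hC' : C ^ 2 = 1 := hC
      rcases two7 hb hS hp hq ha C hC' with h | h
      · exact Or.inl h
      · exact Or.inr h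
    calc Nat.card (powMonoidHom 2 : ClassGroup (𝓞 K) →* ClassGroup (𝓞 K)).ker
        = ((powMonoidHom 2 : ClassGroup (𝓞 K) →* ClassGroup (𝓞 K)).ker :
          Set (ClassGroup (𝓞 K))).ncard := rfl
      _ ≤ ({1, cl (idl (K6.r6 S q))} : Set (ClassGroup (𝓞 K))).ncard :=
          Set.ncard_le_ncard h1 (Set.toFinite _)
      _ ≤ 2 := by
          refine (Set.ncard_insert_le _ _).trans ?_
          rw [Set.ncard_singleton]
  have hmul : ∀ x y : ClassGroup (𝓞 K), x ∉ H → y ∉ H → x * y ∈ H := by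
    intro x y hx hy
    have h0 : H.index ≠ 0 := Subgroup.index_ne_zero_of_finite
    have h12 : H.index = 1 ∨ H.index = 2 := by omega
    rcases h12 with h1 | h1
    · rw [Subgroup.index_eq_one] at h1
      rw [h1]
      trivial
    · rw [Subgroup.mul_mem_iff_of_index_two h1]
      exact iff_of_false hx hy
  by_contra hno
  rw [← hHm] at hno
  obtain ⟨e, he0, hep, hej⟩ := gsq_ex hb hS hp hq hp8 hq8 ha
  have heH : cl (idl e) ∉ H := by
    intro h
    rw [hsq e he0 hep h] at hej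
    norm_num at hej
  have h1 := hmul _ _ hno heH
  rw [← cl_mul, ← idl_mul hc0 he0] at h1
  have h2 := hsq (c * e) (mul_ne_zero hc0 he0) (by
    rw [map_mul]
    exact Nat.Coprime.mul_left hcp hep) h1
  rw [map_mul] at h2
  push_cast at h2
  rw [jacobiSym.mul_left, hj, hej] at h2
  norm_num at h2

theorem sq_v7 (hb : Base K a s) (hS : algebraMap (𝓞 K) K S = s) {p q : ℕ} (hp : p.Prime)
    (hq : q.Prime) (hp8 : p % 8 = 1) (hq8 : q % 8 = 7) (ha : a = p * q)
    {v : HeightOneSpectrum (𝓞 K)} (hv : (2 : 𝓞 K) ∈ v.asIdeal) :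
    ∃ D : ClassGroup (𝓞 K), D ^ 2 = cl (pr v) := by
  have h1 : idl v.asIdeal = (pr v : Idl K) := by
    apply Units.ext
    rw [idl_ne v.ne_bot]
    rfl
  have hn := norm_v7 hb hv
  have hpo : Odd p := by
    rw [Nat.odd_iff]
    omega
  rw [← h1]
  refine sq_of_jac7 hb hS hp hq hp8 hq8 ha v.ne_bot ?_ ?_
  · rw [hn]
    exact (Nat.coprime_primes Nat.prime_two hp).2 (by omega)
  · rw [hn]
    push_cast
    rw [jacobiSym.at_two hpo, ZMod.χ₈_nat_eq_if_mod_eight]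
    have h2 : p % 2 ≠ 0 := by omega
    simp [hp8, h2]

end Pool.Agent.Work.MP_8efaaa_nt.K7
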