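import Mathlib
import Pool.Agent.Work.MP_787500_nt.HC.ClsA
import Pool.Agent.Work.MP_8efaaa_nt.K7.Defs
import Pool.Agent.Work.MP_8efaaa_nt.K7.E1c
import Pool.Agent.Work.MP_8efaaa_nt.K7.EPc
import Pool.Agent.Work.MP_8efaaa_nt.K7.ESm
import Pool.Agent.Work.MP_8efaaa_nt.N7.EOld
import Pool.Agent.Work.MP_8efaaa_nt.N7.EPt
import Pool.Agent.Work.MP_8efaaa_nt.N7.DRed

/-!
# K7/MPt (helper33): the comparison of the two fixed classes
-/

set_option autoImplicit false

namespace Pool.Agent.Work.MP_8efaaa_nt.K7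

open IsDedekindDomain NumberField Pool.Agent.Work.MP_787500_nt.HC
open WeierstrassCurve WeierstrassCurve.Affine Pool.Agent.Work.MP_8efaaa_nt.T
open Pool.Agent.Work.MP_8efaaa_nt.N5 Pool.Agent.Work.MP_8efaaa_nt.N7
open scoped nonZeroDivisors Classical

private theorem em_Q {F : Type*} [Field F] [CharZero F] : (cE F).Nonsingular 2 4 := by
  rw [nonsingular_iff', equation_iff]
  simp only [cE]
  refine ⟨by ring, Or.inr ?_⟩
  norm_num

private theorem em_T {F : Type*} [Field F] [CharZero F] : (cE F).Nonsingular 0 0 := by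
  rw [nonsingular_iff', equation_iff]
  simp only [cE]
  refine ⟨by ring, Or.inl ?_⟩
  norm_num

private theorem em_Q_add_Q {F : Type*} [Field F] [CharZero F] :
    (Point.some 2 4 em_Q : (cE F).Point) + Point.some 2 4 em_Q = Point.some 0 0 em_T := by
  have hy : (4 : F) ≠ (cE F).negY 2 4 := by
    simp only [negY, cE]
    norm_num
  have hs : (cE F).slope 2 2 4 4 = 2 := by
    rw [slope_of_Y_ne rfl hy]
    simp only [negY, cE]
    norm_num
  rw [Point.add_self_of_Y_ne hy]
  simp only [Point.some.injEq]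
  rw [hs]
  constructor
  · simp only [addX, cE]
    norm_num
  · simp only [addY, negAddY, negY, addX, cE]
    norm_num

private theorem em_T_add_T {F : Type*} [Field F] [CharZero F] :
    (Point.some 0 0 em_T : (cE F).Point) + Point.some 0 0 em_T = 0 := by
  rw [Point.add_of_Y_eq rfl]
  simp only [negY, cE]
  norm_num

private theorem em_four {F : Type*} [Field F] [CharZero F] :
    4 • (Point.some 2 4 em_Q : (cE F).Point) = 0 := by
  have h2 : 2 • (Point.some 2 4 em_Q : (cE F).Point) = Point.some 0 0 em_T := by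
    rw [two_nsmul, em_Q_add_Q]
  rw [show 4 = 2 * 2 by norm_num, mul_nsmul, h2, two_nsmul, em_T_add_T]

private theorem em_congr {F : Type*} [Field F] {W : WeierstrassCurve.Affine F} {x y x' y' : F}
    (hn : W.Nonsingular x y) (hn' : W.Nonsingular x' y') (hx : x = x') (hy : y = y') :
    (Point.some x y hn : W.Point) = Point.some x' y' hn' := by
  subst hx
  subst hy
  rfl

/-- the values of `W'` at the two fixed classes are congruent -/
theorem fix_eq {K F : Type} [Field K] [NumberField K] [Field F] [NumberField F]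
    [Algebra K F] [FiniteDimensional K F] [IsGalois K F] {a d : ℕ} {s : K} (hb : Base K a s)
    (hnc : ¬ IsCongruent a) {v : HeightOneSpectrum (𝓞 K)} (hv : (2 : 𝓞 K) ∈ v.asIdeal) {w : F}
    {W W' : ClassGroup (𝓞 K) → F} {κ : F ≃ₐ[ℚ] F} (hI : IDat7 K F a d s v w W W' κ)
    (h8 : 8 ∣ Nat.card (ClassGroup (𝓞 K))) {b : Ideal (𝓞 K)} {ι : F ≃ₐ[ℚ] F}
    (hW : ∀ C, ι (W C) = W' (cl (idl b)⁻¹ * C⁻¹)) (hW' : ∀ C, ι (W' C) = W (cl (idl b)⁻¹ * C⁻¹))
    {Γ : Type} [LinearOrderedCommGroupWithZero Γ] {V : Valuation F Γ} (h2 : V 2 = 1)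
    (hVι : ∀ z : F, V z ≤ 1 → V (ι z - z) < 1) (hVi : ∀ z : F, V (ι z) = V z)
    {C0 C1 : ClassGroup (𝓞 K)} (h01 : C0 ≠ C1)
    (hfix : ∀ C : ClassGroup (𝓞 K), C ^ 2 = cl (pr v)⁻¹ * cl (idl b)⁻¹ ↔ C = C0 ∨ C = C1) :
    V (W' C1 - W' C0) < 1 := by
  obtain ⟨m, hm⟩ := exists_galE ι
  set p := cl (pr v)⁻¹ with hp
  set g := cl (idl b)⁻¹ with hg
  -- the conjugate of a point
  have hpt : ∀ C, m (Point.some (xW W W' C) (yW W W' C) (nonsing_W hI.rel C)) +
      Point.some (xW W W' (p * g * C⁻¹)) (yW W W' (p * g * C⁻¹)) (nonsing_W hI.rel (p * g * C⁻¹)) =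
      Point.some 2 4 em_Q := by
    intro C
    obtain ⟨hn', h1⟩ := hm _ _ (nonsing_W hI.rel C)
    obtain ⟨hn, h2⟩ := pt_conj hI.rel hI.rec3 (g * C⁻¹) em_Q
    have h3 : (Point.some (ι (xW W W' C)) (ι (yW W W' C)) hn' : (cE F).Point) =
        Point.some _ _ hn := by
      apply em_congr
      · unfold xW
        rw [map_div₀, map_mul, map_add, map_one, map_pow, map_pow, map_ofNat, hW, hW']
      · unfold yW
        rw [map_div₀, map_mul, map_add, map_one, map_pow, map_pow, map_ofNat, hW, hW']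
    have h4 : (Point.some (xW W W' (p * g * C⁻¹)) (yW W W' (p * g * C⁻¹))
        (nonsing_W hI.rel (p * g * C⁻¹)) : (cE F).Point) =
        Point.some (xW W W' (p * (g * C⁻¹))) (yW W W' (p * (g * C⁻¹)))
        (nonsing_W hI.rel (p * (g * C⁻¹))) := by
      apply em_congr
      · rw [mul_assoc]
      · rw [mul_assoc]
    rw [h1, h3, h4]
    exact h2
  have hsum0 := (sum_zero7 hb hnc hv hI).1
  have hcard : 8 ∣ Fintype.card (ClassGroup (𝓞 K)) := by
    rwa [Nat.card_eq_fintype_card] at h8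
  have hgal : ∀ R : (cE F).Point, m R - R ∈ E1c V :=
    gal_sub_mem hm h2 hVi hVι
  have := sum_fix (E1c V)
    (fun C => (Point.some (xW W W' C) (yW W W' C) (nonsing_W hI.rel C) : (cE F).Point)) m hgal
    hpt em_four hsum0 hcard h01 hfix
  exact w_of_sub hI.rel h2 this

end Pool.Agent.Work.MP_8efaaa_nt.K7
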