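import Mathlib
import Pool.Agent.Work.MP_8efaaa_nt.K7.Defs

/-!
# K7/N1a (M-L): the Jacobi symbol of `μ = (x + y s) / 2` at an ideal `b`, `b k ^ 2 = (δ)`, `δ = (u + w s) / 2`: the computation with integers

PROOF. For an odd integer `n` put `χ4 n = 1, -1` for `n = 1, 3 (mod 4)`; for `N % 8 = 7`: `jacobiSym 2 N = 1`, `jacobiSym (-1) N = -1`, and by quadratic reciprocity `jacobiSym n N = χ4 n * jacobiSym N |n|` for every odd `n`; for `n ≠ 0` with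
odd part `n₀` (`n = 2 ^ i n₀`): `jacobiSym n N = χ4 n₀ * jacobiSym N |n₀|`.
`w ≠ 0` (else `4 N K ^ 2 = u ^ 2`, `N` would be a square, `N % 8 = 7`). `gcd (w, N) = 1` (a common prime divides `u` by `ht`). `gcd (x - y t, N) = 1` (a common prime `l`: `x ^ 2 + a y ^ 2 = y ^ 2 (t ^ 2 + a) = 0 (mod l)`, `l ∣ 8 c ^ 2`). Put `A = x w + y u`:
`A = (x - y t) w (mod N)` so `gcd (A, N) = 1`, `A ≠ 0`, `jacobiSym (2 (x - y t)) N = jacobiSym (w A) N`. Let `g = gcd (w, y)` (odd: `y` is odd), `w = g w'`, `y = g y'`, `A = g A'`, `A' = x w' + y' u`; `jacobiSym (w A) N = jacobiSym (w' A') N`.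
(1) `4 N K ^ 2 = u ^ 2 (mod w')`, and no odd prime divides `w` and `u` (or `w` and `K`, since then it divides `u`): `jacobiSym N |w'₀| = 1`.
(2) `A' (u y' - x w') = 4 (N K ^ 2 y' ^ 2 - 2 c ^ 2 w' ^ 2)` (from the two equations), so with `n = |A'₀|`: `N (K y') ^ 2 = 2 (c w') ^ 2 (mod n)`. `n` is prime to `K y'`: `l ∣ y'` gives `l ∣ c` (as `gcd (w', y') = 1`) and then `l ∣ x`, contradiction to
`IsCoprime x y`; `l ∣ K` gives `l ∣ w'` (`gcd (K, c) = 1`) and `l ∣ u`, contradiction. `n` is prime to `N`. So `jacobiSym N n = jacobiSym 2 n = e8 n`.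
(3) So `jacobiSym (2 (x - y t)) N = χ4 w'₀ χ4 A'₀ e8 A'₀ = χ4 w₀ χ4 A₀ e8 A₀ e8 g` and `e8 g = 1`, `e8 |y| = 1`: every prime `l ∣ y` has `x ^ 2 = 8 c ^ 2 (mod l)`, `l ∤ c`, so `2` is a square modulo `l`, `l = ± 1 (mod 8)`.
(4) `2`-adically: `d1 = (u + w σ) / 2`, `d2 = (u - w σ) / 2`, `d1 = d (mod 32)`, `d1 d2 = N K ^ 2 = 7 (mod 8)` (`64 ∣ σ ^ 2 + a`), so `d2 = -d1 (mod 8)`, `w σ = d1 - d2 = 2 d1 (mod 8)`, `w = 2 w₀`, `w₀ σ = d1 (mod 4)`. `m1 = (x + y σ) / 2`,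
`m2 = (x - y σ) / 2`, `m1 m2 = 2 c ^ 2 (mod 16)`; `m1` odd (`x = 3`, `y σ = 3 (mod 4)`: `x + y σ = 2 (mod 4)`), `m2 = 2 m1 (mod 16)`, `x = m1 + m2`, so `m1 = 1 (mod 4)`. `A σ = 2 (m1 d1 - m2 d2)`, so `A = 2 A₀`, `A₀ σ = m1 d1 - m2 d2 = d1 (m1 + 2) (mod 8)`.
With `ψ = χ4 e8`: `χ4 w₀ ψ A₀ = χ4 d1 χ4 σ ψ σ ψ d1 ψ (m1 + 2) = e8 d1 e8 σ ψ (m1 + 2)`, and `y σ = m1 - m2 = m1 - 2 (mod 8)`, `e8 y = 1`, so `e8 σ = e8 (m1 - 2) = ψ (m1 + 2)` (both are `1` for `m1 = 1 (mod 8)` and `-1` for `m1 = 5 (mod 8)`).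
So the symbol is `e8 d1 = e8 d`. (This was checked numerically.)
-/

set_option autoImplicit false

namespace Pool.Agent.Work.MP_8efaaa_nt.K7

open IsDedekindDomain NumberField Pool.Agent.Work.MP_787500_nt.HC
open Pool.Agent.Work.MP_8efaaa_nt.T Pool.Agent.Work.MP_8efaaa_nt.R
open Pool.Agent.Work.MP_8efaaa_nt.N5 Pool.Agent.Work.MP_8efaaa_nt.N7
open scoped nonZeroDivisors

private def e4 (n : ℤ) : ℤ := if n % 4 = 1 then 1 else -1

private theorem e4_mul {a b : ℤ} (ha : a % 2 = 1) (hb : b % 2 = 1) :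
    e4 (a * b) = e4 a * e4 b := by
  have h1 : (a * b) % 4 = ((a % 4) * (b % 4)) % 4 := Int.mul_emod _ _ _
  have ha' : a % 4 = 1 ∨ a % 4 = 3 := by omega
  have hb' : b % 4 = 1 ∨ b % 4 = 3 := by omega
  unfold e4
  rcases ha' with ha' | ha' <;> rcases hb' with hb' | hb' <;> rw [h1, ha', hb'] <;> norm_num

private theorem e4_sq (a : ℤ) : e4 a * e4 a = 1 := by
  unfold e4
  split_ifs <;> norm_num

private theorem e8_mul' {a b : ℤ} (ha : a % 2 = 1) (hb : b % 2 = 1) :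
    e8 (a * b) = e8 a * e8 b := by
  have h1 : (a * b) % 8 = ((a % 8) * (b % 8)) % 8 := Int.mul_emod _ _ _
  have ha' : a % 8 = 1 ∨ a % 8 = 3 ∨ a % 8 = 5 ∨ a % 8 = 7 := by omega
  have hb' : b % 8 = 1 ∨ b % 8 = 3 ∨ b % 8 = 5 ∨ b % 8 = 7 := by omega
  unfold e8
  rcases ha' with ha' | ha' | ha' | ha' <;> rcases hb' with hb' | hb' | hb' | hb' <;>
    rw [h1, ha', hb'] <;> norm_num

private theorem sq8 {n : ℤ} (h : n % 2 = 1) : (n ^ 2) % 8 = 1 := by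
  have h1 : n % 8 = 1 ∨ n % 8 = 3 ∨ n % 8 = 5 ∨ n % 8 = 7 := by omega
  have h2 : n ^ 2 % 8 = ((n % 8) * (n % 8)) % 8 := by rw [pow_two, Int.mul_emod]
  rcases h1 with h1 | h1 | h1 | h1 <;> rw [h2, h1] <;> norm_num

private theorem jmod {a b n : ℤ} (h : n ∣ a - b) :
    jacobiSym a n.natAbs = jacobiSym b n.natAbs := by
  apply jacobiSym.mod_left'
  exact (Int.modEq_iff_dvd.2 (Int.natAbs_dvd.2 h)).symm

private theorem gcd_abs {a n : ℤ} (h : IsCoprime a n) : a.gcd (n.natAbs : ℤ) = 1 := by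
  rw [Int.isCoprime_iff_gcd_eq_one] at h
  simpa [Int.gcd, Int.natAbs_abs] using h

private theorem jsq {a n : ℤ} (h : IsCoprime a n) : jacobiSym a n.natAbs ^ 2 = 1 :=
  jacobiSym.sq_one (gcd_abs h)

private theorem jac_one {N k r n : ℤ} (h : n ∣ N * k ^ 2 - r ^ 2) (hr : IsCoprime r n) :
    jacobiSym N n.natAbs = 1 := by
  have h1 := jmod h
  rw [jacobiSym.mul_left, jacobiSym.pow_left, jacobiSym.pow_left, jsq hr] at h1
  rcases jacobiSym.trichotomy k n.natAbs with h2 | h2 | h2 <;> rw [h2] at h1 <;> linarith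

private theorem jac_eight {c n : ℤ} : jacobiSym (8 * c ^ 2) n.natAbs =
    jacobiSym 2 n.natAbs ^ 3 * jacobiSym c n.natAbs ^ 2 := by
  rw [show (8 : ℤ) = 2 ^ 3 by norm_num, jacobiSym.mul_left, jacobiSym.pow_left, jacobiSym.pow_left]

private theorem jac_two' {N k c n : ℤ} (h : n ∣ N * k ^ 2 - 8 * c ^ 2) (hk : IsCoprime k n)
    (hN : IsCoprime N n) : jacobiSym N n.natAbs = jacobiSym 2 n.natAbs := by
  have h1 := jmod h
  rw [jac_eight, jacobiSym.mul_left, jacobiSym.pow_left, jsq hk, mul_one] at h1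
  have h0 := jsq hN
  rw [h1] at h0 ⊢
  rcases jacobiSym.trichotomy 2 n.natAbs with h2 | h2 | h2 <;>
    rcases jacobiSym.trichotomy c n.natAbs with h3 | h3 | h3 <;>
    first | (simp [h2, h3]; done) | (simp [h2, h3] at h0; done)

private theorem jac_two'' {x c n : ℤ} (h : n ∣ x ^ 2 - 8 * c ^ 2) (hx : IsCoprime x n) :
    jacobiSym 2 n.natAbs = 1 := by
  have h1 := jmod h
  rw [jac_eight, jacobiSym.pow_left, jsq hx] at h1
  rcases jacobiSym.trichotomy 2 n.natAbs with h2 | h2 | h2 <;>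
    rcases jacobiSym.trichotomy c n.natAbs with h3 | h3 | h3 <;> rw [h2, h3] at h1 <;>
    first | exact h2 | norm_num at h1

private theorem jac_e8 {n : ℤ} (hn : n % 2 = 1) : jacobiSym 2 n.natAbs = e8 n := by
  have h1 : Odd n.natAbs := Int.natAbs_odd.2 (Int.odd_iff.2 hn)
  rw [jacobiSym.at_two h1, ZMod.χ₈_nat_eq_if_mod_eight]
  unfold e8
  have h3 : n.natAbs % 2 = 1 := Nat.odd_iff.1 h1
  rw [if_neg (by omega)]
  rcases Int.natAbs_eq n with h | h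
  · have h2 : (n.natAbs % 8 = 1 ∨ n.natAbs % 8 = 7) ↔ (n % 8 = 1 ∨ n % 8 = 7) := by omega
    simp only [h2]
  · have h2 : (n.natAbs % 8 = 1 ∨ n.natAbs % 8 = 7) ↔ (n % 8 = 1 ∨ n % 8 = 7) := by omega
    simp only [h2]

private theorem jac_recip {N : ℕ} (hN : N % 8 = 7) {n : ℤ} (hn : n % 2 = 1) :
    jacobiSym n N = e4 n * jacobiSym N n.natAbs := by
  have hNo : Odd N := Nat.odd_iff.2 (by omega)
  have hN4 : N % 4 = 3 := by omega
  obtain ⟨m, hm⟩ : ∃ m : ℕ, n.natAbs = m := ⟨_, rfl⟩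
  have hneg : jacobiSym (-1) N = -1 := by
    rw [jacobiSym.at_neg_one hNo, ZMod.χ₄_nat_three_mod_four hN4]
  have key : jacobiSym (m : ℤ) N = e4 m * jacobiSym N m := by
    have hm4 : m % 4 = 1 ∨ m % 4 = 3 := by omega
    rcases hm4 with h | h
    · rw [jacobiSym.quadratic_reciprocity_one_mod_four h hNo]
      unfold e4
      rw [if_pos (by omega), one_mul]
    · rw [jacobiSym.quadratic_reciprocity_three_mod_four h hN4]
      unfold e4
      rw [if_neg (by omega), neg_one_mul]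
  rw [hm]
  rcases Int.natAbs_eq n with h | h
  · rw [hm] at h
    rw [h]
    exact key
  · rw [hm] at h
    rw [h, ← neg_one_mul, jacobiSym.mul_left, hneg, key]
    have : e4 (-1 * (m : ℤ)) = -1 * e4 m := by
      unfold e4
      split_ifs <;> omega
    rw [this, mul_assoc]

private theorem cop_of {a b : ℤ} (h : ∀ l : ℕ, l.Prime → (l : ℤ) ∣ a → (l : ℤ) ∣ b → False) :
    IsCoprime a b := by
  rw [Int.isCoprime_iff_gcd_eq_one]
  by_contra hc
  obtain ⟨l, hl, hd⟩ := Nat.exists_prime_and_dvd hc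
  have h1 : (l : ℤ) ∣ (Int.gcd a b : ℤ) := Int.natCast_dvd_natCast.2 hd
  exact h l hl (h1.trans (Int.gcd_dvd_left _ _)) (h1.trans (Int.gcd_dvd_right _ _))

private theorem not_cop {a b : ℤ} (h : IsCoprime a b) {l : ℕ} (hl : l.Prime) (ha : (l : ℤ) ∣ a)
    (hb : (l : ℤ) ∣ b) : False :=
  (Nat.prime_iff_prime_int.1 hl).not_unit (h.isUnit_of_dvd' ha hb)

private theorem p4 {σ d m y w A : ℤ} (hσ : σ % 2 = 1) (hd : d % 2 = 1) (hm : m % 4 = 1)
    (hy : y % 8 = 1 ∨ y % 8 = 7) (h1 : (8 : ℤ) ∣ y * σ + m) (h2 : (4 : ℤ) ∣ w - d * σ)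
    (h3 : (8 : ℤ) ∣ A - 3 * (m * (d * σ))) : e4 w * (e4 A * e8 A) = e8 d := by
  have k1 : (y * σ) % 8 = ((y % 8) * (σ % 8)) % 8 := Int.mul_emod _ _ _
  have k2 : (d * σ) % 8 = ((d % 8) * (σ % 8)) % 8 := Int.mul_emod _ _ _
  have k3 : (m * (d * σ)) % 8 = ((m % 8) * ((d * σ) % 8)) % 8 := Int.mul_emod _ _ _
  have hσ' : σ % 8 = 1 ∨ σ % 8 = 3 ∨ σ % 8 = 5 ∨ σ % 8 = 7 := by omega
  have hd' : d % 8 = 1 ∨ d % 8 = 3 ∨ d % 8 = 5 ∨ d % 8 = 7 := by omega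
  have hm' : m % 8 = 1 ∨ m % 8 = 5 := by omega
  generalize m * (d * σ) = z at *
  generalize d * σ = z' at *
  generalize y * σ = z'' at *
  rcases hσ' with hs | hs | hs | hs <;> rcases hy with hy | hy <;> rcases hm' with hm' | hm' <;>
    rw [hs, hy] at k1 <;> norm_num at k1 <;> first
    | (exfalso; omega)
    | (rcases hd' with hd' | hd' | hd' | hd' <;>
        (rw [hs, hd'] at k2; norm_num at k2; rw [hm', k2] at k3; norm_num at k3
         have hw : w % 4 = z' % 4 := by omega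
         have hA : A % 8 = (3 * z) % 8 := by omega
         unfold e4 e8
         split_ifs <;> first | (norm_num; done) | (exfalso; omega)))

theorem nt1 {a N K : ℕ} {x y c u w t σ d : ℤ} (ha : a % 8 = 7)
    (hxy : x ^ 2 + a * y ^ 2 = 8 * c ^ 2) (hc : Odd c) (hcop : IsCoprime x y) (hx : x % 4 = 3)
    (hyσ : (y * σ) % 4 = 3) (hσ : (64 : ℤ) ∣ σ ^ 2 + a) (hN : N % 8 = 7) (hK : Odd K)
    (hNc : IsCoprime (N : ℤ) c) (hKc : IsCoprime (K : ℤ) c)
    (huw : u ^ 2 + a * w ^ 2 = 4 * (N * K ^ 2))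
    (hprim : ∀ l : ℕ, l.Prime → l ≠ 2 → ¬ ((l : ℤ) ∣ u ∧ (l : ℤ) ∣ w))
    (ht : (N : ℤ) ∣ u + w * t) (hta : (N : ℤ) ∣ t ^ 2 + a)
    (hd : Odd d) (hdu : (64 : ℤ) ∣ u + w * σ - 2 * d) :
    jacobiSym (2 * (x - y * t)) N = e8 d := by
  obtain ⟨q, hq⟩ := hσ
  obtain ⟨r, hr⟩ := hdu
  have hNo : Odd N := Nat.odd_iff.2 (by omega)
  have hd2 : d % 2 = 1 := Int.odd_iff.1 hd
  have hc8 : (c ^ 2) % 8 = 1 := sq8 (Int.odd_iff.1 hc)
  have hK8 : ((K : ℤ) ^ 2) % 8 = 1 := by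
    have : Odd (K : ℤ) := by exact_mod_cast hK
    exact sq8 (Int.odd_iff.1 this)
  have hσ2 : σ % 2 = 1 := by
    by_contra hc'
    obtain ⟨k, hk⟩ : ∃ k, σ = 2 * k := ⟨σ / 2, by omega⟩
    have e1 : σ ^ 2 = 4 * (k * k) := by
      rw [hk]
      ring
    omega
  have hσ8 : (σ ^ 2) % 8 = 1 := sq8 hσ2
  have hy2 : y % 2 = 1 := by
    by_contra hc'
    obtain ⟨k, hk⟩ : ∃ k, y = 2 * k := ⟨y / 2, by omega⟩
    have e1 : y * σ = 2 * (k * σ) := by
      rw [hk]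
      ring
    omega
  -- the number `d1`
  obtain ⟨d1, hd1⟩ : ∃ d1 : ℤ, d1 = d + 32 * r := ⟨_, rfl⟩
  have hd12 : d1 % 2 = 1 := by omega
  have hd18 : (d1 ^ 2) % 8 = 1 := sq8 hd12
  have hu : u = 2 * d1 - w * σ := by rw [hd1]; linarith
  have e1 : d1 * (d1 - w * σ) = N * K ^ 2 - 16 * (q * w ^ 2) := by
    have e2 : 4 * (d1 * (d1 - w * σ)) = 4 * (N * K ^ 2 - 16 * (q * w ^ 2)) := by
      rw [hu] at huw
      linear_combination huw - w ^ 2 * hq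
    linarith
  have e3 : ((N : ℤ) * K ^ 2) % 8 = 7 := by
    rw [Int.mul_emod, hK8]
    omega
  have e4' : (d1 * (d1 - w * σ)) % 8 = 7 := by omega
  -- `w = 2 w0`, `u = 2 u0`
  have e5 : (w * σ) % 8 = (2 * d1) % 8 := by
    obtain ⟨k1, hk1⟩ : ∃ k, d1 ^ 2 = 8 * k + 1 := ⟨d1 ^ 2 / 8, by omega⟩
    obtain ⟨k2, hk2⟩ : ∃ k, d1 * (d1 - w * σ) = 8 * k + 7 := ⟨d1 * (d1 - w * σ) / 8, by omega⟩
    have e6 : d1 - w * σ = 8 * (k2 * d1 - k1 * (d1 - w * σ) + d1) - d1 := by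
      linear_combination d1 * hk2 - (d1 - w * σ) * hk1
    omega
  obtain ⟨w0, hw0⟩ : ∃ w0, w = 2 * w0 := by
    refine ⟨w / 2, ?_⟩
    by_contra hc'
    have hw2 : Odd w := Int.odd_iff.2 (by omega)
    have := Int.odd_iff.1 (hw2.mul (Int.odd_iff.2 hσ2))
    omega
  obtain ⟨u0, hu0⟩ : ∃ u0, u0 = d1 - w0 * σ := ⟨_, rfl⟩
  have hu0' : u = 2 * u0 := by
    rw [hu, hu0, hw0]
    ring
  have e6 : (w0 * σ) % 4 = d1 % 4 := by
    have : w * σ = 2 * (w0 * σ) := by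
      rw [hw0]
      ring
    omega
  have huw0 : u0 ^ 2 + a * w0 ^ 2 = N * K ^ 2 := by
    rw [hu0', hw0] at huw
    linarith
  obtain ⟨s1, hs1⟩ : ∃ k, σ ^ 2 = 8 * k + 1 := ⟨σ ^ 2 / 8, by omega⟩
  have hw4 : (4 : ℤ) ∣ w0 - d1 * σ := by
    obtain ⟨k, hk⟩ : ∃ k, w0 * σ = 4 * k + d1 := ⟨(w0 * σ - d1) / 4, by omega⟩
    refine ⟨k * σ - 2 * s1 * w0, ?_⟩
    linear_combination σ * hk - w0 * hs1
  have hdσ : (d1 * σ) % 2 = 1 :=
    Int.odd_iff.1 ((Int.odd_iff.2 hd12).mul (Int.odd_iff.2 hσ2))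
  have hw02 : w0 % 2 = 1 := by omega
  -- the number `m1`
  obtain ⟨m1, hm1⟩ : ∃ m1, x = 2 * m1 - y * σ := ⟨(x + y * σ) / 2, by omega⟩
  have hm12 : m1 % 2 = 1 := by omega
  have hm18 : (m1 ^ 2) % 8 = 1 := sq8 hm12
  have f1 : m1 * (m1 - y * σ) = 2 * c ^ 2 - 16 * (q * y ^ 2) := by
    have e2 : 4 * (m1 * (m1 - y * σ)) = 4 * (2 * c ^ 2 - 16 * (q * y ^ 2)) := by
      rw [hm1] at hxy
      linear_combination hxy - y ^ 2 * hq
    linarith
  have f2 : (m1 * (m1 - y * σ)) % 16 = 2 := by omega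
  have f3 : (m1 - y * σ) % 2 = 0 := by
    by_contra hc'
    have h2 : Odd (m1 - y * σ) := Int.odd_iff.2 (by omega)
    have := Int.odd_iff.1 ((Int.odd_iff.2 hm12).mul h2)
    omega
  have f4 : (y * σ + m1) % 16 = 0 := by
    obtain ⟨k1, hk1⟩ : ∃ k, m1 ^ 2 = 8 * k + 1 := ⟨m1 ^ 2 / 8, by omega⟩
    obtain ⟨k2, hk2⟩ : ∃ k, m1 * (m1 - y * σ) = 16 * k + 2 :=
      ⟨m1 * (m1 - y * σ) / 16, by omega⟩
    obtain ⟨k3, hk3⟩ : ∃ k, m1 - y * σ = 2 * k := ⟨(m1 - y * σ) / 2, by omega⟩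
    have e6 : m1 - y * σ = 16 * (k2 * m1 - k1 * k3) + 2 * m1 := by
      linear_combination m1 * hk2 - (m1 - y * σ) * hk1 - 8 * k1 * hk3
    omega
  have hm4 : m1 % 4 = 1 := by omega
  -- the number `A0`
  obtain ⟨A0, hA0⟩ : ∃ A0, A0 = x * w0 + y * u0 := ⟨_, rfl⟩
  have hA8 : (8 : ℤ) ∣ A0 - 3 * (m1 * (d1 * σ)) := by
    obtain ⟨k, hk⟩ : ∃ k, w0 * σ = 4 * k + d1 := ⟨(w0 * σ - d1) / 4, by omega⟩
    obtain ⟨k', hk'⟩ : ∃ k, y * σ = 16 * k - m1 := ⟨(y * σ + m1) / 16, by omega⟩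
    have g1 : A0 * σ = 8 * (2 * m1 * k - 16 * k * k' - 2 * k' * d1) + 3 * m1 * d1 := by
      rw [hA0, hm1, hu0]
      linear_combination (2 * m1 - 2 * (y * σ)) * hk + (d1 - 2 * (4 * k + d1)) * hk'
    refine ⟨(2 * m1 * k - 16 * k * k' - 2 * k' * d1) * σ - A0 * s1, ?_⟩
    linear_combination σ * g1 - A0 * hs1
  -- the greatest common divisor
  have hy0 : y ≠ 0 := by
    rintro rfl
    omega
  obtain ⟨w1, y1, hwy, hw1, hy1⟩ := Int.exists_gcd_one (m := w0) (n := y)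
    (Int.gcd_pos_of_ne_zero_right _ hy0)
  obtain ⟨g, hg⟩ : ∃ g : ℤ, (Int.gcd w0 y : ℤ) = g := ⟨_, rfl⟩
  rw [hg] at hw1 hy1
  have hwy' : IsCoprime w1 y1 := Int.isCoprime_iff_gcd_eq_one.2 hwy
  have hgy : g ∣ y := ⟨y1, by rw [hy1]; ring⟩
  have hgw : g ∣ w0 := ⟨w1, by rw [hw1]; ring⟩
  have odd_of : ∀ {z z' : ℤ}, z % 2 = 1 → z' ∣ z → z' % 2 = 1 := by
    intro z z' hz hd
    exact Int.odd_iff.1 (Int.Odd.of_mul_left (m := z') (n := z / z') (by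
      rw [Int.mul_ediv_cancel' hd]; exact Int.odd_iff.2 hz))
  have hg2 : g % 2 = 1 := odd_of hy2 hgy
  have hw12 : w1 % 2 = 1 := odd_of hw02 ⟨g, hw1⟩
  obtain ⟨A1, hA1⟩ : ∃ A1, A1 = x * w1 + y1 * u0 := ⟨_, rfl⟩
  have hA01 : A0 = A1 * g := by
    rw [hA0, hA1]
    linear_combination x * hw1 + u0 * hy1
  have hm1dσ : (m1 * (d1 * σ)) % 2 = 1 :=
    Int.odd_iff.1 ((Int.odd_iff.2 hm12).mul (Int.odd_iff.2 hdσ))
  have hA02 : A0 % 2 = 1 := by omega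
  have hA12 : A1 % 2 = 1 := odd_of hA02 ⟨g, hA01⟩
  -- coprimality
  have hprim' : ∀ l : ℕ, l.Prime → l ≠ 2 → (l : ℤ) ∣ u0 → (l : ℤ) ∣ w0 → False := by
    intro l hl h2 h3 h4
    refine hprim l hl h2 ⟨?_, ?_⟩
    · rw [hu0']
      exact h3.mul_left _
    · rw [hw0]
      exact h4.mul_left _
  have lodd : ∀ {l : ℕ} {z : ℤ}, (l : ℤ) ∣ z → z % 2 = 1 → l ≠ 2 := by
    rintro l z hd hz rfl
    have : (2 : ℤ) ∣ z := hd
    omega
  have hN2 : (N : ℤ) % 2 = 1 := by omega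
  have hw0N : IsCoprime w0 (N : ℤ) := by
    refine cop_of fun l hl h1 h2 => ?_
    have hl' := Nat.prime_iff_prime_int.1 hl
    have h3 : (l : ℤ) ∣ u0 ^ 2 := by
      have e : u0 ^ 2 = N * K ^ 2 - a * w0 * w0 := by linear_combination huw0
      rw [e]
      exact dvd_sub (h2.mul_right _) (h1.mul_left _)
    exact hprim' l hl (lodd h2 hN2) (hl'.dvd_of_dvd_pow h3) h1
  have hgN : IsCoprime g (N : ℤ) := hw0N.of_isCoprime_of_dvd_left hgw
  have hw1u : IsCoprime u0 w1 := by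
    refine cop_of fun l hl h1 h2 => ?_
    exact hprim' l hl (lodd h2 hw12) h1 (h2.trans ⟨g, hw1⟩)
  have hA0N : IsCoprime (N : ℤ) A0 := by
    refine cop_of fun l hl h1 h2 => ?_
    have hl' := Nat.prime_iff_prime_int.1 hl
    have hl2 := lodd h1 hN2
    have h3 : (l : ℤ) ∣ (x - y * t) * w := by
      have e : (x - y * t) * w = 2 * A0 - y * (u + w * t) := by
        rw [hA0, hu0', hw0]
        ring
      rw [e]
      exact dvd_sub (h2.mul_left _) ((h1.trans ht).mul_left _)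
    have h4 : (l : ℤ) ∣ x - y * t := by
      rcases hl'.dvd_mul.1 h3 with h | h
      · exact h
      · exfalso
        rw [hw0] at h
        rcases hl'.dvd_mul.1 h with h | h
        · have h5 : l ∣ 2 := by exact_mod_cast h
          exact hl2 ((Nat.prime_dvd_prime_iff_eq hl Nat.prime_two).1 h5)
        · exact not_cop hw0N hl h h1
    have h5 : (l : ℤ) ∣ 8 * c ^ 2 := by
      have e : 8 * c ^ 2 = (x - y * t) * (x + y * t) + y ^ 2 * (t ^ 2 + a) := by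
        rw [← hxy]
        ring
      rw [e]
      exact dvd_add (h4.mul_right _) ((h1.trans hta).mul_left _)
    rcases hl'.dvd_mul.1 h5 with h | h
    · have h6 : (l : ℤ) ∣ 2 ^ 3 := by norm_num; exact h
      have h7 : l ∣ 2 := by exact_mod_cast hl'.dvd_of_dvd_pow h6
      exact hl2 ((Nat.prime_dvd_prime_iff_eq hl Nat.prime_two).1 h7)
    · exact not_cop hNc hl h1 (hl'.dvd_of_dvd_pow h)
  have hA1N : IsCoprime (N : ℤ) A1 := hA0N.of_isCoprime_of_dvd_right ⟨g, hA01⟩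
  have hA1K : IsCoprime ((K : ℤ) * y1) A1 := by
    refine cop_of fun l hl h1 h2 => ?_
    have hl' := Nat.prime_iff_prime_int.1 hl
    have hl2 := lodd h2 hA12
    rcases hl'.dvd_mul.1 h1 with h | h
    · have h3 : (l : ℤ) ∣ 8 * (c * w1) ^ 2 := by
        have e : 8 * (c * w1) ^ 2 = K * (N * K * y1 ^ 2) - A1 * (u0 * y1 - x * w1) := by
          have e1 : (N : ℤ) * K ^ 2 = u0 ^ 2 + a * (w1 * g) ^ 2 := by rw [← hw1, huw0]
          have e2 : 8 * c ^ 2 = x ^ 2 + a * (y1 * g) ^ 2 := by rw [← hy1, hxy]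
          rw [hA1]
          linear_combination w1 ^ 2 * e2 - y1 ^ 2 * e1
        rw [e]
        exact dvd_sub (h.mul_right _) (h2.mul_right _)
      rcases hl'.dvd_mul.1 h3 with h4 | h4
      · have h6 : (l : ℤ) ∣ 2 ^ 3 := by norm_num; exact h4
        have h7 : l ∣ 2 := by exact_mod_cast hl'.dvd_of_dvd_pow h6
        exact hl2 ((Nat.prime_dvd_prime_iff_eq hl Nat.prime_two).1 h7)
      · rcases hl'.dvd_mul.1 (hl'.dvd_of_dvd_pow h4) with h5 | h5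
        · exact not_cop hKc hl h h5
        · have h6 : (l : ℤ) ∣ y1 * u0 := by
            have e : y1 * u0 = A1 - x * w1 := by rw [hA1]; ring
            rw [e]
            exact dvd_sub h2 (h5.mul_left _)
          rcases hl'.dvd_mul.1 h6 with h7 | h7
          · exact not_cop hwy' hl h5 h7
          · exact hprim' l hl hl2 h7 (h5.trans ⟨g, hw1⟩)
    · have h3 : (l : ℤ) ∣ x * w1 := by
        have e : x * w1 = A1 - y1 * u0 := by rw [hA1]; ring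
        rw [e]
        exact dvd_sub h2 (h.mul_right _)
      rcases hl'.dvd_mul.1 h3 with h4 | h4
      · exact not_cop hcop hl h4 (h.trans ⟨g, hy1⟩)
      · exact not_cop hwy' hl h4 h
  -- the symbols
  have j1 : jacobiSym (N : ℤ) w1.natAbs = 1 := by
    refine jac_one (k := K) (r := u0) ?_ hw1u
    refine ⟨a * w0 * g, ?_⟩
    linear_combination - huw0 + a * w0 * hw1
  have j2 : jacobiSym (N : ℤ) A1.natAbs = e8 A1 := by
    rw [← jac_e8 hA12]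
    refine jac_two' (k := K * y1) (c := c * w1) ?_ hA1K hA1N
    refine ⟨u0 * y1 - x * w1, ?_⟩
    have e1 : (N : ℤ) * K ^ 2 = u0 ^ 2 + a * (w1 * g) ^ 2 := by rw [← hw1, huw0]
    have e2 : 8 * c ^ 2 = x ^ 2 + a * (y1 * g) ^ 2 := by rw [← hy1, hxy]
    rw [hA1]
    linear_combination y1 ^ 2 * e1 - w1 ^ 2 * e2
  have j3 : e8 g = 1 := by
    rw [← jac_e8 hg2]
    refine jac_two'' (x := x) (c := c) ?_ (hcop.of_isCoprime_of_dvd_right hgy)
    have e : x ^ 2 - 8 * c ^ 2 = y * (-(a * y)) := by linear_combination hxy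
    rw [e]
    exact hgy.mul_right _
  have j4 : e8 y = 1 := by
    rw [← jac_e8 hy2]
    refine jac_two'' (x := x) (c := c) ⟨-(a * y), ?_⟩ hcop
    linear_combination hxy
  have j5 : jacobiSym 2 N = 1 := by
    have := jac_e8 hN2
    rw [Int.natAbs_natCast] at this
    rw [this]
    unfold e8
    rw [if_pos (by omega)]
  have hjsqN : ∀ {z : ℤ}, IsCoprime z (N : ℤ) → jacobiSym z N * jacobiSym z N = 1 := by
    intro z hz
    have := jsq hz
    rw [Int.natAbs_natCast, pow_two] at this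
    exact this
  have j6 : jacobiSym (2 * (x - y * t)) N = jacobiSym w0 N * jacobiSym A0 N := by
    have h1 : jacobiSym (2 * A0) N = jacobiSym ((x - y * t) * (2 * w0)) N := by
      have := jmod (a := 2 * A0) (b := (x - y * t) * (2 * w0)) (n := N) (by
        have e : 2 * A0 - (x - y * t) * (2 * w0) = y * (u + w * t) := by
          rw [hA0, hu0', hw0]
          ring
        rw [e]
        exact ht.mul_left _)
      rw [Int.natAbs_natCast] at this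
      exact this
    rw [jacobiSym.mul_left, jacobiSym.mul_left, jacobiSym.mul_left 2 w0, j5, one_mul, one_mul] at h1
    rw [jacobiSym.mul_left, j5, one_mul, h1, mul_left_comm, hjsqN hw0N, mul_one]
  have j7 : jacobiSym w0 N = e4 w1 * jacobiSym g N := by
    have := jac_recip hN hw12
    rw [j1, mul_one] at this
    rw [hw1, jacobiSym.mul_left, this]
  have j8 : jacobiSym A0 N = e4 A1 * e8 A1 * jacobiSym g N := by
    have := jac_recip hN hA12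
    rw [j2] at this
    rw [hA01, jacobiSym.mul_left, this]
  have p := p4 hσ2 hd12 hm4 (by
    by_contra hc'
    unfold e8 at j4
    rw [if_neg hc'] at j4
    norm_num at j4) (y := y) (by omega) hw4 hA8
  have hd8 : e8 d1 = e8 d := by
    have : d1 % 8 = d % 8 := by omega
    unfold e8
    rw [this]
  rw [hd8, hA01, hw1, e4_mul hw12 hg2, e4_mul hA12 hg2, e8_mul' hA12 hg2, j3] at p
  rw [j6, j7, j8, ← p]
  have k1 := hjsqN hgN
  have k2 := e4_sq g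
  linear_combination (e4 w1 * e4 A1 * e8 A1) * (k1 - k2)

end Pool.Agent.Work.MP_8efaaa_nt.K7
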