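import Mathlib
import Pool.Agent.Work.MP_8efaaa_nt.K7.Defs
import Pool.Agent.Work.MP_8efaaa_nt.K7.N1a
import Pool.Agent.Work.MP_8efaaa_nt.K7.ARs

/-!
# K7/N1b (M): the Jacobi symbol of `μ` at `b`: from ideals to integers

`2 δ = u + w S` (`coords7`), `N = absNorm b`, `K = absNorm k`: `u ^ 2 + a w ^ 2 = 4 N K ^ 2` (`norm_half7'`). `u + w t ∈ b` (`2 δ ∈ b`, `S - t ∈ b`) and an integer in `b` is divisible by `N` (`b` contains `S - t`, so `𝓞 / b` is cyclic, a quotient of `ℤ`, with `N`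
elements; see W5/CPr `int_mem`, `t2a`), `t ^ 2 + a = (t - S) (t + S) ∈ b`. No odd prime `l` divides `u` and `w`: else `l ∣ 2 δ`, `l ∣ δ`, `(l) ∣ b k ^ 2`. `l ∣ N K ^ 2`. If `l ∣ N`: `(l)` is prime to `k`, so `(l) ∣ b`, `S - t ∈ (l)`, impossible (`2 (S - t) = -2 t + 2 S` and
`coords7_uniq`). If `l ∣ K`: `(l)` is prime to `b`, so `(l) ∣ k ^ 2`, `k ^ 2 ≤ (l)`; `(l)` is radical for `l ∤ 2 a` (if `z ^ 2 ∈ (l)`, `2 z = p + q S`: `l` divides `p q` and `p ^ 2 - a q ^ 2`, so `l ∣ p`, `l ∣ q`), so `k ≤ (l)`, `S - r ∈ (l)`, impossible.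
`S - σ ∈ v' ^ 6` gives `64 ∣ σ ^ 2 + a` (`int_mem_pow7`), `2 δ - 2 d ∈ v' ^ 6`, so `64 ∣ u + w σ - 2 d`.
-/

set_option autoImplicit false

namespace Pool.Agent.Work.MP_8efaaa_nt.K7

open IsDedekindDomain NumberField Pool.Agent.Work.MP_787500_nt.HC
open Pool.Agent.Work.MP_8efaaa_nt.T Pool.Agent.Work.MP_8efaaa_nt.R
open Pool.Agent.Work.MP_8efaaa_nt.N5 Pool.Agent.Work.MP_8efaaa_nt.N7
open scoped nonZeroDivisors

variable {K : Type*} [Field K] [NumberField K] {a : ℕ} {s : K} {S : 𝓞 K}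

/-- an integer in an odd ideal that contains `S - t` is divisible by the norm -/
private theorem int_mem' (hb : Base K a s) (hS : algebraMap (𝓞 K) K S = s)
    {b : Ideal (𝓞 K)} (ho : Odd (Ideal.absNorm b)) {t : ℤ} (ht : S - (t : 𝓞 K) ∈ b) {n : ℤ}
    (hn : (n : 𝓞 K) ∈ b) : (Ideal.absNorm b : ℤ) ∣ n := by
  have hgen : ∀ z : 𝓞 K, ∃ m : ℤ, z - (m : 𝓞 K) ∈ b := by
    intro z
    obtain ⟨p, q, h, -⟩ := coords7 hb hS z
    obtain ⟨k, hk⟩ := ho
    have hN : ((Ideal.absNorm b : ℕ) : 𝓞 K) ∈ b := Ideal.absNorm_mem b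
    rw [hk] at hN
    refine ⟨-k * (p + q * t), ?_⟩
    have e : z - ((-k * (p + q * t) : ℤ) : 𝓞 K) =
        z * (((2 * k + 1 : ℕ) : 𝓞 K)) - (k * q : ℤ) * (S - (t : 𝓞 K)) := by
      push_cast
      linear_combination (-(k : 𝓞 K)) * h
    rw [e]
    exact b.sub_mem (b.mul_mem_left _ hN) (b.mul_mem_left _ ht)
  have htop : AddSubgroup.zmultiples (1 : 𝓞 K ⧸ b) = ⊤ := by
    rw [eq_top_iff]
    intro z _
    obtain ⟨z, rfl⟩ := Ideal.Quotient.mk_surjective z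
    obtain ⟨m, hm⟩ := hgen z
    refine AddSubgroup.mem_zmultiples_iff.2 ⟨m, ?_⟩
    rw [Ideal.Quotient.mk_eq_mk_iff_sub_mem _ _ |>.2 hm]
    simp
  have hcard : addOrderOf (1 : 𝓞 K ⧸ b) = Ideal.absNorm b := by
    rw [← Nat.card_zmultiples, htop, AddSubgroup.card_top]
    rfl
  rw [← hcard, addOrderOf_dvd_iff_zsmul_eq_zero]
  have : (Ideal.Quotient.mk b) (n : 𝓞 K) = 0 := Ideal.Quotient.eq_zero_iff_mem.2 hn
  rw [zsmul_one]
  rwa [map_intCast] at this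

theorem jac_mu7 (hb : Base K a s) (hS : algebraMap (𝓞 K) K S = s)
    {v' : HeightOneSpectrum (𝓞 K)} (hv' : (2 : 𝓞 K) ∈ v'.asIdeal) {x y c σ : ℤ}
    (hxy : x ^ 2 + a * y ^ 2 = 8 * c ^ 2) (hc : Odd c) (hcop : IsCoprime x y) (hx : x % 4 = 3)
    (hyσ : (y * σ) % 4 = 3) (hσ : S - (σ : 𝓞 K) ∈ v'.asIdeal ^ 6) {b k : Ideal (𝓞 K)}
    {t r : ℤ} (ht : S - (t : 𝓞 K) ∈ b) (hr : S - (r : 𝓞 K) ∈ k)
    (hb8 : Ideal.absNorm b % 8 = 7) (hbc : IsCoprime (Ideal.absNorm b : ℤ) c) (hk : OddI k)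
    (hka : Nat.Coprime (Ideal.absNorm k) a)
    (hkb : Nat.Coprime (Ideal.absNorm k) (Ideal.absNorm b))
    (hkc : IsCoprime (Ideal.absNorm k : ℤ) c) {δ : 𝓞 K} {d : ℤ} (hd : Odd d)
    (hδ : b * k ^ 2 = Ideal.span {δ}) (hdv : δ - (d : 𝓞 K) ∈ v'.asIdeal ^ 5) :
    jacobiSym (2 * (x - y * t)) (Ideal.absNorm b) = e8 d := by
  have hS2 : S ^ 2 = -(a : 𝓞 K) := by
    apply RingOfIntegers.ext
    have := hb.sq
    rw [← hS] at this
    simpa using this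
  have hbo : Odd (Ideal.absNorm b) := by
    rw [Nat.odd_iff]; omega
  obtain ⟨u, w, hδ2, -⟩ := coords7 hb hS δ
  have hnorm := norm_half7' hb hS hδ2
  rw [← hδ, map_mul, map_pow] at hnorm
  have hδb : δ ∈ b := by
    have : Ideal.span {δ} ≤ b := by
      rw [← hδ]
      exact Ideal.dvd_iff_le.1 (Dvd.intro _ rfl)
    exact this (Ideal.mem_span_singleton_self δ)
  have hint := fun (n : ℤ) (hn : (n : 𝓞 K) ∈ b) => int_mem' hb hS hbo ht hn
  -- no odd prime divides `u` and `w`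
  have hprim : ∀ l : ℕ, l.Prime → l ≠ 2 → ¬ ((l : ℤ) ∣ u ∧ (l : ℤ) ∣ w) := by
    rintro l hl hl2 ⟨⟨u', hu'⟩, ⟨w', hw'⟩⟩
    have hlo : Odd l := hl.odd_of_ne_two hl2
    have hlo' := hlo
    obtain ⟨j, hj⟩ := hlo'
    have hl2Z : ¬ (l : ℤ) ∣ 2 := by
      intro h
      have : l ∣ 2 := by exact_mod_cast h
      exact hl2 ((Nat.prime_dvd_prime_iff_eq hl Nat.prime_two).1 this)
    have hlP : Prime (l : ℤ) := Nat.prime_iff_prime_int.1 hl
    have hδl : δ ∈ Ideal.span {(l : 𝓞 K)} := by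
      rw [Ideal.mem_span_singleton]
      refine ⟨δ - j * (u' + w' * S), ?_⟩
      have hlj : (l : 𝓞 K) = 2 * j + 1 := by rw [hj]; push_cast; ring
      have h2 : 2 * δ = l * (u' + w' * S) := by
        rw [hδ2, hu', hw']; push_cast; ring
      linear_combination (-δ) * hlj - (j : 𝓞 K) * h2
    have hdvd : Ideal.span {(l : 𝓞 K)} ∣ b * k ^ 2 := by
      rw [hδ, Ideal.dvd_iff_le, Ideal.span_singleton_le_iff_mem]
      exact hδl
    have hkey : ∀ (z : 𝓞 K) (p q : ℤ), z ∈ Ideal.span {(l : 𝓞 K)} → z = p + q * S →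
        (l : ℤ) ∣ 2 * p ∧ (l : ℤ) ∣ 2 * q := by
      intro z p q hz hzp
      obtain ⟨z', hz'⟩ := Ideal.mem_span_singleton.1 hz
      obtain ⟨p', q', h', -⟩ := coords7 hb hS z'
      have h0 : ((2 * p - l * p' : ℤ) : 𝓞 K) + ((2 * q - l * q' : ℤ) : 𝓞 K) * S = 0 := by
        push_cast
        linear_combination (-2) * hzp + 2 * hz' + (l : 𝓞 K) * h'
      obtain ⟨h1, h2⟩ := coords7_uniq hb hS h0
      exact ⟨⟨p', by linarith⟩, ⟨q', by linarith⟩⟩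
    have hlN : l ∣ Ideal.absNorm b * Ideal.absNorm k ^ 2 := by
      have h1 := Ideal.absNorm_dvd_absNorm_of_le (Ideal.dvd_iff_le.1 hdvd)
      rw [map_mul, map_pow] at h1
      refine dvd_trans ?_ h1
      rw [Ideal.absNorm_span_singleton]
      have : (l : 𝓞 K) = algebraMap ℤ (𝓞 K) l := by simp
      rw [this, Algebra.norm_algebraMap]
      have hrk : Module.finrank ℤ (𝓞 K) = 2 := by
        rw [RingOfIntegers.rank]; exact hb.dim
      rw [hrk, Int.natAbs_pow, Int.natAbs_natCast]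
      exact dvd_pow_self _ two_ne_zero
    have hcopr : ∀ c' : Ideal (𝓞 K), ¬ l ∣ Ideal.absNorm c' →
        IsCoprime (Ideal.span {(l : 𝓞 K)}) c' := by
      intro c' hc'
      have h1 : IsCoprime (l : ℤ) (Ideal.absNorm c' : ℤ) :=
        Nat.isCoprime_iff_coprime.2 ((Nat.Prime.coprime_iff_not_dvd hl).2 hc')
      obtain ⟨α, β, hαβ⟩ := h1
      rw [Ideal.isCoprime_iff_exists]
      refine ⟨α * l, Ideal.mul_mem_left _ _ (Ideal.mem_span_singleton_self _),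
        β * (Ideal.absNorm c' : ℕ), Ideal.mul_mem_left _ _ (Ideal.absNorm_mem c'), ?_⟩
      exact_mod_cast congrArg (Int.cast : ℤ → 𝓞 K) hαβ
    rcases (Nat.Prime.dvd_mul hl).1 hlN with h | h
    · have hlk : ¬ l ∣ Ideal.absNorm k := fun h' =>
        hl.one_lt.ne' (Nat.dvd_one.1 (hkb ▸ Nat.dvd_gcd h' h))
      have h1 : Ideal.span {(l : 𝓞 K)} ∣ b := by
        refine IsCoprime.dvd_of_dvd_mul_right ?_ hdvd
        exact (hcopr k hlk).pow_right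
      have h2 : S - (t : 𝓞 K) ∈ Ideal.span {(l : 𝓞 K)} := Ideal.dvd_iff_le.1 h1 ht
      obtain ⟨-, h3⟩ := hkey _ (-t) 1 h2 (by push_cast; ring)
      exact hl2Z (by simpa using h3)
    · have hlk : l ∣ Ideal.absNorm k := hl.dvd_of_dvd_pow h
      have hlb : ¬ l ∣ Ideal.absNorm b := fun h' =>
        hl.one_lt.ne' (Nat.dvd_one.1 (hkb ▸ Nat.dvd_gcd hlk h'))
      have hla : ¬ (l : ℤ) ∣ (a : ℤ) := fun h' =>
        hl.one_lt.ne' (Nat.dvd_one.1 (hka ▸ Nat.dvd_gcd hlk (by exact_mod_cast h')))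
      have h1 : Ideal.span {(l : 𝓞 K)} ∣ k ^ 2 :=
        IsCoprime.dvd_of_dvd_mul_left (hcopr b hlb) hdvd
      have h2 : (S - (r : 𝓞 K)) ^ 2 ∈ Ideal.span {(l : 𝓞 K)} :=
        Ideal.dvd_iff_le.1 h1 (Ideal.pow_mem_pow hr 2)
      obtain ⟨h3, h4⟩ := hkey _ (r ^ 2 - a) (-2 * r) h2 (by push_cast; linear_combination hS2)
      have h5 : (l : ℤ) ∣ r := by
        rcases hlP.dvd_or_dvd h4 with h | h
        · exact absurd h hl2Z
        · rcases hlP.dvd_or_dvd h with h | h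
          · exact absurd ((dvd_neg).1 (by simpa using h)) hl2Z
          · exact h
      rcases hlP.dvd_or_dvd h3 with h | h
      · exact hl2Z h
      · exact hla ((dvd_sub_right (dvd_pow h5 two_ne_zero)).1 h)
  refine nt1 hb.mod hxy hc hcop hx hyσ ?_ hb8 hk hbc hkc (u := u) (w := w) ?_ hprim ?_ ?_ hd ?_
  · have := (int_mem_pow7 hb hv' (σ ^ 2 + a) 6).1 (by
      have e : ((σ ^ 2 + a : ℤ) : 𝓞 K) = -(S + σ) * (S - (σ : 𝓞 K)) := by
        push_cast; linear_combination hS2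
      rw [e]; exact Ideal.mul_mem_left _ _ hσ)
    norm_num at this
    exact this
  · rw [← hnorm]; push_cast; ring
  · apply hint
    have e : ((u + w * t : ℤ) : 𝓞 K) = 2 * δ - w * (S - (t : 𝓞 K)) := by
      push_cast; linear_combination -hδ2
    rw [e]
    exact b.sub_mem (b.mul_mem_left _ hδb) (b.mul_mem_left _ ht)
  · apply hint
    have e : ((t ^ 2 + a : ℤ) : 𝓞 K) = -(S + t) * (S - (t : 𝓞 K)) := by
      push_cast; linear_combination hS2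
    rw [e]
    exact b.mul_mem_left _ ht
  · have := (int_mem_pow7 hb hv' (u + w * σ - 2 * d) 6).1 (by
      have e : ((u + w * σ - 2 * d : ℤ) : 𝓞 K) = 2 * (δ - d) - w * (S - (σ : 𝓞 K)) := by
        push_cast; linear_combination -hδ2
      rw [e]
      refine Ideal.sub_mem _ ?_ (Ideal.mul_mem_left _ _ hσ)
      rw [pow_succ']
      exact Ideal.mul_mem_mul hv' hdv)
    norm_num at this
    exact this

end Pool.Agent.Work.MP_8efaaa_nt.K7
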