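import Mathlib
import Pool.Agent.Work.MP_8efaaa_nt.K7.Defs

/-!
# K7/N2 (M): the symbol of `(x - 2 c) c`

PROOF. (i) for a prime `l ∣ c`: `x ^ 2 = -p q y ^ 2 (mod l)`, `l ∤ y` (else `l ∣ x`), `l ∤ p q` (`l ∣ p q` gives `l ∣ x`, `l ^ 2 ∣ p q y ^ 2`, `l ∣ y`); so `jacobiSym (-(p q)) c = 1` and by reciprocity (`p q % 4 = 3`) `jacobiSym c (p q) = 1`. (ii) `(x - 2 c) (x + 2 c) = 4 c ^ 2 - p q y ^ 2`:
for a prime `l ∣ x - 2 c` (odd) `p q y ^ 2 = (2 c) ^ 2 (mod l)`, `l ∤ c` (else `l ∣ x`, `l ∣ y`), so `l ∤ y`, `l ∤ p q`; `jacobiSym (p q) |x - 2 c| = 1`, and `x - 2 c = 1 (mod 4)` (`x % 4 = 3`, `c` odd), so `jacobiSym (x - 2 c) (p q) = 1` (`p q % 4 = 3`: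
`jacobiSym n (p q) = χ4 n * jacobiSym (p q) |n|` for odd `n`). (iii) So the symbols of `(x - 2 c) c` at `q` and at `p` are equal. (iv) in `ZMod p`: `x ^ 2 = 8 c ^ 2`; let `z ^ 4 = -1`, `r = z + z ^ 7` (`r ^ 2 = 2`); `x = ± 2 r c`, change `z` to `-z` so that `x = 2 r c`;
`(x - 2 c) c = 2 c ^ 2 (r - 1)`, `(r - 1) (r + 1) = 1`, `r (r + 1) = 2 + r = z⁷ (1 + z) ^ 2` (as `(1 + z) ^ 2 = z (r + 2)`), so with `e x = x ^ ((p-1)/2)`: `e ((x-2c)c) = e (r - 1) = e (r + 1) = e r * e (z ^ 7)`, `e r = r ^ ((p-1)/2) = 2 ^ ((p-1)/4) = 4 ^ ((p-1)/8)`,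
`e (z ^ 7) = e (z) = z ^ ((p-1)/2) = (z ^ 4) ^ ((p-1)/8) = (-1) ^ ((p-1)/8)`. So `(-4) ^ ((p-1)/8) = e ((x - 2 c) c) = 1`. (Checked numerically.)
-/

set_option autoImplicit false

namespace Pool.Agent.Work.MP_8efaaa_nt.K7

open IsDedekindDomain NumberField Pool.Agent.Work.MP_787500_nt.HC
open Pool.Agent.Work.MP_8efaaa_nt.T Pool.Agent.Work.MP_8efaaa_nt.R
open Pool.Agent.Work.MP_8efaaa_nt.N5 Pool.Agent.Work.MP_8efaaa_nt.N7
open scoped nonZeroDivisors

theorem nt2_rec {N m : ℕ} (hN : N % 4 = 3) (hm : Odd m) :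
    jacobiSym (-(N : ℤ)) m = jacobiSym (m : ℤ) N := by
  have hNo : Odd N := by rw [Nat.odd_iff]; omega
  rw [jacobiSym.neg _ hm, jacobiSym.quadratic_reciprocity hNo hm, ← mul_assoc]
  have h2 : Odd (N / 2) := by rw [Nat.odd_iff]; omega
  have : ZMod.χ₄ (m : ZMod 4) * (-1) ^ (N / 2 * (m / 2)) = 1 := by
    rw [pow_mul, h2.neg_one_pow, ZMod.χ₄_eq_neg_one_pow (Nat.odd_iff.mp hm), ← pow_add]
    exact Even.neg_one_pow ⟨m / 2, rfl⟩
  rw [this, one_mul]

theorem nt2_p {p : ℕ} (hp : p.Prime) (hp8 : p % 8 = 1) {x c : ℤ}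
    (hx : ((x : ℤ) : ZMod p) ^ 2 = 8 * (c : ZMod p) ^ 2) (hc : (c : ZMod p) ≠ 0)
    (hj : jacobiSym ((x - 2 * c) * c) p = 1) :
    (-4 : ZMod p) ^ ((p - 1) / 8) = 1 := by
  have : Fact p.Prime := ⟨hp⟩
  obtain ⟨k, hk⟩ : ∃ k, p = 8 * k + 1 := ⟨p / 8, by omega⟩
  have hk0 : (p - 1) / 8 = k := by omega
  have hp2 : p / 2 = 4 * k := by omega
  have h8 : p - 1 = 8 * k := by omega
  rw [hk0]
  have hne2 : p ≠ 2 := by omega
  have h20 : (2 : ZMod p) ≠ 0 := by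
    intro h
    have : ((2 : ℕ) : ZMod p) = 0 := by exact_mod_cast h
    rw [ZMod.natCast_eq_zero_iff] at this
    exact hne2 ((Nat.prime_dvd_prime_iff_eq hp Nat.prime_two).mp this)
  have fer : ∀ a : ZMod p, a ≠ 0 → a ^ (8 * k) = 1 := by
    intro a ha
    rw [← h8]
    exact ZMod.pow_card_sub_one_eq_one ha
  obtain ⟨r₀, hr₀⟩ : ∃ r : ZMod p, r ^ 2 = 2 := by
    obtain ⟨r, hr⟩ := (ZMod.exists_sq_eq_two_iff hne2).mpr (Or.inl hp8)
    exact ⟨r, by rw [hr]; ring⟩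
  obtain ⟨i, hi⟩ : ∃ i : ZMod p, i ^ 2 = -1 := by
    obtain ⟨i, hi⟩ := (ZMod.exists_sq_eq_neg_one_iff (p := p)).mpr (by omega)
    exact ⟨i, by rw [hi]; ring⟩
  obtain ⟨r, hr, hxr⟩ : ∃ r : ZMod p, r ^ 2 = 2 ∧ (x : ZMod p) = 2 * r * c := by
    have h1 : (x : ZMod p) ^ 2 = (2 * r₀ * c) ^ 2 := by
      rw [hx, mul_pow, mul_pow, hr₀]; ring
    rcases sq_eq_sq_iff_eq_or_eq_neg.mp h1 with h | h
    · exact ⟨r₀, hr₀, h⟩
    · exact ⟨-r₀, by rw [neg_sq, hr₀], by rw [h]; ring⟩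
  have hr0 : r ≠ 0 := by
    rintro rfl
    rw [zero_pow two_ne_zero] at hr
    exact h20 hr.symm
  have hleg : ((jacobiSym ((x - 2 * c) * c) p : ℤ) : ZMod p) =
      (((x - 2 * c) * c : ℤ) : ZMod p) ^ (4 * k) := by
    rw [← jacobiSym.legendreSym.to_jacobiSym, legendreSym.eq_pow, hp2]
  rw [hj] at hleg
  have hA : (r - 1) ^ (4 * k) = 1 := by
    have e1 : (((x - 2 * c) * c : ℤ) : ZMod p) = 2 * (c : ZMod p) ^ 2 * (r - 1) := by
      push_cast
      rw [hxr]; ring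
    rw [e1, mul_pow, mul_pow, ← pow_mul, show 2 * (4 * k) = 8 * k by ring, fer _ hc,
      mul_one] at hleg
    have e2 : (2 : ZMod p) ^ (4 * k) = 1 := by
      rw [← hr, ← pow_mul, show 2 * (4 * k) = 8 * k by ring, fer _ hr0]
    rw [e2, one_mul] at hleg
    simpa using hleg.symm
  have hB : (r + 1) ^ (4 * k) = 1 := by
    have e1 : (r - 1) * (r + 1) = 1 := by
      linear_combination hr
    have e2 := congrArg (fun t => t ^ (4 * k)) e1
    simp only [mul_pow, hA, one_mul, one_pow] at e2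
    exact e2
  have hC : (2 + r) ^ (4 * k) = 4 ^ k := by
    have e1 : 2 + r = r * (r + 1) := by linear_combination -hr
    rw [e1, mul_pow, hB, mul_one, show 4 * k = 2 * (2 * k) by ring, pow_mul, hr, pow_mul]
    norm_num
  set z : ZMod p := (1 + i) * r⁻¹ with hz
  have hz2 : z ^ 2 = i := by
    have e1 : z * r = 1 + i := by rw [hz, mul_assoc, inv_mul_cancel₀ hr0, mul_one]
    have e2 : z ^ 2 * 2 = i * 2 := by
      rw [← hr, ← mul_pow, e1, hr]
      linear_combination hi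
    exact mul_right_cancel₀ h20 e2
  have hz4 : z ^ 4 = -1 := by
    rw [show (4 : ℕ) = 2 * 2 by norm_num, pow_mul, hz2, hi]
  have hzr : z * (2 + r) = (1 + z) ^ 2 := by
    have e1 : z * r = 1 + i := by rw [hz, mul_assoc, inv_mul_cancel₀ hr0, mul_one]
    linear_combination e1 - hz2
  have hz1 : 1 + z ≠ 0 := by
    intro h
    have e1 : z = -1 := by linear_combination h
    rw [e1] at hz4
    apply h20
    linear_combination hz4
  have hD : (-1 : ZMod p) ^ k * 4 ^ k = 1 := by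
    rw [← hC, ← hz4, ← pow_mul, ← mul_pow, hzr, ← pow_mul,
      show 2 * (4 * k) = 8 * k by ring, fer _ hz1]
  rw [← mul_pow] at hD
  rw [← hD]
  congr 1
  ring

theorem nt2 {p q : ℕ} (hp : p.Prime) (hq : q.Prime) (hp8 : p % 8 = 1) (hq8 : q % 8 = 7)
    {x y c : ℤ} (h : x ^ 2 + (p * q : ℕ) * y ^ 2 = 8 * c ^ 2) (hc : Odd c) (hc0 : 0 < c)
    (hcop : IsCoprime x y) (hx : x % 4 = 3) (hj : jacobiSym ((x - 2 * c) * c) q = 1) :
    (-4 : ZMod p) ^ ((p - 1) / 8) = 1 := by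
  have : Fact p.Prime := ⟨hp⟩
  have : Fact q.Prime := ⟨hq⟩
  have : NeZero p := ⟨hp.ne_zero⟩
  have : NeZero q := ⟨hq.ne_zero⟩
  have hN4 : (p * q) % 4 = 3 := by
    rw [Nat.mul_mod, show p % 4 = 1 by omega, show q % 4 = 3 by omega]
  have hpq : p ≠ q := by omega
  -- prime divisors
  have nd : ∀ l : ℕ, l.Prime → (l : ℤ) ∣ x → (l : ℤ) ∣ c → False := by
    intro l hl hlx hlc
    obtain ⟨x', hx'⟩ := hlx
    obtain ⟨c', hc'⟩ := hlc
    have hly : ¬ (l : ℤ) ∣ y := by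
      intro hly
      have := hcop.isUnit_of_dvd' ⟨x', hx'⟩ hly
      rw [Int.isUnit_iff] at this
      have := hl.two_le
      omega
    have hd : ((l : ℤ) ^ 2) ∣ (p * q : ℕ) * y ^ 2 :=
      ⟨8 * c' ^ 2 - x' ^ 2, by rw [hx', hc'] at h; linear_combination h⟩
    have hco : IsCoprime ((l : ℤ) ^ 2) (y ^ 2) :=
      ((Prime.coprime_iff_not_dvd (Nat.prime_iff_prime_int.mp hl)).mpr hly).pow
    have hd2 : ((l : ℤ) ^ 2) ∣ ((p * q : ℕ) : ℤ) := hco.dvd_of_dvd_mul_right hd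
    have hd3 : l ^ 2 ∣ p * q := by exact_mod_cast hd2
    have hsq : Squarefree (p * q) := by
      rw [Nat.squarefree_mul ((Nat.coprime_primes hp hq).mpr hpq)]
      exact ⟨hp.squarefree, hq.squarefree⟩
    have := hsq l (by rwa [← sq])
    rw [Nat.isUnit_iff] at this
    exact hl.one_lt.ne' this
  have hxc : IsCoprime x c := by
    rw [Int.isCoprime_iff_gcd_eq_one]
    by_contra hg
    obtain ⟨l, hl, hld⟩ := Nat.exists_prime_and_dvd hg
    exact nd l hl (dvd_trans (Int.natCast_dvd_natCast.mpr hld) (Int.gcd_dvd_left ..))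
      (dvd_trans (Int.natCast_dvd_natCast.mpr hld) (Int.gcd_dvd_right ..))
  have hyc : IsCoprime y c := by
    have h1 : IsCoprime ((x ^ 2) : ℤ) c := hxc.pow_left
    have h2 : x ^ 2 = (-((p * q : ℕ) : ℤ) * y) * y + (8 * c) * c := by linear_combination h
    have h3 : IsCoprime ((-((p * q : ℕ) : ℤ) * y) * y) c := by
      rw [h2] at h1
      exact IsCoprime.of_add_mul_right_left h1
    exact h3.of_mul_left_right
  obtain ⟨m, rfl⟩ := Int.eq_ofNat_of_zero_le hc0.le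
  have hmo : Odd m := by exact_mod_cast hc
  -- (i)
  have h1 : jacobiSym (m : ℤ) (p * q) = 1 := by
    rw [← nt2_rec hN4 hmo]
    have e1 : jacobiSym (-((p * q : ℕ) : ℤ) * y ^ 2) m = jacobiSym (x ^ 2) m := by
      apply jacobiSym.mod_left'
      exact Int.modEq_iff_dvd.mpr ⟨8 * (m : ℤ), by linear_combination h⟩
    have e2 : jacobiSym (x ^ 2) m = 1 := jacobiSym.sq_one' (Int.isCoprime_iff_gcd_eq_one.mp hxc)
    have e3 : jacobiSym (y ^ 2) m = 1 := jacobiSym.sq_one' (Int.isCoprime_iff_gcd_eq_one.mp hyc)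
    rw [jacobiSym.mul_left, e2, e3, mul_one] at e1
    exact e1
  -- (ii)
  set w : ℤ := x - 2 * m with hw
  have hm2 : (m : ℤ) % 2 = 1 := by
    have := Int.odd_iff.mp hc
    exact this
  have hw4 : w % 4 = 1 := by omega
  have hwo : Odd w := by rw [Int.odd_iff]; omega
  have hwno : Odd w.natAbs := Int.natAbs_odd.mpr hwo
  have hw2 : IsCoprime w (2 * m : ℤ) := by
    have a1 : IsCoprime w (2 : ℤ) := by
      rw [Int.isCoprime_iff_gcd_eq_one]
      exact Int.isCoprime_iff_gcd_eq_one.mp (Int.isCoprime_two_right.mpr hwo)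
    have a2 : IsCoprime w (m : ℤ) := by
      have : IsCoprime (w + (2 : ℤ) * m) (m : ℤ) := by
        have : w + (2 : ℤ) * m = x := by rw [hw]; ring
        rw [this]; exact hxc
      exact IsCoprime.of_add_mul_right_left this
    exact a1.mul_right a2
  have hyw : IsCoprime y w := by
    have b1 : IsCoprime ((2 * m : ℤ) ^ 2) w := hw2.symm.pow_left
    have b2 : (2 * m : ℤ) ^ 2 = (((p * q : ℕ) : ℤ) * y) * y + (x + 2 * m) * w := by
      rw [hw]; linear_combination -h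
    rw [b2] at b1
    exact (IsCoprime.of_add_mul_right_left b1).of_mul_left_right
  have h2 : jacobiSym w (p * q) = 1 := by
    have e1 : jacobiSym (((p * q : ℕ) : ℤ) * y ^ 2) w.natAbs = jacobiSym ((2 * m : ℤ) ^ 2) w.natAbs := by
      apply jacobiSym.mod_left'
      apply Int.ModEq.symm
      apply Int.modEq_iff_dvd.mpr
      rw [Int.natAbs_dvd]
      exact ⟨-(x + 2 * m), by rw [hw]; linear_combination h⟩
    have e2 : jacobiSym ((2 * m : ℤ) ^ 2) w.natAbs = 1 := by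
      apply jacobiSym.sq_one'
      have := Int.isCoprime_iff_gcd_eq_one.mp hw2.symm
      rwa [Int.gcd, Int.natAbs_natCast]
    have e3 : jacobiSym (y ^ 2) w.natAbs = 1 := by
      apply jacobiSym.sq_one'
      have := Int.isCoprime_iff_gcd_eq_one.mp hyw
      rwa [Int.gcd, Int.natAbs_natCast]
    rw [jacobiSym.mul_left, e2, e3, mul_one] at e1
    have e4 := nt2_rec hN4 hwno
    rw [jacobiSym.neg _ hwno, e1, mul_one] at e4
    rcases Int.natAbs_eq w with hs | hs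
    · rw [hs, ← e4]
      have : ((w.natAbs : ℕ) : ZMod 4) = 1 := by
        have h4 : w.natAbs % 4 = 1 := by omega
        rw [← ZMod.natCast_mod, h4]; rfl
      rw [this]; rfl
    · have hNo : Odd (p * q) := by rw [Nat.odd_iff]; omega
      rw [hs, jacobiSym.neg _ hNo, ← e4]
      have : ((w.natAbs : ℕ) : ZMod 4) = 3 := by
        have h4 : w.natAbs % 4 = 3 := by omega
        rw [← ZMod.natCast_mod, h4]; rfl
      rw [this]
      have : ((p * q : ℕ) : ZMod 4) = 3 := by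
        rw [← ZMod.natCast_mod, hN4]; rfl
      rw [this]; rfl
  -- (iii)
  have h3 : jacobiSym (w * m) (p * q) = 1 := by
    rw [jacobiSym.mul_left, h1, h2, one_mul]
  rw [jacobiSym.mul_right, hj, mul_one] at h3
  -- (iv)
  have hcp : ((m : ℤ) : ZMod p) ≠ 0 := by
    intro h0
    rw [ZMod.intCast_zmod_eq_zero_iff_dvd] at h0
    have hx0 : (p : ℤ) ∣ x ^ 2 := by
      obtain ⟨c', hc'⟩ := h0
      exact ⟨8 * (m : ℤ) * c' - q * y ^ 2, by
        push_cast at h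
        linear_combination h + 8 * (m : ℤ) * hc'⟩
    exact nd p hp ((Nat.prime_iff_prime_int.mp hp).dvd_of_dvd_pow hx0) h0
  have hxp : ((x : ℤ) : ZMod p) ^ 2 = 8 * ((m : ℤ) : ZMod p) ^ 2 := by
    have := congrArg (fun t : ℤ => (t : ZMod p)) h
    push_cast at this
    rw [ZMod.natCast_self, zero_mul, zero_mul, add_zero] at this
    exact_mod_cast this
  exact nt2_p hp hp8 hxp hcp h3

end Pool.Agent.Work.MP_8efaaa_nt.K7
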