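import Mathlib
import Pool.Agent.Work.MP_787500_nt.HC.ClsA
import Pool.Agent.Work.MP_8efaaa_nt.K7.Defs
import Pool.Agent.Work.MP_8efaaa_nt.K7.CDt
import Pool.Agent.Work.MP_8efaaa_nt.K7.DAc
import Pool.Agent.Work.MP_8efaaa_nt.K7.DVl
import Pool.Agent.Work.MP_8efaaa_nt.K7.EEu
import Pool.Agent.Work.MP_8efaaa_nt.K7.GRm
import Pool.Agent.Work.MP_8efaaa_nt.K7.GAm
import Pool.Agent.Work.MP_8efaaa_nt.K7.GSq
import Pool.Agent.Work.MP_8efaaa_nt.K7.GPr
import Pool.Agent.Work.MP_8efaaa_nt.K7.GEx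
import Pool.Agent.Work.MP_8efaaa_nt.K7.N1b
import Pool.Agent.Work.MP_8efaaa_nt.K7.N2
import Pool.Agent.Work.MP_8efaaa_nt.K7.MBas
import Pool.Agent.Work.MP_8efaaa_nt.K7.MZ
import Pool.Agent.Work.MP_8efaaa_nt.K7.MPt
import Pool.Agent.Work.MP_8efaaa_nt.N7.EMain
import Pool.Agent.Work.MP_8efaaa_nt.N7.DIn

/-!
# K7/Main (helper33): the theorem

`p q` is a congruent number for primes `p = 1 (mod 8)` with `(-4) ^ ((p-1)/8) ≠ 1 (mod p)` and
`q = 7 (mod 8)`.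
-/

set_option autoImplicit false

namespace Pool.Agent.Work.MP_8efaaa_nt.K7

open IsDedekindDomain NumberField Pool.Agent.Work.MP_787500_nt.HC
open Pool.Agent.Work.MP_8efaaa_nt.T Pool.Agent.Work.MP_8efaaa_nt.R
open Pool.Agent.Work.MP_8efaaa_nt.N5 Pool.Agent.Work.MP_8efaaa_nt.N7
open scoped nonZeroDivisors

private theorem fix_group {G : Type*} [CommGroup G] {C0 Q γ : G} (h0 : C0 ^ 2 = γ)
    (hQ : Q ^ 2 = 1) (h2 : ∀ C : G, C ^ 2 = 1 → C = 1 ∨ C = Q) (C : G) :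
    C ^ 2 = γ ↔ C = C0 ∨ C = Q * C0 := by
  constructor
  · intro h
    have h1 : (C * C0⁻¹) ^ 2 = 1 := by
      rw [mul_pow, inv_pow, h, h0, mul_inv_cancel]
    rcases h2 _ h1 with h3 | h3
    · left
      rwa [mul_inv_eq_one] at h3
    · right
      rw [← h3, inv_mul_cancel_right]
  · rintro (rfl | rfl)
    · exact h0
    · rw [mul_pow, hQ, one_mul, h0]

/-- a trivial class gives a principal ideal -/
private theorem cl_idl_one {K : Type*} [Field K] [NumberField K] {c : Ideal (𝓞 K)} (hc : c ≠ ⊥)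
    (h : cl (idl c) = 1) : ∃ δ : 𝓞 K, c = Ideal.span {δ} := by
  have h1 : cl (idl c) = ClassGroup.mk0 ⟨c, mem_nonZeroDivisors_of_ne_zero hc⟩ := by
    unfold cl
    rw [← ClassGroup.mk_mk0 K]
    congr 1
    apply Units.ext
    rw [idl_ne hc]
    rfl
  rw [h1, ClassGroup.mk0_eq_one_iff] at h
  obtain ⟨x, hx⟩ := h.principal
  exact ⟨x, hx⟩

theorem main_t7 {p q : ℕ} (hp : p.Prime) (hq : q.Prime) (hp8 : p % 8 = 1) (hq8 : q % 8 = 7)
    (h : (-4 : ZMod p) ^ ((p - 1) / 8) ≠ 1) : IsCongruent (p * q) := by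
  by_contra hnc
  have hpq : p ≠ q := by
    rintro rfl
    omega
  have hsf : Squarefree (p * q) := by
    rw [Nat.squarefree_mul ((Nat.coprime_primes hp hq).2 hpq)]
    exact ⟨hp.squarefree, hq.squarefree⟩
  have ha8 : p * q % 8 = 7 := by
    rw [Nat.mul_mod, hp8, hq8]
  obtain ⟨K, _, _, s, hb⟩ := exists_base7 hsf ha8
  obtain ⟨S, hS⟩ := exists_S7 hb
  obtain ⟨τ, hτ⟩ := exists_tau7 hb hS
  obtain ⟨v, hv⟩ : ∃ v : HeightOneSpectrum (𝓞 K), (2 : 𝓞 K) ∈ v.asIdeal := by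
    obtain ⟨v, hv⟩ := Pool.Agent.Work.MP_787500_nt.Quad.exists_place (K := K) Nat.prime_two
    exact ⟨v, by exact_mod_cast hv⟩
  have h8 : 8 ∣ Nat.card (ClassGroup (𝓞 K)) := by
    by_contra h8
    exact hnc (main7 hb h8)
  have hq2 : q ≠ 2 := by
    rintro rfl
    omega
  have hqa : q ∣ p * q := Dvd.intro_left p rfl
  have ha0 : p * q ≠ 0 := hb.sf.ne_zero
  have hS2 : S ^ 2 = -((p * q : ℕ) : 𝓞 K) := by
    apply RingOfIntegers.coe_injective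
    rw [map_pow, hS, hb.sq, map_neg, map_natCast]
  -- the class of `v` is a square
  obtain ⟨Dv, hDv⟩ := sq_v7 hb hS hp hq hp8 hq8 rfl hv
  -- the dyadic root
  obtain ⟨σ, hσ⟩ : ∃ σ : ℤ, S + (σ : 𝓞 K) ∈ v.asIdeal ^ 6 := by
    obtain ⟨n, hn⟩ := exists_res7 hb hv S 6
    exact ⟨-n, by rwa [Int.cast_neg, ← sub_eq_add_neg]⟩
  have hσo : Odd σ := by
    have h1 : ((σ ^ 2 + (p * q : ℕ) : ℤ) : 𝓞 K) ∈ v.asIdeal ^ 1 := by
      have h2 : ((σ ^ 2 + (p * q : ℕ) : ℤ) : 𝓞 K) = ((σ : 𝓞 K) - S) * (S + σ) := by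
        push_cast at hS2 ⊢
        linear_combination hS2
      rw [h2, pow_one]
      exact v.asIdeal.mul_mem_left _ (Ideal.pow_le_self (by norm_num) hσ)
    rw [int_mem_pow7 hb hv, pow_one] at h1
    rw [← Int.not_even_iff_odd]
    intro h3
    obtain ⟨j, hj⟩ := h3
    obtain ⟨i, hi⟩ := h1
    have h4 : ((p * q : ℕ) : ℤ) % 8 = 7 := by exact_mod_cast ha8
    rw [hj] at hi
    have h5 : ((p * q : ℕ) : ℤ) = 2 * (i - 2 * j ^ 2) := by linear_combination hi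
    omega
  obtain ⟨x, y, c, hc, hcop, hxy, hx4, hy4⟩ := exists_xyc hb hS hv ⟨Dv, hDv⟩ hσo
  obtain ⟨F, _, _, _, _, _, _, v', ζ, w, m, m', W, W', Z, Z', κ, hD⟩ :=
    exists_d7 hb hS hτ hv (d := p) hp.ne_zero x y
  have hσ' : S - (σ : 𝓞 K) ∈ v'.asIdeal ^ 6 := by
    have h1 : τ (S + σ) ∈ (cj τ v.asIdeal) ^ 6 := by
      unfold cj
      rw [← Ideal.map_pow]
      exact Ideal.mem_map_of_mem (τ : 𝓞 K →+* 𝓞 K) hσ
    rw [cj_v7 hb hS hτ hD.ne hD.hv hD.hv', map_add, hτ, map_intCast] at h1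
    have h2 : S - (σ : 𝓞 K) = -(-S + σ) := by ring
    rw [h2]
    exact (v'.asIdeal ^ 6).neg_mem h1
  -- inertia
  obtain ⟨ι, L, hin, hlL, hιs⟩ := exists_inert7 (F := F) hb hq hqa
  obtain ⟨Γ, _, V, hV⟩ := exists_vl7 hin.prime
  obtain ⟨hVq, hV2, hVn⟩ := vl_nat7 hV hq hq2 hlL
  obtain ⟨hVi, hVι⟩ := vl_inert7 hV hin
  have hqp : ¬ q ∣ p := fun h1 => hpq ((Nat.prime_dvd_prime_iff_eq hq hp).1 h1).symm
  have hc0 : c ≠ 0 := by
    rintro rfl
    exact absurd hc (by decide)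
  obtain ⟨b, t, hb8, hbc, hbt, hbj, hιW, hιW', hιZ, -, hιm⟩ :=
    inert_act7 hb hS hτ hD hp.ne_zero hq hq2 hqp hlL hin hιs hc0
  have hbo : OddI b := by
    unfold OddI
    rw [Nat.odd_iff]
    omega
  have hb0 : b ≠ ⊥ := oddI_ne7 hbo
  -- the class of `b` is a square
  obtain ⟨D, hDb⟩ : ∃ D : ClassGroup (𝓞 K), D ^ 2 = cl (idl b) := by
    apply sq_of_jac7 hb hS hp hq hp8 hq8 rfl hb0
    · exact (Nat.Coprime.coprime_mul_left_right (Nat.Coprime.coprime_mul_right_right hbc)).coprime_mul_right_right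
    · rw [← hbj]
      exact (jacobiSym.quadratic_reciprocity_one_mod_four (by omega) hbo).symm
  obtain ⟨k, r, hk, hkc, hkr, hkD⟩ := exists_prim7 hb hS D⁻¹
    (M := 2 * (p * q) * c * Ideal.absNorm b) (by
      refine mul_ne_zero (mul_ne_zero (mul_ne_zero two_ne_zero ha0) hc0) ?_
      rw [Ne, Ideal.absNorm_eq_zero_iff]
      exact hb0)
  have hk0 : k ≠ ⊥ := oddI_ne7 hk
  have hbk : cl (idl b) * cl (idl k) ^ 2 = 1 := by
    rw [hkD, ← hDb, inv_pow, mul_inv_cancel]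
  obtain ⟨δ, hδ⟩ : ∃ δ : 𝓞 K, b * k ^ 2 = Ideal.span {δ} := by
    apply cl_idl_one (mul_ne_zero hb0 (pow_ne_zero 2 hk0))
    rw [pow_two, idl_mul hb0 (mul_ne_zero hk0 hk0), idl_mul hk0 hk0, cl_mul, cl_mul, ← pow_two]
    exact hbk
  obtain ⟨n, hn⟩ := exists_res7 hb hD.hv' δ 5
  have hδo : OddI (Ideal.span {δ}) := by
    rw [← hδ, pow_two]
    exact oddI_mul7.2 ⟨hbo, oddI_mul7.2 ⟨hk, hk⟩⟩
  have hno : Odd n := by
    rw [← Int.not_even_iff_odd]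
    rintro ⟨j, hj⟩
    apply notMem7 hD.hv' hδo
    rw [Ideal.span_singleton_le_iff_mem]
    have h1 := Ideal.pow_le_self (by norm_num) hn
    have h2 : δ = (δ - (n : 𝓞 K)) + (j : 𝓞 K) * 2 := by
      rw [hj]
      push_cast
      ring
    rw [h2]
    exact v'.asIdeal.add_mem h1 (v'.asIdeal.mul_mem_left _ hD.hv')
  obtain ⟨c1, -, hc1, -, -, hc1D⟩ := exists_prim7 hb hS (Dv ^ 7) (M := 1) one_ne_zero
  have hcl : cl (idl c1) ^ 2 = cl (pr v) ^ 7 := by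
    rw [hc1D, ← hDv, ← pow_mul, ← pow_mul]
  -- the symbol
  have hιm' : ι m = (e8 n : ℤ) * m' := by
    rw [hιm]
    congr 3
    refine jac_mu7 hb hS hD.hv' hxy (by exact_mod_cast hc) hcop hx4 hy4 hσ' hbt hkr hb8 ?_ hk ?_ ?_
      ?_ hno hδ hn
    · exact Nat.isCoprime_iff_coprime.2 (Nat.Coprime.coprime_mul_left_right hbc)
    · exact (hkc.coprime_mul_right_right).coprime_mul_right_right.coprime_mul_left_right
    · exact hkc.coprime_mul_left_right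
    · exact Nat.isCoprime_iff_coprime.2 (hkc.coprime_mul_right_right).coprime_mul_left_right
  have hVs : V (algebraMap K F s) < 1 := by
    have h1 : V (algebraMap K F s) ^ 2 < 1 := by
      rw [← map_pow, ← map_pow, hb.sq, map_neg, map_natCast, Valuation.map_neg]
      have h2 := (hVn ((p * q : ℕ) : ℤ)).2 (by exact_mod_cast hqa)
      rwa [Int.cast_natCast] at h2
    exact (pow_lt_one_iff two_ne_zero).1 h1
  have hval := value7 hb hS hτ hD hιZ hιW hbo hk hno hδ hn hc1 hcl hbk hιm' hxy hV hV2 hVs hVι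
  -- the fixed classes
  have hcl0 : cl (idl (cj τ k * c1)) ^ 2 = cl (pr v) ^ 7 * cl (idl b) := by
    rw [idl_mul (oddI_ne7 ((oddI_cj7 hb hS hτ).2 hk)) (oddI_ne7 hc1), cl_mul, cl_cj7 hb hS hτ hk0]
    exact grp4 hbk hcl
  set C0 := cl (pr v) ^ 3 * (cl (idl (cj τ k * c1)))⁻¹ with hC0
  have hC0sq : C0 ^ 2 = cl (pr v)⁻¹ * cl (idl b)⁻¹ := by
    rw [cl_inv, cl_inv]
    exact grp3 hcl0
  have hrq : cl (idl (K6.r6 S q))⁻¹ = cl (idl (K6.r6 S q)) := r7_inv hb hS hqa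
  have hQ2 : cl (idl (K6.r6 S q)) ^ 2 = 1 := by
    rw [pow_two]
    nth_rewrite 1 [← hrq]
    rw [cl_inv, inv_mul_cancel]
  have hfix := fix_group hC0sq hQ2 (two7 hb hS hp hq rfl)
  have h01 : C0 ≠ cl (idl (K6.r6 S q)) * C0 := by
    intro h1
    have hp1 := hp.one_lt
    exact r7_ne hb hS hp hq (by omega) (by omega) rfl (mul_eq_right.1 h1.symm)
  have hfe := fix_eq hb hnc hv hD.id h8 hιW hιW' hV2 hVι hVi h01 hfix
  -- Kronecker's congruence at the ramified prime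
  have hcom : L.comap (algebraMap (𝓞 K) (𝓞 F)) = K6.r6 S q := by
    have := hin.prime
    apply r7_unique hb hS hq hqa (Ideal.comap_isPrime _ _)
    rw [Ideal.mem_comap, map_natCast]
    exact hlL
  have hnorm : Ideal.absNorm (L.comap (algebraMap (𝓞 K) (𝓞 F))) = q := by
    rw [hcom]
    exact norm_r7 hb hS hqa
  have hkr := (hD.kron q L Γ V hV hq hq2 hnorm C0).2
  rw [hcom, hrq] at hkr
  have hfr : V (W' C0 ^ q - W' C0) < 1 := by
    have e : W' C0 ^ q - W' C0 = (W' (cl (idl (K6.r6 S q)) * C0) - W' C0) +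
        -(W' (cl (idl (K6.r6 S q)) * C0) - W' C0 ^ q) := by ring
    rw [e]
    refine lt_of_le_of_lt (V.map_add _ _) (max_lt hfe ?_)
    rw [Valuation.map_neg]
    exact hkr
  have hqc : ¬ (q : ℤ) ∣ (c : ℤ) := by
    intro h1
    have hqZ : Prime (q : ℤ) := Nat.prime_iff_prime_int.1 hq
    have h2 : (q : ℤ) ∣ x := by
      apply hqZ.dvd_of_dvd_pow (n := 2)
      have h3 : x ^ 2 = 8 * (c : ℤ) ^ 2 - ((p * q : ℕ) : ℤ) * y ^ 2 := by linear_combination hxy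
      rw [h3]
      exact dvd_sub (Dvd.dvd.mul_left (Dvd.dvd.pow h1 two_ne_zero) _)
        (Dvd.dvd.mul_right (by exact_mod_cast hqa) _)
    obtain ⟨x', rfl⟩ := h2
    obtain ⟨c', hc'⟩ := h1
    have h4 : (q : ℤ) ∣ y := by
      have h5 : (q : ℤ) * ((p : ℤ) * y ^ 2) = (q : ℤ) * ((q : ℤ) * (8 * c' ^ 2 - x' ^ 2)) := by
        rw [hc'] at hxy
        push_cast at hxy
        linear_combination hxy
      have h6 := mul_left_cancel₀ hqZ.ne_zero h5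
      have h7 : (q : ℤ) ∣ (p : ℤ) * y ^ 2 := ⟨_, h6⟩
      rcases hqZ.dvd_or_dvd h7 with h8 | h8
      · exact absurd (by exact_mod_cast h8) hqp
      · exact hqZ.dvd_of_dvd_pow h8
    exact hqZ.not_unit (hcop.isUnit_of_dvd' (Dvd.intro _ rfl) h4)
  have hj := eval7 V hq hq8 hVn hqc (wrel_unit hD.id.rel V hV2 C0).2.1 hval hfr
  have hcpos : (0 : ℤ) < c := by
    have := Nat.pos_of_ne_zero hc0
    exact_mod_cast this
  exact h (nt2 hp hq hp8 hq8 hxy (by exact_mod_cast hc) hcpos hcop hx4 hj)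

end Pool.Agent.Work.MP_8efaaa_nt.K7
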